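import Pool.Agent.H559.IX.StmP

set_option autoImplicit false

/-! # Index windows of the random sieve: Goldbach with a condition on the index (by helper703) -/

open Finset MeasureTheory ProbabilityTheory Filter Topology
open Pool.Agent.T2H32.BF (Model V V_pos V_anti V_ratio mertens)

namespace Pool.Agent.H559.IX

namespace F0ec

open Classical in
/-- the index of a later element -/
theorem cn_add (B : Set ℕ) (x v : ℕ) (hxv : x < v) (hv : v ∈ B) :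
    cn B v = cn B x + ((Ioo x v).filter (fun u => u ∈ B)).card + 1 := by
  unfold cn
  have e : (Icc 1 v).filter (fun u => u ∈ B) =
      insert v ((Icc 1 x).filter (fun u => u ∈ B) ∪ (Ioo x v).filter (fun u => u ∈ B)) := by
    ext u
    simp only [mem_filter, mem_Icc, mem_insert, mem_union, mem_Ioo]
    constructor
    · rintro ⟨⟨h1, h2⟩, h3⟩
      by_cases h : u = v
      · exact Or.inl h
      · refine Or.inr ?_
        by_cases h' : u ≤ x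
        · exact Or.inl ⟨⟨h1, h'⟩, h3⟩
        · exact Or.inr ⟨⟨by omega, by omega⟩, h3⟩
    · rintro (h | ⟨⟨h1, h2⟩, h3⟩ | ⟨⟨h1, h2⟩, h3⟩)
      · subst h
        exact ⟨⟨by omega, le_refl _⟩, hv⟩
      · exact ⟨⟨h1, by omega⟩, h3⟩
      · exact ⟨⟨by omega, by omega⟩, h3⟩
  rw [e, card_insert_of_notMem, card_union_of_disjoint]
  · rw [disjoint_left]
    intro u h1 h2
    have h3 := (mem_Icc.mp (mem_filter.mp h1).1).2
    have h4 := (mem_Ioo.mp (mem_filter.mp h2).1).1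
    omega
  · intro h
    rcases mem_union.mp h with h | h
    · have h3 := (mem_Icc.mp (mem_filter.mp h).1).2
      omega
    · have h3 := (mem_Ioo.mp (mem_filter.mp h).1).2
      omega

open Classical in
theorem cn_le (B : Set ℕ) (x : ℕ) : cn B x ≤ x := by
  unfold cn
  refine (card_filter_le _ _).trans ?_
  rw [Nat.card_Icc]
  omega

/-- membership in `R0` depends on few classes only -/
theorem R0_congr (z : ℕ → ℕ) (hz : Monotone z) (c : ℝ) (b b' : ℕ → ℕ) (M u : ℕ) (hu : u ≤ M)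
    (hM : z M < M) (h : ∀ p ≤ M, p.Prime → b p = b' p) : u ∈ R0 z c b ↔ u ∈ R0 z c b' := by
  unfold R0
  simp only [Set.mem_ofPred_eq]
  have hzu : z u ≤ z M := hz hu
  constructor
  · rintro ⟨h3, h4⟩
    refine ⟨h3, fun q hq hp => ?_⟩
    rw [← h q (by omega) hp]
    exact h4 q hq hp
  · rintro ⟨h3, h4⟩
    refine ⟨h3, fun q hq hp => ?_⟩
    rw [h q (by omega) hp]
    exact h4 q hq hp

/-- the parameter `Λ` for `n` -/
noncomputable def La (n : ℕ) : ℕ := 2 * ⌊Real.log n⌋₊ + 6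

theorem log_atTop : Tendsto (fun n : ℕ => Real.log (n : ℝ)) atTop atTop :=
  Real.tendsto_log_atTop.comp tendsto_natCast_atTop_atTop

theorem La_atTop : Tendsto La atTop atTop := by
  rw [tendsto_atTop]
  intro b
  filter_upwards [log_atTop.eventually_ge_atTop (b : ℝ)] with n hn
  have h : b ≤ ⌊Real.log n⌋₊ := Nat.le_floor hn
  unfold La
  omega

theorem La_le : ∀ᶠ n : ℕ in atTop, ((La n : ℕ) : ℝ) ≤ Real.log n ^ 2 := by
  filter_upwards [log_atTop.eventually_ge_atTop 4] with n hn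
  have h : ((⌊Real.log n⌋₊ : ℕ) : ℝ) ≤ Real.log n := Nat.floor_le (by linarith)
  unfold La
  push_cast
  nlinarith

theorem La_ge (n : ℕ) : 2 * Real.log n + 4 ≤ ((La n : ℕ) : ℝ) := by
  have h : Real.log n < ⌊Real.log n⌋₊ + 1 := Nat.lt_floor_add_one _
  unfold La
  push_cast
  linarith

theorem La_pow (k : ℕ) : ∀ᶠ n : ℕ in atTop, La n ^ k ≤ n := by
  have h := (Real.isLittleO_pow_log_id_atTop (n := 2 * k)).bound (c := 1) one_pos
  have h' := tendsto_natCast_atTop_atTop (R := ℝ) |>.eventually h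
  filter_upwards [La_le, h', log_atTop.eventually_ge_atTop 1] with n h1 h2 h3
  have h4 : ((La n : ℕ) : ℝ) ^ k ≤ (Real.log n ^ 2) ^ k := pow_le_pow_left₀ (Nat.cast_nonneg _) h1 k
  rw [← pow_mul] at h4
  rw [one_mul, Real.norm_eq_abs, Real.norm_eq_abs, abs_of_nonneg (pow_nonneg (by linarith) _)] at h2
  simp only [id] at h2
  rw [abs_of_nonneg (Nat.cast_nonneg _)] at h2
  have h5 : ((La n ^ k : ℕ) : ℝ) ≤ (n : ℝ) := by
    push_cast
    exact h4.trans h2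
  exact_mod_cast h5

/-- the number of the choices -/
theorem num_card (k : ℕ) : ∀ᶠ Λ : ℕ in atTop,
    (Real.exp Λ + 1) * (Λ : ℝ) ^ k ≤ Real.exp ((3 : ℕ) * Λ) := by
  have h := (Real.isLittleO_pow_exp_atTop (n := k)).bound (c := 1) one_pos
  have h' := tendsto_natCast_atTop_atTop (R := ℝ) |>.eventually h
  filter_upwards [h', eventually_ge_atTop 1] with Λ h1 h2
  have hΛ : (1 : ℝ) ≤ Λ := by exact_mod_cast h2
  rw [one_mul, Real.norm_eq_abs, Real.norm_eq_abs, abs_of_nonneg (pow_nonneg (by linarith) _),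
    abs_of_pos (Real.exp_pos _)] at h1
  have h3 : (2 : ℝ) ≤ Real.exp Λ := by
    have := Real.add_one_le_exp (Λ : ℝ)
    linarith
  have h4 : Real.exp ((3 : ℕ) * Λ) = Real.exp Λ * Real.exp Λ * Real.exp Λ := by
    rw [← Real.exp_add, ← Real.exp_add]
    congr 1
    push_cast
    ring
  rw [h4]
  have h5 : Real.exp Λ + 1 ≤ Real.exp Λ * Real.exp Λ := by nlinarith
  exact mul_le_mul h5 h1 (pow_nonneg (by linarith) _) (by positivity)

theorem two_exp (Λ : ℕ) (h : 2 ≤ Λ) : 2 * Real.exp Λ ≤ Real.exp ((Λ : ℝ) ^ 2) := by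
  have hΛ : (2 : ℝ) ≤ Λ := by exact_mod_cast h
  have h1 : (2 : ℝ) ≤ Real.exp 1 := by
    have := Real.add_one_le_exp (1 : ℝ)
    linarith
  have h2 : 2 * Real.exp Λ ≤ Real.exp 1 * Real.exp Λ :=
    mul_le_mul_of_nonneg_right h1 (Real.exp_pos _).le
  rw [← Real.exp_add] at h2
  refine h2.trans (Real.exp_le_exp.mpr ?_)
  nlinarith

open Classical in
/-- the set of the parameters -/
noncomputable def YY (A K Λ x : ℕ) : Finset (ℕ × ℕ) :=
  if Λ ^ K ≤ x then ((range (x + 1)) ×ˢ (range (Λ ^ (A + 3)))).filter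
    (fun y => x ^ 2 ≤ y.1 ^ 3 ∧ 2 * y.1 ≤ x ∧ Even (y.1 + y.2)) else ∅

/-- the auxiliary windows -/
def GG (A Λ : ℕ) (y : ℕ × ℕ) : Finset ℕ := Icc (y.1 - 1) (y.1 + 3 * Λ ^ A)

/-- the relation -/
def GR (z : ℕ → ℕ) (c : ℝ) (y : ℕ × ℕ) (b : ℕ → ℕ) (V : Finset ℕ) (J : ℕ) (_v : ℕ) : Prop :=
  y.1 + J - 1 ∈ V ∧ J ≤ y.2 + 1 ∧ y.2 + 1 - J ∈ R0 z c b

theorem mem_YY (A K Λ x : ℕ) (y : ℕ × ℕ) : y ∈ YY A K Λ x ↔
    Λ ^ K ≤ x ∧ y.1 ≤ x ∧ y.2 < Λ ^ (A + 3) ∧ x ^ 2 ≤ y.1 ^ 3 ∧ 2 * y.1 ≤ x ∧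
      Even (y.1 + y.2) := by
  unfold YY
  split_ifs with h
  · simp only [mem_filter, mem_product, mem_range]
    constructor
    · rintro ⟨⟨h1, h2⟩, h3⟩
      exact ⟨h, by omega, h2, h3⟩
    · rintro ⟨_, h1, h2, h3⟩
      exact ⟨⟨by omega, h2⟩, h3⟩
  · simp only [notMem_empty, false_iff]
    rintro ⟨h1, _⟩
    exact h h1

theorem YY_card (A K Λ x : ℕ) : (YY A K Λ x).card ≤ (x + 1) * Λ ^ (A + 3) := by
  unfold YY
  split_ifs with h
  · refine (card_filter_le _ _).trans ?_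
    rw [card_product, card_range, card_range]
  · rw [card_empty]
    exact Nat.zero_le _

theorem hyp (A K κ : ℕ) (hA : 5 ≤ A) (hK : 3 * A + 6 ≤ K) (z : ℕ → ℕ) (hz : Monotone z)
    (hz1 : ∀ᶠ k : ℕ in atTop, z k < k) (c : ℝ) :
    ∀ᶠ Λ : ℕ in atTop, ∀ x : ℕ, Λ ^ κ ≤ x → (x : ℝ) ≤ Real.exp Λ →
      ((YY A K Λ x).card : ℝ) ≤ Real.exp ((3 : ℕ) * Λ) ∧
      ∀ y ∈ YY A K Λ x, (GG A Λ y).card ≤ Λ ^ (3 * A) ∧
        (∀ v ∈ GG A Λ y, x ≤ v ^ 3 ∧ (v : ℝ) ≤ Real.exp ((Λ : ℝ) ^ 2) ∧ (v ≤ x ∨ x + Λ ^ A < v)) ∧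
        ∀ b b' : ℕ → ℕ, (∀ p ≤ Λ ^ (10 * A), p.Prime → b p = b' p) → ∀ V J v,
          GR z c y b V J v ↔ GR z c y b' V J v := by
  have ht : Tendsto (fun Λ : ℕ => Λ ^ (10 * A)) atTop atTop := tendsto_pow_atTop (by omega)
  filter_upwards [num_card (A + 3), ht.eventually hz1, eventually_ge_atTop 6] with Λ h1 h2 h3
  intro x _ hx
  have hΛ : (6 : ℝ) ≤ Λ := by exact_mod_cast h3
  refine ⟨?_, ?_⟩
  · have e1 : ((YY A K Λ x).card : ℝ) ≤ ((x : ℝ) + 1) * (Λ : ℝ) ^ (A + 3) := by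
      exact_mod_cast YY_card A K Λ x
    refine e1.trans (le_trans ?_ h1)
    exact mul_le_mul_of_nonneg_right (by linarith) (pow_nonneg (by linarith) _)
  · intro y hy
    rw [mem_YY] at hy
    obtain ⟨y1, y2, y3, y4, y5, y6⟩ := hy
    have p1 : 6 * Λ ^ A ≤ Λ ^ (A + 1) := by
      rw [pow_succ, mul_comm]
      exact Nat.mul_le_mul_left _ h3
    have p2 : Λ ^ (A + 1) ≤ Λ ^ K := Nat.pow_le_pow_right (by omega) (by omega)
    have p3 : Λ ^ (A + 1) ≤ Λ ^ (3 * A) := Nat.pow_le_pow_right (by omega) (by omega)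
    have p4 : Λ ^ 1 ≤ Λ ^ A := Nat.pow_le_pow_right (by omega) (by omega)
    rw [pow_one] at p4
    have p5 : Λ ^ (A + 3) ≤ Λ ^ (10 * A) := Nat.pow_le_pow_right (by omega) (by omega)
    have hx8 : 8 ≤ x := by omega
    refine ⟨?_, ?_, ?_⟩
    · unfold GG
      rw [Nat.card_Icc]
      omega
    · intro v hv
      unfold GG at hv
      rw [mem_Icc] at hv
      have hN2 : 2 ≤ y.1 := by
        by_contra hcon
        have h5 : y.1 ≤ 1 := by omega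
        have h6 : y.1 ^ 3 ≤ 1 ^ 3 := Nat.pow_le_pow_left h5 3
        nlinarith
      have hvx : v ≤ x := by omega
      refine ⟨?_, ?_, Or.inl hvx⟩
      · have h5 : y.1 ≤ 2 * v := by omega
        have h6 : y.1 ^ 3 ≤ (2 * v) ^ 3 := Nat.pow_le_pow_left h5 3
        have h7 : (2 * v) ^ 3 = 8 * v ^ 3 := by ring
        nlinarith
      · have h5 : (v : ℝ) ≤ x := by exact_mod_cast hvx
        refine h5.trans (hx.trans (Real.exp_le_exp.mpr ?_))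
        nlinarith
    · intro b b' hb V J v
      unfold GR
      rw [R0_congr z hz c b b' (Λ ^ (10 * A)) (y.2 + 1 - J) (by omega) h2 hb]

theorem exp_La (n x N : ℕ) (hn : 1 ≤ n) (hN : N ≤ 2 * n) (hx : x ^ 2 ≤ N ^ 3) :
    (x : ℝ) ≤ Real.exp (La n) := by
  have hn' : (1 : ℝ) ≤ n := by exact_mod_cast hn
  have h1 : Real.exp (2 * Real.log n + 4) ≤ Real.exp (La n) := Real.exp_le_exp.mpr (La_ge n)
  have h2 : Real.exp (2 * Real.log n + 4) = (n : ℝ) ^ 2 * Real.exp 4 := by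
    rw [Real.exp_add]
    congr 1
    rw [two_mul, Real.exp_add, Real.exp_log (by linarith)]
    ring
  have h3 : (5 : ℝ) ≤ Real.exp 4 := by
    have := Real.add_one_le_exp (4 : ℝ)
    linarith
  have h4 : 5 * (n : ℝ) ^ 2 ≤ Real.exp (La n) := by
    rw [h2] at h1
    nlinarith [sq_nonneg (n : ℝ)]
  have h5 : (N : ℝ) ≤ 2 * n := by exact_mod_cast hN
  have h6 : (x : ℝ) ^ 2 ≤ (N : ℝ) ^ 3 := by exact_mod_cast hx
  have h7 : (N : ℝ) ^ 3 ≤ (2 * n) ^ 3 := pow_le_pow_left₀ (Nat.cast_nonneg _) h5 3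
  have h8 : (x : ℝ) ^ 2 ≤ (5 * (n : ℝ) ^ 2) ^ 2 := by
    refine h6.trans (h7.trans ?_)
    have h9 : (0 : ℝ) ≤ (n : ℝ) ^ 3 * (n - 1) :=
      mul_nonneg (pow_nonneg (by linarith) 3) (by linarith)
    nlinarith [pow_nonneg (show (0 : ℝ) ≤ n by linarith) 4, pow_nonneg (show (0 : ℝ) ≤ n by linarith) 3]
  have h9 : (x : ℝ) ≤ 5 * (n : ℝ) ^ 2 := by
    by_contra hcon
    have h10 : 5 * (n : ℝ) ^ 2 < x := lt_of_not_ge hcon
    have h11 : (5 * (n : ℝ) ^ 2) ^ 2 < (x : ℝ) ^ 2 :=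
      pow_lt_pow_left₀ h10 (by positivity) (by norm_num)
    linarith
  exact h9.trans h4

end F0ec

open Classical in
/-- Goldbach with a condition on the index -/
theorem t_0ec (hm : S_master) (hs : S_sys) (he : S_elem) : S_0ec := by
  intro c hc
  obtain ⟨C0, hC0, hS⟩ := hs c hc
  obtain ⟨A1, hM⟩ := hm c hc 3 (C0 + 1)
  obtain ⟨A, hA1, hA2⟩ : ∃ A, A1 ≤ A ∧ C0 + 5 ≤ A :=
    ⟨max A1 (C0 + 5), le_max_left _ _, le_max_right _ _⟩
  obtain ⟨κ, hM⟩ := hM A hA1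
  obtain ⟨K, hK1, hK2⟩ : ∃ K, κ ≤ K ∧ 3 * A + 6 ≤ K :=
    ⟨max κ (3 * A + 6), le_max_left _ _, le_max_right _ _⟩
  refine ⟨2 * (A + 3), ?_⟩
  intro z hz Ω _ P a hP
  obtain ⟨hz1, hE⟩ := he c hc z hz
  have hMM := hM z hz 2 (Or.inr rfl) (ℕ × ℕ) (F0ec.YY A K) (fun Λ _ y => F0ec.GG A Λ y)
    (fun _ _ y b V J v => F0ec.GR z c y b V J v)
    (F0ec.hyp A K κ (by omega) hK2 z hz.1 hz1 c) Ω P a hP
  filter_upwards [hMM, hS z hz Ω P a hP, hE Ω P a hP] with ω h1 h2 h3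
  obtain ⟨h3a, h3b, -⟩ := h3
  obtain ⟨X0, hX0⟩ := eventually_atTop.mp h3a
  filter_upwards [F0ec.La_atTop.eventually h1, F0ec.La_atTop.eventually h2, F0ec.La_pow K,
    F0ec.La_pow (A + 3), F0ec.La_le, eventually_ge_atTop X0, eventually_ge_atTop 1]
    with n g1 g2 g3 g4 g5 g6 g7
  have hΛ6 : 6 ≤ F0ec.La n := by
    unfold F0ec.La
    omega
  obtain ⟨Λ, hΛ⟩ : ∃ Λ, Λ = F0ec.La n := ⟨_, rfl⟩
  have hexpb : ∀ x N : ℕ, N ≤ 2 * n → x ^ 2 ≤ N ^ 3 → (x : ℝ) ≤ Real.exp Λ := fun x N e1 e2 => by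
    rw [hΛ]
    exact F0ec.exp_La n x N g7 e1 e2
  rw [← hΛ] at g1 g2 g3 g4 g5 hΛ6
  have p1 : 6 * Λ ^ A ≤ Λ ^ (A + 1) := by
    rw [pow_succ, mul_comm]
    exact Nat.mul_le_mul_left _ hΛ6
  have p2 : Λ ^ (A + 1) ≤ Λ ^ (A + 2) := Nat.pow_le_pow_right (by omega) (by omega)
  have p3 : 6 * Λ ^ (A + 2) ≤ Λ ^ (A + 3) := by
    rw [pow_succ Λ (A + 2), mul_comm]
    exact Nat.mul_le_mul_left _ hΛ6
  have p4 : Λ ^ C0 ≤ Λ ^ (C0 + 1) := Nat.pow_le_pow_right (by omega) (by omega)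
  have p5 : Λ ^ (C0 + 1) ≤ Λ ^ A := Nat.pow_le_pow_right (by omega) (by omega)
  have p6 : Λ ^ A ≤ Λ ^ K := Nat.pow_le_pow_right (by omega) (by omega)
  have p7 : Λ ^ κ ≤ Λ ^ K := Nat.pow_le_pow_right (by omega) hK1
  have p8 : 1 ≤ Λ ^ A := Nat.one_le_pow _ _ (by omega)
  obtain ⟨N, hN⟩ : ∃ N, N + Λ ^ (A + 2) = 2 * n := ⟨2 * n - Λ ^ (A + 2), by omega⟩
  have hNn : n ≤ N := by omega
  obtain ⟨x, hxR, hxN⟩ := h3b N (by omega)
  have hNx : N ≤ x := by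
    rw [← hxN]
    exact F0ec.cn_le _ _
  obtain ⟨q1, q2⟩ := hX0 x (by omega)
  rw [hxN] at q1 q2
  have hxe : (x : ℝ) ≤ Real.exp Λ := hexpb x N (by omega) q2
  have hbig : ∀ w : ℕ, w ≤ 2 * x → (w : ℝ) ≤ Real.exp ((Λ : ℝ) ^ 2) := by
    intro w hw
    have e1 : (w : ℝ) ≤ 2 * x := by exact_mod_cast hw
    have e2 := F0ec.two_exp Λ (by omega)
    linarith
  have hy : ((N, Λ ^ (A + 2)) : ℕ × ℕ) ∈ F0ec.YY A K Λ x := by
    rw [F0ec.mem_YY]
    refine ⟨by omega, hNx, ?_, q2, q1, ?_⟩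
    · show Λ ^ (A + 2) < Λ ^ (A + 3)
      omega
    · show Even (N + Λ ^ (A + 2))
      rw [hN]
      exact even_two_mul n
  have hex := g1 x (by omega) hxe (N, Λ ^ (A + 2)) hy
  obtain ⟨v, hvR, hv1, hv2, hv3, hG1, hG2, hG3⟩ := hex (by
    intro u j0 hu1 hu2 hj0
    have hu3 : u ≤ 2 * x := by omega
    obtain ⟨s1, -, -⟩ := g2 u (hbig u hu3)
    obtain ⟨v, hvR, hv1, hv2, hv3⟩ := s1 2 (hbig 2 (by omega)) even_two
    refine ⟨v, hvR, hv1, by omega, fun _ => hv3, ?_⟩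
    obtain ⟨-, -, s3⟩ := g2 (N + j0 - 1) (hbig _ (by omega))
    obtain ⟨q, hqR, hq1, hq2, hq3⟩ := s3 (2 * n) (hbig _ (by omega)) (even_two_mul n) (by omega)
    refine ⟨q + 1 - N, by omega, by omega, ?_, ?_, ?_⟩
    · have e : (N, Λ ^ (A + 2)).1 + (q + 1 - N) - 1 = q := by
        show N + (q + 1 - N) - 1 = q
        omega
      rw [e, mem_filter]
      refine ⟨?_, hqR⟩
      unfold F0ec.GG
      rw [mem_Icc]
      show N - 1 ≤ q ∧ q ≤ N + 3 * Λ ^ A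
      omega
    · show q + 1 - N ≤ Λ ^ (A + 2) + 1
      omega
    · have e : (N, Λ ^ (A + 2)).2 + 1 - (q + 1 - N) = 2 * n - q := by
        show Λ ^ (A + 2) + 1 - (q + 1 - N) = 2 * n - q
        omega
      rw [e]
      exact hq3)
  have hcn := F0ec.cn_add _ x v hv1 hvR
  rw [hxN] at hcn
  have hG1' := (mem_filter.mp hG1).2
  refine ⟨_, _, v, hG1', hG3, ?_, ?_, hvR, hv3 rfl, ?_⟩
  · show N + _ - 1 + (Λ ^ (A + 2) + 1 - _) = 2 * n
    have e : ((Ioo x v).filter (fun u => u ∈ R0 z c (fun q => a q ω))).card ≤ Λ ^ (A + 2) + 1 := hG2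
    omega
  · have e1 : (((N, Λ ^ (A + 2)).2 + 1 - ((Ioo x v).filter
        (fun u => u ∈ R0 z c (fun q => a q ω))).card : ℕ) : ℝ) ≤ ((Λ ^ (A + 3) : ℕ) : ℝ) := by
      have e2 : (N, Λ ^ (A + 2)).2 = Λ ^ (A + 2) := rfl
      rw [e2]
      exact_mod_cast (show Λ ^ (A + 2) + 1 - ((Ioo x v).filter
        (fun u => u ∈ R0 z c (fun q => a q ω))).card ≤ Λ ^ (A + 3) by omega)
    refine e1.trans ?_
    push_cast
    rw [pow_mul]
    exact pow_le_pow_left₀ (Nat.cast_nonneg _) g5 _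
  · show _ = N + _ - 1 + 2
    omega

end Pool.Agent.H559.IX
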