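import Pool.Agent.H559.IX.StmM
import Pool.Agent.H559.US.Main

set_option autoImplicit false

/-! # Index windows: systems of two polynomials in short windows -/

open Finset MeasureTheory ProbabilityTheory Filter Topology
open Pool.Agent.T2H32.BF (Model V V_pos V_anti V_ratio mertens)
open Pool.Agent.H559.BS (Limit)
open Pool.Agent.H559.HY (Arr evl RS WW box mem_box)
open Pool.Agent.H559.US (FD NC val Mc)

namespace Pool.Agent.H559.IX

namespace Sys

theorem R0_eq (z : ℕ → ℕ) (c : ℝ) (b : ℕ → ℕ) : R0 z c b = RS z (WW c) b := by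
  ext v
  simp only [R0, RS, Set.mem_ofPred_eq]
  refine and_congr_right fun hv => ?_
  refine forall_congr' fun q => forall_congr' fun _ => forall_congr' fun _ => ?_
  have h0 : 0 ≤ Real.log v ^ c := Real.rpow_nonneg (Real.log_nonneg (by
    have : 1 ≤ v := by omega
    exact_mod_cast this)) c
  have h1 : (q : ℝ) ≤ Real.log v ^ c ↔ q ≤ WW c v := (Nat.le_floor_iff h0).symm
  by_cases h2 : (q : ℝ) ≤ Real.log v ^ c
  · rw [if_pos h2, if_pos (h1.1 h2)]
  · rw [if_neg h2, if_neg (fun h3 => h2 (h1.2 h3))]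

/-- the system `X + u`, `α + β X + γ X²` -/
def sy (u α β γ : ℤ) : Arr 2 2 := ![![u, 1, 0], ![α, β, γ]]

theorem evl0 (u α β γ : ℤ) (m : ℕ) : evl (sy u α β γ 0) m = u + m := by
  unfold evl sy
  rw [Fin.sum_univ_three]
  simp

theorem evl1 (u α β γ : ℤ) (m : ℕ) : evl (sy u α β γ 1) m = α + β * m + γ * m ^ 2 := by
  unfold evl sy
  rw [Fin.sum_univ_three]
  simp

open Classical in
theorem gen (c : ℝ) (hc : 1 < c) : ∃ C : ℕ, 1 ≤ C ∧ ∀ z : ℕ → ℕ, Lim z → ∀ (Ω : Type)
    [MeasurableSpace Ω] (P : Measure Ω) (a : ℕ → Ω → ℕ), Model P a → ∀ᵐ ω ∂P, ∀ᶠ Λ : ℕ in atTop,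
    ∀ (u : ℕ) (α β γ : ℤ), (u : ℝ) ≤ Real.exp ((Λ : ℝ) ^ 3) → (|α| : ℝ) ≤ Real.exp ((Λ : ℝ) ^ 3) →
      (|β| : ℝ) ≤ Real.exp ((Λ : ℝ) ^ 3) → (|γ| : ℝ) ≤ Real.exp ((Λ : ℝ) ^ 3) →
      (∀ p : ℕ, p.Prime → ¬ (p : ℤ) ∣ β ∨ ¬ (p : ℤ) ∣ γ) →
      (∀ p : ℕ, p.Prime → ∃ r : ℕ, ¬ (p : ℤ) ∣ (u : ℤ) + r ∧ ¬ (p : ℤ) ∣ α + β * r + γ * r ^ 2) →
      ∃ m : ℕ, 0 < m ∧ m ≤ Λ ^ C ∧ u + m ∈ R0 z c (fun q => a q ω) ∧
        (α + β * m + γ * m ^ 2).natAbs ∈ R0 z c (fun q => a q ω) := by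
  obtain ⟨β₀, hβ0, hmain⟩ := Pool.Agent.H559.US.main_ae c hc 2 2 (1 / 2) (by norm_num)
  obtain ⟨C, hC⟩ := exists_nat_ge (3 / β₀)
  have hCβ : 3 ≤ (C : ℝ) * β₀ := by
    rw [div_le_iff₀ hβ0] at hC
    exact hC
  have hC1 : 1 ≤ C := by
    rcases Nat.eq_zero_or_pos C with h | h
    · rw [h] at hCβ
      norm_num at hCβ
    · exact h
  refine ⟨C, hC1, fun z hz Ω _ P a hmod => ?_⟩
  filter_upwards [hmain z hz Ω P a hmod] with ω hω
  have ht : Tendsto (fun Λ : ℕ => Λ ^ C) atTop atTop := tendsto_pow_atTop (by omega)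
  filter_upwards [ht.eventually hω, eventually_ge_atTop 1] with Λ hΛ hΛ1 u α β γ hu hα hβ hγ hnc hfd
  have hL1 : (1 : ℝ) ≤ Λ := by exact_mod_cast hΛ1
  have hL0 : (0 : ℝ) < Λ := by linarith
  have hexp : Real.exp ((Λ : ℝ) ^ 3) ≤ Real.exp (((Λ ^ C : ℕ) : ℝ) ^ β₀) := by
    apply Real.exp_le_exp.mpr
    push_cast
    rw [← Real.rpow_natCast (Λ : ℝ) C, ← Real.rpow_mul hL0.le, ← Real.rpow_natCast (Λ : ℝ) 3]
    apply Real.rpow_le_rpow_of_exponent_le hL1
    exact_mod_cast hCβ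
  have hbd : ∀ t : ℤ, (|t| : ℝ) ≤ Real.exp ((Λ : ℝ) ^ 3) → |t| ≤ (Mc β₀ (Λ ^ C) : ℤ) := by
    intro t ht
    have h1 : t.natAbs ≤ Mc β₀ (Λ ^ C) := by
      unfold Mc
      apply Nat.le_floor
      refine le_trans ?_ hexp
      refine le_trans (le_of_eq ?_) ht
      rw [Nat.cast_natAbs]
      push_cast
      rfl
    rw [← Int.natCast_natAbs]
    exact_mod_cast h1
  have hone : (1 : ℝ) ≤ Real.exp ((Λ : ℝ) ^ 3) := Real.one_le_exp (by positivity)
  have hbox : sy u α β γ ∈ box 2 2 (Mc β₀ (Λ ^ C)) := by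
    rw [mem_box]
    intro i j
    have b0 := hbd u (by
      rw [abs_of_nonneg (by positivity)]
      exact_mod_cast hu)
    have b1 := hbd 1 (by simp only [Int.cast_one, abs_one]; exact hone)
    have b2 := hbd 0 (by
      simp only [Int.cast_zero, abs_zero]
      positivity)
    have b3 := hbd α hα
    have b4 := hbd β hβ
    have b5 := hbd γ hγ
    fin_cases i <;> fin_cases j
    · exact b0
    · exact b1
    · exact b2
    · exact b3
    · exact b4
    · exact b5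
  have hFD : ∀ p : ℕ, p.Prime → FD (sy u α β γ) p := by
    intro p hp
    obtain ⟨r, h1, h2⟩ := hfd p hp
    refine ⟨r, fun i => ?_⟩
    fin_cases i
    · show ¬ (p : ℤ) ∣ evl (sy u α β γ 0) r
      rw [evl0]
      exact h1
    · show ¬ (p : ℤ) ∣ evl (sy u α β γ 1) r
      rw [evl1]
      exact h2
  have hNC : ∀ p : ℕ, p.Prime → Real.log ((Λ ^ C : ℕ) : ℝ) < p → NC (sy u α β γ) p := by
    intro p hp _ i
    have hp1 : ¬ (p : ℤ) ∣ 1 := by
      intro h
      have h2 : p ∣ 1 := by exact_mod_cast h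
      exact hp.one_lt.ne' (Nat.dvd_one.mp h2)
    fin_cases i
    · exact ⟨1, by decide, hp1⟩
    · rcases hnc p hp with h | h
      · exact ⟨1, by decide, h⟩
      · exact ⟨2, by decide, h⟩
  have h := hΛ (sy u α β γ) hbox hFD hNC
  have hNpos : 0 < ((Λ ^ C : ℕ) : ℝ) ^ ((1 : ℝ) - 1 / 2) := by
    apply Real.rpow_pos_of_pos
    push_cast
    positivity
  have hcard := lt_of_lt_of_le hNpos h
  have hcard' := Nat.cast_pos.mp hcard
  obtain ⟨m, hm⟩ := card_pos.mp hcard'
  rw [mem_filter, mem_Ioc] at hm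
  obtain ⟨⟨hm0, hm1⟩, hval⟩ := hm
  refine ⟨m, hm0, by simpa using hm1, ?_, ?_⟩
  · have h0 := hval 0
    unfold Pool.Agent.H559.US.val at h0
    rw [evl0] at h0
    rw [R0_eq]
    have e : ((u : ℤ) + (m : ℤ)).natAbs = u + m := by
      have : (u : ℤ) + (m : ℤ) = ((u + m : ℕ) : ℤ) := by push_cast; rfl
      rw [this, Int.natAbs_natCast]
    rw [e] at h0
    exact h0
  · have h0 := hval 1
    unfold Pool.Agent.H559.US.val at h0
    rw [evl1] at h0
    rw [R0_eq]
    exact h0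

theorem shift (p u s : ℕ) (hp : 0 < p) : ∃ r : ℕ, (u : ℤ) + r = s + p * u := by
  refine ⟨s + (p - 1) * u, ?_⟩
  obtain ⟨q, rfl⟩ : ∃ q, p = q + 1 := ⟨p - 1, by omega⟩
  rw [Nat.add_sub_cancel]
  push_cast
  ring

theorem ndvd_one (p : ℕ) (hp : p.Prime) : ¬ (p : ℤ) ∣ 1 := by
  intro h
  have h2 : p ∣ 1 := by exact_mod_cast h
  exact hp.one_lt.ne' (Nat.dvd_one.mp h2)

end Sys

open Sys

theorem t_sys : S_sys := by
  intro c hc
  obtain ⟨C, hC1, hgen⟩ := gen c hc
  refine ⟨C, hC1, fun z hz Ω _ P a hmod => ?_⟩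
  filter_upwards [hgen z hz Ω P a hmod] with ω hω
  filter_upwards [hω, eventually_ge_atTop 3] with Λ hΛ hΛ3 u hu
  have hL3 : (3 : ℝ) ≤ Λ := by exact_mod_cast hΛ3
  set E : ℝ := Real.exp ((Λ : ℝ) ^ 2) with hE
  have hE1 : 1 ≤ E := Real.one_le_exp (by positivity)
  have hE2 : 3 * E ^ 2 ≤ Real.exp ((Λ : ℝ) ^ 3) := by
    have h1 : (3 : ℝ) ≤ Real.exp 2 := by
      have := Real.add_one_le_exp (2 : ℝ)
      linarith
    have h2 : E ^ 2 = Real.exp (2 * (Λ : ℝ) ^ 2) := by
      rw [hE, ← Real.exp_nat_mul]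
      norm_num
    calc 3 * E ^ 2 ≤ Real.exp 2 * Real.exp (2 * (Λ : ℝ) ^ 2) := by
          rw [h2]
          exact mul_le_mul_of_nonneg_right h1 (Real.exp_pos _).le
      _ = Real.exp (2 + 2 * (Λ : ℝ) ^ 2) := (Real.exp_add _ _).symm
      _ ≤ Real.exp ((Λ : ℝ) ^ 3) := by
          apply Real.exp_le_exp.mpr
          nlinarith [sq_nonneg (Λ : ℝ), mul_nonneg (sq_nonneg (Λ : ℝ)) (by linarith : (0 : ℝ) ≤ Λ - 3)]
  have hEE : E ≤ E ^ 2 := by nlinarith
  have hu3 : (u : ℝ) ≤ Real.exp ((Λ : ℝ) ^ 3) := by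
    refine hu.trans ?_
    nlinarith
  have hu0 : (0 : ℝ) ≤ u := Nat.cast_nonneg u
  have h1E : (1 : ℝ) ≤ Real.exp ((Λ : ℝ) ^ 3) := by nlinarith
  refine ⟨?_, ?_, ?_⟩
  · intro H hH hev
    have hH0 : (0 : ℝ) ≤ H := Nat.cast_nonneg H
    obtain ⟨m, hm0, hm1, hm2, hm3⟩ := hΛ u ((u : ℤ) + H) 1 0 hu3 (by
        push_cast
        rw [abs_of_nonneg (by positivity)]
        nlinarith) (by simp only [Int.cast_one, abs_one]; exact h1E) (by
        simp only [Int.cast_zero, abs_zero]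
        linarith) (fun p hp => Or.inl (ndvd_one p hp)) (fun p hp => by
        have hp1 := ndvd_one p hp
        have key : ∃ s : ℕ, ¬ (p : ℤ) ∣ (s : ℤ) ∧ ¬ (p : ℤ) ∣ (s : ℤ) + H := by
          by_cases h1 : (p : ℤ) ∣ ((1 : ℕ) : ℤ) + H
          · refine ⟨2, ?_, ?_⟩
            · intro h2
              have h3 : p ∣ 2 := by exact_mod_cast h2
              have h4 : p = 2 := (Nat.prime_dvd_prime_iff_eq hp Nat.prime_two).mp h3
              subst h4
              obtain ⟨t, ht⟩ := hev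
              have h5 : 2 ∣ 1 + H := by exact_mod_cast h1
              omega
            · intro h2
              apply hp1
              have h3 := dvd_sub h2 h1
              have e : (((2 : ℕ) : ℤ) + H - (((1 : ℕ) : ℤ) + H)) = 1 := by push_cast; ring
              rw [e] at h3
              exact h3
          · exact ⟨1, by simpa using hp1, h1⟩
        obtain ⟨s, hs1, hs2⟩ := key
        obtain ⟨r, hr⟩ := shift p u s hp.pos
        refine ⟨r, ?_, ?_⟩
        · rw [hr]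
          intro h
          exact hs1 ((dvd_add_left (Dvd.intro _ rfl)).mp h)
        · have e : (u : ℤ) + H + 1 * (r : ℤ) + 0 * (r : ℤ) ^ 2 = (s + H) + p * u := by
            linear_combination hr
          rw [e]
          intro h
          exact hs2 ((dvd_add_left (Dvd.intro _ rfl)).mp h))
    refine ⟨u + m, hm2, by omega, by omega, ?_⟩
    have e : ((u : ℤ) + H + 1 * (m : ℤ) + 0 * (m : ℤ) ^ 2).natAbs = u + m + H := by
      have : (u : ℤ) + H + 1 * (m : ℤ) + 0 * (m : ℤ) ^ 2 = ((u + m + H : ℕ) : ℤ) := by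
        push_cast; ring
      rw [this, Int.natAbs_natCast]
    rw [e] at hm3
    exact hm3
  · obtain ⟨m, hm0, hm1, hm2, hm3⟩ := hΛ u ((u : ℤ) ^ 2 - 2) (2 * u) 1 hu3 (by
        push_cast
        rw [abs_le]
        constructor
        · nlinarith
        · nlinarith) (by
        push_cast
        rw [abs_of_nonneg (by positivity)]
        nlinarith) (by simp only [Int.cast_one, abs_one]; exact h1E) (fun p hp => Or.inr (ndvd_one p hp)) (fun p hp => by
        have hp1 := ndvd_one p hp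
        obtain ⟨r, hr⟩ := shift p u 1 hp.pos
        refine ⟨r, ?_, ?_⟩
        · rw [hr]
          intro h
          have h2 := (dvd_add_left (Dvd.intro _ rfl)).mp h
          exact hp1 (by simpa using h2)
        · have e : (u : ℤ) ^ 2 - 2 + 2 * u * (r : ℤ) + 1 * (r : ℤ) ^ 2 =
              -1 + p * (u * (2 + p * u)) := by
            have e2 : (u : ℤ) ^ 2 - 2 + 2 * u * (r : ℤ) + 1 * (r : ℤ) ^ 2 = ((u : ℤ) + r) ^ 2 - 2 := by
              ring
            rw [e2, hr]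
            push_cast
            ring
          rw [e]
          intro h
          have h2 := (dvd_add_left (Dvd.intro _ rfl)).mp h
          exact hp1 ((dvd_neg).mp h2))
    refine ⟨u + m, hm2, by omega, by omega, ?_⟩
    have hv3 : 3 ≤ u + m := by
      unfold R0 at hm2
      exact hm2.1
    have e : ((u : ℤ) ^ 2 - 2 + 2 * u * (m : ℤ) + 1 * (m : ℤ) ^ 2).natAbs = (u + m) ^ 2 - 2 := by
      have h9 : 2 ≤ (u + m) ^ 2 := by nlinarith
      have : (u : ℤ) ^ 2 - 2 + 2 * u * (m : ℤ) + 1 * (m : ℤ) ^ 2 = (((u + m) ^ 2 - 2 : ℕ) : ℤ) := by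
        rw [Nat.cast_sub h9]
        push_cast
        ring
      rw [this, Int.natAbs_natCast]
    rw [e] at hm3
    exact hm3
  · intro T hT hev huT
    have hT0 : (0 : ℝ) ≤ T := Nat.cast_nonneg T
    obtain ⟨m, hm0, hm1, hm2, hm3⟩ := hΛ u ((T : ℤ) - u) (-1) 0 hu3 (by
        push_cast
        rw [abs_le]
        constructor
        · nlinarith
        · nlinarith) (by
        push_cast
        rw [abs_neg, abs_one]
        exact h1E) (by
        simp only [Int.cast_zero, abs_zero]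
        linarith) (fun p hp => Or.inl (fun h => ndvd_one p hp ((dvd_neg).mp h))) (fun p hp => by
        have hp1 := ndvd_one p hp
        have key : ∃ s : ℕ, ¬ (p : ℤ) ∣ (s : ℤ) ∧ ¬ (p : ℤ) ∣ (T : ℤ) - s := by
          by_cases h1 : (p : ℤ) ∣ (T : ℤ) - ((1 : ℕ) : ℤ)
          · refine ⟨2, ?_, ?_⟩
            · intro h2
              have h3 : p ∣ 2 := by exact_mod_cast h2
              have h4 : p = 2 := (Nat.prime_dvd_prime_iff_eq hp Nat.prime_two).mp h3
              subst h4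
              obtain ⟨t, ht⟩ := hev
              push_cast at h1
              omega
            · intro h2
              apply hp1
              have h3 := dvd_sub h1 h2
              have e : ((T : ℤ) - ((1 : ℕ) : ℤ)) - ((T : ℤ) - ((2 : ℕ) : ℤ)) = 1 := by
                push_cast; ring
              rw [e] at h3
              exact h3
          · exact ⟨1, by simpa using hp1, h1⟩
        obtain ⟨s, hs1, hs2⟩ := key
        obtain ⟨r, hr⟩ := shift p u s hp.pos
        refine ⟨r, ?_, ?_⟩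
        · rw [hr]
          intro h
          exact hs1 ((dvd_add_left (Dvd.intro _ rfl)).mp h)
        · have e : (T : ℤ) - u + (-1) * (r : ℤ) + 0 * (r : ℤ) ^ 2 = (T - s) + p * (-u) := by
            linear_combination -hr
          rw [e]
          intro h
          exact hs2 ((dvd_add_left (Dvd.intro _ rfl)).mp h))
    refine ⟨u + m, hm2, by omega, by omega, ?_⟩
    have e : ((T : ℤ) - u + (-1) * (m : ℤ) + 0 * (m : ℤ) ^ 2).natAbs = T - (u + m) := by
      have h9 : u + m ≤ T := by omega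
      have : (T : ℤ) - u + (-1) * (m : ℤ) + 0 * (m : ℤ) ^ 2 = ((T - (u + m) : ℕ) : ℤ) := by
        rw [Nat.cast_sub h9]
        push_cast
        ring
      rw [this, Int.natAbs_natCast]
    rw [e] at hm3
    exact hm3

end Pool.Agent.H559.IX
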