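import Pool.Agent.H559.IX.StmN

set_option autoImplicit false

/-! # Assembly of the window theorem (helper236) -/

open Finset MeasureTheory ProbabilityTheory Filter Topology
open Pool.Agent.T2H32.BF (Model V V_pos V_anti V_ratio mertens prob)

namespace Pool.Agent.H559.IX.Assembly

theorem num1 (A A2 C A0 : ℕ) (hC : 1 ≤ C) (hA2 : A2 = 2 * A0 + C + 4) (hA : 3 * A2 + C + 10 ≤ A)
    (t : ℝ) (ht : 60 ≤ t) :
    Real.exp (-((t ^ (A - C - 1) - t ^ A2 - t ^ (A - A2) * (100 * (t ^ A0 + 1 + 1) ^ 2)) /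
      (8 * (t ^ A2) ^ 3))) ≤ Real.exp (-t ^ 3) := by
  have ht0 : (0 : ℝ) < t := by linarith
  have ht1 : (1 : ℝ) ≤ t := by linarith
  obtain ⟨k, hk⟩ : ∃ k, A = 3 * A2 + C + 10 + k := ⟨A - (3 * A2 + C + 10), by omega⟩
  have e1 : A - C - 1 = (3 * A2 + 9) + k := by omega
  have e2 : A - A2 = (2 * A2 + C + 10) + k := by omega
  rw [e1, e2]
  have p3 : (216000 : ℝ) ≤ t ^ 3 := by
    calc (216000 : ℝ) = 60 ^ 3 := by norm_num
      _ ≤ t ^ 3 := pow_le_pow_left₀ (by norm_num) ht 3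
  have b1 : 4 * t ^ A2 ≤ t ^ (3 * A2 + 9 + k) := by
    have : t ^ (A2 + 1) ≤ t ^ (3 * A2 + 9 + k) := pow_le_pow_right₀ ht1 (by omega)
    have h2 : t ^ (A2 + 1) = t ^ A2 * t := pow_succ _ _
    have h3 : 0 < t ^ A2 := by positivity
    nlinarith
  have b2 : 4 * (t ^ (2 * A2 + C + 10 + k) * (100 * (t ^ A0 + 1 + 1) ^ 2)) ≤
      t ^ (3 * A2 + 9 + k) := by
    have h1 : (1 : ℝ) ≤ t ^ A0 := one_le_pow₀ ht1
    have h2 : (t ^ A0 + 1 + 1) ^ 2 ≤ 9 * t ^ (2 * A0) := by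
      have : t ^ (2 * A0) = (t ^ A0) ^ 2 := by rw [← pow_mul, mul_comm]
      rw [this]
      nlinarith
    have h3 : 0 < t ^ (2 * A2 + C + 10 + k) := by positivity
    calc 4 * (t ^ (2 * A2 + C + 10 + k) * (100 * (t ^ A0 + 1 + 1) ^ 2)) ≤
        4 * (t ^ (2 * A2 + C + 10 + k) * (100 * (9 * t ^ (2 * A0)))) := by gcongr
      _ = 3600 * (t ^ (2 * A2 + C + 10 + k) * t ^ (2 * A0)) := by ring
      _ = 3600 * t ^ (3 * A2 + 6 + k) := by
          rw [← pow_add]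
          congr 2
          omega
      _ ≤ t ^ 3 * t ^ (3 * A2 + 6 + k) := by
          apply mul_le_mul_of_nonneg_right _ (by positivity)
          linarith
      _ = t ^ (3 * A2 + 9 + k) := by
          rw [← pow_add]
          congr 1
          omega
  apply Real.exp_le_exp.2
  apply neg_le_neg
  rw [le_div_iff₀ (by positivity)]
  have b3 : t ^ 3 * (16 * (t ^ A2) ^ 3) ≤ t ^ (3 * A2 + 9 + k) := by
    calc t ^ 3 * (16 * (t ^ A2) ^ 3) = 16 * t ^ (3 * A2 + 3) := by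
          rw [← pow_mul, pow_add, mul_comm A2 3]
          ring
      _ ≤ t ^ 3 * t ^ (3 * A2 + 3) := by
          apply mul_le_mul_of_nonneg_right _ (by positivity)
          linarith
      _ = t ^ (3 * A2 + 6) := by
          rw [← pow_add]
          congr 1
          omega
      _ ≤ t ^ (3 * A2 + 9 + k) := pow_le_pow_right₀ ht1 (by omega)
  nlinarith

theorem pow_le_exp (A : ℕ) (t : ℝ) (ht : 0 ≤ t) : t ^ A ≤ Real.exp (A * t) := by
  have h1 : t ≤ Real.exp t := by linarith [Real.add_one_le_exp t]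
  calc t ^ A ≤ (Real.exp t) ^ A := pow_le_pow_left₀ ht h1 A
    _ = Real.exp (A * t) := (Real.exp_nat_mul t A).symm

theorem two_le_exp (t : ℝ) (ht : 1 ≤ t) : 2 ≤ Real.exp t := by
  linarith [Real.add_one_le_exp t]

theorem num2 (D A A2 : ℕ) (hA2 : 5 ≤ A2) (hA : A2 ≤ A) (Λ : ℕ) (hΛ : D + A + 10 ≤ Λ) :
    (Real.exp Λ + 1) * (Real.exp (D * Λ) * (Real.exp (-(Λ : ℝ) ^ 3) +
      ((Λ : ℝ) ^ (A - A2) + 1) * (1 / 2) ^ (Λ ^ A2))) ≤ Real.exp (-(Λ : ℝ)) := by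
  have hΛr : (D : ℝ) + A + 10 ≤ Λ := by exact_mod_cast hΛ
  have hD0 : (0 : ℝ) ≤ D := Nat.cast_nonneg _
  have hA0 : (0 : ℝ) ≤ A := Nat.cast_nonneg _
  set t : ℝ := (Λ : ℝ) with ht
  have ht1 : 1 ≤ t := by linarith
  have ht0 : 0 ≤ t := by linarith
  have h1 : Real.exp t + 1 ≤ Real.exp (2 * t) := by
    have h2 := two_le_exp t ht1
    have : Real.exp (2 * t) = Real.exp t * Real.exp t := by rw [← Real.exp_add]; ring_nf
    rw [this]
    nlinarith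
  have h2 : t ^ (A - A2) + 1 ≤ Real.exp ((A + 1) * t) := by
    have h3 : t ^ (A - A2) ≤ t ^ A := pow_le_pow_right₀ ht1 (by omega)
    have h4 := pow_le_exp A t ht0
    have h5 : Real.exp ((A + 1) * t) = Real.exp (A * t) * Real.exp t := by
      rw [← Real.exp_add]; ring_nf
    have h6 : 1 ≤ Real.exp (A * t) := Real.one_le_exp (by positivity)
    have h7 := two_le_exp t ht1
    rw [h5]
    nlinarith
  have h3 : ((1 : ℝ) / 2) ^ (Λ ^ A2) ≤ Real.exp (-(t ^ 5 / 2)) := by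
    have h4 : (1 : ℝ) / 2 ≤ Real.exp (-(1 / 2)) := by
      have := Real.add_one_le_exp (-(1 / 2 : ℝ))
      linarith
    calc ((1 : ℝ) / 2) ^ (Λ ^ A2) ≤ (1 / 2) ^ (Λ ^ 5) := by
          apply pow_le_pow_of_le_one (by norm_num) (by norm_num)
          apply Nat.pow_le_pow_right _ hA2
          omega
      _ ≤ (Real.exp (-(1 / 2))) ^ (Λ ^ 5) := pow_le_pow_left₀ (by norm_num) h4 _
      _ = Real.exp (-(t ^ 5 / 2)) := by
          rw [← Real.exp_nat_mul]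
          congr 1
          push_cast
          ring
  have h4 : Real.exp (2 * t) * (Real.exp (D * t) * Real.exp (-t ^ 3)) ≤ Real.exp (-(2 * t)) := by
    rw [← Real.exp_add, ← Real.exp_add]
    apply Real.exp_le_exp.2
    have : (D + 4) * t ≤ t ^ 3 := by
      have h5 : t ^ 3 = t * t * t := by ring
      rw [h5]
      apply mul_le_mul_of_nonneg_right _ ht0
      nlinarith
    linarith
  have h5 : Real.exp (2 * t) * (Real.exp (D * t) * (Real.exp ((A + 1) * t) *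
      Real.exp (-(t ^ 5 / 2)))) ≤ Real.exp (-(2 * t)) := by
    rw [← Real.exp_add, ← Real.exp_add, ← Real.exp_add]
    apply Real.exp_le_exp.2
    have h6 : (D + A + 5) * t ≤ t ^ 5 / 2 := by
      have h7 : t ^ 5 / 2 = (t ^ 4 / 2) * t := by ring
      rw [h7]
      apply mul_le_mul_of_nonneg_right _ ht0
      have h8 : 2 * t ≤ t ^ 4 := by
        have h9 : (10 : ℝ) ≤ t := by linarith
        have h10 : t ^ 4 = t * t ^ 3 := by ring
        have h11 : (2 : ℝ) ≤ t ^ 3 := by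
          calc (2 : ℝ) ≤ 10 ^ 3 := by norm_num
            _ ≤ t ^ 3 := pow_le_pow_left₀ (by norm_num) h9 3
        rw [h10]
        nlinarith
      linarith
    linarith
  have h6 : Real.exp (-t) = Real.exp (-(2 * t)) * Real.exp t := by rw [← Real.exp_add]; ring_nf
  have h7 := two_le_exp t ht1
  have hp1 : 0 < Real.exp (-(2 * t)) := Real.exp_pos _
  calc (Real.exp t + 1) * (Real.exp (D * t) * (Real.exp (-t ^ 3) +
      (t ^ (A - A2) + 1) * (1 / 2) ^ (Λ ^ A2)))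
      ≤ Real.exp (2 * t) * (Real.exp (D * t) * (Real.exp (-t ^ 3) +
        Real.exp ((A + 1) * t) * Real.exp (-(t ^ 5 / 2)))) := by
        gcongr
    _ = Real.exp (2 * t) * (Real.exp (D * t) * Real.exp (-t ^ 3)) +
        Real.exp (2 * t) * (Real.exp (D * t) * (Real.exp ((A + 1) * t) *
          Real.exp (-(t ^ 5 / 2)))) := by ring
    _ ≤ Real.exp (-(2 * t)) + Real.exp (-(2 * t)) := add_le_add h4 h5
    _ ≤ Real.exp (-t) := by rw [h6]; nlinarith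

open Classical in
/-- Borel-Cantelli -/
theorem bc {Ω : Type} [MeasurableSpace Ω] (P : Measure Ω) [IsProbabilityMeasure P] {ι : Type}
    (D : ℕ) (X : ℕ → ℕ → Prop) (Y : ℕ → ℕ → Finset ι) (Ev : ℕ → ℕ → ι → Set Ω) (ε : ℕ → ℝ)
    (hε : ∀ Λ, 0 ≤ ε Λ)
    (h1 : ∀ᶠ Λ : ℕ in atTop, ∀ x, X Λ x → (x : ℝ) ≤ Real.exp Λ ∧
      ((Y Λ x).card : ℝ) ≤ Real.exp (D * Λ) ∧ ∀ y ∈ Y Λ x, P.real (Ev Λ x y) ≤ ε Λ)
    (h2 : ∀ᶠ Λ : ℕ in atTop, (Real.exp Λ + 1) * (Real.exp (D * Λ) * ε Λ) ≤ Real.exp (-(Λ : ℝ))) :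
    ∀ᵐ ω ∂P, ∀ᶠ Λ : ℕ in atTop, ∀ x, X Λ x → ∀ y ∈ Y Λ x, ω ∉ Ev Λ x y := by
  obtain ⟨Λ0, hΛ0⟩ := eventually_atTop.1 (h1.and h2)
  set s : ℕ → Set Ω := fun Λ => if Λ0 ≤ Λ then {ω | ∃ x, X Λ x ∧ ∃ y ∈ Y Λ x, ω ∈ Ev Λ x y} else ∅
    with hs
  have hsb : ∀ Λ, P (s Λ) ≤ ENNReal.ofReal (Real.exp (-(Λ : ℝ))) := by
    intro Λ
    by_cases hΛ : Λ0 ≤ Λ
    · obtain ⟨g1, g2⟩ := hΛ0 Λ hΛ
      have e1 : s Λ = {ω | ∃ x, X Λ x ∧ ∃ y ∈ Y Λ x, ω ∈ Ev Λ x y} := if_pos hΛ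
      rw [← ofReal_measureReal]
      apply ENNReal.ofReal_le_ofReal
      set Xs : Finset ℕ := (range (⌊Real.exp Λ⌋₊ + 1)).filter (fun x => X Λ x) with hXs
      have hsub : s Λ ⊆ ⋃ x ∈ Xs, ⋃ y ∈ Y Λ x, Ev Λ x y := by
        rw [e1]
        rintro ω ⟨x, hx, y, hy, hω⟩
        rw [Set.mem_iUnion₂]
        refine ⟨x, ?_, ?_⟩
        · rw [hXs, mem_filter, mem_range]
          exact ⟨Nat.lt_succ_of_le (Nat.le_floor (g1 x hx).1), hx⟩
        · rw [Set.mem_iUnion₂]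
          exact ⟨y, hy, hω⟩
      have hcard : (Xs.card : ℝ) ≤ Real.exp Λ + 1 := by
        have c1 : Xs.card ≤ ⌊Real.exp Λ⌋₊ + 1 := (card_filter_le _ _).trans (card_range _).le
        have c2 : ((⌊Real.exp (Λ : ℝ)⌋₊ : ℕ) : ℝ) ≤ Real.exp Λ := Nat.floor_le (Real.exp_pos _).le
        have c3 : (Xs.card : ℝ) ≤ ((⌊Real.exp (Λ : ℝ)⌋₊ + 1 : ℕ) : ℝ) := by exact_mod_cast c1
        push_cast at c3
        linarith
      calc P.real (s Λ) ≤ P.real (⋃ x ∈ Xs, ⋃ y ∈ Y Λ x, Ev Λ x y) :=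
            measureReal_mono hsub (measure_ne_top _ _)
        _ ≤ ∑ x ∈ Xs, P.real (⋃ y ∈ Y Λ x, Ev Λ x y) := measureReal_biUnion_finset_le _ _
        _ ≤ ∑ x ∈ Xs, Real.exp (D * Λ) * ε Λ := by
            apply sum_le_sum
            intro x hx
            have hx2 := (mem_filter.1 hx).2
            calc P.real (⋃ y ∈ Y Λ x, Ev Λ x y) ≤ ∑ y ∈ Y Λ x, P.real (Ev Λ x y) :=
                  measureReal_biUnion_finset_le _ _
              _ ≤ ∑ y ∈ Y Λ x, ε Λ := sum_le_sum fun y hy => (g1 x hx2).2.2 y hy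
              _ = ((Y Λ x).card : ℝ) * ε Λ := by rw [sum_const, nsmul_eq_mul]
              _ ≤ Real.exp (D * Λ) * ε Λ := mul_le_mul_of_nonneg_right (g1 x hx2).2.1 (hε Λ)
        _ = (Xs.card : ℝ) * (Real.exp (D * Λ) * ε Λ) := by rw [sum_const, nsmul_eq_mul]
        _ ≤ (Real.exp Λ + 1) * (Real.exp (D * Λ) * ε Λ) :=
            mul_le_mul_of_nonneg_right hcard (mul_nonneg (Real.exp_pos _).le (hε Λ))
        _ ≤ _ := g2
    · have e1 : s Λ = ∅ := if_neg hΛ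
      rw [e1, measure_empty]
      exact bot_le
  have hsum : ∑' Λ, P (s Λ) ≠ ⊤ := by
    have h3 : Summable (fun n : ℕ => Real.exp (-(n : ℝ))) := Real.summable_exp_neg_nat
    exact ne_top_of_le_ne_top h3.tsum_ofReal_ne_top (ENNReal.tsum_le_tsum hsb)
  filter_upwards [ae_eventually_notMem hsum] with ω hω
  filter_upwards [hω, eventually_ge_atTop Λ0] with Λ h3 h4 x hx y hy hmem
  apply h3
  have e1 : s Λ = {ω | ∃ x, X Λ x ∧ ∃ y ∈ Y Λ x, ω ∈ Ev Λ x y} := if_pos h4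
  rw [e1]
  exact ⟨x, hx, y, hy, hmem⟩

open Classical in
theorem card_ge (C A Λ x : ℕ) (R : Set ℕ) (hΛ : 1 ≤ Λ) (hCA : C + 1 ≤ A)
    (h : ∀ i, i < Λ ^ (A - C) → ∃ v ∈ R, x + i * Λ ^ C < v ∧ v ≤ x + i * Λ ^ C + Λ ^ C) :
    Λ ^ (A - C - 1) ≤ ((Ioc x (x + Λ ^ A)).filter (fun u => u ∈ R)).card := by
  choose! f hf using h
  have hpow : Λ ^ (A - C) * Λ ^ C = Λ ^ A := by
    rw [← pow_add]
    congr 1
    omega
  have h1 : (range (Λ ^ (A - C))).card ≤ ((Ioc x (x + Λ ^ A)).filter (fun u => u ∈ R)).card := by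
    apply card_le_card_of_injOn f
    · intro i hi
      have hi' : i < Λ ^ (A - C) := by simpa using hi
      obtain ⟨g1, g2, g3⟩ := hf i hi'
      rw [mem_coe, mem_filter, mem_Ioc]
      have g4 : (i + 1) * Λ ^ C ≤ Λ ^ (A - C) * Λ ^ C := Nat.mul_le_mul_right _ hi'
      have g5 : (i + 1) * Λ ^ C = i * Λ ^ C + Λ ^ C := by ring
      refine ⟨⟨by omega, by omega⟩, g1⟩
    · have key : ∀ i j, i < Λ ^ (A - C) → j < Λ ^ (A - C) → i < j → f i < f j := by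
        intro i j hi hj hij
        obtain ⟨-, -, g3⟩ := hf i hi
        obtain ⟨-, g2, -⟩ := hf j hj
        have g4 : (i + 1) * Λ ^ C ≤ j * Λ ^ C := Nat.mul_le_mul_right _ hij
        have g5 : (i + 1) * Λ ^ C = i * Λ ^ C + Λ ^ C := by ring
        omega
      intro i hi j hj hij
      have hi' : i < Λ ^ (A - C) := by simpa using hi
      have hj' : j < Λ ^ (A - C) := by simpa using hj
      rcases lt_trichotomy i j with h | h | h
      · exact absurd hij (key i j hi' hj' h).ne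
      · exact h
      · exact absurd hij.symm (key j i hj' hi' h).ne
  rw [card_range] at h1
  exact (Nat.pow_le_pow_right hΛ (by omega)).trans h1

theorem V_small (n : ℕ) (hn : n < 2) : V n = 1 := by
  unfold Pool.Agent.T2H32.BF.V
  rw [filter_false_of_mem, prod_empty]
  intro p hp hpp
  have := mem_range.1 hp
  have := hpp.two_le
  omega

theorem z_ge (z : ℕ → ℕ) (hz : Lim z) : ∀ᶠ v : ℕ in atTop, 2 ≤ z v := by
  have h1 : ∀ᶠ k : ℕ in atTop, V (z k) * Real.log k < 2 := hz.2.eventually (gt_mem_nhds (by norm_num))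
  have h2 : ∀ᶠ k : ℕ in atTop, (2 : ℝ) ≤ Real.log k :=
    (Real.tendsto_log_atTop.comp tendsto_natCast_atTop_atTop).eventually_ge_atTop _
  filter_upwards [h1, h2] with k h3 h4
  by_contra h5
  rw [V_small (z k) (by omega), one_mul] at h3
  linarith

theorem log_ge (c : ℝ) (hc : 1 < c) : ∀ᶠ v : ℕ in atTop, (2 : ℝ) ≤ Real.log v ^ c := by
  have h2 : ∀ᶠ k : ℕ in atTop, (2 : ℝ) ≤ Real.log k :=
    (Real.tendsto_log_atTop.comp tendsto_natCast_atTop_atTop).eventually_ge_atTop _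
  filter_upwards [h2] with k h4
  calc (2 : ℝ) ≤ Real.log k := h4
    _ = Real.log k ^ (1 : ℝ) := (Real.rpow_one _).symm
    _ ≤ Real.log k ^ c := Real.rpow_le_rpow_of_exponent_le (by linarith) hc.le

theorem log_le (c : ℝ) (hc : 1 < c) (A Λ v : ℕ) (hΛ : 1 ≤ Λ) (hA : ⌈c⌉₊ ≤ A)
    (hv : (v : ℝ) ≤ Real.exp ((Λ : ℝ) ^ 2)) : Real.log v ^ c ≤ ((Λ ^ (10 * A) : ℕ) : ℝ) := by
  have hΛ1 : (1 : ℝ) ≤ Λ := by exact_mod_cast hΛ
  have h0 : 0 ≤ Real.log v := Real.log_natCast_nonneg v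
  have h1 : Real.log v ≤ (Λ : ℝ) ^ 2 := by
    rcases Nat.eq_zero_or_pos v with rfl | hv0
    · simp
    · rw [Real.log_le_iff_le_exp (by exact_mod_cast hv0)]
      exact hv
  calc Real.log v ^ c ≤ ((Λ : ℝ) ^ 2) ^ c := Real.rpow_le_rpow h0 h1 (by linarith)
    _ ≤ ((Λ : ℝ) ^ 2) ^ ((⌈c⌉₊ : ℕ) : ℝ) :=
        Real.rpow_le_rpow_of_exponent_le (one_le_pow₀ hΛ1) (Nat.le_ceil c)
    _ = (Λ : ℝ) ^ (2 * ⌈c⌉₊) := by rw [Real.rpow_natCast, ← pow_mul]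
    _ ≤ (Λ : ℝ) ^ (10 * A) := pow_le_pow_right₀ hΛ1 (by omega)
    _ = ((Λ ^ (10 * A) : ℕ) : ℝ) := by push_cast; rfl

theorem win_le (A Λ x : ℕ) (hΛ : A + 3 ≤ Λ) (hx : (x : ℝ) ≤ Real.exp Λ) :
    ((x + Λ ^ A : ℕ) : ℝ) ≤ Real.exp ((Λ : ℝ) ^ 2) := by
  have hΛr : (A : ℝ) + 3 ≤ Λ := by exact_mod_cast hΛ
  have hA0 : (0 : ℝ) ≤ A := Nat.cast_nonneg _
  have h1 : (Λ : ℝ) ^ A ≤ Real.exp (A * Λ) := pow_le_exp A Λ (Nat.cast_nonneg _)
  have h2 : Real.exp (Λ : ℝ) ≤ Real.exp ((A + 1) * Λ) := Real.exp_le_exp.2 (by nlinarith)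
  have h3 : Real.exp (A * (Λ : ℝ)) ≤ Real.exp ((A + 1) * Λ) := Real.exp_le_exp.2 (by nlinarith)
  have h4 := two_le_exp (Λ : ℝ) (by linarith)
  have h5 : Real.exp ((A + 2) * (Λ : ℝ)) = Real.exp ((A + 1) * Λ) * Real.exp Λ := by
    rw [← Real.exp_add]; ring_nf
  have h6 : Real.exp ((A + 2) * (Λ : ℝ)) ≤ Real.exp ((Λ : ℝ) ^ 2) := Real.exp_le_exp.2 (by nlinarith)
  have h7 := Real.exp_pos ((A + 1) * (Λ : ℝ))
  push_cast
  nlinarith

theorem floor_le (x v D : ℕ) (hD : 1 ≤ D) (h : x ≤ v ^ D) : ⌊(x : ℝ) ^ (1 / (D : ℝ))⌋₊ ≤ v := by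
  apply Nat.floor_le_of_le
  have h1 : (x : ℝ) ≤ (v : ℝ) ^ D := by exact_mod_cast h
  calc (x : ℝ) ^ (1 / (D : ℝ)) ≤ ((v : ℝ) ^ D) ^ (1 / (D : ℝ)) :=
        Real.rpow_le_rpow (Nat.cast_nonneg _) h1 (by positivity)
    _ = v := by
        rw [one_div]
        exact Real.pow_rpow_inv_natCast (Nat.cast_nonneg _) (by omega)

end Pool.Agent.H559.IX.Assembly

namespace Pool.Agent.H559.IX

open Assembly

open Classical in
theorem t_assembly : S_assembly := by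
  intro hθ hB hone hsys c hc D A0
  obtain ⟨C, hC1, hS⟩ := hsys c hc
  obtain ⟨A2, hA2⟩ : ∃ A2 : ℕ, A2 = 2 * A0 + C + 4 := ⟨_, rfl⟩
  refine ⟨3 * A2 + C + ⌈c⌉₊ + 10, fun A hA => ?_⟩
  obtain ⟨κ0, hκ0⟩ := hθ (max D 1) A (le_max_right _ _) (by omega)
  refine ⟨κ0 + 1, fun z hz e he ι Y G Gr H Ω _ P a hM => ?_⟩
  have hP : IsProbabilityMeasure P := prob hM
  obtain ⟨v0, hv0⟩ := eventually_atTop.1 ((z_ge z hz).and (log_ge c hc))
  -- the parameters of the window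
  have key : ∀ᶠ Λ : ℕ in atTop, ∀ x : ℕ, (Λ ^ (κ0 + 1) ≤ x ∧ (x : ℝ) ≤ Real.exp Λ) →
      (x : ℝ) ≤ Real.exp Λ ∧ ((Y Λ x).card : ℝ) ≤ Real.exp (D * Λ) ∧ ∀ y ∈ Y Λ x,
      P.real {ω | Λ ^ (A - C - 1) ≤ ((Ioc x (x + Λ ^ A)).filter
          (fun u => u ∈ R0 z c (fun q => a q ω))).card ∧
        HexB e (Λ ^ A2) (Λ ^ A0 + 1) ((Ioc x (x + Λ ^ A)).filter (pre z c (Qs (Λ ^ (10 * A))
            (z ⌊(x : ℝ) ^ (1 / ((max D 1 : ℕ) : ℝ))⌋₊) (Ioc x (x + Λ ^ A) ∪ G Λ x y))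
              (fun q => a q ω)))
          (Gr Λ x y (fun q => a q ω) ((G Λ x y).filter (fun u => u ∈ R0 z c (fun q => a q ω)))) ∧
        ¬ Suc e (Λ ^ A) (R0 z c (fun q => a q ω)) x (Gr Λ x y (fun q => a q ω)
          ((G Λ x y).filter (fun u => u ∈ R0 z c (fun q => a q ω))))} ≤
      Real.exp (-(Λ : ℝ) ^ 3) + ((Λ : ℝ) ^ (A - A2) + 1) * (1 / 2) ^ (Λ ^ A2) := by
    filter_upwards [H, hκ0 z hz, eventually_ge_atTop v0, eventually_ge_atTop 60,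
      eventually_ge_atTop (A + 3)] with Λ h1 h2 h3 h4 h5 x hx
    obtain ⟨hx1, hx2⟩ := hx
    obtain ⟨h6, h7⟩ := h1 x hx1 hx2
    refine ⟨hx2, h6, fun y hy => ?_⟩
    obtain ⟨g1, g2, g3⟩ := h7 y hy
    have hΛ1 : 1 ≤ Λ := by omega
    have hΛx : Λ ≤ x := by
      refine le_trans ?_ hx1
      calc Λ = Λ ^ 1 := (pow_one _).symm
        _ ≤ Λ ^ (κ0 + 1) := Nat.pow_le_pow_right hΛ1 (by omega)
    have hwin := win_le A Λ x h5 hx2
    have hvb : ∀ v ∈ Ioc x (x + Λ ^ A) ∪ G Λ x y, (v : ℝ) ≤ Real.exp ((Λ : ℝ) ^ 2) := by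
      intro v hv
      rcases mem_union.1 hv with hv | hv
      · refine le_trans ?_ hwin
        exact_mod_cast (mem_Ioc.1 hv).2
      · exact (g2 v hv).2.1
    have hvD : ∀ v ∈ Ioc x (x + Λ ^ A) ∪ G Λ x y, x ≤ v ^ (max D 1) := by
      intro v hv
      rcases mem_union.1 hv with hv | hv
      · have hxv := (mem_Ioc.1 hv).1
        calc x ≤ v := hxv.le
          _ = v ^ 1 := (pow_one _).symm
          _ ≤ v ^ (max D 1) := Nat.pow_le_pow_right (by omega) (le_max_right _ _)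
      · have hxv := (g2 v hv).1
        rcases Nat.eq_zero_or_pos D with hD | hD
        · rw [hD, pow_zero] at hxv
          omega
        · rw [max_eq_left hD]
          exact hxv
    have o1 : ∀ v ∈ Ioc x (x + Λ ^ A) ∪ G Λ x y, Real.log v ^ c ≤ ((Λ ^ (10 * A) : ℕ) : ℝ) ∧
        z ⌊(x : ℝ) ^ (1 / ((max D 1 : ℕ) : ℝ))⌋₊ ≤ z v := fun v hv =>
      ⟨log_le c hc A Λ v hΛ1 (by omega) (hvb v hv),
        hz.1 (floor_le x v (max D 1) (le_max_right _ _) (hvD v hv))⟩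
    have o2 : ∀ v ∈ Ioc x (x + Λ ^ A), (2 : ℝ) ≤ Real.log v ^ c ∧ 2 ≤ z v := by
      intro v hv
      have hxv := (mem_Ioc.1 hv).1
      obtain ⟨q1, q2⟩ := hv0 v (by omega)
      exact ⟨q2, q1⟩
    have o3 : Disjoint (Ioc x (x + Λ ^ A)) (G Λ x y) := by
      rw [disjoint_left]
      intro v hv hv'
      have q1 := mem_Ioc.1 hv
      rcases (g2 v hv').2.2 with q2 | q2 <;> omega
    have o4 : ∏ p ∈ Qs (Λ ^ (10 * A)) (z ⌊(x : ℝ) ^ (1 / ((max D 1 : ℕ) : ℝ))⌋₊)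
        (Ioc x (x + Λ ^ A) ∪ G Λ x y), (1 - 1 / (p : ℝ)) ≤ 1 / 64 := by
      apply h2 x _ hx2 _ _ hvb
      · refine le_trans ?_ hx1
        exact Nat.pow_le_pow_right hΛ1 (by omega)
      · refine (card_union_le _ _).trans ?_
        rw [Nat.card_Ioc, Nat.add_sub_cancel_left]
        calc Λ ^ A + (G Λ x y).card ≤ Λ ^ (3 * A) + Λ ^ (3 * A) :=
              add_le_add (Nat.pow_le_pow_right hΛ1 (by omega)) g1
          _ = 2 * Λ ^ (3 * A) := by ring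
          _ ≤ Λ * Λ ^ (3 * A) := Nat.mul_le_mul_right _ (by omega)
          _ = Λ ^ (3 * A + 1) := by ring
          _ ≤ Λ ^ (4 * A) := Nat.pow_le_pow_right hΛ1 (by omega)
    have hmain := hone z c e x (Λ ^ A) (Λ ^ (10 * A))
      (z ⌊(x : ℝ) ^ (1 / ((max D 1 : ℕ) : ℝ))⌋₊) (Λ ^ A2) (Λ ^ A0 + 1) (Λ ^ (A - C - 1))
      (G Λ x y) (Gr Λ x y) hz.1 he (by positivity) (by
        calc 2 ≤ Λ := by omega
          _ = Λ ^ 1 := (pow_one _).symm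
          _ ≤ Λ ^ (10 * A) := Nat.pow_le_pow_right hΛ1 (by omega))
      o1 o2 o3 g3 o4 Ω P a hM
    refine hmain.trans ?_
    have hdiv : Λ ^ A / Λ ^ A2 = Λ ^ (A - A2) := Nat.pow_div (by omega) (by omega)
    rw [hdiv]
    push_cast
    have hn := num1 A A2 C A0 hC1 hA2 (by omega) (Λ : ℝ) (by exact_mod_cast h4)
    linarith
  -- Borel-Cantelli
  have hBC := bc P D (fun Λ x => Λ ^ (κ0 + 1) ≤ x ∧ (x : ℝ) ≤ Real.exp Λ) Y _
    (fun Λ : ℕ => Real.exp (-(Λ : ℝ) ^ 3) + ((Λ : ℝ) ^ (A - A2) + 1) * (1 / 2) ^ (Λ ^ A2))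
    (fun Λ => by positivity) key (by
      filter_upwards [eventually_ge_atTop (D + A + 10)] with Λ hΛ
      exact num2 D A A2 (by omega) (by omega) Λ hΛ)
  filter_upwards [hBC, hS z hz Ω P a hM] with ω hω1 hω2
  filter_upwards [hω1, hω2, eventually_ge_atTop 60, eventually_ge_atTop (A + 3)] with
    Λ h1 h2 h4 h5 x hx1 hx2 y hy hHex
  by_contra hSuc
  have hΛ1 : 1 ≤ Λ := by omega
  have hwin := win_le A Λ x h5 hx2
  refine h1 x ⟨hx1, hx2⟩ y hy ⟨?_, ?_, hSuc⟩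
  · apply card_ge C A Λ x _ hΛ1 (by omega)
    intro i hi
    have hu : ((x + i * Λ ^ C : ℕ) : ℝ) ≤ Real.exp ((Λ : ℝ) ^ 2) := by
      refine le_trans ?_ hwin
      have q1 : i * Λ ^ C ≤ Λ ^ (A - C) * Λ ^ C := Nat.mul_le_mul_right _ hi.le
      have q2 : Λ ^ (A - C) * Λ ^ C = Λ ^ A := by
        rw [← pow_add]
        congr 1
        omega
      exact_mod_cast Nat.add_le_add_left (q1.trans q2.le) x
    obtain ⟨v, hv1, hv2, hv3, -⟩ := (h2 (x + i * Λ ^ C) hu).1 0 (by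
      push_cast
      positivity) (by decide)
    exact ⟨v, hv1, hv2, hv3⟩
  · apply hB e (Λ ^ A0) (Λ ^ A) (Λ ^ A2) x _ (R0 z c (fun q => a q ω)) _ he
      (Nat.one_le_pow _ _ hΛ1) _ (filter_subset _ _) _ hHex
    · have q1 : 1 ≤ Λ ^ A0 := Nat.one_le_pow _ _ hΛ1
      calc 6 * Λ ^ A0 + 12 ≤ 18 * Λ ^ A0 := by omega
        _ ≤ Λ * Λ ^ A0 := Nat.mul_le_mul_right _ (by omega)
        _ = Λ ^ (A0 + 1) := by ring
        _ ≤ Λ ^ A2 := Nat.pow_le_pow_right hΛ1 (by omega)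
    · intro v hv hvR
      rw [mem_filter]
      refine ⟨hv, hvR.1, fun q hq hqp _ => hvR.2 q hq hqp⟩

end Pool.Agent.H559.IX
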