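import Pool.Agent.H559.IX.StmA

set_option autoImplicit false

open Finset

namespace Pool.Agent.H559.IX

namespace Blocks

open Classical in
/-- counting the sets without the pattern in one block -/
theorem count (a n t e k ρ : ℕ) (h1 : t + e ≤ n) (h2 : k + e ≤ ρ) (P : Finset ℕ → Prop)
    (hP : ∀ Z : Finset ℕ, Z ⊆ Ico a (a + n) → (Z.filter (fun u => u < a + t)).card = k →
      (∀ j < e, a + t + j ∈ Z) → ¬ P Z) :
    (((Ico a (a + n)).powersetCard ρ).filter P).card +
      t.choose k * (n - t - e).choose (ρ - e - k) ≤ n.choose ρ := by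
  obtain ⟨S, hS⟩ : ∃ S, S = ((Ico a (a + t)).powersetCard k) ×ˢ
    ((Ico (a + t + e) (a + n)).powersetCard (ρ - e - k)) := ⟨_, rfl⟩
  obtain ⟨F, hF⟩ : ∃ F : Finset ℕ × Finset ℕ → Finset ℕ,
    F = fun z => z.1 ∪ Ico (a + t) (a + t + e) ∪ z.2 := ⟨_, rfl⟩
  have hz : ∀ z ∈ S, (z.1 ⊆ Ico a (a + t) ∧ z.1.card = k) ∧
      (z.2 ⊆ Ico (a + t + e) (a + n) ∧ z.2.card = ρ - e - k) := by
    intro z hz
    rw [hS, mem_product, mem_powersetCard, mem_powersetCard] at hz
    exact hz
  have hmem : ∀ (z : Finset ℕ × Finset ℕ) (u : ℕ), u ∈ F z ↔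
      u ∈ z.1 ∨ (a + t ≤ u ∧ u < a + t + e) ∨ u ∈ z.2 := by
    intro z u
    rw [hF]
    simp only [mem_union, mem_Ico]
    tauto
  have hU : ∀ z ∈ S, (F z).filter (fun u => u < a + t) = z.1 := by
    intro z hzS
    obtain ⟨⟨h3, _⟩, ⟨h4, _⟩⟩ := hz z hzS
    ext u
    rw [mem_filter, hmem]
    constructor
    · rintro ⟨h | h | h, hu⟩
      · exact h
      · omega
      · have := mem_Ico.1 (h4 h)
        omega
    · intro h
      have := mem_Ico.1 (h3 h)
      exact ⟨Or.inl h, this.2⟩
  have hV : ∀ z ∈ S, (F z).filter (fun u => a + t + e ≤ u) = z.2 := by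
    intro z hzS
    obtain ⟨⟨h3, _⟩, ⟨h4, _⟩⟩ := hz z hzS
    ext u
    rw [mem_filter, hmem]
    constructor
    · rintro ⟨h | h | h, hu⟩
      · have := mem_Ico.1 (h3 h)
        omega
      · omega
      · exact h
    · intro h
      have := mem_Ico.1 (h4 h)
      exact ⟨Or.inr (Or.inr h), this.1⟩
  have hinj : Set.InjOn F S := by
    intro z hzS z' hzS' heq
    have e1 := hU z hzS
    have e2 := hV z hzS
    rw [heq, hU z' hzS'] at e1
    rw [heq, hV z' hzS'] at e2
    exact Prod.ext e1.symm e2.symm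
  have hsub : ∀ z ∈ S, F z ⊆ Ico a (a + n) := by
    intro z hzS u hu
    obtain ⟨⟨h3, _⟩, ⟨h4, _⟩⟩ := hz z hzS
    rw [hmem] at hu
    rw [mem_Ico]
    rcases hu with h | h | h
    · have := mem_Ico.1 (h3 h)
      omega
    · omega
    · have := mem_Ico.1 (h4 h)
      omega
  have hcard : ∀ z ∈ S, (F z).card = ρ := by
    intro z hzS
    obtain ⟨⟨h3, h3'⟩, ⟨h4, h4'⟩⟩ := hz z hzS
    rw [hF]
    simp only
    rw [card_union_of_disjoint, card_union_of_disjoint, h3', h4', Nat.card_Ico]
    · omega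
    · rw [disjoint_left]
      intro u hu hu'
      have := mem_Ico.1 (h3 hu)
      have := mem_Ico.1 hu'
      omega
    · rw [disjoint_left]
      intro u hu hu'
      have h5 := mem_Ico.1 (h4 hu')
      rcases mem_union.1 hu with h | h
      · have := mem_Ico.1 (h3 h)
        omega
      · have := mem_Ico.1 h
        omega
  have hB : S.image F ⊆ (Ico a (a + n)).powersetCard ρ := by
    intro Z hZ
    obtain ⟨z, hzS, rfl⟩ := mem_image.1 hZ
    rw [mem_powersetCard]
    exact ⟨hsub z hzS, hcard z hzS⟩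
  have hdisj : Disjoint (((Ico a (a + n)).powersetCard ρ).filter P) (S.image F) := by
    rw [disjoint_left]
    intro Z hZ hZ'
    obtain ⟨z, hzS, rfl⟩ := mem_image.1 hZ'
    refine hP (F z) (hsub z hzS) ?_ ?_ (mem_filter.1 hZ).2
    · rw [hU z hzS]
      exact (hz z hzS).1.2
    · intro j hj
      rw [hmem]
      exact Or.inr (Or.inl ⟨by omega, by omega⟩)
  have hScard : S.card = t.choose k * (n - t - e).choose (ρ - e - k) := by
    rw [hS, card_product, card_powersetCard, card_powersetCard, Nat.card_Ico, Nat.card_Ico]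
    congr 2
    · omega
    · omega
  calc (((Ico a (a + n)).powersetCard ρ).filter P).card +
      t.choose k * (n - t - e).choose (ρ - e - k)
      = (((Ico a (a + n)).powersetCard ρ).filter P).card + (S.image F).card := by
        rw [card_image_of_injOn hinj, hScard]
    _ = ((((Ico a (a + n)).powersetCard ρ).filter P) ∪ (S.image F)).card :=
        (card_union_of_disjoint hdisj).symm
    _ ≤ ((Ico a (a + n)).powersetCard ρ).card :=
        card_le_card (union_subset (filter_subset _ _) hB)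
    _ = n.choose ρ := by
        rw [card_powersetCard, Nat.card_Ico]
        congr 1
        omega

theorem card_filter_inst {α : Type} (s : Finset α) (p q : α → Prop) (i1 : DecidablePred p)
    (i2 : DecidablePred q) (h : ∀ x, p x ↔ q x) :
    (@Finset.filter α p i1 s).card = (@Finset.filter α q i2 s).card := by
  have h1 : p = q := funext fun x => propext (h x)
  subst h1
  have h2 : i1 = i2 := Subsingleton.elim _ _
  rw [h2]

open Classical in
/-- splitting off the last part -/
theorem split (a b r : ℕ) (P P' : Finset ℕ → Prop) (W : ℕ → ℝ)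
    (hPP : ∀ X, P X → P' (X.filter (fun u => u < a)))
    (hW : ∀ X' ⊆ range a, P' X' → ∀ ρ : ℕ,
      ((((Ico a (a + b)).powersetCard ρ).filter (fun Z => P (X' ∪ Z))).card : ℝ) ≤ W ρ) :
    ((((range (a + b)).powersetCard r).filter P).card : ℝ) ≤
      ∑ ρ ∈ range (r + 1), ((((range a).powersetCard (r - ρ)).filter P').card : ℝ) * W ρ := by
  have hsub : ((range (a + b)).powersetCard r).filter P ⊆
      (range (r + 1)).biUnion (fun ρ =>
        (((range a).powersetCard (r - ρ)).filter P').biUnion (fun X' =>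
          (((Ico a (a + b)).powersetCard ρ).filter (fun Z => P (X' ∪ Z))).image
            (fun Z => X' ∪ Z))) := by
    intro X hX
    rw [mem_filter, mem_powersetCard] at hX
    obtain ⟨⟨hX1, hX2⟩, hX3⟩ := hX
    have hun : X.filter (fun u => u < a) ∪ X.filter (fun u => ¬ u < a) = X :=
      filter_union_filter_not_eq _ X
    have hc : (X.filter (fun u => u < a)).card + (X.filter (fun u => ¬ u < a)).card = r := by
      rw [← hX2]
      exact card_filter_add_card_filter_not _
    rw [mem_biUnion]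
    refine ⟨(X.filter (fun u => ¬ u < a)).card, mem_range.2 (by omega), ?_⟩
    rw [mem_biUnion]
    refine ⟨X.filter (fun u => u < a), ?_, ?_⟩
    · rw [mem_filter, mem_powersetCard]
      refine ⟨⟨?_, by omega⟩, hPP X hX3⟩
      intro u hu
      exact mem_range.2 (mem_filter.1 hu).2
    · rw [mem_image]
      refine ⟨X.filter (fun u => ¬ u < a), ?_, hun⟩
      rw [mem_filter, mem_powersetCard, hun]
      refine ⟨⟨?_, rfl⟩, hX3⟩
      intro u hu
      rw [mem_filter] at hu
      have := mem_range.1 (hX1 hu.1)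
      rw [mem_Ico]
      omega
  have h1 : (((range (a + b)).powersetCard r).filter P).card ≤
      ∑ ρ ∈ range (r + 1), ∑ X' ∈ ((range a).powersetCard (r - ρ)).filter P',
        (((Ico a (a + b)).powersetCard ρ).filter (fun Z => P (X' ∪ Z))).card := by
    refine (card_le_card hsub).trans (card_biUnion_le.trans (sum_le_sum fun ρ _ => ?_))
    refine card_biUnion_le.trans (sum_le_sum fun X' _ => ?_)
    exact card_image_le
  calc ((((range (a + b)).powersetCard r).filter P).card : ℝ)
      ≤ ((∑ ρ ∈ range (r + 1), ∑ X' ∈ ((range a).powersetCard (r - ρ)).filter P',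
        (((Ico a (a + b)).powersetCard ρ).filter (fun Z => P (X' ∪ Z))).card : ℕ) : ℝ) := by
        exact_mod_cast h1
    _ = ∑ ρ ∈ range (r + 1), ∑ X' ∈ ((range a).powersetCard (r - ρ)).filter P',
        ((((Ico a (a + b)).powersetCard ρ).filter (fun Z => P (X' ∪ Z))).card : ℝ) := by
        push_cast
        rfl
    _ ≤ ∑ ρ ∈ range (r + 1), ∑ X' ∈ ((range a).powersetCard (r - ρ)).filter P', W ρ := by
        refine sum_le_sum fun ρ _ => sum_le_sum fun X' hX' => ?_
        rw [mem_filter, mem_powersetCard] at hX'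
        exact hW X' hX'.1.1 hX'.2 ρ
    _ = ∑ ρ ∈ range (r + 1), ((((range a).powersetCard (r - ρ)).filter P').card : ℝ) * W ρ := by
        refine sum_congr rfl fun ρ _ => ?_
        rw [sum_const, nsmul_eq_mul]

/-- Vandermonde -/
theorem vandermonde (a b r : ℕ) :
    ((a + b).choose r : ℝ) = ∑ ρ ∈ range (r + 1), (a.choose (r - ρ) : ℝ) * (b.choose ρ : ℝ) := by
  rw [add_comm a b, Nat.add_choose_eq]
  have := Finset.Nat.sum_antidiagonal_eq_sum_range_succ
    (fun i j => b.choose i * a.choose j) r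
  rw [this]
  push_cast
  exact sum_congr rfl fun ρ _ => mul_comm _ _

open Classical in
/-- the condition with `K` blocks -/
def cond (e n : ℕ) (Gr : ℕ → ℕ → Prop) (K : ℕ) (X : Finset ℕ) : Prop :=
  (∀ i < K, 2 * (X.filter (fun u => i * n ≤ u ∧ u < (i + 1) * n)).card ≤ n) ∧
      ∀ t ∈ range (K * n), (∀ j < e, t + j ∈ X) → ¬ Gr (X.filter (fun u => u < t)).card t

theorem cond_mono {e n : ℕ} {Gr : ℕ → ℕ → Prop} {K : ℕ} {X : Finset ℕ}
    (h : cond e n Gr (K + 1) X) : cond e n Gr K X := by
  refine ⟨fun i hi => h.1 i (by omega), fun t ht => h.2 t ?_⟩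
  rw [mem_range] at ht ⊢
  have : K * n ≤ (K + 1) * n := Nat.mul_le_mul_right n (by omega)
  omega

theorem cond_restrict {e n : ℕ} {Gr : ℕ → ℕ → Prop} {K : ℕ} {X : Finset ℕ}
    (h : cond e n Gr K X) : cond e n Gr K (X.filter (fun u => u < K * n)) := by
  refine ⟨fun i hi => ?_, fun t ht hj => ?_⟩
  · refine le_trans ?_ (h.1 i hi)
    have : ((X.filter (fun u => u < K * n)).filter
        (fun u => i * n ≤ u ∧ u < (i + 1) * n)).card ≤
        (X.filter (fun u => i * n ≤ u ∧ u < (i + 1) * n)).card :=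
      card_le_card (filter_subset_filter _ (filter_subset _ _))
    omega
  · have h1 := h.2 t ht (fun j hj' => (mem_filter.1 (hj j hj')).1)
    have e : (X.filter (fun u => u < K * n)).filter (fun u => u < t) =
        X.filter (fun u => u < t) := by
      ext u
      simp only [mem_filter]
      have := mem_range.1 ht
      constructor
      · rintro ⟨⟨a, _⟩, b⟩
        exact ⟨a, b⟩
      · rintro ⟨a, b⟩
        exact ⟨⟨a, by omega⟩, b⟩
    rw [e]
    exact h1

open Classical in
/-- the bound for one block -/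
theorem W_bound (hh : S_hyp) (e n K G : ℕ) (Gr : ℕ → ℕ → Prop) (he : e = 1 ∨ e = 2)
    (hn : 0 < n)
    (HK : ∀ J ≤ K * n, ∀ r, 100 * (G + 1) ^ 2 ≤ r → 2 * r ≤ n → ∃ t k, n ≤ 3 * t ∧
      3 * t ≤ 2 * n ∧ k * n ≤ t * r + G * n ∧ t * r ≤ k * n + G * n ∧ Gr (J + k) (K * n + t))
    (X' : Finset ℕ) (hX' : X' ⊆ range (K * n)) (ρ : ℕ) :
    ((((Ico (K * n) (K * n + n)).powersetCard ρ).filter
      (fun Z => cond e n Gr (K + 1) (X' ∪ Z))).card : ℝ) ≤
      Real.exp (-(((ρ : ℝ) - 100 * (G + 1) ^ 2) / (8 * n ^ 3))) * (n.choose ρ : ℝ) := by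
  have hn0 : (0 : ℝ) < n := by exact_mod_cast hn
  have hn3 : (0 : ℝ) < 8 * n ^ 3 := by positivity
  have htriv : (((Ico (K * n) (K * n + n)).powersetCard ρ).filter
      (fun Z => cond e n Gr (K + 1) (X' ∪ Z))).card ≤ n.choose ρ := by
    refine (card_filter_le _ _).trans ?_
    rw [card_powersetCard, Nat.card_Ico]
    apply le_of_eq
    congr 1
    omega
  rcases Nat.lt_or_ge ρ (100 * (G + 1) ^ 2) with hρ | hρ
  · -- few elements
    have h1 : (1 : ℝ) ≤ Real.exp (-(((ρ : ℝ) - 100 * (G + 1) ^ 2) / (8 * n ^ 3))) := by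
      apply Real.one_le_exp
      rw [← neg_div]
      apply div_nonneg _ hn3.le
      have : (ρ : ℝ) ≤ 100 * ((G : ℝ) + 1) ^ 2 := by exact_mod_cast hρ.le
      linarith
    calc _ ≤ (n.choose ρ : ℝ) := by exact_mod_cast htriv
      _ = 1 * (n.choose ρ : ℝ) := (one_mul _).symm
      _ ≤ _ := mul_le_mul_of_nonneg_right h1 (Nat.cast_nonneg _)
  · rcases Nat.lt_or_ge n (2 * ρ) with h2 | h2
    · -- too many elements
      have h0 : (((Ico (K * n) (K * n + n)).powersetCard ρ).filter
          (fun Z => cond e n Gr (K + 1) (X' ∪ Z))) = ∅ := by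
        rw [filter_eq_empty_iff]
        intro Z hZ hc
        rw [mem_powersetCard] at hZ
        have h3 := hc.1 K (Nat.lt_succ_self K)
        have h4 : Z ⊆ (X' ∪ Z).filter (fun u => K * n ≤ u ∧ u < (K + 1) * n) := by
          intro u hu
          have h5 := mem_Ico.1 (hZ.1 hu)
          rw [mem_filter, Nat.succ_mul]
          exact ⟨mem_union_right _ hu, h5⟩
        have h5 := card_le_card h4
        rw [hZ.2] at h5
        omega
      rw [h0, card_empty, Nat.cast_zero]
      positivity
    · obtain ⟨t, k, ht1, ht2, hk1, hk2, hGr⟩ := HK X'.card (by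
        have := card_le_card hX'
        rwa [card_range] at this) ρ hρ h2
      have hG : 1 ≤ (G + 1) ^ 2 := Nat.one_le_pow _ _ (by omega)
      have hG2 : G + 1 ≤ (G + 1) ^ 2 := by nlinarith
      have hte : t + e ≤ n := by omega
      have hke : k + e ≤ ρ := by
        -- `3 k n ≤ 2 n ρ + 3 G n`
        have h3 : 3 * (k * n) ≤ 2 * n * ρ + 3 * (G * n) := by
          have : 3 * t * ρ ≤ 2 * n * ρ := Nat.mul_le_mul_right ρ ht2
          nlinarith
        have h4 : 3 * k ≤ 2 * ρ + 3 * G := by
          have : (3 * k) * n ≤ (2 * ρ + 3 * G) * n := by nlinarith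
          exact Nat.le_of_mul_le_mul_right this hn
        omega
      have hcount := count (K * n) n t e k ρ hte hke (fun Z => cond e n Gr (K + 1) (X' ∪ Z)) (by
        intro Z hZ hZk hZe hc
        have h3 := hc.2 (K * n + t) (by rw [mem_range, Nat.succ_mul]; omega)
          (fun j hj => mem_union_right _ (hZe j hj))
        apply h3
        have e1 : (X' ∪ Z).filter (fun u => u < K * n + t) =
            X' ∪ Z.filter (fun u => u < K * n + t) := by
          ext u
          simp only [mem_filter, mem_union]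
          constructor
          · rintro ⟨h | h, h'⟩
            · exact Or.inl h
            · exact Or.inr ⟨h, h'⟩
          · rintro (h | ⟨h, h'⟩)
            · have := mem_range.1 (hX' h)
              exact ⟨Or.inl h, by omega⟩
            · exact ⟨Or.inr h, h'⟩
        have e2 : ((X' ∪ Z).filter (fun u => u < K * n + t)).card = X'.card + k := by
          rw [e1, card_union_of_disjoint, hZk]
          rw [disjoint_left]
          intro u hu hu'
          have h5 := mem_range.1 (hX' hu)
          have h6 := mem_Ico.1 (hZ (mem_filter.1 hu').1)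
          omega
        rw [e2]
        exact hGr)
      have hhyp := hh e n t ρ k G he hρ h2 ht1 ht2 hk1 hk2
      have hcR : ((((Ico (K * n) (K * n + n)).powersetCard ρ).filter
          (fun Z => cond e n Gr (K + 1) (X' ∪ Z))).card : ℝ) +
          (t.choose k : ℝ) * ((n - t - e).choose (ρ - e - k) : ℝ) ≤ (n.choose ρ : ℝ) := by
        exact_mod_cast hcount
      have hhR : (n.choose ρ : ℝ) ≤ 16 * (n : ℝ) ^ 2 * ((t.choose k : ℝ) *
          ((n - t - e).choose (ρ - e - k) : ℝ)) := by
        exact_mod_cast hhyp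
      have h6 : (n.choose ρ : ℝ) * (1 / (16 * (n : ℝ) ^ 2)) ≤ (t.choose k : ℝ) *
          ((n - t - e).choose (ρ - e - k) : ℝ) := by
        rw [mul_one_div, div_le_iff₀ (by positivity)]
        linarith
      have h7 : 1 - 1 / (16 * (n : ℝ) ^ 2) ≤
          Real.exp (-(((ρ : ℝ) - 100 * (G + 1) ^ 2) / (8 * n ^ 3))) := by
        have h8 : 1 - 1 / (16 * (n : ℝ) ^ 2) ≤ Real.exp (-(1 / (16 * (n : ℝ) ^ 2))) := by
          have := Real.add_one_le_exp (-(1 / (16 * (n : ℝ) ^ 2)))
          linarith
        refine h8.trans (Real.exp_le_exp.2 (neg_le_neg ?_))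
        rw [div_le_div_iff₀ hn3 (by positivity)]
        have h9 : (2 : ℝ) * ρ ≤ n := by exact_mod_cast h2
        have h10 : (0 : ℝ) ≤ 100 * ((G : ℝ) + 1) ^ 2 := by positivity
        have h11 : (0 : ℝ) < (n : ℝ) ^ 2 := by positivity
        nlinarith
      calc ((((Ico (K * n) (K * n + n)).powersetCard ρ).filter
          (fun Z => cond e n Gr (K + 1) (X' ∪ Z))).card : ℝ)
          ≤ (n.choose ρ : ℝ) - (n.choose ρ : ℝ) * (1 / (16 * (n : ℝ) ^ 2)) := by linarith
        _ = (1 - 1 / (16 * (n : ℝ) ^ 2)) * (n.choose ρ : ℝ) := by ring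
        _ ≤ _ := mul_le_mul_of_nonneg_right h7 (Nat.cast_nonneg _)

open Classical in
/-- the induction over the blocks -/
theorem induct (hh : S_hyp) (e n G : ℕ) (Gr : ℕ → ℕ → Prop) (he : e = 1 ∨ e = 2)
    (hn : 0 < n) : ∀ K : ℕ,
    (∀ i < K, ∀ J ≤ i * n, ∀ r, 100 * (G + 1) ^ 2 ≤ r → 2 * r ≤ n → ∃ t k, n ≤ 3 * t ∧
      3 * t ≤ 2 * n ∧ k * n ≤ t * r + G * n ∧ t * r ≤ k * n + G * n ∧
      Gr (J + k) (i * n + t)) → ∀ r : ℕ,
    ((((range (K * n)).powersetCard r).filter (cond e n Gr K)).card : ℝ) ≤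
      Real.exp (-(((r : ℝ) - K * (100 * (G + 1) ^ 2)) / (8 * n ^ 3))) *
        ((K * n).choose r : ℝ) := by
  intro K
  induction K with
  | zero =>
    intro _ r
    have h1 : (((range (0 * n)).powersetCard r).filter (cond e n Gr 0)).card ≤
        (0 * n).choose r := by
      refine (card_filter_le _ _).trans ?_
      rw [card_powersetCard, card_range]
    rcases Nat.eq_zero_or_pos r with hr | hr
    · subst hr
      have h2 : ((((range (0 * n)).powersetCard 0).filter (cond e n Gr 0)).card : ℝ) ≤ 1 := by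
        rw [Nat.choose_zero_right] at h1
        exact_mod_cast h1
      simpa using h2
    · have h2 : (0 * n).choose r = 0 := by
        rw [zero_mul]
        exact Nat.choose_eq_zero_of_lt hr
      rw [h2] at h1 ⊢
      have h3 := Nat.le_zero.1 h1
      rw [h3]
      simp
  | succ K ih =>
    intro H r
    have ih' := ih (fun i hi => H i (by omega))
    have HK := H K (Nat.lt_succ_self K)
    have e1 : (K + 1) * n = K * n + n := Nat.succ_mul K n
    rw [e1]
    refine (split (K * n) n r (cond e n Gr (K + 1)) (cond e n Gr K)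
      (fun ρ => Real.exp (-(((ρ : ℝ) - 100 * (G + 1) ^ 2) / (8 * n ^ 3))) * (n.choose ρ : ℝ))
      (fun X hX => cond_restrict (cond_mono hX))
      (fun X' hX' _ ρ => W_bound hh e n K G Gr he hn HK X' hX' ρ)).trans ?_
    rw [vandermonde (K * n) n r, mul_sum]
    refine sum_le_sum fun ρ hρ => ?_
    have hρr : ρ ≤ r := by
      have := mem_range.1 hρ
      omega
    have h1 := ih' (r - ρ)
    have h2 : (0 : ℝ) ≤ Real.exp (-(((ρ : ℝ) - 100 * (G + 1) ^ 2) / (8 * n ^ 3))) *
        (n.choose ρ : ℝ) := by positivity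
    refine (mul_le_mul_of_nonneg_right h1 h2).trans (le_of_eq ?_)
    have h3 : Real.exp (-(((r : ℝ) - ((K + 1 : ℕ) : ℝ) * (100 * (G + 1) ^ 2)) / (8 * n ^ 3))) =
        Real.exp (-((((r - ρ : ℕ) : ℝ) - K * (100 * (G + 1) ^ 2)) / (8 * n ^ 3))) *
        Real.exp (-(((ρ : ℝ) - 100 * (G + 1) ^ 2) / (8 * n ^ 3))) := by
      rw [← Real.exp_add]
      congr 1
      rw [Nat.cast_sub hρr]
      push_cast
      ring
    rw [h3]
    ring

end Blocks

open Classical in
theorem t_blocks (hh : S_hyp) : S_blocks := by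
  intro e n K M G Gr he hn H r
  have hn0 : (0 : ℝ) < n := by exact_mod_cast hn
  have hn3 : (0 : ℝ) < 8 * n ^ 3 := by positivity
  have hind := Blocks.induct hh e n G Gr he hn K H
  have hsplit := Blocks.split (K * n) M r (Blocks.cond e n Gr K) (Blocks.cond e n Gr K)
    (fun ρ => (M.choose ρ : ℝ)) (fun X hX => Blocks.cond_restrict hX)
    (fun X' _ _ ρ => by
      have : (((Ico (K * n) (K * n + M)).powersetCard ρ).filter
          (fun Z => Blocks.cond e n Gr K (X' ∪ Z))).card ≤ M.choose ρ := by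
        refine (card_filter_le _ _).trans ?_
        rw [card_powersetCard, Nat.card_Ico]
        apply le_of_eq
        congr 1
        omega
      exact_mod_cast this)
  refine le_trans ?_ (hsplit.trans ?_)
  · apply le_of_eq
    congr 1
    exact Blocks.card_filter_inst _ _ _ _ _ (fun X => Iff.rfl)
  · rw [Blocks.vandermonde (K * n) M r, mul_sum]
    refine sum_le_sum fun ρ hρ => ?_
    have hρr : ρ ≤ r := by
      have := mem_range.1 hρ
      omega
    rcases Nat.lt_or_ge M ρ with hM | hM
    · rw [Nat.choose_eq_zero_of_lt hM]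
      simp
    · have h1 := hind (r - ρ)
      have h2 : Real.exp (-((((r - ρ : ℕ) : ℝ) - K * (100 * (G + 1) ^ 2)) / (8 * n ^ 3))) ≤
          Real.exp (-(((r : ℝ) - M - K * (100 * (G + 1) ^ 2)) / (8 * n ^ 3))) := by
        apply Real.exp_le_exp.2
        apply neg_le_neg
        rw [Nat.cast_sub hρr]
        have : (ρ : ℝ) ≤ M := by exact_mod_cast hM
        gcongr
      calc _ ≤ (Real.exp (-((((r - ρ : ℕ) : ℝ) - K * (100 * (G + 1) ^ 2)) / (8 * n ^ 3))) *
            ((K * n).choose (r - ρ) : ℝ)) * (M.choose ρ : ℝ) :=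
            mul_le_mul_of_nonneg_right h1 (Nat.cast_nonneg _)
        _ ≤ (Real.exp (-(((r : ℝ) - M - K * (100 * (G + 1) ^ 2)) / (8 * n ^ 3))) *
            ((K * n).choose (r - ρ) : ℝ)) * (M.choose ρ : ℝ) := by
            gcongr
        _ = _ := by ring

end Pool.Agent.H559.IX

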