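import Pool.Agent.H559.IX.StmA

set_option autoImplicit false

/-! # Transfer of the blocks statement to a finite set of integers -/

open Finset

namespace Pool.Agent.H559.IX.BlocksS

open Pool.Agent.H559.IX

lemma rk_lt_of_lt {S : Finset ℕ} {u v : ℕ} (hu : u ∈ S) (h : u < v) : rk S u < rk S v := by
  unfold rk
  apply Finset.card_lt_card
  rw [Finset.ssubset_iff_of_subset]
  · exact ⟨u, by simp [hu, h], by simp⟩
  · intro w hw
    simp only [mem_filter] at hw ⊢
    exact ⟨hw.1, hw.2.trans h⟩

lemma rk_lt_iff {S : Finset ℕ} {u v : ℕ} (hu : u ∈ S) (hv : v ∈ S) : rk S u < rk S v ↔ u < v := by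
  constructor
  · intro h
    by_contra hcon
    rcases lt_or_eq_of_le (not_lt.mp hcon) with h1 | h1
    · exact absurd (rk_lt_of_lt hv h1) (by omega)
    · subst h1
      exact absurd h (lt_irrefl _)
  · exact rk_lt_of_lt hu

lemma rk_inj {S : Finset ℕ} {u v : ℕ} (hu : u ∈ S) (hv : v ∈ S) (h : rk S u = rk S v) : u = v := by
  rcases lt_trichotomy u v with h1 | h1 | h1
  · exact absurd (rk_lt_of_lt hu h1) (by omega)
  · exact h1
  · exact absurd (rk_lt_of_lt hv h1) (by omega)

lemma rk_injOn (S : Finset ℕ) : Set.InjOn (rk S) (S : Set ℕ) := by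
  intro u hu v hv h
  exact rk_inj hu hv h

lemma rk_lt_card {S : Finset ℕ} {v : ℕ} (hv : v ∈ S) : rk S v < S.card := by
  unfold rk
  apply Finset.card_lt_card
  rw [Finset.ssubset_iff_of_subset (Finset.filter_subset _ _)]
  exact ⟨v, hv, by simp⟩

lemma rk_add_two {S : Finset ℕ} {v : ℕ} (hv : v ∈ S) (h1 : v + 1 ∉ S) : rk S (v + 2) = rk S v + 1 := by
  unfold rk
  have : S.filter (fun u => u < v + 2) = insert v (S.filter (fun u => u < v)) := by
    ext w
    simp only [mem_filter, mem_insert]
    constructor
    · rintro ⟨hw, hlt⟩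
      rcases lt_trichotomy w v with h | h | h
      · exact Or.inr ⟨hw, h⟩
      · exact Or.inl h
      · have : w = v + 1 := by omega
        subst this
        exact absurd hw h1
    · rintro (h | h)
      · subst h
        exact ⟨hv, by omega⟩
      · exact ⟨h.1, by omega⟩
  rw [this, Finset.card_insert_of_notMem (by simp)]

lemma card_filter_image {S T : Finset ℕ} (hT : T ⊆ S) {v : ℕ} (hv : v ∈ S) :
    ((T.image (rk S)).filter (fun u => u < rk S v)).card = (T.filter (fun u => u < v)).card := by
  rw [Finset.filter_image, Finset.card_image_of_injOn]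
  · congr 1
    ext u
    simp only [mem_filter]
    constructor
    · rintro ⟨h1, h2⟩
      exact ⟨h1, (rk_lt_iff (hT h1) hv).mp h2⟩
    · rintro ⟨h1, h2⟩
      exact ⟨h1, (rk_lt_iff (hT h1) hv).mpr h2⟩
  · intro a ha b hb hab
    simp only [coe_filter, Set.mem_ofPred_eq] at ha hb
    exact rk_inj (hT ha.1) (hT hb.1) hab

end Pool.Agent.H559.IX.BlocksS

namespace Pool.Agent.H559.IX

open BlocksS

theorem t_blocksS (hh : S_blocks) : S_blocksS := by
  classical
  intro S e n G Gr he hn hgap hex r
  set N := S.card with hN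
  have hdm : N / n * n + N % n = N := Nat.div_add_mod' N n
  have hMn : N % n < n := Nat.mod_lt _ hn
  let Gr' : ℕ → ℕ → Prop := fun J t => ∃ v ∈ S, rk S v = t ∧ (e = 2 → v + 2 ∈ S) ∧ Gr J v
  have key := hh e n (N / n) (N % n) G Gr' he hn (by
    intro i hi J hJ r hr hrn
    obtain ⟨v, hv, hv2, t, k, hrk, h1, h2, h3, h4, hG⟩ := hex i hi J hJ r hr hrn
    exact ⟨t, k, h1, h2, h3, h4, v, hv, hrk, hv2, hG⟩) r
  rw [hdm] at key
  refine le_trans (le_trans ?_ key) ?_
  · -- cardinality comparison
    rw [Nat.cast_le]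
    apply Finset.card_le_card_of_injOn (fun T => T.image (rk S))
    · intro T hT
      simp only [coe_filter, mem_powersetCard, Set.mem_ofPred_eq] at hT
      obtain ⟨⟨hTS, hTr⟩, hblock, hgr⟩ := hT
      simp only [coe_filter, mem_powersetCard, Set.mem_ofPred_eq]
      refine ⟨⟨?_, ?_⟩, ?_, ?_⟩
      · intro x hx
        rw [Finset.mem_image] at hx
        obtain ⟨v, hv, rfl⟩ := hx
        rw [Finset.mem_range]
        exact rk_lt_card (hTS hv)
      · rw [Finset.card_image_of_injOn, hTr]
        exact (rk_injOn S).mono (by exact_mod_cast hTS)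
      · intro i hi
        refine le_trans (Nat.mul_le_mul_left 2 ?_) (hblock i hi)
        rw [Finset.filter_image]
        exact Finset.card_image_le
      · intro t _ htX hGr
        obtain ⟨v, hv, hrk, hv2, hG⟩ := hGr
        have he0 : 0 < e := by rcases he with h | h <;> omega
        have h0 := htX 0 he0
        rw [Nat.add_zero, Finset.mem_image] at h0
        obtain ⟨v0, hv0, hrk0⟩ := h0
        have hvv : v0 = v := rk_inj (hTS hv0) hv (hrk0.trans hrk.symm)
        subst hvv
        subst hrk
        rw [card_filter_image hTS hv] at hG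
        refine hgr v0 hv0 ?_ hG
        intro he2
        have h1 := htX 1 (by omega)
        rw [Finset.mem_image] at h1
        obtain ⟨w, hw, hrkw⟩ := h1
        have h3 := rk_add_two hv (hgap he2 v0 hv)
        have h4 : w = v0 + 2 := rk_inj (hTS hw) (hv2 he2) (hrkw.trans h3.symm)
        subst h4
        exact hw
    · intro T hT T' hT' h
      simp only [coe_filter, mem_powersetCard, Set.mem_ofPred_eq] at hT hT'
      have aux : ∀ A B : Finset ℕ, A ⊆ S → B ⊆ S → A.image (rk S) = B.image (rk S) → A ⊆ B := by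
        intro A B hA hB hAB u hu
        have : rk S u ∈ B.image (rk S) := by
          rw [← hAB]
          exact Finset.mem_image_of_mem _ hu
        rw [Finset.mem_image] at this
        obtain ⟨w, hw, hwu⟩ := this
        have := rk_inj (hB hw) (hA hu) hwu
        subst this
        exact hw
      exact Finset.Subset.antisymm (aux T T' hT.1.1 hT'.1.1 h) (aux T' T hT'.1.1 hT.1.1 h.symm)
  · apply mul_le_mul_of_nonneg_right _ (Nat.cast_nonneg _)
    apply Real.exp_le_exp.mpr
    apply neg_le_neg
    apply div_le_div_of_nonneg_right _ (by positivity)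
    have : ((N % n : ℕ) : ℝ) ≤ n := by exact_mod_cast hMn.le
    linarith

end Pool.Agent.H559.IX
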