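import Pool.Agent.H559.IX.StmP

set_option autoImplicit false

/-! # Index windows of the random sieve: the chain test for the iterated random primes (helper396) -/

open Finset MeasureTheory ProbabilityTheory Filter Topology

namespace Pool.Agent.H559.IX

/-- the chain test with the data `W`: `N 0, ..., N m` are the starting points of the windows -/
def chk (W : Finset ℕ) : ℕ → (ℕ → ℕ) → ℕ → Prop
  | 0, _, j => j ∈ W
  | m + 1, N, j => j ∈ W ∧
      chk W m (fun k => N (k + 1)) (N 1 + (W.filter (fun u => N 0 < u ∧ u ≤ j)).card)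

/-- the iterated indices -/
noncomputable def seqN (A : Set ℕ) (x : ℕ) : ℕ → ℕ
  | 0 => cn A x
  | k + 1 => cn A (seqN A x k)

/-- a finite sequence as an infinite one -/
def extN {m : ℕ} (N : Fin (m + 1) → ℕ) (k : ℕ) : ℕ := if h : k < m + 1 then N ⟨k, h⟩ else 0

/-- the possible windows -/
def Yc (D m x : ℕ) : Finset (Fin (m + 1) → ℕ) :=
  (Fintype.piFinset fun _ : Fin (m + 1) => range (x + 1)).filter
    (fun N => ∀ k, x ≤ N k ^ D ∧ 2 * N k ≤ x)

/-- the union of the windows -/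
def Gc {m : ℕ} (W : ℕ) (N : Fin (m + 1) → ℕ) : Finset ℕ :=
  univ.biUnion fun k => Ioc (N k) (N k + W)

namespace Chk

open Classical in
theorem cn_add (A : Set ℕ) {a v : ℕ} (h : a ≤ v) :
    cn A v = cn A a + ((Ioc a v).filter (fun u => u ∈ A)).card := by
  unfold cn
  rw [← card_union_of_disjoint]
  · congr 1
    ext u
    simp only [mem_union, mem_filter, mem_Icc, mem_Ioc]
    constructor
    · rintro ⟨⟨h1, h2⟩, h3⟩
      rcases le_or_gt u a with h4 | h4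
      · exact Or.inl ⟨⟨h1, h4⟩, h3⟩
      · exact Or.inr ⟨⟨h4, h2⟩, h3⟩
    · rintro (⟨⟨h1, h2⟩, h3⟩ | ⟨⟨h1, h2⟩, h3⟩)
      · exact ⟨⟨h1, h2.trans h⟩, h3⟩
      · exact ⟨⟨by omega, h2⟩, h3⟩
  · rw [disjoint_left]
    intro u hu hu'
    have h1 := (mem_Icc.1 (mem_filter.1 hu).1).2
    have h2 := (mem_Ioc.1 (mem_filter.1 hu').1).1
    omega

open Classical in
/-- the index of an element `v > x` -/
theorem cn_elem {A : Set ℕ} {x v : ℕ} (h : x < v) (hv : v ∈ A) :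
    cn A v = cn A x + ((Ioo x v).filter (fun u => u ∈ A)).card + 1 := by
  rw [cn_add A h.le]
  have e : (Ioc x v).filter (fun u => u ∈ A) = insert v ((Ioo x v).filter (fun u => u ∈ A)) := by
    ext u
    simp only [mem_insert, mem_filter, mem_Ioc, mem_Ioo]
    constructor
    · rintro ⟨⟨h1, h2⟩, h3⟩
      rcases h2.lt_or_eq with h4 | h4
      · exact Or.inr ⟨⟨h1, h4⟩, h3⟩
      · exact Or.inl h4
    · rintro (h1 | ⟨⟨h1, h2⟩, h3⟩)
      · rw [h1]
        exact ⟨⟨h, le_rfl⟩, hv⟩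
      · exact ⟨⟨h1, h2.le⟩, h3⟩
  rw [e, card_insert_of_notMem, add_assoc]
  intro hcon
  exact lt_irrefl _ (mem_Ioo.1 (mem_filter.1 hcon).1).2

/-- **the chain test is correct** -/
theorem chk_iff (A : Set ℕ) (W : Finset ℕ) (L : ℕ) : ∀ (m : ℕ) (N : ℕ → ℕ),
    (∀ k < m, N (k + 1) = cn A (N k)) →
    (∀ k ≤ m, ∀ u, N k < u → u ≤ N k + L → (u ∈ W ↔ u ∈ A)) →
    ∀ j, N 0 < j → j ≤ N 0 + L → (chk W m N j ↔ j ∈ It A m) := by
  classical
  intro m
  induction m with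
  | zero =>
    intro N _ hW j h1 h2
    exact hW 0 le_rfl j h1 h2
  | succ m ih =>
    intro N hN hW j h1 h2
    change (j ∈ W ∧ chk W m (fun k => N (k + 1))
      (N 1 + (W.filter (fun u => N 0 < u ∧ u ≤ j)).card)) ↔ (j ∈ A ∧ cn A j ∈ It A m)
    rw [hW 0 (Nat.zero_le _) j h1 h2]
    refine and_congr_right fun hjA => ?_
    have e : W.filter (fun u => N 0 < u ∧ u ≤ j) = (Ioc (N 0) j).filter (fun u => u ∈ A) := by
      ext u
      rw [mem_filter, mem_filter, mem_Ioc]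
      constructor
      · rintro ⟨h3, h4, h5⟩
        exact ⟨⟨h4, h5⟩, (hW 0 (Nat.zero_le _) u h4 (h5.trans h2)).1 h3⟩
      · rintro ⟨⟨h4, h5⟩, h3⟩
        exact ⟨(hW 0 (Nat.zero_le _) u h4 (h5.trans h2)).2 h3, h4, h5⟩
    have e2 : N 1 + ((Ioc (N 0) j).filter (fun u => u ∈ A)).card = cn A j := by
      rw [cn_add A h1.le, ← hN 0 (Nat.succ_pos m)]
    rw [e, e2]
    refine ih (fun k => N (k + 1)) (fun k hk => hN (k + 1) (by omega))
      (fun k hk => hW (k + 1) (by omega)) (cn A j) ?_ ?_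
    · rw [← e2]
      have h3 : 0 < ((Ioc (N 0) j).filter (fun u => u ∈ A)).card :=
        card_pos.2 ⟨j, mem_filter.2 ⟨mem_Ioc.2 ⟨h1, le_rfl⟩, hjA⟩⟩
      change N 1 < _
      omega
    · rw [← e2]
      have h3 : ((Ioc (N 0) j).filter (fun u => u ∈ A)).card ≤ j - N 0 :=
        (card_filter_le _ _).trans (le_of_eq (Nat.card_Ioc _ _))
      change _ ≤ N 1 + L
      omega

/-- the true windows are admissible -/
theorem seqN_bd {A : Set ℕ} {x0 i x l : ℕ}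
    (h : ∀ y, x0 ≤ y → 2 * cn A y ≤ y ∧ y ^ 2 ≤ cn A y ^ 3) (hl : x0 ≤ l) (hl1 : 1 ≤ l)
    (hx : l ^ (2 ^ (i + 1)) ≤ x) : ∀ k, k ≤ i →
    x ≤ seqN A x k ^ (2 ^ (k + 1)) ∧ 2 * seqN A x k ≤ x ∧ l ≤ seqN A x k := by
  have aux : ∀ y, x0 ≤ y → 1 ≤ y → y ≤ cn A y ^ 2 := by
    intro y hy hy1
    obtain ⟨h1, h2⟩ := h y hy
    have h3 : cn A y ≤ y := by omega
    have h4 : y * y ≤ cn A y ^ 2 * y := by
      calc y * y = y ^ 2 := by ring
        _ ≤ cn A y ^ 3 := h2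
        _ = cn A y ^ 2 * cn A y := by ring
        _ ≤ cn A y ^ 2 * y := Nat.mul_le_mul_left _ h3
    exact Nat.le_of_mul_le_mul_right h4 hy1
  have big : ∀ k, k ≤ i → ∀ M : ℕ, x ≤ M ^ (2 ^ (k + 1)) → l ≤ M := by
    intro k hk M hM
    by_contra hcon
    have h1 : M < l := not_le.1 hcon
    have h2 : M ^ (2 ^ (k + 1)) < l ^ (2 ^ (k + 1)) := Nat.pow_lt_pow_left h1 (by positivity)
    have h3 : l ^ (2 ^ (k + 1)) ≤ l ^ (2 ^ (i + 1)) :=
      Nat.pow_le_pow_right hl1 (Nat.pow_le_pow_right (by norm_num) (by omega))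
    omega
  have hlx : l ≤ x := (Nat.le_self_pow (by positivity) l).trans hx
  intro k
  induction k with
  | zero =>
    intro _
    have h1 : x ≤ seqN A x 0 ^ (2 ^ (0 + 1)) := by
      change x ≤ cn A x ^ (2 ^ 1)
      exact aux x (hl.trans hlx) (hl1.trans hlx)
    exact ⟨h1, (h x (hl.trans hlx)).1, big 0 (Nat.zero_le _) _ h1⟩
  | succ k ih =>
    intro hk
    obtain ⟨h1, h2, h3⟩ := ih (by omega)
    have h4 : seqN A x k ≤ seqN A x (k + 1) ^ 2 := aux _ (hl.trans h3) (hl1.trans h3)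
    have h5 : x ≤ seqN A x (k + 1) ^ (2 ^ (k + 1 + 1)) := by
      calc x ≤ seqN A x k ^ (2 ^ (k + 1)) := h1
        _ ≤ (seqN A x (k + 1) ^ 2) ^ (2 ^ (k + 1)) := Nat.pow_le_pow_left h4 _
        _ = seqN A x (k + 1) ^ (2 ^ (k + 1 + 1)) := by rw [← pow_mul, pow_succ 2 (k + 1), mul_comm]
    refine ⟨h5, ?_, big (k + 1) hk _ h5⟩
    have h6 : 2 * seqN A x (k + 1) ≤ seqN A x k := (h _ (hl.trans h3)).1
    omega

theorem mem_Yc {D m x : ℕ} {N : Fin (m + 1) → ℕ} :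
    N ∈ Yc D m x ↔ ∀ k, x ≤ N k ^ D ∧ 2 * N k ≤ x := by
  unfold Yc
  rw [mem_filter, Fintype.mem_piFinset]
  constructor
  · exact fun h => h.2
  · intro h
    refine ⟨fun k => ?_, h⟩
    have := (h k).2
    rw [mem_range]
    omega

theorem card_Yc (D m x : ℕ) : (Yc D m x).card ≤ (x + 1) ^ (m + 1) := by
  unfold Yc
  refine (card_filter_le _ _).trans (le_of_eq ?_)
  rw [Fintype.card_piFinset]
  simp

theorem mem_Gc {m W u : ℕ} {N : Fin (m + 1) → ℕ} :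
    u ∈ Gc W N ↔ ∃ k, N k < u ∧ u ≤ N k + W := by
  unfold Gc
  rw [mem_biUnion]
  constructor
  · rintro ⟨k, _, hk⟩
    exact ⟨k, mem_Ioc.1 hk⟩
  · rintro ⟨k, hk⟩
    exact ⟨k, mem_univ k, mem_Ioc.2 hk⟩

theorem card_Gc {m : ℕ} (W : ℕ) (N : Fin (m + 1) → ℕ) : (Gc W N).card ≤ (m + 1) * W := by
  unfold Gc
  refine card_biUnion_le.trans ?_
  have h1 : ∀ k ∈ (univ : Finset (Fin (m + 1))), (Ioc (N k) (N k + W)).card ≤ W := by
    intro k _
    rw [Nat.card_Ioc]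
    omega
  refine (sum_le_sum h1).trans (le_of_eq ?_)
  simp

/-- the chain test for the true windows -/
theorem chk_true (A : Set ℕ) (W : Finset ℕ) (L m x : ℕ)
    (hW : ∀ k ≤ m, ∀ u, seqN A x k < u → u ≤ seqN A x k + L → (u ∈ W ↔ u ∈ A)) (j : ℕ)
    (h1 : cn A x < j) (h2 : j ≤ cn A x + L) :
    chk W m (extN fun k : Fin (m + 1) => seqN A x k) j ↔ j ∈ It A m := by
  have e : ∀ k, k ≤ m → extN (fun k : Fin (m + 1) => seqN A x k) k = seqN A x k := by
    intro k hk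
    unfold extN
    rw [dif_pos (by omega)]
  refine chk_iff A W L m _ ?_ ?_ j ?_ ?_
  · intro k hk
    rw [e k hk.le, e (k + 1) hk]
    rfl
  · intro k hk
    rw [e k hk]
    exact hW k hk
  · rw [e 0 (Nat.zero_le _)]
    exact h1
  · rw [e 0 (Nat.zero_le _)]
    exact h2

end Chk

end Pool.Agent.H559.IX
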