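import Pool.Graph.R_pool_sql_team_seeded_707910d6.T2H32.BF.Mom

set_option autoImplicit false

/-! # Exchangeable windows of the random sieve: probabilistic statements -/

open Finset MeasureTheory ProbabilityTheory Filter Topology
open Pool.Agent.T2H32.BF (Model prob cond)

namespace Pool.Agent.H559.IX

/-- the elements of `S` which avoid the classes `b p` of the primes `p ∈ Q` -/
def thin (Q : Finset ℕ) (b : ℕ → ℕ) (S : Finset ℕ) : Finset ℕ := S.filter (fun v => ∀ p ∈ Q, v % p ≠ b p)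

section
variable {Ω : Type*} [MeasurableSpace Ω] {P : Measure Ω} {a : ℕ → Ω → ℕ}

theorem single (h : Model P a) (p : ℕ) (hp : p.Prime) (K : Finset ℕ) (hK : K ⊆ range p) :
    P.real {ω | a p ω ∉ K} = 1 - (K.card : ℝ) / p := by
  have := prob h
  have hm : ∀ r, MeasurableSet {ω | a p ω = r} := fun r => h.measurable p (measurableSet_singleton r)
  have e : {ω | a p ω ∈ K} = ⋃ r ∈ K, {ω | a p ω = r} := by
    ext ω
    simp
  have hmK : MeasurableSet {ω | a p ω ∈ K} := by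
    rw [e]
    exact Finset.measurableSet_biUnion _ fun r _ => hm r
  have h1 : P.real {ω | a p ω ∈ K} = (K.card : ℝ) / p := by
    rw [e, measureReal_biUnion_finset]
    · rw [sum_congr rfl (fun r hr => h.uniform p hp r (mem_range.1 (hK hr))), sum_const, nsmul_eq_mul]
      ring
    · intro r _ r' _ hne
      rw [Function.onFun, Set.disjoint_left]
      intro ω h1 h2
      exact hne ((show a p ω = r from h1).symm.trans h2)
    · exact fun r _ => hm r
  have h2 : {ω | a p ω ∉ K} = {ω | a p ω ∈ K}ᶜ := rfl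
  rw [h2, probReal_compl_eq_one_sub hmK, h1]

theorem avoid (h : Model P a) (L : Finset ℕ) (hL : ∀ p ∈ L, p.Prime) (K : ℕ → Finset ℕ)
    (hK : ∀ p ∈ L, K p ⊆ range p) :
    P.real {ω | ∀ p ∈ L, a p ω ∉ K p} = ∏ p ∈ L, (1 - ((K p).card : ℝ) / p) := by
  have := prob h
  have e : {ω | ∀ p ∈ L, a p ω ∉ K p} = ⋂ p ∈ L, a p ⁻¹' ((K p : Set ℕ)ᶜ) := by
    ext ω
    simp
  have h1 := h.independent.measure_inter_preimage_eq_mul L (sets := fun p => ((K p : Set ℕ)ᶜ))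
    (fun p _ => MeasurableSet.of_discrete)
  rw [measureReal_def, e, h1, ENNReal.toReal_prod]
  refine prod_congr rfl fun p hp => ?_
  exact single h p (hL p hp) (K p) (hK p hp)

end

/-- EXCHANGEABILITY. The classes `a p` are independent and uniform on `0..p-1` (`Model P a`). If the elements of `S`
have different residues modulo every `p ∈ Q`, then `P (thin Q a S = T)` depends only on the cardinality of `T ⊆ S`.
PROOF. For disjoint `T, D ⊆ S` let `q(T,D) = P(T ⊆ thin, D ∩ thin = ∅)`. `q(T,∅) = P(∀ p ∈ Q, a p ∉ {v % p : v ∈ T}) =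
∏_{p ∈ Q} (1 - |T|/p)` by `avoid` (with `K p = T.image (· % p)`, of cardinality `|T|` by injectivity;
`⊆ range p`), it depends only on `|T|`. Induction on `|D|`: `q(T, insert d D) = q(T, D) - q(insert d T, D)`, so `q(T,D)` is a
function of `(|T|,|D|)` only. Take `D = S \ T`: `thin Q a S = T` iff `T ⊆ thin` and `(S \ T) ∩ thin = ∅`. (Measurability:
every `a p` is measurable into `ℕ` (discrete), the events are finite boolean combinations.) -/
def S_exch : Prop := ∀ (Ω : Type) [MeasurableSpace Ω] (P : Measure Ω) (a : ℕ → Ω → ℕ), Model P a →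
  ∀ (Q : Finset ℕ), (∀ p ∈ Q, p.Prime) → ∀ (S : Finset ℕ), (∀ p ∈ Q, Set.InjOn (fun v => v % p) (S : Set ℕ)) →
  ∀ T ⊆ S, ∀ T' ⊆ S, T.card = T'.card →
    P.real {ω | thin Q (fun q => a q ω) S = T} = P.real {ω | thin Q (fun q => a q ω) S = T'}

open Classical in
/-- CONDITIONING. PROOF (from `S_exch` and `Pool.Agent.T2H32.BF.cond`). By `cond h Q' Q` it is enough to fix `b = α` on
`Q'`: then `S`, `G`, `Bad` are fixed (they depend only on the classes on `Q'`). Let `S, G` be disjoint and `T = thin Q a S`,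
`V = thin Q a G`; `thin Q a (S ∪ G) = V ∪ T`. For `V ⊆ G`, `T ⊆ S` the probability `P(thin G = V, thin S = T) =
P(thin (S ∪ G) = V ∪ T)` depends only on `|V| + |T|` by `S_exch`; call it `π(V, |T|)`. So
`P(Bad) = ∑_V ∑_r ∑_{T : |T| = r, Bad V T} π(V,r) ≤ ∑_V ∑_r ε C(|S|,r) π(V,r) = ε ∑_V ∑_T P(V,T) = ε`. -/
def S_pw : Prop := ∀ (Ω : Type) [MeasurableSpace Ω] (P : Measure Ω) (a : ℕ → Ω → ℕ), Model P a →
  ∀ (Q Q' : Finset ℕ), Disjoint Q' Q → (∀ p ∈ Q, p.Prime) →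
  ∀ (S G : (ℕ → ℕ) → Finset ℕ) (Bad : (ℕ → ℕ) → Finset ℕ → Finset ℕ → Prop) (ε : ℝ), 0 ≤ ε →
  (∀ b b' : ℕ → ℕ, (∀ p ∈ Q', b p = b' p) → S b = S b' ∧ G b = G b' ∧ ∀ V T, (Bad b V T ↔ Bad b' V T)) →
  (∀ b, Disjoint (S b) (G b)) → (∀ b, ∀ p ∈ Q, Set.InjOn (fun v => v % p) ((S b ∪ G b : Finset ℕ) : Set ℕ)) →
  (∀ b, ∀ V ⊆ G b, ∀ r, ((((S b).powersetCard r).filter (fun T => Bad b V T)).card : ℝ) ≤ ε * ((S b).card.choose r : ℝ)) →
  P.real {ω | Bad (fun q => a q ω) (thin Q (fun q => a q ω) (G (fun q => a q ω)))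
    (thin Q (fun q => a q ω) (S (fun q => a q ω)))} ≤ ε

open Classical in
/-- UPPER TAIL. PROOF. By `Pool.Agent.T2H32.BF.cond h Q' Q` fix the classes on `Q'`: the blocks `B i` are fixed sets with at
most `n` elements. If `n < 2 * (thin Q a (B i)).card` there is `T ⊆ B i` with `2 |T| ≥ n` (take `|T| = (n + 1) / 2` or so) and
`T ⊆ thin`, and `P(T ⊆ thin) = ∏_{p ∈ Q} (1 - |T|/p) ≤ (∏_{p ∈ Q} (1 - 1/p))^|T| ≤ 64^(-|T|) ≤ 8^(-n)` (`avoid`; Bernoulli
`1 - t/p ≤ (1-1/p)^t`: `one_add_mul_le_pow`); union bound over the at most `2^n` subsets `T` of `B i` and the `K` blocks: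
`K 2^n 8^(-n) = K 4^(-n) ≤ K 2^(-n)`. -/
def S_up : Prop := ∀ (Ω : Type) [MeasurableSpace Ω] (P : Measure Ω) (a : ℕ → Ω → ℕ), Model P a →
  ∀ (Q Q' : Finset ℕ), Disjoint Q' Q → (∀ p ∈ Q, p.Prime) →
  ∀ (K n : ℕ) (B : (ℕ → ℕ) → ℕ → Finset ℕ),
  (∀ b b' : ℕ → ℕ, (∀ p ∈ Q', b p = b' p) → B b = B b') → (∀ b i, (B b i).card ≤ n) →
  (∀ b i, ∀ p ∈ Q, Set.InjOn (fun v => v % p) (B b i : Set ℕ)) → ∏ p ∈ Q, (1 - 1 / (p : ℝ)) ≤ 1 / 64 →
  P.real {ω | ∃ i < K, n < 2 * (thin Q (fun q => a q ω) (B (fun q => a q ω) i)).card} ≤ K * (1 / 2) ^ n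

end Pool.Agent.H559.IX
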