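import Pool.Graph.R_pool_sql_team_seeded_707910d6.T2H32.BF.Mom
import Pool.Graph.R_pool_sql_team_seeded_707910d6.T2H32.BF.Num

set_option autoImplicit false

/-! # Exchangeable windows of the random sieve: the thinning primes -/

open Finset Filter Topology
open Pool.Agent.T2H32.BF (V V_pos V_anti V_ratio mertens)

namespace Pool.Agent.H559.IX

open Classical in
/-- the primes of `(w, zl]` for which the elements of `S` have different residues -/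
noncomputable def Qs (w zl : ℕ) (S : Finset ℕ) : Finset ℕ :=
  (Ioc w zl).filter (fun p => p.Prime ∧ Set.InjOn (fun v => v % p) (S : Set ℕ))

/-- THE THINNING PRIMES. `V m = ∏_{q ≤ m} (1 - 1/q)`. PROOF. Let `w = Λ^(10A)`, `zl = z ⌊x^(1/D)⌋`, `λ = log x`. The exceptional primes `E` (primes `p ∈ (w, zl]` with
`v ≡ v' mod p` for some different `v, v' ∈ S`) number at most `|S|² Λ² ≤ Λ^(8A+2)`: `p` divides `|v - v'| ≤ exp(Λ²)`, which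
has at most `Λ²/log w ≤ Λ²` prime factors `> w` (`w ≥ 3`). So `∑_{p ∈ E} 1/p ≤ Λ^(8A+2)/Λ^(10A) ≤ Λ^(2-2A) ≤ 1/2` (`A ≥ 2`), and
`∏_{p ∈ E} (1 - 1/p) ≥ 1 - ∑ 1/p ≥ 1/2`. Next `∏_{w < p ≤ zl} (1-1/p) = V zl / V w` (`V_ratio`), `V zl ≤ 2 D / λ` eventually
(`V (z u) log u → 1` with `u = ⌊x^(1/D)⌋`, `log u ~ λ/D`), and `V w ≥ c₀ / log w ≥ c₀/(10 A δ λ)` (Mertens:
`Pool.Agent.T2H32.BF.mertens`; `log w = 10 A log Λ ≤ 10 A δ λ`). So the product over `Qs` is at most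
`2 · (2D/λ) (10 A δ λ/c₀) = 40 A D δ/c₀ ≤ 1/64` for small `δ`. (Also `w ≤ zl` eventually, otherwise `V zl ≥ V w` contradicts
these bounds.) -/
def S_theta : Prop := ∀ (D A : ℕ), 1 ≤ D → 2 ≤ A → ∃ δ : ℝ, 0 < δ ∧ ∀ z : ℕ → ℕ, (Monotone z ∧ Tendsto (fun k : ℕ => V (z k) * Real.log k) atTop (𝓝 1)) → ∀ Λ : ℕ → ℕ,
  (∀ᶠ x : ℕ in atTop, Real.log x ≤ Λ x) → (∀ᶠ x : ℕ in atTop, Real.log (Λ x) ≤ δ * Real.log x) →
  ∀ᶠ x : ℕ in atTop, ∀ S : Finset ℕ, S.card ≤ Λ x ^ (4 * A) → (∀ v ∈ S, (v : ℝ) ≤ Real.exp ((Λ x : ℝ) ^ 2)) →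
    ∏ p ∈ Qs (Λ x ^ (10 * A)) (z ⌊(x : ℝ) ^ (1 / (D : ℝ))⌋₊) S, (1 - 1 / (p : ℝ)) ≤ 1 / 64

end Pool.Agent.H559.IX
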