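import Pool.Agent.H559.IX.StmA
import Pool.Agent.H559.IX.StmB
import Pool.Agent.H559.IX.StmC
import Pool.Agent.H559.SQ.Av
import Pool.Agent.H559.BS.Conc
import Pool.Agent.H559.PA.PalF
import Pool.Agent.H559.GU.FinU
import Pool.Agent.H559.US.Fin

set_option autoImplicit false

/-! # Exchangeable windows of the random sieve: definitions -/
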