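import Pool.Agent.H559.IX.StmP

/-! # Index windows of the random sieve: `n = k + m`, `6k ± 1` and `p_m + 2` random primes (by helper747) -/

set_option autoImplicit false
set_option linter.all false

open Finset MeasureTheory ProbabilityTheory Filter Topology
open Pool.Agent.T2H32.BF (Model V V_pos V_anti V_ratio mertens)

namespace Pool.Agent.H559.IX

namespace Ea

/-- the scale -/
noncomputable def La (n : ℕ) : ℕ := 2 * ⌊Real.log n⌋₊ + 2

theorem la_ge (n : ℕ) : 2 * Real.log n ≤ La n := by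
  have h1 := Nat.lt_floor_add_one (Real.log n)
  unfold La
  push_cast
  linarith

theorem la_le {n : ℕ} (h : 1 ≤ Real.log n) : (La n : ℝ) ≤ 4 * Real.log n := by
  have h1 := Nat.floor_le (by linarith : 0 ≤ Real.log n)
  unfold La
  push_cast
  linarith

theorem log_tendsto : Tendsto (fun n : ℕ => Real.log n) atTop atTop :=
  Real.tendsto_log_atTop.comp tendsto_natCast_atTop_atTop

theorem la_tendsto : Tendsto La atTop atTop := by
  rw [← tendsto_natCast_atTop_iff (R := ℝ)]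
  exact tendsto_atTop_mono la_ge (log_tendsto.const_mul_atTop (by norm_num))

theorem poly (K a : ℕ) : ∀ᶠ n : ℕ in atTop, a * La n ^ K ≤ n := by
  have h1 : (fun x : ℝ => Real.log x ^ K) =o[atTop] (id : ℝ → ℝ) := Real.isLittleO_pow_log_id_atTop
  have hc : (0 : ℝ) < 1 / (a * 4 ^ K + 1) := by positivity
  have h2 := tendsto_natCast_atTop_atTop.eventually (h1.def hc)
  filter_upwards [h2, log_tendsto.eventually_ge_atTop 1] with n hn hl
  have h3 : (a : ℝ) * (La n : ℝ) ^ K ≤ n := by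
    have h4 : (La n : ℝ) ^ K ≤ (4 * Real.log n) ^ K :=
      pow_le_pow_left₀ (Nat.cast_nonneg _) (la_le hl) K
    rw [mul_pow] at h4
    have h5 : Real.log n ^ K ≤ 1 / (a * 4 ^ K + 1) * n := by
      have h6 : ‖Real.log (n : ℝ) ^ K‖ ≤ 1 / (a * 4 ^ K + 1) * ‖(n : ℝ)‖ := hn
      rw [Real.norm_of_nonneg (pow_nonneg (by linarith) K),
        Real.norm_of_nonneg (Nat.cast_nonneg n)] at h6
      exact h6
    calc (a : ℝ) * (La n : ℝ) ^ K ≤ a * (4 ^ K * Real.log n ^ K) :=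
          mul_le_mul_of_nonneg_left h4 (Nat.cast_nonneg a)
      _ ≤ a * (4 ^ K * (1 / (a * 4 ^ K + 1) * n)) := by gcongr
      _ = (a * 4 ^ K / (a * 4 ^ K + 1)) * n := by ring
      _ ≤ 1 * n := by
          refine mul_le_mul_of_nonneg_right ?_ (Nat.cast_nonneg n)
          rw [div_le_one (by positivity)]
          linarith
      _ = n := one_mul _
  exact_mod_cast h3

theorem pexp (K : ℕ) (a : ℝ) : ∀ᶠ l : ℕ in atTop, a * (l : ℝ) ^ K ≤ Real.exp l := by
  have h1 : (fun x : ℝ => x ^ K) =o[atTop] Real.exp := Real.isLittleO_pow_exp_atTop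
  have hc : (0 : ℝ) < 1 / (|a| + 1) := by positivity
  have h2 := tendsto_natCast_atTop_atTop.eventually (h1.def hc)
  filter_upwards [h2] with l hl
  have h6 : ‖(l : ℝ) ^ K‖ ≤ 1 / (|a| + 1) * ‖Real.exp l‖ := hl
  rw [Real.norm_of_nonneg (by positivity), Real.norm_of_nonneg (Real.exp_pos _).le] at h6
  calc a * (l : ℝ) ^ K ≤ |a| * (l : ℝ) ^ K :=
        mul_le_mul_of_nonneg_right (le_abs_self a) (by positivity)
    _ ≤ |a| * (1 / (|a| + 1) * Real.exp l) := by gcongr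
    _ = |a| / (|a| + 1) * Real.exp l := by ring
    _ ≤ 1 * Real.exp l := by
        refine mul_le_mul_of_nonneg_right ?_ (Real.exp_pos _).le
        rw [div_le_one (by positivity)]
        linarith
    _ = Real.exp l := one_mul _

theorem expsq {l : ℕ} (h : 2 ≤ l) {y : ℝ} (hy : y ≤ 2 * Real.exp l) :
    y ≤ Real.exp ((l : ℝ) ^ 2) := by
  have h1 : (2 : ℝ) ≤ l := by exact_mod_cast h
  have h2 : (2 : ℝ) ≤ Real.exp l := by
    have := Real.add_one_le_exp (l : ℝ)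
    linarith
  have h3 : Real.exp ((l : ℝ) + l) ≤ Real.exp ((l : ℝ) ^ 2) := Real.exp_le_exp.2 (by nlinarith)
  rw [Real.exp_add] at h3
  have h4 := Real.exp_pos (l : ℝ)
  nlinarith

theorem r0_congr {z : ℕ → ℕ} {c : ℝ} {b b' : ℕ → ℕ} {N : ℕ} (hz : Monotone z) (hN : z N ≤ N)
    (h : ∀ p ≤ N, p.Prime → b p = b' p) {u : ℕ} (hu : u ≤ N) :
    u ∈ R0 z c b ↔ u ∈ R0 z c b' := by
  have key : ∀ q ≤ z u, q.Prime → b q = b' q := fun q hq hp =>
    h q ((hq.trans (hz hu)).trans hN) hp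
  constructor
  · rintro ⟨h1, h2⟩
    refine ⟨h1, fun q hq hp => ?_⟩
    have h3 := h2 q hq hp
    rwa [key q hq hp] at h3
  · rintro ⟨h1, h2⟩
    refine ⟨h1, fun q hq hp => ?_⟩
    have h3 := h2 q hq hp
    rwa [← key q hq hp] at h3

theorem cn_le (A : Set ℕ) (v : ℕ) : cn A v ≤ v := by
  classical
  unfold cn
  refine (card_filter_le _ _).trans ?_
  rw [Nat.card_Icc]
  omega

open Classical in
theorem cn_split {A : Set ℕ} {x v : ℕ} (hxv : x < v) (hv : v ∈ A) :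
    cn A v = cn A x + ((Ioo x v).filter (fun u => u ∈ A)).card + 1 := by
  unfold cn
  have h1 : (Icc 1 v).filter (fun u => u ∈ A) =
      ((Icc 1 x).filter (fun u => u ∈ A) ∪ (Ioo x v).filter (fun u => u ∈ A)) ∪ {v} := by
    ext u
    simp only [mem_union, mem_filter, mem_Icc, mem_Ioo, mem_singleton]
    constructor
    · rintro ⟨⟨h2, h3⟩, h4⟩
      rcases lt_trichotomy u v with h5 | h5 | h5
      · rcases le_or_gt u x with h6 | h6
        · exact Or.inl (Or.inl ⟨⟨h2, h6⟩, h4⟩)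
        · exact Or.inl (Or.inr ⟨⟨h6, h5⟩, h4⟩)
      · exact Or.inr h5
      · omega
    · rintro ((⟨⟨h2, h3⟩, h4⟩ | ⟨⟨h2, h3⟩, h4⟩) | h2)
      · exact ⟨⟨h2, by omega⟩, h4⟩
      · exact ⟨⟨by omega, h3.le⟩, h4⟩
      · rw [h2]
        exact ⟨⟨by omega, le_rfl⟩, hv⟩
  rw [h1, card_union_of_disjoint, card_union_of_disjoint, card_singleton]
  · rw [disjoint_left]
    intro u hu hu'
    rw [mem_filter, mem_Icc] at hu
    rw [mem_filter, mem_Ioo] at hu'
    omega
  · rw [disjoint_singleton_right, mem_union, mem_filter, mem_filter, mem_Icc, mem_Ioo]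
    rintro (⟨⟨_, h2⟩, _⟩ | ⟨⟨_, h2⟩, _⟩) <;> omega

/-- The relation. -/
def Gr (z : ℕ → ℕ) (c : ℝ) (A : ℕ) (l x : ℕ) (M : ℕ) (b : ℕ → ℕ) (V : Finset ℕ) (J v : ℕ) : Prop :=
  ∃ k, 6 * k + 1 ≤ l ^ (10 * A) ∧ 6 * k - 1 ∈ R0 z c b ∧ 6 * k + 1 ∈ R0 z c b ∧ k + J + 1 = M

end Ea

open Ea

theorem t_ea (hm : S_master) (hs : S_sys) (he : S_elem) : S_ea := by
  intro c hc
  obtain ⟨C0, hC0, hsys⟩ := hs c hc
  obtain ⟨A1, hA1⟩ := hm c hc 1 (C0 + 1)
  set A := max A1 (C0 + 5) with hA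
  obtain ⟨κ, hκ⟩ := hA1 A (le_max_left _ _)
  have hAC : C0 + 5 ≤ A := le_max_right _ _
  refine ⟨A + 3, fun z hz Ω _ P a hM => ?_⟩
  obtain ⟨hzk, helem⟩ := he c hc z hz
  have hmas := hκ z hz 2 (Or.inr rfl) ℕ (fun l _ => range (l ^ (A + 3))) (fun _ _ _ => ∅)
    (Gr z c A) (by
      have h1 : Tendsto (fun l : ℕ => l ^ (10 * A)) atTop atTop :=
        tendsto_pow_atTop (by omega)
      filter_upwards [pexp (A + 3) 1, h1.eventually hzk] with l hl1 hl2 x _ _
      refine ⟨?_, fun y _ => ⟨?_, ?_, ?_⟩⟩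
      · rw [card_range]
        push_cast
        rw [one_mul] at hl1 ⊢
        exact hl1
      · rw [card_empty]
        exact Nat.zero_le _
      · intro v hv
        exact absurd hv (Finset.notMem_empty v)
      · intro b b' hb V J v
        constructor
        · rintro ⟨k, h2, h3, h4, h5⟩
          exact ⟨k, h2, (r0_congr hz.1 hl2.le hb (by omega)).1 h3,
            (r0_congr hz.1 hl2.le hb h2).1 h4, h5⟩
        · rintro ⟨k, h2, h3, h4, h5⟩
          exact ⟨k, h2, (r0_congr hz.1 hl2.le hb (by omega)).2 h3,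
            (r0_congr hz.1 hl2.le hb h2).2 h4, h5⟩) Ω P a hM
  filter_upwards [hmas, hsys z hz Ω P a hM, helem Ω P a hM] with ω h1 h2 h3
  obtain ⟨h3a, h3b, h3c⟩ := h3
  set R := R0 z c (fun q => a q ω) with hR
  obtain ⟨x0, hx0⟩ := eventually_atTop.1 h3a
  obtain ⟨v0, hv0⟩ := eventually_atTop.1 h3c
  filter_upwards [la_tendsto.eventually h1, la_tendsto.eventually h2,
    la_tendsto.eventually (pexp (A + 2) 7), la_tendsto.eventually_ge_atTop (v0 + 10),
    poly (A + 2) 2, poly κ 2, eventually_ge_atTop (2 * x0 + 2),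
    log_tendsto.eventually_ge_atTop ((4 : ℝ) ^ (A + 2) + 1)] with n g1 g2 g3 g4 g5 g6 g7 g8
  set l := La n with hl
  have hn0 : 0 < n := by omega
  have hlog4 : (1 : ℝ) ≤ (4 : ℝ) ^ (A + 2) := one_le_pow₀ (by norm_num)
  -- the starting point
  obtain ⟨x, hxR, hx⟩ := h3b (n - l ^ (A + 2)) (by
    have : 0 < l ^ (A + 2) := pow_pos (by omega) _
    omega)
  have hxn : n ≤ 2 * x := by
    have := cn_le R x
    omega
  have hxx0 : x0 ≤ x := by omega
  have hxn2 : x ≤ n ^ 2 := by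
    have h4 := (hx0 x hxx0).2
    have h5 : cn R x ≤ n := by omega
    have h6 : x ^ 2 ≤ n ^ 3 := h4.trans (Nat.pow_le_pow_left h5 3)
    by_contra h7
    push Not at h7
    have h8 : (n ^ 2) ^ 2 < x ^ 2 := Nat.pow_lt_pow_left h7 (by norm_num)
    have h9 : n ^ 3 ≤ (n ^ 2) ^ 2 := by
      rw [← pow_mul]
      exact Nat.pow_le_pow_right hn0 (by norm_num)
    omega
  have hxκ : l ^ κ ≤ x := by omega
  have hxexp : (x : ℝ) ≤ Real.exp l := by
    have h4 : (x : ℝ) ≤ (n : ℝ) ^ 2 := by exact_mod_cast hxn2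
    have h5 : (n : ℝ) ^ 2 = Real.exp (2 * Real.log n) := by
      rw [two_mul, Real.exp_add, Real.exp_log (by exact_mod_cast hn0), sq]
    rw [h5] at h4
    exact h4.trans (Real.exp_le_exp.2 (la_ge n))
  have hl10 : 10 ≤ l := by omega
  have hl1 : 1 ≤ l := by omega
  have hpos : ∀ K : ℕ, 1 ≤ l ^ K := fun K => Nat.one_le_pow _ _ hl1
  have hsucc : ∀ K : ℕ, 10 * l ^ K ≤ l ^ (K + 1) := fun K => by
    rw [pow_succ, mul_comm]
    exact Nat.mul_le_mul_left _ hl10
  have hmono : ∀ {K K' : ℕ}, K ≤ K' → l ^ K ≤ l ^ K' := fun h => Nat.pow_le_pow_right hl1 h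
  have hexpA : (7 : ℝ) * (l : ℝ) ^ (A + 2) ≤ Real.exp l := g3
  have hMr : l ^ (A + 2) ∈ range (l ^ (A + 3)) := by
    rw [mem_range]
    have h4 := hsucc (A + 2)
    have h5 := hpos (A + 2)
    have h6 : A + 2 + 1 = A + 3 := rfl
    rw [h6] at h4
    omega
  have hsuc := g1 x hxκ hxexp (l ^ (A + 2)) hMr (by
    intro u j0 hu1 hu2 hj0
    have e1 := hmono (show C0 ≤ C0 + 1 by omega)
    have e2 := hmono (show C0 + 1 ≤ A by omega)
    have e3 := hsucc A
    have e4 := hsucc (A + 1)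
    have e5 := hpos A
    have e6 := hmono (show A + 3 ≤ 10 * A by omega)
    have e7 := hsucc (A + 2)
    have e8 := hpos C0
    rw [show A + 1 + 1 = A + 2 from rfl] at e4
    rw [show A + 2 + 1 = A + 3 from rfl] at e7
    -- the element `v`
    have hu : (u : ℝ) ≤ Real.exp ((l : ℝ) ^ 2) := by
      refine expsq (by omega) ?_
      have h4 : u ≤ x + l ^ (A + 2) := by omega
      have h5 : (u : ℝ) ≤ x + (l : ℝ) ^ (A + 2) := by exact_mod_cast h4
      have h6 : (0 : ℝ) ≤ (l : ℝ) ^ (A + 2) := by positivity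
      linarith
    have h2e : ((2 : ℕ) : ℝ) ≤ Real.exp ((l : ℝ) ^ 2) := by
      refine expsq (by omega) ?_
      have := Real.one_le_exp (Nat.cast_nonneg (α := ℝ) l)
      push_cast
      linarith
    obtain ⟨v, hvR, hv1, hv2, hv3⟩ := (g2 u hu).1 2 h2e (by decide)
    refine ⟨v, hvR, hv1, by omega, fun _ => hv3, ?_⟩
    -- the element `v'`
    obtain ⟨K1, hK1⟩ : ∃ K1, K1 = l ^ (A + 2) - 1 - j0 - l ^ (C0 + 1) := ⟨_, rfl⟩
    have hK2 : K1 + 1 + j0 + l ^ (C0 + 1) = l ^ (A + 2) := by omega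
    have hK3 : l ^ A ≤ K1 := by omega
    have hu' : ((6 * K1 : ℕ) : ℝ) ≤ Real.exp ((l : ℝ) ^ 2) := by
      refine expsq (by omega) ?_
      have h4 : 6 * K1 ≤ 7 * l ^ (A + 2) := by omega
      have h5 : ((6 * K1 : ℕ) : ℝ) ≤ 7 * (l : ℝ) ^ (A + 2) := by exact_mod_cast h4
      have h6 := Real.exp_pos (l : ℝ)
      linarith
    obtain ⟨v', hvR', hv1', hv2', hv3'⟩ := (g2 (6 * K1) hu').1 2 h2e (by decide)
    have hl5 : l ≤ l ^ A := by
      have := hmono (show 1 ≤ A by omega)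
      rwa [pow_one] at this
    have hvv0 : v0 ≤ v' := by omega
    have m1 := hv0 v' hvv0 hvR'
    have m2 := hv0 (v' + 2) (by omega) hv3'
    obtain ⟨k, hk⟩ : ∃ k, v' + 1 = 6 * k := ⟨(v' + 1) / 6, by omega⟩
    have hv'k : v' = 6 * k - 1 := by omega
    have hv'k2 : v' + 2 = 6 * k + 1 := by omega
    refine ⟨l ^ (A + 2) - 1 - k, by omega, by omega, k, ?_, ?_, ?_, ?_⟩
    · omega
    · rw [← hv'k]
      exact hvR'
    · rw [← hv'k2]
      exact hv3'
    · omega)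
  obtain ⟨v, hvR, hv1, hv2, hv3, k, hk1, hk2, hk3, hk4⟩ := hsuc
  refine ⟨k, v, ?_, ?_, hk2, hk3, hvR, hv3 rfl, ?_⟩
  · have h4 := hk2.1
    omega
  · have h4 : k ≤ l ^ (A + 2) := by omega
    have h5 : (k : ℝ) ≤ (l : ℝ) ^ (A + 2) := by exact_mod_cast h4
    have h6 : (l : ℝ) ^ (A + 2) ≤ (4 * Real.log n) ^ (A + 2) :=
      pow_le_pow_left₀ (Nat.cast_nonneg _) (la_le (by linarith)) _
    rw [mul_pow] at h6
    have h7 : (4 : ℝ) ^ (A + 2) * Real.log n ^ (A + 2) ≤ Real.log n ^ (A + 3) := by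
      rw [pow_succ (Real.log n) (A + 2), mul_comm]
      exact mul_le_mul_of_nonneg_left (by linarith) (pow_nonneg (by linarith) _)
    linarith
  · rw [cn_split hv1 hvR, hx]
    have h5 := hpos (A + 2)
    omega

end Pool.Agent.H559.IX
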