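import Pool.Agent.H559.IX.StmM

set_option autoImplicit false

/-! # Elementary facts on the random primes (helper630) -/

open Finset MeasureTheory ProbabilityTheory Filter Topology
open Pool.Agent.T2H32.BF (Model V V_pos V_anti V_ratio mertens)

namespace Pool.Agent.H559.IX.Elem

open Pool.Agent.H559.IX

theorem z_lt {z : ℕ → ℕ} (hz : Lim z) : ∀ᶠ k : ℕ in atTop, z k < k := by
  have h1 : Real.exp (-Real.eulerMascheroniConstant) < 1 := by
    rw [Real.exp_lt_one_iff]
    have := Real.one_half_lt_eulerMascheroniConstant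
    linarith
  obtain ⟨m, hm1, hm2⟩ := exists_between h1
  have e1 : ∀ᶠ k : ℕ in atTop, m < V (z k) * Real.log k := hz.2.eventually (lt_mem_nhds hm2)
  have e2 : ∀ᶠ k : ℕ in atTop, V k * Real.log k < m := mertens.eventually (gt_mem_nhds hm1)
  filter_upwards [e1, e2] with k h3 h4
  by_contra h
  push Not at h
  have h5 := V_anti h
  have hl : 0 ≤ Real.log k := Real.log_natCast_nonneg k
  have h6 := mul_le_mul_of_nonneg_right h5 hl
  linarith

theorem z_large {z : ℕ → ℕ} (hz : Lim z) (K : ℕ) : ∀ᶠ k : ℕ in atTop, K < z k := by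
  have e1 : ∀ᶠ k : ℕ in atTop, V (z k) * Real.log k < 2 := hz.2.eventually (gt_mem_nhds (by norm_num))
  have e2 : ∀ᶠ k : ℕ in atTop, 2 / V K < Real.log k :=
    (Real.tendsto_log_atTop.comp tendsto_natCast_atTop_atTop).eventually (eventually_gt_atTop _)
  filter_upwards [e1, e2] with k h1 h2
  by_contra h
  push Not at h
  have h3 := V_anti h
  have h4 := V_pos K
  rw [div_lt_iff₀ h4] at h2
  have h5 : 0 ≤ Real.log k := Real.log_natCast_nonneg k
  have h6 := mul_le_mul_of_nonneg_left h3 h5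
  nlinarith

theorem mod6 {z : ℕ → ℕ} (hz : Lim z) {c : ℝ} (hc : 1 < c) :
    ∃ v0 : ℕ, ∀ b : ℕ → ℕ, ∀ v, v0 ≤ v → v ∈ R0 z c b → v % 6 = 1 ∨ v % 6 = 5 := by
  have e2 : ∀ᶠ k : ℕ in atTop, (3 : ℝ) ≤ Real.log k :=
    (Real.tendsto_log_atTop.comp tendsto_natCast_atTop_atTop).eventually (eventually_ge_atTop _)
  obtain ⟨v0, h0⟩ := eventually_atTop.1 ((z_large hz 3).and e2)
  refine ⟨v0, fun b v hv hR => ?_⟩
  obtain ⟨h1, h2⟩ := h0 v hv
  have h3 : (3 : ℝ) ≤ Real.log v ^ c := by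
    calc (3 : ℝ) ≤ Real.log v := h2
      _ = Real.log v ^ (1 : ℝ) := (Real.rpow_one _).symm
      _ ≤ Real.log v ^ c := Real.rpow_le_rpow_of_exponent_le (by linarith) hc.le
  have h4 := hR.2 2 (by omega) Nat.prime_two
  have h5 := hR.2 3 (by omega) Nat.prime_three
  rw [if_pos (by push_cast; linarith)] at h4
  rw [if_pos (by push_cast; linarith)] at h5
  omega

theorem cn_upper (A : Set ℕ) (v0 x : ℕ) (h : ∀ v, v0 ≤ v → v ∈ A → v % 6 = 1 ∨ v % 6 = 5) :
    cn A x ≤ v0 + (x / 3 + 1) := by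
  classical
  unfold cn
  have h1 : (Icc 1 x).filter (fun u => u ∈ A) ⊆
      range v0 ∪ (range (x + 1)).filter (fun u => u % 6 = 1 ∨ u % 6 = 5) := by
    intro u hu
    rw [mem_filter, mem_Icc] at hu
    rw [mem_union, mem_range, mem_filter, mem_range]
    by_cases h2 : u < v0
    · exact Or.inl h2
    · exact Or.inr ⟨by omega, h u (by omega) hu.2⟩
  have h2 : ((range (x + 1)).filter (fun u => u % 6 = 1 ∨ u % 6 = 5)).card ≤ (range (x / 3 + 1)).card := by
    refine card_le_card_of_injOn (fun u => u / 3) ?_ ?_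
    · intro u hu
      have h3 := mem_filter.1 (mem_coe.1 hu)
      have h4 := mem_range.1 h3.1
      exact mem_coe.2 (mem_range.2 (by show u / 3 < x / 3 + 1; omega))
    · intro u hu v hv h5
      have h3 := (mem_filter.1 (mem_coe.1 hu)).2
      have h4 := (mem_filter.1 (mem_coe.1 hv)).2
      have h6 : u / 3 = v / 3 := h5
      omega
  rw [card_range] at h2
  calc _ ≤ _ := card_le_card h1
    _ ≤ _ := card_union_le _ _
    _ ≤ _ := by rw [card_range]; omega

theorem cn_lower (A : Set ℕ) (x L J : ℕ) (hL : J * L ≤ x) 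
    (h : ∀ j < J, ∃ v ∈ A, j * L < v ∧ v ≤ j * L + L) : J ≤ cn A x := by
  classical
  choose f hf1 hf2 hf3 using h
  have h1 : (range J).card ≤ ((Icc 1 x).filter (fun u => u ∈ A)).card := by
    refine card_le_card_of_injOn (fun j => if hj : j < J then f j hj else 0) ?_ ?_
    · intro j hj
      have hj' : j < J := mem_range.1 (mem_coe.1 hj)
      simp only [dif_pos hj']
      refine mem_coe.2 (mem_filter.2 ⟨mem_Icc.2 ⟨?_, ?_⟩, hf1 j hj'⟩)
      · have := hf2 j hj'
        omega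
      · have h3 := hf3 j hj'
        have h4 : (j + 1) * L ≤ J * L := Nat.mul_le_mul_right _ hj'
        have h5 : (j + 1) * L = j * L + L := by ring
        omega
    · intro i hi j hj hij
      have hi' : i < J := mem_range.1 (mem_coe.1 hi)
      have hj' : j < J := mem_range.1 (mem_coe.1 hj)
      simp only [dif_pos hi', dif_pos hj'] at hij
      have a1 := hf2 i hi'
      have a2 := hf3 i hi'
      have b1 := hf2 j hj'
      have b2 := hf3 j hj'
      rcases lt_trichotomy i j with h | h | h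
      · have h4 : (i + 1) * L ≤ j * L := Nat.mul_le_mul_right _ h
        have h5 : (i + 1) * L = i * L + L := by ring
        omega
      · exact h
      · have h4 : (j + 1) * L ≤ i * L := Nat.mul_le_mul_right _ h
        have h5 : (j + 1) * L = j * L + L := by ring
        omega
  rw [card_range] at h1
  exact h1

theorem cn_zero (A : Set ℕ) : cn A 0 = 0 := by
  classical
  unfold cn
  rw [Icc_eq_empty (by omega)]
  rfl

theorem cn_succ (A : Set ℕ) (v : ℕ) : cn A (v + 1) ≤ cn A v + 1 ∧ (v + 1 ∉ A → cn A (v + 1) = cn A v) := by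
  classical
  unfold cn
  have h1 : Icc 1 (v + 1) = insert (v + 1) (Icc 1 v) := by
    ext u
    rw [mem_insert, mem_Icc, mem_Icc]
    omega
  constructor
  · rw [h1, filter_insert]
    split_ifs with h2
    · exact card_insert_le _ _
    · omega
  · intro h2
    rw [h1, filter_insert, if_neg h2]

theorem cn_surj (A : Set ℕ) (h : ∀ n, ∃ x, n ≤ cn A x) (n : ℕ) (hn : 1 ≤ n) : ∃ v ∈ A, cn A v = n := by
  classical
  have h1 := Nat.find_spec (h n)
  have h2 : ∀ m, m < Nat.find (h n) → ¬ n ≤ cn A m := fun m hm => Nat.find_min (h n) hm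
  rcases hv : Nat.find (h n) with _ | w
  · rw [hv, cn_zero] at h1
    omega
  · rw [hv] at h1 h2
    have h3 := h2 w (Nat.lt_succ_self w)
    have h4 := cn_succ A w
    refine ⟨w + 1, ?_, ?_⟩
    · by_contra h5
      have := h4.2 h5
      omega
    · omega

theorem growth (C : ℕ) : ∀ᶠ x : ℕ in atTop, 8 * (Nat.log 2 x + 1) ^ (3 * C) ≤ x := by
  have h1 := tendsto_pow_const_div_const_pow_of_one_lt (3 * C) (show (1 : ℝ) < 2 by norm_num)
  have h2 : ∀ᶠ n : ℕ in atTop, (n : ℝ) ^ (3 * C) / 2 ^ n < 1 / 16 := h1.eventually (gt_mem_nhds (by norm_num))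
  have h3 : ∀ᶠ n : ℕ in atTop, 16 * n ^ (3 * C) ≤ 2 ^ n := by
    filter_upwards [h2] with n hn
    rw [div_lt_iff₀ (by positivity)] at hn
    have h4 : (16 : ℝ) * (n : ℝ) ^ (3 * C) ≤ 2 ^ n := by linarith
    exact_mod_cast h4
  obtain ⟨n0, hn0⟩ := eventually_atTop.1 h3
  filter_upwards [eventually_ge_atTop (2 ^ n0)] with x hx
  have hx0 : x ≠ 0 := by
    have : 0 < 2 ^ n0 := by positivity
    omega
  have h4 : n0 ≤ Nat.log 2 x := Nat.le_log_of_pow_le (by norm_num) hx
  have h5 := hn0 (Nat.log 2 x + 1) (by omega)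
  have h6 : 2 ^ (Nat.log 2 x) ≤ x := Nat.pow_log_le_self 2 hx0
  rw [pow_succ] at h5
  omega

end Pool.Agent.H559.IX.Elem

namespace Pool.Agent.H559.IX

open Elem

theorem t_elem (hh : S_sys) : S_elem := by
  intro c hc z hz
  refine ⟨z_lt hz, ?_⟩
  intro Ω _ P a hM
  obtain ⟨C, hC1, hC⟩ := hh c hc
  filter_upwards [hC z hz Ω P a hM] with ω hω
  set R := R0 z c (fun q => a q ω) with hR
  obtain ⟨v0, hv0⟩ := mod6 hz hc
  have hmod : ∀ v, v0 ≤ v → v ∈ R → v % 6 = 1 ∨ v % 6 = 5 := fun v h1 h2 => hv0 _ v h1 h2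
  have hup : ∀ᶠ x : ℕ in atTop, 2 * cn R x ≤ x := by
    filter_upwards [eventually_ge_atTop (6 * v0 + 12)] with x hx
    have := cn_upper R v0 x hmod
    omega
  have hlo : ∀ᶠ x : ℕ in atTop, x ^ 2 ≤ cn R x ^ 3 := by
    obtain ⟨L0, hL0⟩ := eventually_atTop.1 hω
    filter_upwards [growth C, eventually_ge_atTop (2 ^ L0)] with x hx1 hx2
    set L := Nat.log 2 x + 1 with hL
    have hLL : L0 ≤ L := by
      have : L0 ≤ Nat.log 2 x := Nat.le_log_of_pow_le (by norm_num) hx2
      omega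
    have hL1 : 1 ≤ L := by omega
    have hxL : (x : ℝ) ≤ Real.exp ((L : ℝ) ^ 2) := by
      have h1 : x < 2 ^ L := Nat.lt_pow_succ_log_self (by norm_num) x
      have h2 : (x : ℝ) ≤ 2 ^ L := by exact_mod_cast h1.le
      have h3 : (2 : ℝ) ^ L ≤ Real.exp 1 ^ L := by
        refine pow_le_pow_left₀ (by norm_num) ?_ _
        have := Real.add_one_le_exp (1 : ℝ)
        linarith
      have h4 : Real.exp 1 ^ L = Real.exp L := by
        rw [← Real.exp_nat_mul, mul_one]
      have h5 : Real.exp (L : ℝ) ≤ Real.exp ((L : ℝ) ^ 2) := by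
        refine Real.exp_le_exp.2 ?_
        have : (1 : ℝ) ≤ L := by exact_mod_cast hL1
        nlinarith
      linarith
    have hLC : 0 < L ^ C := by positivity
    have hJ : x / L ^ C ≤ cn R x := by
      refine cn_lower R x (L ^ C) (x / L ^ C) (Nat.div_mul_le_self _ _) ?_
      intro j hj
      have h1 : j * L ^ C ≤ x := le_trans (Nat.mul_le_mul_right _ hj.le) (Nat.div_mul_le_self _ _)
      have h2 : ((j * L ^ C : ℕ) : ℝ) ≤ Real.exp ((L : ℝ) ^ 2) := by
        have : ((j * L ^ C : ℕ) : ℝ) ≤ x := by exact_mod_cast h1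
        linarith
      obtain ⟨v, hv1, hv2, hv3, -⟩ := (hL0 L hLL (j * L ^ C) h2).1 0 (by push_cast; positivity) (by decide)
      exact ⟨v, hv1, hv2, hv3⟩
    have h8 : 8 * (L ^ C) ^ 3 ≤ x := by
      rw [← pow_mul, mul_comm C 3]
      exact hx1
    have hxl : L ^ C ≤ x := by
      have h9 : L ^ C ≤ (L ^ C) ^ 3 := Nat.le_self_pow (by norm_num) _
      omega
    have hq : x ≤ 2 * (x / L ^ C * L ^ C) := by
      have h10 : 1 ≤ x / L ^ C := (Nat.one_le_div_iff hLC).2 hxl
      have h11 : x < x / L ^ C * L ^ C + L ^ C := Nat.lt_div_mul_add hLC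
      have h12 : L ^ C ≤ x / L ^ C * L ^ C := Nat.le_mul_of_pos_left _ h10
      omega
    have h13 : x ^ 3 ≤ (2 * (x / L ^ C * L ^ C)) ^ 3 := Nat.pow_le_pow_left hq 3
    have h14 : (2 * (x / L ^ C * L ^ C)) ^ 3 = (x / L ^ C) ^ 3 * (8 * (L ^ C) ^ 3) := by ring
    have h15 : (x / L ^ C) ^ 3 * (8 * (L ^ C) ^ 3) ≤ cn R x ^ 3 * x :=
      Nat.mul_le_mul (Nat.pow_le_pow_left hJ 3) h8
    have hx0 : 0 < x := by omega
    have h16 : x ^ 2 * x ≤ cn R x ^ 3 * x := by
      calc x ^ 2 * x = x ^ 3 := by ring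
        _ ≤ _ := h13
        _ = _ := h14
        _ ≤ _ := h15
    exact Nat.le_of_mul_le_mul_right h16 hx0
  refine ⟨hup.and hlo, ?_, ?_⟩
  · refine cn_surj R ?_
    intro n
    obtain ⟨x, hx1, hx2⟩ := (hlo.and (eventually_ge_atTop (n ^ 2 + 1))).exists
    refine ⟨x, ?_⟩
    by_contra h
    push Not at h
    have h1 : cn R x ^ 3 ≤ n ^ 3 := Nat.pow_le_pow_left h.le 3
    have h2 : (n ^ 2 + 1) ^ 2 ≤ x ^ 2 := Nat.pow_le_pow_left hx2 2
    have h3 : n ^ 3 < (n ^ 2 + 1) ^ 2 := by nlinarith [sq_nonneg (n : ℤ), Nat.zero_le n, Nat.zero_le (n ^ 2), Nat.zero_le (n ^ 4)]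
    omega
  · exact eventually_atTop.2 ⟨v0, hmod⟩

end Pool.Agent.H559.IX
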