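import Pool.Agent.H559.IX.StmB

set_option autoImplicit false

/-! # Exchangeability of the survivors of the random sieve -/

open Finset MeasureTheory ProbabilityTheory Filter Topology
open Pool.Agent.T2H32.BF (Model prob cond)

namespace Pool.Agent.H559.IX.Exch

variable {Ω : Type} [MeasurableSpace Ω] {P : Measure Ω} {a : ℕ → Ω → ℕ}

/-- the event that `v` survives -/
def O (a : ℕ → Ω → ℕ) (Q : Finset ℕ) (v : ℕ) : Set Ω := {ω | ∀ p ∈ Q, v % p ≠ a p ω}

/-- all elements of `T` survive, no element of `D` survives -/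
def E (a : ℕ → Ω → ℕ) (Q T D : Finset ℕ) : Set Ω :=
  {ω | (∀ v ∈ T, ω ∈ O a Q v) ∧ ∀ v ∈ D, ω ∉ O a Q v}

theorem O_meas (h : Model P a) (Q : Finset ℕ) (v : ℕ) : MeasurableSet (O a Q v) := by
  have e : O a Q v = ⋂ p ∈ Q, (a p) ⁻¹' ({v % p}ᶜ) := by
    ext ω
    simp only [O, Set.mem_ofPred_eq, Set.mem_iInter, Set.mem_preimage, Set.mem_compl_iff,
      Set.mem_singleton_iff]
    exact ⟨fun h p hp he => h p hp he.symm, fun h p hp he => h p hp he.symm⟩
  rw [e]
  exact Finset.measurableSet_biInter _ fun p _ => h.measurable p MeasurableSet.of_discrete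

theorem E_meas (h : Model P a) (Q T D : Finset ℕ) : MeasurableSet (E a Q T D) := by
  have e : E a Q T D = (⋂ v ∈ T, O a Q v) ∩ (⋂ v ∈ D, (O a Q v)ᶜ) := by
    ext ω
    simp [E]
  rw [e]
  exact (Finset.measurableSet_biInter _ fun v _ => O_meas h Q v).inter
    (Finset.measurableSet_biInter _ fun v _ => (O_meas h Q v).compl)

theorem E_empty (h : Model P a) (Q : Finset ℕ) (hQ : ∀ p ∈ Q, p.Prime) (T : Finset ℕ)
    (hT : ∀ p ∈ Q, Set.InjOn (fun v => v % p) (T : Set ℕ)) :
    P.real (E a Q T ∅) = ∏ p ∈ Q, (1 - (T.card : ℝ) / p) := by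
  have h1 := avoid h Q hQ (fun p => T.image (fun v => v % p)) (fun p hp => by
    intro r hr
    obtain ⟨v, _, rfl⟩ := mem_image.1 hr
    exact mem_range.2 (Nat.mod_lt _ (hQ p hp).pos))
  have e : E a Q T ∅ = {ω | ∀ p ∈ Q, a p ω ∉ T.image (fun v => v % p)} := by
    ext ω
    simp only [E, O, Set.mem_ofPred_eq, notMem_empty, false_imp_iff, implies_true, and_true,
      mem_image, not_exists, not_and]
    exact ⟨fun h p hp v hv he => h v hv p hp he, fun h v hv p hp he => h p hp v hv he⟩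
  rw [e, h1]
  exact prod_congr rfl fun p hp => by rw [card_image_of_injOn (hT p hp)]

theorem E_step (h : Model P a) (Q T D : Finset ℕ) (d : ℕ) :
    P.real (E a Q T (insert d D)) = P.real (E a Q T D) - P.real (E a Q (insert d T) D) := by
  have := prob h
  have e : E a Q T (insert d D) = E a Q T D \ E a Q (insert d T) D := by
    ext ω
    simp only [E, Set.mem_ofPred_eq, Set.mem_sdiff, mem_insert, forall_eq_or_imp]
    tauto
  rw [e, measureReal_sdiff ?_ (E_meas h Q (insert d T) D)]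
  rintro ω ⟨h1, h2⟩
  exact ⟨fun v hv => h1 v (mem_insert_of_mem hv), h2⟩

theorem E_card (h : Model P a) (Q : Finset ℕ) (hQ : ∀ p ∈ Q, p.Prime) (S : Finset ℕ)
    (hS : ∀ p ∈ Q, Set.InjOn (fun v => v % p) (S : Set ℕ)) (n : ℕ) :
    ∀ m : ℕ, ∃ c : ℝ, ∀ T ⊆ S, ∀ D ⊆ S, Disjoint T D → T.card = m → D.card = n →
      P.real (E a Q T D) = c := by
  induction n with
  | zero =>
    intro m
    refine ⟨∏ p ∈ Q, (1 - (m : ℝ) / p), fun T hT D _ _ hm hD0 => ?_⟩
    rw [card_eq_zero.1 hD0, E_empty h Q hQ T (fun p hp => (hS p hp).mono (by exact_mod_cast hT)), hm]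
  | succ n ih =>
    intro m
    obtain ⟨c1, h1⟩ := ih m
    obtain ⟨c2, h2⟩ := ih (m + 1)
    refine ⟨c1 - c2, fun T hT D hD hd hm hDn => ?_⟩
    obtain ⟨d, D', hdD', rfl, hD'⟩ := card_eq_succ.1 hDn
    have hdT : d ∉ T := fun h3 => disjoint_left.1 hd h3 (mem_insert_self _ _)
    have hdS : d ∈ S := hD (mem_insert_self _ _)
    have hD'S : D' ⊆ S := (subset_insert _ _).trans hD
    have hTD' : Disjoint T D' := disjoint_of_subset_right (subset_insert _ _) hd
    rw [E_step h, h1 T hT D' hD'S hTD' hm hD',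
      h2 (insert d T) (insert_subset hdS hT) D' hD'S (disjoint_insert_left.2 ⟨hdD', hTD'⟩)
        (by rw [card_insert_of_notMem hdT, hm]) hD']

omit [MeasurableSpace Ω] in
theorem thin_eq (Q S T : Finset ℕ) (hT : T ⊆ S) :
    {ω | thin Q (fun q => a q ω) S = T} = E a Q T (S \ T) := by
  ext ω
  simp only [E, O, Set.mem_ofPred_eq, Finset.mem_sdiff]
  constructor
  · intro h1
    constructor
    · intro v hv p hp
      rw [← h1] at hv
      exact (mem_filter.1 hv).2 p hp
    · rintro v ⟨hvS, hvT⟩ h2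
      apply hvT
      rw [← h1]
      exact mem_filter.2 ⟨hvS, h2⟩
  · rintro ⟨h1, h2⟩
    ext v
    rw [thin, mem_filter]
    constructor
    · rintro ⟨hvS, h3⟩
      by_contra hvT
      exact h2 v ⟨hvS, hvT⟩ h3
    · intro hv
      exact ⟨hT hv, fun p hp => h1 v hv p hp⟩

end Pool.Agent.H559.IX.Exch

namespace Pool.Agent.H559.IX

theorem t_exch : S_exch := by
  intro Ω _ P a h Q hQ S hS T hT T' hT' hc
  obtain ⟨c, h1⟩ := Exch.E_card h Q hQ S hS (S.card - T.card) T.card
  rw [Exch.thin_eq Q S T hT, Exch.thin_eq Q S T' hT',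
    h1 T hT (S \ T) sdiff_subset disjoint_sdiff rfl (card_sdiff_of_subset hT),
    h1 T' hT' (S \ T') sdiff_subset disjoint_sdiff hc.symm
      (by rw [card_sdiff_of_subset hT', hc])]

end Pool.Agent.H559.IX
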