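import Pool.Agent.H559.IX.StmP

set_option autoImplicit false
set_option linter.all false

open Finset MeasureTheory ProbabilityTheory Filter Topology
open Pool.Agent.T2H32.BF (Model V V_pos V_anti V_ratio mertens)

namespace Pool.Agent.H559.IX.F04e

open Pool.Agent.H559.IX

theorem cn_mono (A : Set ℕ) {v w : ℕ} (h : v ≤ w) : cn A v ≤ cn A w := by
  classical
  unfold cn
  exact Finset.card_le_card (Finset.filter_subset_filter _ (Finset.Icc_subset_Icc le_rfl h))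

theorem cn_le (A : Set ℕ) (v : ℕ) : cn A v ≤ v := by
  classical
  unfold cn
  refine (Finset.card_filter_le _ _).trans ?_
  simp

open Classical in
theorem cn_step (A : Set ℕ) {x v : ℕ} (hxv : x < v) (hv : v ∈ A) :
    cn A v = cn A x + ((Ioo x v).filter (fun u => u ∈ A)).card + 1 := by
  unfold cn
  have h : (Icc 1 v).filter (fun u => u ∈ A) =
      ((Icc 1 x).filter (fun u => u ∈ A) ∪ (Ioo x v).filter (fun u => u ∈ A)) ∪ {v} := by
    ext u
    simp only [mem_filter, mem_union, mem_Icc, mem_Ioo, mem_singleton]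
    constructor
    · rintro ⟨⟨h1, h2⟩, h3⟩
      rcases Nat.lt_or_ge x u with h | h
      · rcases Nat.lt_or_ge u v with h' | h'
        · left; right; exact ⟨⟨h, h'⟩, h3⟩
        · right; omega
      · left; left; exact ⟨⟨h1, h⟩, h3⟩
    · rintro ((⟨⟨h1, h2⟩, h3⟩ | ⟨⟨h1, h2⟩, h3⟩) | rfl)
      · exact ⟨⟨h1, by omega⟩, h3⟩
      · exact ⟨⟨by omega, by omega⟩, h3⟩
      · exact ⟨⟨by omega, le_rfl⟩, hv⟩
  have hd1 : Disjoint ((Icc 1 x).filter (fun u => u ∈ A)) ((Ioo x v).filter (fun u => u ∈ A)) := by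
    rw [Finset.disjoint_left]
    intro u h1 h2
    rw [mem_filter, mem_Icc] at h1
    rw [mem_filter, mem_Ioo] at h2
    omega
  have hd2 : Disjoint ((Icc 1 x).filter (fun u => u ∈ A) ∪ (Ioo x v).filter (fun u => u ∈ A))
      ({v} : Finset ℕ) := by
    rw [Finset.disjoint_left]
    intro u h1 h2
    rw [mem_union, mem_filter, mem_filter, mem_Icc, mem_Ioo] at h1
    rw [mem_singleton] at h2
    omega
  rw [h, card_union_of_disjoint hd2, card_union_of_disjoint hd1, card_singleton]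

theorem cn_lt (A : Set ℕ) {x v : ℕ} (hxv : x < v) (hv : v ∈ A) : cn A x < cn A v := by
  rw [cn_step A hxv hv]
  omega

theorem cn_sub (A : Set ℕ) {v w : ℕ} (h : v ≤ w) : cn A w ≤ cn A v + (w - v) := by
  classical
  unfold cn
  have hs : (Icc 1 w).filter (fun u => u ∈ A) ⊆ (Icc 1 v).filter (fun u => u ∈ A) ∪ Ioc v w := by
    intro u hu
    rw [mem_filter, mem_Icc] at hu
    rw [mem_union, mem_filter, mem_Icc, mem_Ioc]
    rcases Nat.lt_or_ge v u with h' | h'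
    · right; exact ⟨h', hu.1.2⟩
    · left; exact ⟨⟨hu.1.1, h'⟩, hu.2⟩
  refine (Finset.card_le_card hs).trans ((Finset.card_union_le _ _).trans ?_)
  rw [Nat.card_Ioc]

theorem cn_congr (A B : Set ℕ) (v : ℕ) (h : ∀ u ≤ v, u ∈ A ↔ u ∈ B) : cn A v = cn B v := by
  classical
  unfold cn
  congr 1
  apply Finset.filter_congr
  intro u hu
  rw [mem_Icc] at hu
  exact h u hu.2

theorem R0_congr (z : ℕ → ℕ) (c : ℝ) (b b' : ℕ → ℕ) (B : ℕ)
    (h : ∀ p ≤ B, p.Prime → b p = b' p) (u : ℕ) (hu : z u ≤ B) :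
    u ∈ R0 z c b ↔ u ∈ R0 z c b' := by
  unfold R0
  simp only [Set.mem_setOf_eq]
  constructor
  · rintro ⟨h1, h2⟩
    refine ⟨h1, fun q hq hqp => ?_⟩
    rw [← h q (hq.trans hu) hqp]
    exact h2 q hq hqp
  · rintro ⟨h1, h2⟩
    refine ⟨h1, fun q hq hqp => ?_⟩
    rw [h q (hq.trans hu) hqp]
    exact h2 q hq hqp

theorem pow_le_exp (k : ℕ) : ∀ᶠ L : ℕ in atTop, ((L : ℝ)) ^ k ≤ Real.exp L := by
  have h := (Real.tendsto_pow_mul_exp_neg_atTop_nhds_zero k).comp tendsto_natCast_atTop_atTop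
  have h1 := h.eventually (gt_mem_nhds (zero_lt_one))
  filter_upwards [h1] with L hL
  have h2 : (L : ℝ) ^ k * Real.exp (-(L : ℝ)) < 1 := hL
  rw [Real.exp_neg, ← div_eq_mul_inv, div_lt_one (Real.exp_pos _)] at h2
  exact h2.le

/-- the parameter -/
noncomputable def Lam (n : ℕ) : ℕ := 2 * ⌊Real.log n⌋₊ + 2

theorem Lam_tendsto : Tendsto Lam atTop atTop := by
  have h1 : Tendsto (fun n : ℕ => ⌊Real.log n⌋₊) atTop atTop :=
    tendsto_nat_floor_atTop.comp (Real.tendsto_log_atTop.comp tendsto_natCast_atTop_atTop)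
  refine tendsto_atTop_mono (fun n => ?_) h1
  unfold Lam
  omega

theorem Lam_ge (n : ℕ) : 2 * Real.log n ≤ Lam n := by
  have := Nat.lt_floor_add_one (Real.log n)
  unfold Lam
  push_cast
  linarith

theorem log_ge (K : ℝ) : ∀ᶠ n : ℕ in atTop, K ≤ Real.log n :=
  (Real.tendsto_log_atTop.comp tendsto_natCast_atTop_atTop).eventually_ge_atTop K

theorem Lam_le : ∀ᶠ n : ℕ in atTop, (Lam n : ℝ) ≤ 4 * Real.log n := by
  filter_upwards [log_ge 1] with n hn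
  have := Nat.floor_le (show 0 ≤ Real.log n by linarith)
  unfold Lam
  push_cast
  linarith

theorem Lam_pow_le (K : ℕ) : ∀ᶠ n : ℕ in atTop, (Lam n : ℝ) ^ K ≤ Real.log n ^ (K + 1) := by
  filter_upwards [Lam_le, log_ge (4 ^ K), log_ge 1] with n h1 h2 h3
  calc (Lam n : ℝ) ^ K ≤ (4 * Real.log n) ^ K := by gcongr
    _ = 4 ^ K * Real.log n ^ K := by rw [mul_pow]
    _ ≤ Real.log n * Real.log n ^ K := by gcongr
    _ = Real.log n ^ (K + 1) := by ring

theorem Lam_pow_small (K : ℕ) : ∀ᶠ n : ℕ in atTop, 2 * Lam n ^ K ≤ n := by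
  have h := (Real.isLittleO_pow_log_id_atTop (n := K + 1)).comp_tendsto tendsto_natCast_atTop_atTop
  have h1 := h.bound (show (0 : ℝ) < 1 / 2 by norm_num)
  filter_upwards [h1, Lam_pow_le K, log_ge 1] with n h1 h2 h3
  have h4 : Real.log n ^ (K + 1) ≤ 1 / 2 * n := by
    have := (le_abs_self _).trans h1
    simpa using this
  have h5 : (2 : ℝ) * (Lam n : ℝ) ^ K ≤ n := by linarith
  exact_mod_cast h5

/-- gaps of the indices -/
theorem gap (R : Set ℕ) (C1 κ1 A L N0 : ℕ)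
    (hsup : ∀ x : ℕ, L ^ κ1 ≤ x → (x : ℝ) ≤ Real.exp L →
      ∃ v ∈ R, x < v ∧ v ≤ x + L ^ C1 ∧ v + 2 ∈ R ∧ cn R v ∈ R)
    (hel : ∀ n, 1 ≤ n → ∃ v ∈ R, cn R v = n)
    (hN0 : ∀ x ≥ N0, x ^ 2 ≤ cn R x ^ 3) (h1 : 1 ≤ L) (hA1 : 1 ≤ A) (hL : N0 ≤ L) (hA : κ1 ≤ A)
    (hexp : ((L : ℝ)) ^ (3 * A + 6) ≤ Real.exp L) (t : ℕ) (ht : L ^ A ≤ t) (ht' : t ≤ L ^ (A + 2)) :
    ∃ v' ∈ R, v' ≤ t ^ 3 + L ^ C1 ∧ v' + 2 ∈ R ∧ cn R v' ∈ R ∧ t < cn R (cn R v') ∧
      cn R (cn R v') ≤ t + L ^ C1 := by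
  have ht1 : 1 ≤ t := le_trans (Nat.one_le_pow _ _ h1) ht
  have hLt : L ≤ t := le_trans (by calc L = L ^ 1 := (pow_one L).symm
                                     _ ≤ L ^ A := Nat.pow_le_pow_right h1 hA1) ht
  obtain ⟨j, hjR, hj⟩ := hel t ht1
  have htj : t ≤ j := by rw [← hj]; exact cn_le R j
  obtain ⟨x, hxR, hx⟩ := hel j (ht1.trans htj)
  have hjx : j ≤ x := by rw [← hx]; exact cn_le R x
  have e1 : j ^ 2 ≤ t ^ 3 := by
    have := hN0 j (by omega)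
    rwa [hj] at this
  have e2 : x ^ 2 ≤ j ^ 3 := by
    have := hN0 x (by omega)
    rwa [hx] at this
  have e3 : x ^ 4 ≤ (t ^ 3) ^ 4 := by
    calc x ^ 4 = (x ^ 2) ^ 2 := by ring
      _ ≤ (j ^ 3) ^ 2 := Nat.pow_le_pow_left e2 2
      _ = (j ^ 2) ^ 3 := by ring
      _ ≤ (t ^ 3) ^ 3 := Nat.pow_le_pow_left e1 3
      _ ≤ (t ^ 3) ^ 4 := Nat.pow_le_pow_right (Nat.one_le_pow _ _ ht1) (by norm_num)
  have hxt : x ≤ t ^ 3 := (Nat.pow_le_pow_iff_left (by norm_num)).1 e3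
  obtain ⟨v, hvR, hxv, hv, hv2, hcv⟩ := hsup x
    (le_trans (Nat.pow_le_pow_right h1 hA) (ht.trans (htj.trans hjx)))
    (by
      have : x ≤ L ^ (3 * A + 6) := by
        calc x ≤ t ^ 3 := hxt
          _ ≤ (L ^ (A + 2)) ^ 3 := Nat.pow_le_pow_left ht' 3
          _ = L ^ (3 * A + 6) := by ring
      refine le_trans ?_ hexp
      exact_mod_cast this)
  have hjv : j < cn R v := by
    rw [← hx]
    exact cn_lt R hxv hvR
  have hjv' : cn R v ≤ j + (v - x) := by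
    rw [← hx]
    exact cn_sub R hxv.le
  have htv : t < cn R (cn R v) := by
    rw [← hj]
    exact cn_lt R hjv hcv
  have htv' : cn R (cn R v) ≤ t + (cn R v - j) := by
    rw [← hj]
    exact cn_sub R hjv.le
  exact ⟨v, hvR, by omega, hv2, hcv, htv, by omega⟩

/-- the relation -/
def Rel (R : Set ℕ) (L A M J : ℕ) : Prop :=
  ∃ v' ≤ L ^ (9 * A), v' ∈ R ∧ v' + 2 ∈ R ∧ cn R v' ∈ R ∧ cn R (cn R v') + J + 1 = M

/-- the deterministic part -/
theorem det (R : Set ℕ) (C0 C1 κ1 κ A0 A : ℕ) (hC0 : C0 ≤ A0) (hC1 : C1 ≤ A0) (hAκ : κ1 ≤ A)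
    (h10 : 10 ≤ A) (hAA0 : A0 ≤ A)
    (hmas : ∀ᶠ L : ℕ in atTop, ∀ x : ℕ, L ^ κ ≤ x → (x : ℝ) ≤ Real.exp L →
      ∀ M ∈ range (L ^ (A + 3)), Hex 2 (L ^ A0) (L ^ A) R x (fun J v => Rel R L A M J) →
        Suc 2 (L ^ A) R x (fun J v => Rel R L A M J))
    (hsys : ∀ᶠ L : ℕ in atTop, ∀ u : ℕ, (u : ℝ) ≤ Real.exp ((L : ℝ) ^ 2) →
      ∀ H : ℕ, (H : ℝ) ≤ Real.exp ((L : ℝ) ^ 2) → Even H →
        ∃ v ∈ R, u < v ∧ v ≤ u + L ^ C0 ∧ v + H ∈ R)
    (hsup : ∀ᶠ L : ℕ in atTop, ∀ x : ℕ, L ^ κ1 ≤ x → (x : ℝ) ≤ Real.exp L →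
      ∃ v ∈ R, x < v ∧ v ≤ x + L ^ C1 ∧ v + 2 ∈ R ∧ cn R v ∈ R)
    (h1 : ∀ᶠ x : ℕ in atTop, 2 * cn R x ≤ x ∧ x ^ 2 ≤ cn R x ^ 3)
    (h2 : ∀ n, 1 ≤ n → ∃ v ∈ R, cn R v = n) :
    ∀ᶠ n : ℕ in atTop, ∃ u v : ℕ, u ∈ R ∧ u + 2 ∈ R ∧ v ∈ R ∧ v + 2 ∈ R ∧ cn R v ∈ R ∧
      (cn R (cn R v) : ℝ) ≤ Real.log n ^ (A + 3) ∧ cn R u + cn R (cn R v) = n := by
  obtain ⟨N0, hN0⟩ := eventually_atTop.1 h1
  have hwin : ∀ᶠ L : ℕ in atTop, ∀ x : ℕ, L ^ κ ≤ x → (x : ℝ) ≤ Real.exp L →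
      Suc 2 (L ^ A) R x (fun J v => Rel R L A (L ^ (A + 2)) J) := by
    filter_upwards [hmas, hsys, hsup, eventually_ge_atTop N0, eventually_ge_atTop 4,
      pow_le_exp (3 * A + 6), pow_le_exp A] with L hmas hsys hsup hN hL4 hexp hexpA
    intro x hx hx'
    refine hmas x hx hx' (L ^ (A + 2)) ?_ ?_
    · rw [mem_range]
      exact Nat.pow_lt_pow_right (by omega) (by omega)
    · intro u j0 hxu hu hj0
      have hLr : (4 : ℝ) ≤ L := by exact_mod_cast hL4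
      have hpos : 1 ≤ L := by omega
      have hA0A : L ^ A0 ≤ L ^ A := Nat.pow_le_pow_right hpos hAA0
      have hC0A0 : L ^ C0 ≤ L ^ A0 := Nat.pow_le_pow_right hpos hC0
      have hC1A0 : L ^ C1 ≤ L ^ A0 := Nat.pow_le_pow_right hpos hC1
      have hA1 : 1 ≤ L ^ A := Nat.one_le_pow _ _ hpos
      have hbig : Real.exp L + (L : ℝ) ^ A ≤ Real.exp ((L : ℝ) ^ 2) := by
        have e1 : Real.exp L + (L : ℝ) ^ A ≤ 2 * Real.exp L := by linarith
        have e2 : (2 : ℝ) ≤ Real.exp 1 := by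
          have := Real.add_one_le_exp (1 : ℝ)
          linarith
        have e3 : 2 * Real.exp L ≤ Real.exp 1 * Real.exp L := by
          have := Real.exp_pos (L : ℝ)
          gcongr
        have e4 : Real.exp 1 * Real.exp L ≤ Real.exp ((L : ℝ) ^ 2) := by
          rw [← Real.exp_add]
          apply Real.exp_le_exp.2
          nlinarith
        linarith
      have hub : (u : ℝ) ≤ Real.exp ((L : ℝ) ^ 2) := by
        have h3 : u ≤ x + L ^ A := by omega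
        have h4 : (u : ℝ) ≤ x + (L : ℝ) ^ A := by exact_mod_cast h3
        linarith
      obtain ⟨v, hvR, huv, hv, hv2⟩ := hsys u hub 2 (by
        have := Real.add_one_le_exp ((L : ℝ) ^ 2)
        push_cast
        nlinarith) even_two
      refine ⟨v, hvR, huv, by omega, fun _ => hv2, ?_⟩
      have hM : L ^ (A + 2) = L ^ A * (L * L) := by ring
      have h16 : 16 * L ^ A ≤ L ^ (A + 2) := by
        rw [hM, mul_comm]
        have : 16 ≤ L * L := by nlinarith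
        exact Nat.mul_le_mul_left _ this
      obtain ⟨t, ht⟩ : ∃ t, t + 1 + j0 + L ^ A0 = L ^ (A + 2) :=
        ⟨L ^ (A + 2) - 1 - j0 - L ^ A0, by omega⟩
      obtain ⟨v', hv'R, hv't, hv'2, hcv', htm, hmt⟩ := gap R C1 κ1 A L N0 hsup h2
        (fun x hx => (hN0 x hx).2) hpos (by omega) hN hAκ hexp t (by omega) (by omega)
      have h3 : t ^ 3 ≤ L ^ (3 * A + 6) := by
        calc t ^ 3 ≤ (L ^ (A + 2)) ^ 3 := Nat.pow_le_pow_left (by omega) 3
          _ = L ^ (3 * A + 6) := by ring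
      have h5 : L ^ C1 ≤ L ^ (3 * A + 6) := Nat.pow_le_pow_right hpos (by omega)
      have h6 : 2 * L ^ (3 * A + 6) ≤ L ^ (3 * A + 7) := by
        rw [pow_succ L (3 * A + 6), mul_comm]
        exact Nat.mul_le_mul_left _ (by omega)
      have h7 : L ^ (3 * A + 7) ≤ L ^ (9 * A) := Nat.pow_le_pow_right hpos (by omega)
      refine ⟨L ^ (A + 2) - 1 - cn R (cn R v'), by omega, by omega, v', by omega, hv'R, hv'2, hcv', ?_⟩
      omega
  filter_upwards [Lam_tendsto.eventually hwin, Lam_pow_small (A + 2), Lam_pow_small κ,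
    Lam_pow_le (A + 2), eventually_ge_atTop (2 * N0), eventually_ge_atTop 2] with n hw hs1 hs2 hl hn0 hn2
  obtain ⟨L, hL⟩ : ∃ L, L = Lam n := ⟨_, rfl⟩
  rw [← hL] at hw hs1 hs2 hl
  obtain ⟨x, hxR, hx⟩ := h2 (n - L ^ (A + 2)) (by omega)
  have hxn : n - L ^ (A + 2) ≤ x := by
    rw [← hx]
    exact cn_le R x
  have hx2 : x ^ 2 ≤ n ^ 3 := by
    have := (hN0 x (by omega)).2
    rw [hx] at this
    exact this.trans (Nat.pow_le_pow_left (by omega) 3)
  have hx3 : x ≤ n ^ 2 := by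
    have : x ^ 2 ≤ (n ^ 2) ^ 2 := by
      calc x ^ 2 ≤ n ^ 3 := hx2
        _ ≤ n ^ 4 := Nat.pow_le_pow_right (by omega) (by norm_num)
        _ = (n ^ 2) ^ 2 := by ring
    exact (Nat.pow_le_pow_iff_left (by norm_num)).1 this
  have hxe : (x : ℝ) ≤ Real.exp L := by
    have hn : (0 : ℝ) < n := by exact_mod_cast (by omega : 0 < n)
    calc (x : ℝ) ≤ (n : ℝ) ^ 2 := by exact_mod_cast hx3
      _ = Real.exp (2 * Real.log n) := by
        rw [mul_comm, Real.exp_mul, Real.exp_log hn]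
        norm_cast
      _ ≤ Real.exp L := by
        apply Real.exp_le_exp.2
        rw [hL]
        exact Lam_ge n
  obtain ⟨u, huR, hxu, hu, hu2, v, hv, hvR, hv2, hcv, hsum⟩ := hw x (by omega) hxe
  have hstep := cn_step R hxu huR
  rw [hx] at hstep
  refine ⟨u, v, huR, hu2 rfl, hvR, hv2, hcv, ?_, ?_⟩
  · have h3 : cn R (cn R v) ≤ L ^ (A + 2) := by omega
    have h4 : (cn R (cn R v) : ℝ) ≤ (L : ℝ) ^ (A + 2) := by exact_mod_cast h3
    exact h4.trans hl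
  · omega

end Pool.Agent.H559.IX.F04e

namespace Pool.Agent.H559.IX

open F04e

theorem t_04e (hm : S_master) (hs : S_sys) (he : S_elem) (hp : S_super) : S_04e := by
  intro c hc
  obtain ⟨C0, hC0, hsys⟩ := hs c hc
  obtain ⟨C1, κ1, hsup⟩ := hp c hc
  obtain ⟨A0, hA0⟩ : ∃ A0, A0 = max C0 C1 + 1 := ⟨_, rfl⟩
  obtain ⟨A1, hA1⟩ := hm c hc 1 A0
  obtain ⟨A, hA⟩ : ∃ A, A = max (max A1 κ1) (max 10 A0) := ⟨_, rfl⟩
  have hAA1 : A1 ≤ A := by omega
  have hAκ : κ1 ≤ A := by omega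
  have hA10 : 10 ≤ A := by omega
  have hAA0 : A0 ≤ A := by omega
  have hCA0 : C0 ≤ A0 := by omega
  have hCA1 : C1 ≤ A0 := by omega
  clear hA hA0
  obtain ⟨κ, hκ⟩ := hA1 A hAA1
  refine ⟨A + 3, ?_⟩
  intro z hz Ω _ P a hP
  obtain ⟨hzk, hel⟩ := he c hc z hz
  have hM := hκ z hz 2 (Or.inr rfl) ℕ (fun L _ => range (L ^ (A + 3))) (fun _ _ _ => ∅)
    (fun L x M b V J v => Rel (R0 z c b) L A M J) ?_ Ω P a hP
  · filter_upwards [hM, hsys z hz Ω P a hP, hsup z hz Ω P a hP, hel Ω P a hP] with ω h1 h2 h3 h4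
    exact det (R0 z c (fun q => a q ω)) C0 C1 κ1 κ A0 A hCA0 hCA1 hAκ hA10 hAA0 h1
      (by
        filter_upwards [h2] with L hL u hu H hH hH2
        exact (hL u hu).1 H hH hH2) h3 h4.1 h4.2.1
  · obtain ⟨k0, hk0⟩ := eventually_atTop.1 hzk
    filter_upwards [pow_le_exp (A + 3), eventually_ge_atTop k0, eventually_ge_atTop 2] with
      L hL hLk hL2 x hx hx'
    refine ⟨?_, fun y hy => ⟨by simp, by simp, ?_⟩⟩
    · rw [card_range]
      push_cast
      rw [one_mul]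
      exact hL
    · intro b b' hbb V J v
      have hpos : 1 ≤ L := by omega
      have hL10 : L ≤ L ^ (10 * A) := by
        calc L = L ^ 1 := (pow_one L).symm
          _ ≤ L ^ (10 * A) := Nat.pow_le_pow_right hpos (by omega)
      have hz10 : z (L ^ (10 * A)) < L ^ (10 * A) := hk0 _ (by omega)
      have hRR : ∀ u ≤ L ^ (10 * A), (u ∈ R0 z c b ↔ u ∈ R0 z c b') := by
        intro u hu
        exact R0_congr z c b b' (L ^ (10 * A)) hbb u ((hz.1 hu).trans hz10.le)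
      have h910 : L ^ (9 * A) + 2 ≤ L ^ (10 * A) := by
        have e1 : L ^ (9 * A + 1) ≤ L ^ (10 * A) := Nat.pow_le_pow_right hpos (by omega)
        have e2 : 2 * L ^ (9 * A) ≤ L ^ (9 * A + 1) := by
          rw [pow_succ L (9 * A), mul_comm]
          exact Nat.mul_le_mul_left _ hL2
        have e3 : L ≤ L ^ (9 * A) := by
          calc L = L ^ 1 := (pow_one L).symm
            _ ≤ L ^ (9 * A) := Nat.pow_le_pow_right hpos (by omega)
        omega
      have hkey : ∀ v' ≤ L ^ (9 * A), (cn (R0 z c b) v' = cn (R0 z c b') v') ∧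
          (cn (R0 z c b) (cn (R0 z c b) v') = cn (R0 z c b') (cn (R0 z c b') v')) := by
        intro v' hv'
        have e1 : cn (R0 z c b) v' = cn (R0 z c b') v' :=
          cn_congr _ _ _ (fun u hu => hRR u (by omega))
        have e2 := cn_le (R0 z c b') v'
        refine ⟨e1, ?_⟩
        rw [e1]
        exact cn_congr _ _ _ (fun u hu => hRR u (by omega))
      constructor
      · rintro ⟨v', h1, h2, h3, h4, h5⟩
        have e2 := cn_le (R0 z c b) v'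
        refine ⟨v', h1, (hRR _ (by omega)).1 h2, (hRR _ (by omega)).1 h3, ?_, ?_⟩
        · rw [← (hkey v' h1).1]
          exact (hRR _ (by omega)).1 h4
        · rw [← (hkey v' h1).2]
          exact h5
      · rintro ⟨v', h1, h2, h3, h4, h5⟩
        have e2 := cn_le (R0 z c b') v'
        refine ⟨v', h1, (hRR _ (by omega)).2 h2, (hRR _ (by omega)).2 h3, ?_, ?_⟩
        · rw [(hkey v' h1).1]
          exact (hRR _ (by omega)).2 h4
        · rw [(hkey v' h1).2]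
          exact h5

end Pool.Agent.H559.IX
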