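import Pool.Agent.H559.IX.StmP

set_option autoImplicit false

/-! # `n = k + m` with `p_k² - 2`, `p_m² - 2`, `p_{p_m}² - 2` random primes -/

open Finset MeasureTheory ProbabilityTheory Filter Topology
open Pool.Agent.T2H32.BF (Model V V_pos V_anti V_ratio mertens)

namespace Pool.Agent.H559.IX

namespace F04f

open Classical in
theorem cn_le (A : Set ℕ) (v : ℕ) : cn A v ≤ v := by
  unfold cn
  refine (card_filter_le _ _).trans ?_
  simp

open Classical in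
theorem cn_le_add (A : Set ℕ) {u v : ℕ} : cn A v ≤ cn A u + (v - u) := by
  unfold cn
  have h1 : (Icc 1 v).filter (fun w => w ∈ A) ⊆ (Icc 1 u).filter (fun w => w ∈ A) ∪ Ioc u v := by
    intro w hw
    rw [mem_filter, mem_Icc] at hw
    rw [mem_union, mem_filter, mem_Icc, mem_Ioc]
    rcases le_or_gt w u with h2 | h2
    · exact Or.inl ⟨⟨hw.1.1, h2⟩, hw.2⟩
    · exact Or.inr ⟨h2, hw.1.2⟩
  refine (card_le_card h1).trans ((card_union_le _ _).trans ?_)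
  rw [Nat.card_Ioc]

open Classical in
theorem cn_eq (A : Set ℕ) {x v : ℕ} (hv : v ∈ A) (hx : x < v) :
    cn A v = cn A x + ((Ioo x v).filter (fun u => u ∈ A)).card + 1 := by
  unfold cn
  have h1 : (Icc 1 v).filter (fun w => w ∈ A) =
      insert v ((Icc 1 x).filter (fun w => w ∈ A) ∪ (Ioo x v).filter (fun w => w ∈ A)) := by
    ext w
    rw [mem_insert, mem_union, mem_filter, mem_filter, mem_filter, mem_Icc, mem_Icc, mem_Ioo]
    constructor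
    · rintro ⟨⟨h2, h3⟩, h4⟩
      rcases eq_or_lt_of_le h3 with h5 | h5
      · exact Or.inl h5
      · rcases le_or_gt w x with h6 | h6
        · exact Or.inr (Or.inl ⟨⟨h2, h6⟩, h4⟩)
        · exact Or.inr (Or.inr ⟨⟨h6, h5⟩, h4⟩)
    · rintro (h2 | ⟨⟨h2, h3⟩, h4⟩ | ⟨⟨h2, h3⟩, h4⟩)
      · rw [h2]
        exact ⟨⟨by omega, le_rfl⟩, hv⟩
      · exact ⟨⟨h2, by omega⟩, h4⟩
      · exact ⟨⟨by omega, by omega⟩, h4⟩
  rw [h1, card_insert_of_notMem, card_union_of_disjoint]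
  · rw [Finset.disjoint_left]
    intro w hw hw'
    rw [mem_filter, mem_Icc] at hw
    rw [mem_filter, mem_Ioo] at hw'
    omega
  · rw [mem_union, mem_filter, mem_filter, mem_Icc, mem_Ioo]
    rintro (⟨h2, -⟩ | ⟨h2, -⟩) <;> omega

theorem cn_lt (A : Set ℕ) {x v : ℕ} (hv : v ∈ A) (hx : x < v) : cn A x < cn A v := by
  rw [cn_eq A hv hx]
  omega

open Classical in
theorem cn_congr {A B : Set ℕ} {u : ℕ} (h : ∀ w ≤ u, (w ∈ A ↔ w ∈ B)) : cn A u = cn B u := by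
  unfold cn
  exact congrArg card (filter_congr fun w hw => h w (mem_Icc.1 hw).2)

/-- gaps of the indices of the indices -/
theorem gaps {R : Set ℕ} {L t C κ N0 : ℕ}
    (hel : ∀ x, N0 ≤ x → 2 * cn R x ≤ x ∧ x ^ 2 ≤ cn R x ^ 3)
    (hidx : ∀ n : ℕ, 1 ≤ n → ∃ v ∈ R, cn R v = n)
    (hsup : ∀ x : ℕ, L ^ κ ≤ x → (x : ℝ) ≤ Real.exp L →
      ∃ v ∈ R, x < v ∧ v ≤ x + L ^ C ∧ v ^ 2 - 2 ∈ R ∧ cn R v ∈ R ∧ cn R v ^ 2 - 2 ∈ R)
    (ht0 : N0 ≤ t) (ht1 : 1 ≤ t) (ht : L ^ κ ≤ t) (ht3 : ((t ^ 3 : ℕ) : ℝ) ≤ Real.exp L) :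
    ∃ v ∈ R, v ≤ t ^ 3 + L ^ C ∧ v ^ 2 - 2 ∈ R ∧ cn R v ∈ R ∧ cn R v ^ 2 - 2 ∈ R ∧
      t < cn R (cn R v) ∧ cn R (cn R v) ≤ t + L ^ C := by
  obtain ⟨j, hj, hjt⟩ := hidx t ht1
  have hjt2 : t ≤ j := by rw [← hjt]; exact cn_le R j
  obtain ⟨x, hx, hxj⟩ := hidx j (ht1.trans hjt2)
  have hxj2 : j ≤ x := by rw [← hxj]; exact cn_le R x
  have h1 := (hel j (ht0.trans hjt2)).2
  have h2 := (hel x (ht0.trans (hjt2.trans hxj2))).2
  rw [hjt] at h1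
  rw [hxj] at h2
  have h3 : x ≤ t ^ 3 := by
    have h4 : x ^ 4 ≤ (t ^ 3) ^ 4 := by
      calc x ^ 4 = (x ^ 2) ^ 2 := by ring
        _ ≤ (j ^ 3) ^ 2 := Nat.pow_le_pow_left h2 2
        _ = (j ^ 2) ^ 3 := by ring
        _ ≤ (t ^ 3) ^ 3 := Nat.pow_le_pow_left h1 3
        _ = t ^ 9 := by ring
        _ ≤ t ^ 12 := Nat.pow_le_pow_right ht1 (by norm_num)
        _ = (t ^ 3) ^ 4 := by ring
    exact (Nat.pow_le_pow_iff_left (by norm_num)).1 h4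
  have h5 : (x : ℝ) ≤ Real.exp L := le_trans (by exact_mod_cast h3) ht3
  obtain ⟨v, hv, hv1, hv2, hv3, hv4, hv5⟩ := hsup x (ht.trans (hjt2.trans hxj2)) h5
  have h6 : j < cn R v := by rw [← hxj]; exact cn_lt R hv hv1
  have h7 : cn R v ≤ j + (v - x) := by rw [← hxj]; exact cn_le_add R
  have h8 : cn R j < cn R (cn R v) := cn_lt R hv4 h6
  have h9 := cn_le_add R (u := j) (v := cn R v)
  refine ⟨v, hv, by omega, hv3, hv4, hv5, by omega, by omega⟩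

theorem R0_congr {z : ℕ → ℕ} {c : ℝ} {N : ℕ} (hz : Monotone z) (hN : z N < N) {b b' : ℕ → ℕ}
    (hb : ∀ p ≤ N, p.Prime → b p = b' p) {u : ℕ} (hu : u ≤ N) : u ∈ R0 z c b ↔ u ∈ R0 z c b' := by
  have h1 : ∀ q ≤ z u, q.Prime → b q = b' q := fun q hq hp =>
    hb q ((hq.trans (hz hu)).trans hN.le) hp
  constructor
  · intro h
    refine ⟨h.1, fun q hq hp => ?_⟩
    rw [← h1 q hq hp]
    exact h.2 q hq hp
  · intro h
    refine ⟨h.1, fun q hq hp => ?_⟩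
    rw [h1 q hq hp]
    exact h.2 q hq hp

/-- the relation -/
def Gr (z : ℕ → ℕ) (c : ℝ) (A : ℕ) (L M : ℕ) (b : ℕ → ℕ) (W : Finset ℕ) (J v : ℕ) : Prop :=
  v ^ 2 - 2 ∈ W ∧ ∃ v' ≤ L ^ (4 * A), v' ∈ R0 z c b ∧ v' ^ 2 - 2 ∈ R0 z c b ∧
    cn (R0 z c b) v' ∈ R0 z c b ∧ cn (R0 z c b) v' ^ 2 - 2 ∈ R0 z c b ∧
    cn (R0 z c b) (cn (R0 z c b) v') + J + 1 = M

theorem Gr_imp {z : ℕ → ℕ} {c : ℝ} {A L : ℕ} (hL : 1 ≤ L) (hz : Monotone z)
    (hN : z (L ^ (10 * A)) < L ^ (10 * A)) {b b' : ℕ → ℕ}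
    (hb : ∀ p ≤ L ^ (10 * A), p.Prime → b p = b' p) {M : ℕ} {W : Finset ℕ} {J v : ℕ}
    (h : Gr z c A L M b W J v) : Gr z c A L M b' W J v := by
  obtain ⟨h0, v', h1, h2, h3, h4, h5, h6⟩ := h
  have hc : ∀ u ≤ L ^ (10 * A), (u ∈ R0 z c b ↔ u ∈ R0 z c b') := fun u hu =>
    R0_congr hz hN hb hu
  have hle : L ^ (4 * A) ≤ L ^ (8 * A) := Nat.pow_le_pow_right hL (by omega)
  have hle2 : L ^ (8 * A) ≤ L ^ (10 * A) := Nat.pow_le_pow_right hL (by omega)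
  have hsq : ∀ u, u ≤ L ^ (4 * A) → u ^ 2 - 2 ≤ L ^ (10 * A) := by
    intro u hu
    refine (Nat.sub_le _ _).trans (le_trans ?_ hle2)
    calc u ^ 2 ≤ (L ^ (4 * A)) ^ 2 := Nat.pow_le_pow_left hu 2
      _ = L ^ (8 * A) := by rw [← pow_mul]; congr 1; ring
  have h7 : cn (R0 z c b) v' ≤ v' := cn_le _ _
  have hcn : ∀ u ≤ v', cn (R0 z c b) u = cn (R0 z c b') u := fun u hu =>
    cn_congr fun w hw => hc w (by omega)
  have hcn1 := hcn v' le_rfl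
  have hcn2 := hcn _ h7
  refine ⟨h0, v', h1, (hc v' (by omega)).1 h2, (hc _ (hsq v' h1)).1 h3, ?_, ?_, ?_⟩
  · rw [← hcn1]
    exact (hc _ (by omega)).1 h4
  · rw [← hcn1]
    exact (hc _ (hsq _ (h7.trans h1))).1 h5
  · rw [← hcn1, ← hcn2]
    exact h6

/-- powers and exponentials -/
theorem ev_pow (k : ℕ) : ∀ᶠ L : ℕ in atTop, ((L ^ k : ℕ) : ℝ) ≤ Real.exp ((L : ℝ) / 4) := by
  have h1 : Tendsto (fun x : ℝ => x ^ k * Real.exp (-x)) atTop (𝓝 0) :=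
    Real.tendsto_pow_mul_exp_neg_atTop_nhds_zero k
  have h2 : Tendsto (fun L : ℕ => (L : ℝ) / 4) atTop atTop :=
    tendsto_natCast_atTop_atTop.atTop_div_const (by norm_num)
  have h3 := (h1.comp h2).eventually (gt_mem_nhds (show (0 : ℝ) < 1 / 4 ^ k by positivity))
  filter_upwards [h3] with L hL
  simp only [Function.comp] at hL
  rw [Real.exp_neg, div_pow, ← div_eq_mul_inv, div_lt_iff₀ (Real.exp_pos _)] at hL
  have h4 : (0 : ℝ) < 4 ^ k := by positivity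
  rw [div_lt_iff₀ h4] at hL
  push_cast
  refine hL.le.trans (le_of_eq ?_)
  field_simp

/-- the scale attached to `n` -/
noncomputable def Ln (n : ℕ) : ℕ := 2 * ⌊Real.log n⌋₊ + 2

theorem Ln_tendsto : Tendsto Ln atTop atTop := by
  have h1 : Tendsto (fun n : ℕ => Real.log n) atTop atTop :=
    Real.tendsto_log_atTop.comp tendsto_natCast_atTop_atTop
  have h2 := tendsto_nat_floor_atTop.comp h1
  refine tendsto_atTop_mono (fun n => ?_) h2
  show ⌊Real.log n⌋₊ ≤ 2 * ⌊Real.log n⌋₊ + 2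
  omega

theorem Ln_ge (n : ℕ) : 2 * Real.log n ≤ (Ln n : ℝ) := by
  have h1 := Nat.lt_floor_add_one (Real.log n)
  unfold Ln
  push_cast
  linarith

theorem Ln_le (n : ℕ) : (Ln n : ℝ) ≤ 2 * Real.log n + 2 := by
  have h1 := Nat.floor_le (Real.log_natCast_nonneg n)
  unfold Ln
  push_cast
  linarith

/-- numerical facts for large `n` -/
theorem ev_n (k : ℕ) : ∀ᶠ n : ℕ in atTop, 2 * (Ln n) ^ k ≤ n := by
  have h1 := Ln_tendsto.eventually (ev_pow k)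
  filter_upwards [h1, eventually_ge_atTop 12] with n hn h12
  have h2 := Ln_le n
  have hn0 : (0 : ℝ) < n := by exact_mod_cast (by omega : 0 < n)
  have h3 : Real.exp ((Ln n : ℝ) / 4) ≤ Real.exp ((Real.log n + 1) / 2) :=
    Real.exp_le_exp.2 (by linarith)
  have h4 : Real.exp ((Real.log n + 1) / 2) ≤ (n : ℝ) / 2 := by
    have h5 : Real.exp ((Real.log n + 1) / 2) ^ 2 ≤ ((n : ℝ) / 2) ^ 2 := by
      rw [← Real.exp_nat_mul]
      have h6 : ((2 : ℕ) : ℝ) * ((Real.log n + 1) / 2) = Real.log n + 1 := by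
        push_cast
        ring
      rw [h6, Real.exp_add, Real.exp_log hn0]
      have h7 := Real.exp_one_lt_d9
      have h8 : (12 : ℝ) ≤ n := by exact_mod_cast h12
      nlinarith
    exact abs_le_of_sq_le_sq' h5 (by positivity) |>.2
  have h9 : ((Ln n ^ k : ℕ) : ℝ) ≤ (n : ℝ) / 2 := hn.trans (h3.trans h4)
  have h10 : ((2 * Ln n ^ k : ℕ) : ℝ) ≤ (n : ℝ) := by
    push_cast
    push_cast at h9
    linarith
  exact_mod_cast h10

theorem ev_log (k : ℕ) : ∀ᶠ n : ℕ in atTop, ((Ln n ^ k : ℕ) : ℝ) ≤ Real.log n ^ (k + 1) := by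
  have h1 : Tendsto (fun n : ℕ => Real.log n) atTop atTop :=
    Real.tendsto_log_atTop.comp tendsto_natCast_atTop_atTop
  filter_upwards [h1.eventually_ge_atTop 2, h1.eventually_ge_atTop (3 ^ k)] with n h2 h3
  have h5 := Ln_le n
  have h6 : (Ln n : ℝ) ≤ 3 * Real.log n := by linarith
  push_cast
  calc (Ln n : ℝ) ^ k ≤ (3 * Real.log n) ^ k := pow_le_pow_left₀ (Nat.cast_nonneg _) h6 k
    _ = 3 ^ k * Real.log n ^ k := mul_pow _ _ _
    _ ≤ Real.log n * Real.log n ^ k := by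
        apply mul_le_mul_of_nonneg_right h3
        positivity
    _ = Real.log n ^ (k + 1) := by rw [pow_succ]; ring

/-- the auxiliary set -/
def GS (A L x : ℕ) : Finset ℕ := (Ioc x (x + L ^ A)).image (fun v => v ^ 2 - 2)

theorem GS_card (A L x : ℕ) (hL : 1 ≤ L) : (GS A L x).card ≤ L ^ (3 * A) := by
  refine card_image_le.trans ?_
  rw [Nat.card_Ioc]
  have : L ^ A ≤ L ^ (3 * A) := Nat.pow_le_pow_right hL (by omega)
  omega

theorem GS_mem {A L x : ℕ} (hx : 2 ≤ x) (hxL : L ^ A ≤ x) (hxe : (x : ℝ) ≤ Real.exp L)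
    (hL : 3 ≤ L) {w : ℕ} (hw : w ∈ GS A L x) :
    x ≤ w ^ 2 ∧ (w : ℝ) ≤ Real.exp ((L : ℝ) ^ 2) ∧ (w ≤ x ∨ x + L ^ A < w) := by
  unfold GS at hw
  rw [mem_image] at hw
  obtain ⟨v, hv, rfl⟩ := hw
  rw [mem_Ioc] at hv
  have h1 : (x + 1) ^ 2 ≤ v ^ 2 := Nat.pow_le_pow_left hv.1 2
  have h2 : (x + 1) ^ 2 = x * x + 2 * x + 1 := by ring
  have h3 : x + L ^ A < v ^ 2 - 2 := by
    have : 2 * x ≤ x * x := Nat.mul_le_mul_right x hx
    omega
  refine ⟨?_, ?_, Or.inr h3⟩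
  · have h4 : x ≤ v ^ 2 - 2 := by omega
    exact h4.trans (Nat.le_self_pow (by norm_num) _)
  · have h4 : v ≤ 2 * x := by omega
    have h5 : (v : ℝ) ≤ 2 * Real.exp L := by
      have : (v : ℝ) ≤ 2 * x := by exact_mod_cast h4
      linarith
    have h6 : ((v ^ 2 - 2 : ℕ) : ℝ) ≤ (v : ℝ) ^ 2 := by
      have : ((v ^ 2 - 2 : ℕ) : ℝ) ≤ ((v ^ 2 : ℕ) : ℝ) := by exact_mod_cast Nat.sub_le _ _
      exact this.trans (le_of_eq (by push_cast; ring))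
    refine h6.trans ?_
    have h7 : (v : ℝ) ^ 2 ≤ (2 * Real.exp L) ^ 2 := pow_le_pow_left₀ (Nat.cast_nonneg _) h5 2
    refine h7.trans ?_
    have h8 : (2 * Real.exp (L : ℝ)) ^ 2 = 4 * Real.exp (2 * L) := by
      rw [mul_pow, ← Real.exp_nat_mul]
      norm_num
    have h9 : (4 : ℝ) ≤ Real.exp 3 := by
      have := Real.add_one_le_exp (3 : ℝ)
      linarith
    have h10 : (3 : ℝ) ≤ L := by exact_mod_cast hL
    rw [h8]
    calc 4 * Real.exp (2 * (L : ℝ)) ≤ Real.exp 3 * Real.exp (2 * L) :=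
          mul_le_mul_of_nonneg_right h9 (Real.exp_pos _).le
      _ = Real.exp (3 + 2 * L) := (Real.exp_add _ _).symm
      _ ≤ Real.exp ((L : ℝ) ^ 2) := Real.exp_le_exp.2 (by nlinarith)

/-- the hypothesis of the window theorem -/
theorem hex {z : ℕ → ℕ} {c : ℝ} {b : ℕ → ℕ} {A L x C0 C1 κ1 N0 : ℕ} (hA : 10 ≤ A) (hC0 : C0 ≤ A)
    (hC1 : C1 ≤ A) (hκ1 : κ1 ≤ A) (hL4 : 4 ≤ L) (hN0 : N0 ≤ L)
    (hel : ∀ x, N0 ≤ x → 2 * cn (R0 z c b) x ≤ x ∧ x ^ 2 ≤ cn (R0 z c b) x ^ 3)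
    (hidx : ∀ n : ℕ, 1 ≤ n → ∃ v ∈ R0 z c b, cn (R0 z c b) v = n)
    (hsup : ∀ x : ℕ, L ^ κ1 ≤ x → (x : ℝ) ≤ Real.exp L →
      ∃ v ∈ R0 z c b, x < v ∧ v ≤ x + L ^ C1 ∧ v ^ 2 - 2 ∈ R0 z c b ∧
        cn (R0 z c b) v ∈ R0 z c b ∧ cn (R0 z c b) v ^ 2 - 2 ∈ R0 z c b)
    (hsys : ∀ u : ℕ, (u : ℝ) ≤ Real.exp ((L : ℝ) ^ 2) → ∃ v ∈ R0 z c b, u < v ∧ v ≤ u + L ^ C0 ∧
      v ^ 2 - 2 ∈ R0 z c b)
    (hexp : ((L ^ (3 * A + 6) : ℕ) : ℝ) ≤ Real.exp L)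
    (hx : (x : ℝ) ≤ Real.exp L) (hxL : L ^ A ≤ x) (W : Finset ℕ)
    (hW : ∀ w ∈ GS A L x, w ∈ R0 z c b → w ∈ W) :
    Hex 1 (L ^ (max C0 C1)) (L ^ A) (R0 z c b) x (Gr z c A L (L ^ (A + 2)) b W) := by
  intro u j0 hu1 hu2 hj0
  have hL1 : 1 ≤ L := by omega
  have hp0 : L ^ C0 ≤ L ^ (max C0 C1) := Nat.pow_le_pow_right hL1 (le_max_left _ _)
  have hp1 : L ^ C1 ≤ L ^ (max C0 C1) := Nat.pow_le_pow_right hL1 (le_max_right _ _)
  have hp2 : L ^ (max C0 C1) ≤ L ^ A := Nat.pow_le_pow_right hL1 (max_le hC0 hC1)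
  have hp3 : L ^ κ1 ≤ L ^ A := Nat.pow_le_pow_right hL1 hκ1
  have hp4 : 1 ≤ L ^ A := Nat.one_le_pow _ _ hL1
  have hp5 : L ≤ L ^ A := Nat.le_self_pow (by omega) L
  have hp6 : 16 * L ^ A ≤ L ^ (A + 2) := by
    rw [pow_add, mul_comm]
    exact Nat.mul_le_mul_left _ (by nlinarith)
  -- the bound for `u`
  have hu : (u : ℝ) ≤ Real.exp ((L : ℝ) ^ 2) := by
    have h1 : u ≤ 2 * x := by omega
    have h2 : (u : ℝ) ≤ 2 * x := by exact_mod_cast h1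
    have h3 : (2 : ℝ) ≤ Real.exp 1 := by
      have := Real.add_one_le_exp (1 : ℝ)
      linarith
    have h4 : (4 : ℝ) ≤ L := by exact_mod_cast hL4
    calc (u : ℝ) ≤ 2 * Real.exp L := by linarith
      _ ≤ Real.exp 1 * Real.exp L := mul_le_mul_of_nonneg_right h3 (Real.exp_pos _).le
      _ = Real.exp (1 + L) := (Real.exp_add _ _).symm
      _ ≤ _ := Real.exp_le_exp.2 (by nlinarith)
  obtain ⟨v, hv, hv1, hv2, hv3⟩ := hsys u hu
  obtain ⟨t, ht⟩ : ∃ t : ℕ, t = L ^ (A + 2) - 1 - j0 - L ^ (max C0 C1) := ⟨_, rfl⟩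
  have ht1 : L ^ A ≤ t := by omega
  have ht2 : t ≤ L ^ (A + 2) := by omega
  have ht3 : t ^ 3 ≤ L ^ (3 * A + 6) := by
    calc t ^ 3 ≤ (L ^ (A + 2)) ^ 3 := Nat.pow_le_pow_left ht2 3
      _ = L ^ (3 * A + 6) := by rw [← pow_mul]; congr 1; ring
  have ht4 : ((t ^ 3 : ℕ) : ℝ) ≤ Real.exp L := le_trans (by exact_mod_cast ht3) hexp
  obtain ⟨v', hv', hw1, hw2, hw3, hw4, hw5, hw6⟩ := gaps hel hidx hsup (t := t) (by omega)
    (by omega) (by omega) ht4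
  refine ⟨v, hv, hv1, by omega, fun h => absurd h (by norm_num),
    L ^ (A + 2) - 1 - cn (R0 z c b) (cn (R0 z c b) v'), by omega, by omega, ?_, v', ?_, hv', hw2,
    hw3, hw4, by omega⟩
  · refine hW _ ?_ hv3
    unfold GS
    rw [mem_image]
    exact ⟨v, mem_Ioc.2 ⟨by omega, by omega⟩, rfl⟩
  · have h1 : L ^ A ≤ L ^ (3 * A + 6) := Nat.pow_le_pow_right hL1 (by omega)
    have h2 : 2 * L ^ (3 * A + 6) ≤ L ^ (3 * A + 7) := by
      rw [pow_succ L (3 * A + 6), mul_comm]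
      exact Nat.mul_le_mul_left _ (by omega)
    have h3 : L ^ (3 * A + 7) ≤ L ^ (4 * A) := Nat.pow_le_pow_right hL1 (by omega)
    omega

end F04f

open Classical F04f in
theorem t_04f (hm : S_master) (hs : S_sys) (he : S_elem) (hp : S_superSq) : S_04f := by
  intro c hc
  obtain ⟨C0, -, hs⟩ := hs c hc
  obtain ⟨C1, κ1, hp⟩ := hp c hc
  obtain ⟨A1, hm⟩ := hm c hc 2 (max C0 C1)
  obtain ⟨A, hA⟩ : ∃ A : ℕ, A = max A1 (max (max C0 C1) (max κ1 10)) := ⟨_, rfl⟩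
  have hA1 : A1 ≤ A := by omega
  have hA2 : C0 ≤ A := by omega
  have hA3 : C1 ≤ A := by omega
  have hA4 : κ1 ≤ A := by omega
  have hA5 : 10 ≤ A := by omega
  obtain ⟨κ, hm⟩ := hm A hA1
  refine ⟨A + 3, ?_⟩
  intro z hz Ω _ P a hmod
  obtain ⟨hzlt, he⟩ := he c hc z hz
  obtain ⟨κ', hκ'⟩ : ∃ κ' : ℕ, κ' = max κ A := ⟨_, rfl⟩
  have key := hm z hz 1 (Or.inl rfl) ℕ (fun L x => if L ^ κ' ≤ x then range (L ^ (A + 3)) else ∅)
    (fun L x _ => GS A L x) (fun L _ M b W J v => Gr z c A L M b W J v) ?_ Ω P a hmod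
  · filter_upwards [key, hs z hz Ω P a hmod, he Ω P a hmod, hp z hz Ω P a hmod]
      with ω h1 h2 h3 h4
    obtain ⟨h31, h32, -⟩ := h3
    obtain ⟨N0, hN0⟩ := eventually_atTop.1 h31
    have hn1 := Ln_tendsto.eventually h1
    have hn2 := Ln_tendsto.eventually h2
    have hn4 := Ln_tendsto.eventually h4
    have hn5 := Ln_tendsto.eventually (ev_pow (3 * A + 6))
    have hn6 := Ln_tendsto.eventually_ge_atTop (max 4 N0)
    filter_upwards [hn1, hn2, hn4, hn5, hn6, ev_n (A + 2), ev_n κ', ev_log (A + 2),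
      eventually_ge_atTop (2 * N0 + 2)] with n k1 k2 k4 k5 k6 k7 k8 k9 k10
    obtain ⟨L, hLdef⟩ : ∃ L : ℕ, L = Ln n := ⟨_, rfl⟩
    have hLn := Ln_ge n
    rw [← hLdef] at k1 k2 k4 k5 k6 k7 k8 k9 hLn
    have hL4 : 4 ≤ L := (le_max_left _ _).trans k6
    have hLN : N0 ≤ L := (le_max_right _ _).trans k6
    have hL1 : 1 ≤ L := by omega
    have hL0 : (0 : ℝ) ≤ L := Nat.cast_nonneg _
    obtain ⟨x, hx, hxn⟩ := h32 (n - L ^ (A + 2)) (by omega)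
    have hxn2 : n - L ^ (A + 2) ≤ x := by rw [← hxn]; exact cn_le _ x
    have hx2 := (hN0 x (by omega)).2
    have hxn3 : x ≤ n ^ 2 := by
      have h5 : x ^ 2 ≤ (n ^ 2) ^ 2 := by
        calc x ^ 2 ≤ _ := hx2
          _ ≤ n ^ 3 := by
              rw [hxn]
              exact Nat.pow_le_pow_left (Nat.sub_le _ _) 3
          _ ≤ n ^ 4 := Nat.pow_le_pow_right (by omega) (by norm_num)
          _ = (n ^ 2) ^ 2 := by ring
      exact (Nat.pow_le_pow_iff_left (by norm_num)).1 h5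
    have hxe : (x : ℝ) ≤ Real.exp L := by
      have hn0 : (0 : ℝ) < n := by exact_mod_cast (by omega : 0 < n)
      have h5 : (x : ℝ) ≤ (n : ℝ) ^ 2 := by exact_mod_cast hxn3
      refine h5.trans ?_
      have h6 : (n : ℝ) ^ 2 = Real.exp (2 * Real.log n) := by
        rw [show 2 * Real.log (n : ℝ) = ((2 : ℕ) : ℝ) * Real.log n by push_cast; ring,
          Real.exp_nat_mul, Real.exp_log hn0]
      rw [h6]
      exact Real.exp_le_exp.2 hLn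
    have hκx : L ^ κ' ≤ x := by omega
    have hκx1 : L ^ κ ≤ x :=
      (Nat.pow_le_pow_right hL1 (by rw [hκ']; exact le_max_left _ _)).trans hκx
    have hκx2 : L ^ A ≤ x :=
      (Nat.pow_le_pow_right hL1 (by rw [hκ']; exact le_max_right _ _)).trans hκx
    have hy : L ^ (A + 2) ∈ (if L ^ κ' ≤ x then range (L ^ (A + 3)) else (∅ : Finset ℕ)) := by
      rw [if_pos hκx, mem_range]
      exact Nat.pow_lt_pow_right (by omega) (by omega)
    have hexp : ((L ^ (3 * A + 6) : ℕ) : ℝ) ≤ Real.exp L :=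
      k5.trans (Real.exp_le_exp.2 (by linarith))
    have hH := hex (z := z) (c := c) (b := fun q => a q ω) (x := x) hA5 hA2 hA3 hA4 hL4 hLN hN0
      h32 k4 (fun u hu => (k2 u hu).2.1) hexp hxe hκx2
      ((GS A L x).filter (fun u => u ∈ R0 z c (fun q => a q ω)))
      (fun w hw hw' => mem_filter.2 ⟨hw, hw'⟩)
    obtain ⟨u, hu, hu1, -, -, hu4, v', -, hv', hw2, hw3, hw4, hw5⟩ :=
      k1 x hκx1 hxe (L ^ (A + 2)) hy hH
    have hcn := cn_eq _ hu hu1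
    refine ⟨u, v', hu, (mem_filter.1 hu4).2, hv', hw2, hw3, hw4, ?_, ?_⟩
    · refine le_trans ?_ k9
      exact_mod_cast (by omega)
    · rw [hcn, hxn]
      omega
  · have hz1 : Tendsto (fun L : ℕ => L ^ (10 * A)) atTop atTop :=
      tendsto_pow_atTop (by omega)
    filter_upwards [hz1.eventually hzlt, ev_pow (A + 3), eventually_ge_atTop 3] with L l1 l2 l3
    intro x hx1 hx2
    have hL1 : 1 ≤ L := by omega
    constructor
    · have h5 : ((L ^ (A + 3) : ℕ) : ℝ) ≤ Real.exp ((2 : ℕ) * L) := by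
        refine l2.trans (Real.exp_le_exp.2 ?_)
        have : (0 : ℝ) ≤ L := Nat.cast_nonneg _
        push_cast
        linarith
      show (((if L ^ κ' ≤ x then range (L ^ (A + 3)) else (∅ : Finset ℕ)).card : ℕ) : ℝ) ≤ _
      split_ifs
      · rw [card_range]
        exact h5
      · rw [card_empty]
        push_cast
        exact (Real.exp_pos _).le
    · intro y hy
      have hκx : L ^ κ' ≤ x := by
        by_contra h
        rw [if_neg h] at hy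
        exact absurd hy (notMem_empty _)
      have hκx2 : L ^ A ≤ x :=
        (Nat.pow_le_pow_right hL1 (by rw [hκ']; exact le_max_right _ _)).trans hκx
      have hx3 : L ≤ L ^ A := Nat.le_self_pow (by omega) L
      refine ⟨GS_card A L x hL1, fun w hw => GS_mem (by omega) hκx2 hx2 l3 hw, ?_⟩
      intro b b' hb W J v
      exact ⟨fun h => Gr_imp hL1 hz.1 l1 hb h,
        fun h => Gr_imp hL1 hz.1 l1 (fun p hp1 hp2 => (hb p hp1 hp2).symm) h⟩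

end Pool.Agent.H559.IX
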