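import Pool.Agent.H559.IX.StmP

set_option autoImplicit false

/-! # Random primes `p_n + 2 P(n)` -/

open Finset MeasureTheory ProbabilityTheory Filter Topology
open Pool.Agent.T2H32.BF (Model V V_pos V_anti V_ratio mertens)

namespace Pool.Agent.H559.IX

namespace F3aa

/-- the size parameter -/
noncomputable def Lam (N : ℕ) : ℕ := 2 * ⌊Real.log N⌋₊ + 2

lemma log_tendsto : Tendsto (fun N : ℕ => Real.log (N : ℝ)) atTop atTop :=
  Real.tendsto_log_atTop.comp tendsto_natCast_atTop_atTop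

lemma Lam_tendsto : Tendsto Lam atTop atTop := by
  have h1 : Tendsto (fun N : ℕ => ⌊Real.log (N : ℝ)⌋₊) atTop atTop :=
    tendsto_nat_floor_atTop.comp log_tendsto
  refine tendsto_atTop_mono (fun N => ?_) h1
  unfold Lam
  omega

lemma Lam_ge (N : ℕ) : 2 * Real.log N ≤ Lam N := by
  have h := Nat.lt_floor_add_one (Real.log (N : ℝ))
  unfold Lam
  push_cast
  linarith

lemma Lam_le (N : ℕ) : (Lam N : ℝ) ≤ 2 * Real.log N + 2 := by
  have h := Nat.floor_le (Real.log_natCast_nonneg N)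
  unfold Lam
  push_cast
  linarith

lemma Lam_pow (A : ℕ) : ∀ᶠ N : ℕ in atTop, ((Lam N : ℕ) : ℝ) ^ A ≤ Real.log N ^ (2 * A) := by
  filter_upwards [log_tendsto.eventually (eventually_ge_atTop 3)] with N h1
  rw [pow_mul]
  refine pow_le_pow_left₀ (by positivity) ?_ A
  have := Lam_le N
  nlinarith

lemma Lam_pow_le (k : ℕ) : ∀ᶠ N : ℕ in atTop, (Lam N) ^ k ≤ N := by
  have h1 := (Real.isLittleO_pow_log_id_atTop (n := 2 * k)).bound (show (0 : ℝ) < 1 by norm_num)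
  have h2 := (tendsto_natCast_atTop_atTop (R := ℝ)).eventually h1
  filter_upwards [h2, Lam_pow k, log_tendsto.eventually (eventually_ge_atTop 3)] with N h3 h4 h5
  have h6 : Real.log (N : ℝ) ^ (2 * k) ≤ N := by
    have h7 : 0 ≤ Real.log (N : ℝ) ^ (2 * k) := by positivity
    rw [Real.norm_eq_abs, abs_of_nonneg h7, one_mul, id, Real.norm_eq_abs,
      abs_of_nonneg (Nat.cast_nonneg N)] at h3
    exact h3
  exact_mod_cast h4.trans h6

open Classical in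
lemma cn_le (A : Set ℕ) (x : ℕ) : cn A x ≤ x := by
  unfold cn
  refine (Finset.card_filter_le _ _).trans ?_
  simp

open Classical in
lemma cn_split (R : Set ℕ) {x v : ℕ} (hxv : x < v) (hv : v ∈ R) :
    cn R v = cn R x + ((Ioo x v).filter (fun u => u ∈ R)).card + 1 := by
  unfold cn
  have h : (Icc 1 v).filter (fun u => u ∈ R) =
      insert v ((Icc 1 x).filter (fun u => u ∈ R) ∪ (Ioo x v).filter (fun u => u ∈ R)) := by
    ext u
    simp only [mem_filter, mem_insert, mem_union, mem_Icc, mem_Ioo]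
    constructor
    · rintro ⟨⟨h1, h2⟩, h3⟩
      rcases h2.eq_or_lt with h4 | h4
      · exact Or.inl h4
      · rcases le_or_gt u x with h5 | h5
        · exact Or.inr (Or.inl ⟨⟨h1, h5⟩, h3⟩)
        · exact Or.inr (Or.inr ⟨⟨h5, h4⟩, h3⟩)
    · rintro (h1 | ⟨⟨h1, h2⟩, h3⟩ | ⟨⟨h1, h2⟩, h3⟩)
      · subst h1
        exact ⟨⟨by omega, le_refl _⟩, hv⟩
      · exact ⟨⟨h1, by omega⟩, h3⟩
      · exact ⟨⟨by omega, by omega⟩, h3⟩
  rw [h, Finset.card_insert_of_notMem, Finset.card_union_of_disjoint]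
  · rw [Finset.disjoint_left]
    intro u h1 h2
    rw [mem_filter, mem_Icc] at h1
    rw [mem_filter, mem_Ioo] at h2
    omega
  · rw [mem_union, mem_filter, mem_filter, mem_Icc, mem_Ioo]
    rintro (h1 | h1)
    · omega
    · omega

open Classical in
lemma cn_add_le (R : Set ℕ) {x v : ℕ} (hxv : x < v) (hv : v ∈ R) : cn R v ≤ cn R x + (v - x) := by
  rw [cn_split R hxv hv]
  have h1 : ((Ioo x v).filter (fun u => u ∈ R)).card ≤ v - x - 1 := by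
    refine (Finset.card_filter_le _ _).trans ?_
    rw [Nat.card_Ioo]
  omega

/-- the position of the index `N` -/
lemma setup (R : Set ℕ) (h1 : ∀ᶠ x : ℕ in atTop, 2 * cn R x ≤ x ∧ x ^ 2 ≤ cn R x ^ 3)
    (h2 : ∀ n : ℕ, 1 ≤ n → ∃ v ∈ R, cn R v = n) (k : ℕ) :
    ∀ᶠ N : ℕ in atTop, ∃ x ∈ R, cn R x = N ∧ 1 ≤ N ∧ N ≤ x ∧ x ^ 2 ≤ N ^ 3 ∧ (Lam N) ^ k ≤ x ∧
      (x : ℝ) ≤ Real.exp (Lam N) := by
  obtain ⟨x0, hx0⟩ := eventually_atTop.1 h1
  filter_upwards [eventually_ge_atTop (max x0 1), Lam_pow_le k] with N hN hk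
  have hN1 : 1 ≤ N := (le_max_right _ _).trans hN
  obtain ⟨x, hx, hxN⟩ := h2 N hN1
  have hNx : N ≤ x := hxN ▸ cn_le R x
  have h3 := (hx0 x (((le_max_left _ _).trans hN).trans hNx)).2
  rw [hxN] at h3
  refine ⟨x, hx, hxN, hN1, hNx, h3, hk.trans hNx, ?_⟩
  have hN0 : (0 : ℝ) < N := by exact_mod_cast hN1
  have h4 : (x : ℝ) ^ 2 ≤ (Real.exp (Lam N)) ^ 2 := by
    have h5 : (x : ℝ) ^ 2 ≤ (N : ℝ) ^ 3 := by exact_mod_cast h3
    have h6 : (N : ℝ) ≤ Real.exp ((Lam N : ℝ) / 2) := by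
      rw [← Real.log_le_iff_le_exp hN0]
      have := Lam_ge N
      linarith
    have h7 : (N : ℝ) ^ 3 ≤ Real.exp ((Lam N : ℝ) / 2) ^ 3 := pow_le_pow_left₀ hN0.le h6 3
    refine h5.trans (h7.trans ?_)
    rw [← Real.exp_nat_mul, ← Real.exp_nat_mul]
    refine Real.exp_le_exp.2 ?_
    have : (0 : ℝ) ≤ Lam N := Nat.cast_nonneg _
    push_cast
    linarith
  exact le_of_sq_le_sq h4 (Real.exp_pos _).le

/-- properties of the polynomial -/
def Hp (H : ℕ → ℕ) (m0 d : ℕ) : Prop :=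
  ∀ m : ℕ, m0 ≤ m → Even (H m) ∧ m ≤ H m ^ 2 ∧ H m ≤ m ^ d

lemma poly (F : Polynomial ℚ) (hF : ∀ m : ℤ, ∃ k : ℤ, F.eval (m : ℚ) = k) (hl : 0 < F.leadingCoeff)
    (hd : 0 < F.natDegree) : ∃ (H : ℕ → ℕ) (m0 : ℕ), Hp H m0 (F.natDegree + 1) ∧
      ∀ m : ℕ, m0 ≤ m → (H m : ℚ) = 2 * F.eval (m : ℚ) := by
  choose k hk using hF
  have hdeg : 0 < F.degree := Polynomial.natDegree_pos_iff_degree_pos.1 hd
  have hF0 : F ≠ 0 := fun h => by rw [h] at hl; simp at hl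
  have e1 := Polynomial.tendsto_atTop_of_leadingCoeff_nonneg F hdeg hl.le
  -- `4 F ^ 2 - X`
  have hd2 : (Polynomial.X : Polynomial ℚ).degree < (Polynomial.C 4 * F ^ 2).degree := by
    refine Polynomial.degree_lt_degree ?_
    rw [Polynomial.natDegree_C_mul (by norm_num), Polynomial.natDegree_pow, Polynomial.natDegree_X]
    omega
  have e2 := Polynomial.tendsto_atTop_of_leadingCoeff_nonneg (Polynomial.C 4 * F ^ 2 - Polynomial.X)
    (by
      rw [Polynomial.degree_sub_eq_left_of_degree_lt hd2]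
      refine lt_of_lt_of_le ?_ hd2.le
      rw [Polynomial.degree_X]
      exact zero_lt_one)
    (by
      rw [Polynomial.leadingCoeff_sub_of_degree_lt hd2, Polynomial.leadingCoeff_mul,
        Polynomial.leadingCoeff_C, Polynomial.leadingCoeff_pow]
      positivity)
  -- `X ^ (d + 1) - 2 F`
  have hd3 : (Polynomial.C 2 * F).degree < (Polynomial.X ^ (F.natDegree + 1) : Polynomial ℚ).degree := by
    rw [Polynomial.degree_C_mul (by norm_num), Polynomial.degree_X_pow,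
      Polynomial.degree_eq_natDegree hF0]
    exact_mod_cast Nat.lt_succ_self _
  have e3 := Polynomial.tendsto_atTop_of_leadingCoeff_nonneg
    (Polynomial.X ^ (F.natDegree + 1) - Polynomial.C 2 * F)
    (by
      rw [Polynomial.degree_sub_eq_left_of_degree_lt hd3, Polynomial.degree_X_pow]
      exact_mod_cast Nat.succ_pos _)
    (by
      rw [Polynomial.leadingCoeff_sub_of_degree_lt hd3, Polynomial.leadingCoeff_X_pow]
      exact zero_le_one)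
  have ht : Tendsto (fun m : ℕ => (m : ℚ)) atTop atTop := tendsto_natCast_atTop_atTop
  have h1 := (e1.comp ht).eventually (eventually_ge_atTop 0)
  have h2 := (e2.comp ht).eventually (eventually_ge_atTop 0)
  have h3 := (e3.comp ht).eventually (eventually_ge_atTop 0)
  obtain ⟨m0, hm0⟩ := eventually_atTop.1 (h1.and (h2.and h3))
  have hval : ∀ m : ℕ, m0 ≤ m → ((2 * (k m).toNat : ℕ) : ℚ) = 2 * F.eval (m : ℚ) := fun m hm => by
    have h4 : 0 ≤ F.eval (m : ℚ) := (hm0 m hm).1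
    have h5 := hk m
    rw [Int.cast_natCast] at h5
    rw [h5] at h4 ⊢
    have h6 : 0 ≤ k m := by exact_mod_cast h4
    have h7 : (((k m).toNat : ℤ) : ℚ) = (k m : ℚ) := by rw [Int.toNat_of_nonneg h6]
    push_cast
    rw [← h7, Int.cast_natCast]
  refine ⟨fun m => 2 * (k m).toNat, m0, fun m hm => ⟨even_two_mul _, ?_, ?_⟩, hval⟩
  · have h4 := (hm0 m hm).2.1
    have h4' : (0 : ℚ) ≤ 4 * (F.eval (m : ℚ)) ^ 2 - m := by
      have : (0 : ℚ) ≤ (Polynomial.C 4 * F ^ 2 - Polynomial.X).eval (m : ℚ) := h4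
      simpa using this
    have h5 : (m : ℚ) ≤ ((2 * (k m).toNat : ℕ) : ℚ) ^ 2 := by
      rw [hval m hm]
      linarith
    exact_mod_cast h5
  · have h4 := (hm0 m hm).2.2
    have h4' : (0 : ℚ) ≤ (m : ℚ) ^ (F.natDegree + 1) - 2 * F.eval (m : ℚ) := by
      have : (0 : ℚ) ≤ (Polynomial.X ^ (F.natDegree + 1) - Polynomial.C 2 * F).eval (m : ℚ) := h4
      simpa using this
    have h5 : ((2 * (k m).toNat : ℕ) : ℚ) ≤ (m : ℚ) ^ (F.natDegree + 1) := by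
      rw [hval m hm]
      linarith
    exact_mod_cast h5

/-- the indices at `x` -/
noncomputable def Yf (_A κ : ℕ) (Λ x : ℕ) : Finset ℕ :=
  if Λ ^ κ ≤ x then (Icc 1 x).filter (fun N => x ^ 2 ≤ N ^ 3) else ∅

/-- the auxiliary set -/
def Gf (H : ℕ → ℕ) (A : ℕ) (Λ x N : ℕ) : Finset ℕ :=
  ((Ioc x (x + Λ ^ A)) ×ˢ (Icc 1 (2 * Λ ^ A))).image (fun p => p.1 + H (N + p.2))

/-- the relation -/
def Grf (H : ℕ → ℕ) (_ _ N : ℕ) (_ : ℕ → ℕ) (S : Finset ℕ) (J v : ℕ) : Prop := v + H (N + J + 1) ∈ S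

lemma two_pow_le_exp (A : ℕ) : ∀ᶠ Λ : ℕ in atTop, 2 * (Λ : ℝ) ^ A ≤ Real.exp Λ := by
  have h1 := (Real.tendsto_exp_div_pow_atTop A).eventually (eventually_ge_atTop 2)
  have h2 := (tendsto_natCast_atTop_atTop (R := ℝ)).eventually h1
  filter_upwards [h2, eventually_ge_atTop 1] with Λ h3 h4
  have h5 : (0 : ℝ) < Λ := by exact_mod_cast h4
  rwa [le_div_iff₀ (by positivity)] at h3

/-- the value of `H` is not too large -/
lemma H_le {H : ℕ → ℕ} {m0 d : ℕ} (hH : Hp H m0 d) (A : ℕ) : ∀ᶠ Λ : ℕ in atTop, ∀ x N j : ℕ,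
    (x : ℝ) ≤ Real.exp Λ → N ≤ x → m0 ≤ N → j ≤ 2 * Λ ^ A →
      (x : ℝ) + Λ ^ A + H (N + j) ≤ Real.exp ((Λ : ℝ) ^ 2) := by
  filter_upwards [two_pow_le_exp A, eventually_ge_atTop (d + 5)] with Λ h1 h2 x N j hx hN hm hj
  have h3 : ((N + j : ℕ) : ℝ) ≤ 2 * Real.exp Λ := by
    have h4 : (N : ℝ) ≤ x := by exact_mod_cast hN
    have h5 : (j : ℝ) ≤ 2 * (Λ : ℝ) ^ A := by exact_mod_cast hj
    push_cast
    linarith
  have h2e : (2 : ℝ) ≤ Real.exp 1 := by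
    have := Real.add_one_le_exp (1 : ℝ)
    linarith
  have h6 : ((N + j : ℕ) : ℝ) ≤ Real.exp (Λ + 1) := by
    rw [Real.exp_add]
    have := Real.exp_pos (Λ : ℝ)
    nlinarith
  have h7 : (H (N + j) : ℝ) ≤ Real.exp ((Λ + 1) * d) := by
    have h8 : (H (N + j) : ℝ) ≤ ((N + j : ℕ) : ℝ) ^ d := by
      exact_mod_cast (hH (N + j) (by omega)).2.2
    refine h8.trans ((pow_le_pow_left₀ (by positivity) h6 d).trans (le_of_eq ?_))
    rw [← Real.exp_nat_mul]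
    congr 1
    ring
  have hΛ : ((d : ℝ) + 5) ≤ Λ := by exact_mod_cast h2
  have hd0 : (0 : ℝ) ≤ d := Nat.cast_nonneg d
  have h9 : (x : ℝ) + Λ ^ A ≤ Real.exp (Λ + 1) := by
    rw [Real.exp_add]
    have := Real.exp_pos (Λ : ℝ)
    have h10 : (0 : ℝ) ≤ (Λ : ℝ) ^ A := by positivity
    nlinarith
  have h11 : Real.exp ((Λ : ℝ) + 1) ≤ Real.exp ((Λ : ℝ) ^ 2 - 1) := by
    refine Real.exp_le_exp.2 ?_
    nlinarith
  have h12 : Real.exp (((Λ : ℝ) + 1) * d) ≤ Real.exp ((Λ : ℝ) ^ 2 - 1) := by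
    refine Real.exp_le_exp.2 ?_
    nlinarith
  have h13 : Real.exp ((Λ : ℝ) ^ 2) = Real.exp ((Λ : ℝ) ^ 2 - 1) * Real.exp 1 := by
    rw [← Real.exp_add]
    congr 1
    ring
  have h14 := Real.exp_pos ((Λ : ℝ) ^ 2 - 1)
  rw [h13]
  nlinarith

lemma cond {H : ℕ → ℕ} {m0 d : ℕ} (hH : Hp H m0 d) (A κ κ0 : ℕ) (hA : 1 ≤ A) (hκ : 3 * A ≤ κ) :
    ∀ᶠ Λ : ℕ in atTop, ∀ x : ℕ, Λ ^ κ0 ≤ x → (x : ℝ) ≤ Real.exp Λ →
      ((Yf A κ Λ x).card : ℝ) ≤ Real.exp ((1 : ℕ) * Λ) ∧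
      ∀ y ∈ Yf A κ Λ x, (Gf H A Λ x y).card ≤ Λ ^ (3 * A) ∧
      (∀ v ∈ Gf H A Λ x y, x ≤ v ^ 1 ∧ (v : ℝ) ≤ Real.exp ((Λ : ℝ) ^ 2) ∧ (v ≤ x ∨ x + Λ ^ A < v)) ∧
      ∀ b b' : ℕ → ℕ, (∀ p ≤ Λ ^ (10 * A), p.Prime → b p = b' p) → ∀ V J v,
        Grf H Λ x y b V J v ↔ Grf H Λ x y b' V J v := by
  filter_upwards [H_le hH A, eventually_ge_atTop (max 2 m0)] with Λ h1 h2 x hx0 hx
  have hΛ2 : 2 ≤ Λ := (le_max_left _ _).trans h2
  have hΛm : m0 ≤ Λ := (le_max_right _ _).trans h2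
  constructor
  · refine le_trans ?_ (hx.trans (le_of_eq (by rw [Nat.cast_one, one_mul])))
    have h3 : (Yf A κ Λ x).card ≤ x := by
      unfold Yf
      split_ifs
      · refine (Finset.card_filter_le _ _).trans ?_
        simp
      · simp
    exact_mod_cast h3
  · intro N hN
    unfold Yf at hN
    split_ifs at hN with hxκ
    · rw [mem_filter, mem_Icc] at hN
      obtain ⟨⟨hN1, hNx⟩, hN3⟩ := hN
      have hpow : (Λ ^ (3 * A)) ^ 2 ≤ N ^ 3 := by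
        refine le_trans (Nat.pow_le_pow_left ?_ 2) hN3
        exact le_trans (Nat.pow_le_pow_right (by omega) hκ) hxκ
      have hNΛ : Λ ^ (2 * A) ≤ N := by
        have h4 : (Λ ^ (2 * A)) ^ 3 ≤ N ^ 3 := by
          refine le_trans (le_of_eq ?_) hpow
          rw [← pow_mul, ← pow_mul]
          congr 1
          ring
        exact le_of_pow_le_pow_left₀ (by norm_num) (Nat.zero_le _) h4
      have hNm : m0 ≤ N := by
        refine hΛm.trans (le_trans ?_ hNΛ)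
        calc Λ = Λ ^ 1 := (pow_one _).symm
          _ ≤ Λ ^ (2 * A) := Nat.pow_le_pow_right (by omega) (by omega)
      refine ⟨?_, ?_, fun b b' _ V J v => Iff.rfl⟩
      · unfold Gf
        refine Finset.card_image_le.trans ?_
        rw [Finset.card_product, Nat.card_Ioc, Nat.card_Icc, Nat.add_sub_cancel_left, Nat.add_sub_cancel]
        calc Λ ^ A * (2 * Λ ^ A) ≤ Λ ^ A * (Λ ^ A * Λ ^ A) := by
              refine Nat.mul_le_mul_left _ (Nat.mul_le_mul_right _ ?_)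
              calc 2 ≤ Λ := hΛ2
                _ = Λ ^ 1 := (pow_one _).symm
                _ ≤ Λ ^ A := Nat.pow_le_pow_right (by omega) hA
          _ = Λ ^ (3 * A) := by rw [← pow_add, ← pow_add]; congr 1; ring
      · intro v hv
        unfold Gf at hv
        rw [mem_image] at hv
        obtain ⟨⟨v', j⟩, hp, rfl⟩ := hv
        rw [mem_product, mem_Ioc, mem_Icc] at hp
        obtain ⟨⟨hv1, hv2⟩, hj1, hj2⟩ := hp
        simp only at hv1 hv2 hj1 hj2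
        refine ⟨?_, ?_, Or.inr ?_⟩
        · rw [pow_one]
          simp only
          omega
        · have h5 := h1 x N j hx hNx hNm hj2
          have h6 : (v' : ℝ) ≤ x + (Λ : ℝ) ^ A := by exact_mod_cast hv2
          push_cast
          linarith
        · have h5 := (hH (N + j) (by omega)).2.1
          have h6 : Λ ^ A ≤ H (N + j) := by
            have h7 : (Λ ^ A) ^ 2 ≤ H (N + j) ^ 2 := by
              rw [← pow_mul, mul_comm A 2]
              omega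
            exact le_of_pow_le_pow_left₀ (by norm_num) (Nat.zero_le _) h7
          simp only
          omega
    · exact absurd hN (Finset.notMem_empty _)

open Classical in
/-- the end of the proof for a fixed set `R`, polynomials of positive degree -/
lemma fin {R : Set ℕ} {H : ℕ → ℕ} {m0 d : ℕ} (hH : Hp H m0 d) (A κ κ0 C0 : ℕ) (_hA : 1 ≤ A)
    (_hκ : 3 * A ≤ κ) (hκ0 : κ0 ≤ κ)
    (hs : ∀ᶠ Λ : ℕ in atTop, ∀ u : ℕ, (u : ℝ) ≤ Real.exp ((Λ : ℝ) ^ 2) →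
      ∀ H : ℕ, (H : ℝ) ≤ Real.exp ((Λ : ℝ) ^ 2) → Even H → ∃ v ∈ R, u < v ∧ v ≤ u + Λ ^ C0 ∧ v + H ∈ R)
    (h1 : ∀ᶠ x : ℕ in atTop, 2 * cn R x ≤ x ∧ x ^ 2 ≤ cn R x ^ 3)
    (h2 : ∀ n : ℕ, 1 ≤ n → ∃ v ∈ R, cn R v = n)
    (hm : ∀ᶠ Λ : ℕ in atTop, ∀ x : ℕ, Λ ^ κ0 ≤ x → (x : ℝ) ≤ Real.exp Λ → ∀ y ∈ Yf A κ Λ x,
      Hex 1 (Λ ^ C0) (Λ ^ A) R x (Grf H Λ x y (fun _ => 0) ((Gf H A Λ x y).filter (fun u => u ∈ R))) →
      Suc 1 (Λ ^ A) R x (Grf H Λ x y (fun _ => 0) ((Gf H A Λ x y).filter (fun u => u ∈ R)))) :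
    ∀ᶠ N : ℕ in atTop, ∃ v w : ℕ, v ∈ R ∧ w ∈ R ∧ N < cn R v ∧
      (cn R v : ℝ) ≤ N + Real.log N ^ (2 * A) ∧ m0 ≤ cn R v ∧ w = v + H (cn R v) := by
  filter_upwards [setup R h1 h2 κ, Lam_tendsto.eventually hs, Lam_tendsto.eventually hm,
    Lam_tendsto.eventually (H_le hH A), Lam_pow A, eventually_ge_atTop m0,
    Lam_tendsto.eventually (eventually_ge_atTop 1)]
    with N ⟨x, hx, hxN, hN1, hNx, hx3, hxk, hxe⟩ hs hm hle hpow hNm hL1
  set Λ := Lam N with hΛ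
  have hxk0 : Λ ^ κ0 ≤ x := (Nat.pow_le_pow_right (by omega) hκ0).trans hxk
  have hNY : N ∈ Yf A κ Λ x := by
    unfold Yf
    rw [if_pos hxk, mem_filter, mem_Icc]
    exact ⟨⟨hN1, hNx⟩, hx3⟩
  have hΛA : 1 ≤ Λ ^ A := Nat.one_le_pow _ _ (by omega)
  obtain ⟨v, hv, hxv, hvL, -, hg⟩ := hm x hxk0 hxe N hNY (by
    intro u j0 hu hug hj0
    have h3 := hle x N (j0 + 1) hxe hNx hNm (by omega)
    have hu1 : (u : ℝ) ≤ x + (Λ : ℝ) ^ A := by
      have : u ≤ x + Λ ^ A := by omega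
      exact_mod_cast this
    have hH0 : (0 : ℝ) ≤ H (N + (j0 + 1)) := Nat.cast_nonneg _
    have hx0 : (0 : ℝ) ≤ x := Nat.cast_nonneg _
    have hL0 : (0 : ℝ) ≤ (Λ : ℝ) ^ A := by positivity
    obtain ⟨v, hv, hv1, hv2, hv3⟩ := hs u (by linarith) (H (N + (j0 + 1))) (by linarith)
      (hH _ (by omega)).1
    refine ⟨v, hv, hv1, hv2, fun h => absurd h (by norm_num), j0, le_refl _, by omega, ?_⟩
    change v + H (N + j0 + 1) ∈ (Gf H A Λ x N).filter (fun u => u ∈ R)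
    rw [mem_filter]
    refine ⟨?_, hv3⟩
    unfold Gf
    rw [mem_image]
    refine ⟨(v, j0 + 1), ?_, rfl⟩
    rw [mem_product, mem_Ioc, mem_Icc]
    refine ⟨⟨?_, ?_⟩, ?_, ?_⟩ <;> simp only <;> omega)
  have hg' : v + H (N + ((Ioo x v).filter (fun u => u ∈ R)).card + 1) ∈
      (Gf H A Λ x N).filter (fun u => u ∈ R) := hg
  have hcn := cn_split R hxv hv
  rw [hxN] at hcn
  rw [← hcn, mem_filter] at hg'
  have hup := cn_add_le R hxv hv
  rw [hxN] at hup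
  refine ⟨v, v + H (cn R v), hv, hg'.2, by omega, ?_, by omega, rfl⟩
  have h4 : cn R v ≤ N + Λ ^ A := by omega
  have h5 : (cn R v : ℝ) ≤ N + (Λ : ℝ) ^ A := by exact_mod_cast h4
  linarith

/-- constant polynomials -/
lemma fin0 {R : Set ℕ} (c0 A C0 : ℕ) (hC : C0 ≤ A)
    (hs : ∀ᶠ Λ : ℕ in atTop, ∀ u : ℕ, (u : ℝ) ≤ Real.exp ((Λ : ℝ) ^ 2) →
      ∀ H : ℕ, (H : ℝ) ≤ Real.exp ((Λ : ℝ) ^ 2) → Even H → ∃ v ∈ R, u < v ∧ v ≤ u + Λ ^ C0 ∧ v + H ∈ R)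
    (h1 : ∀ᶠ x : ℕ in atTop, 2 * cn R x ≤ x ∧ x ^ 2 ≤ cn R x ^ 3)
    (h2 : ∀ n : ℕ, 1 ≤ n → ∃ v ∈ R, cn R v = n) :
    ∀ᶠ N : ℕ in atTop, ∃ v w : ℕ, v ∈ R ∧ w ∈ R ∧ N < cn R v ∧
      (cn R v : ℝ) ≤ N + Real.log N ^ (2 * A) ∧ w = v + 2 * c0 := by
  filter_upwards [setup R h1 h2 0, Lam_tendsto.eventually hs, Lam_pow A,
    Lam_tendsto.eventually (eventually_ge_atTop (2 * c0 + 1))]
    with N ⟨x, hx, hxN, hN1, hNx, hx3, hxk, hxe⟩ hs hpow hL1
  set Λ := Lam N with hΛ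
  have hΛ1 : (1 : ℝ) ≤ Λ := by
    have : 1 ≤ Λ := by omega
    exact_mod_cast this
  have hΛ2 : (Λ : ℝ) ≤ (Λ : ℝ) ^ 2 := by nlinarith
  have h3 : (x : ℝ) ≤ Real.exp ((Λ : ℝ) ^ 2) := hxe.trans (Real.exp_le_exp.2 hΛ2)
  have h4 : ((2 * c0 : ℕ) : ℝ) ≤ Real.exp ((Λ : ℝ) ^ 2) := by
    have h5 : ((2 * c0 : ℕ) : ℝ) ≤ Λ := by
      have : 2 * c0 ≤ Λ := by omega
      exact_mod_cast this
    have h6 := Real.add_one_le_exp ((Λ : ℝ) ^ 2)
    linarith
  obtain ⟨v, hv, hv1, hv2, hv3⟩ := hs x h3 (2 * c0) h4 (even_two_mul c0)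
  have hup := cn_add_le R hv1 hv
  have hsp := cn_split R hv1 hv
  rw [hxN] at hup hsp
  refine ⟨v, v + 2 * c0, hv, hv3, by omega, ?_, rfl⟩
  have h5 : cn R v ≤ N + Λ ^ C0 := by omega
  have h6 : (cn R v : ℝ) ≤ N + (Λ : ℝ) ^ C0 := by exact_mod_cast h5
  have h7 : (Λ : ℝ) ^ C0 ≤ (Λ : ℝ) ^ A := pow_le_pow_right₀ hΛ1 hC
  linarith

lemma countable_poly : Countable (Polynomial ℚ) := by
  rw [← Cardinal.mk_le_aleph0_iff]
  refine Polynomial.cardinalMk_le_max.trans ?_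
  simp

end F3aa

open F3aa in
theorem t_3aa (hm : S_master) (hs : S_sys) (he : S_elem) : S_3aa := by
  intro c hc
  obtain ⟨C0, hC0, hs⟩ := hs c hc
  obtain ⟨A1, hA1⟩ := hm c hc 1 C0
  set A := max A1 (C0 + 1) with hA
  obtain ⟨κ0, hκ0⟩ := hA1 A (le_max_left _ _)
  have hAC : C0 + 1 ≤ A := le_max_right _ _
  refine ⟨2 * A, fun z hz Ω _ P a hM => ?_⟩
  have := countable_poly
  rw [ae_all_iff]
  intro F
  by_cases hF : (∀ m : ℤ, ∃ k : ℤ, F.eval (m : ℚ) = k) ∧ 0 < F.leadingCoeff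
  swap
  · exact Filter.Eventually.of_forall fun ω h1 h2 => absurd ⟨h1, h2⟩ hF
  obtain ⟨hF1, hF2⟩ := hF
  obtain ⟨-, hel⟩ := he c hc z hz
  rcases Nat.eq_zero_or_pos F.natDegree with hd | hd
  · -- constants
    obtain ⟨k, hk⟩ := hF1 0
    have hFc := Polynomial.eq_C_of_natDegree_eq_zero hd
    have hk0 : 0 < k := by
      rw [hFc, Polynomial.leadingCoeff_C] at hF2
      rw [hFc, Polynomial.eval_C] at hk
      rw [hk] at hF2
      exact_mod_cast hF2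
    have hval : ∀ q : ℚ, F.eval q = (k.toNat : ℚ) := fun q => by
      have h1 : F.eval q = F.eval ((0 : ℤ) : ℚ) := by
        rw [hFc, Polynomial.eval_C, Polynomial.eval_C]
      rw [h1, hk]
      have h2 : (((k.toNat : ℕ) : ℤ) : ℚ) = (k : ℚ) := by rw [Int.toNat_of_nonneg hk0.le]
      rw [← h2, Int.cast_natCast]
    filter_upwards [hs z hz Ω P a hM, hel Ω P a hM] with ω h1 h2 _ _
    have h3 := fin0 (R := R0 z c (fun q => a q ω)) k.toNat A C0 (by omega)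
      (h1.mono fun Λ h u hu => (h u hu).1) h2.1 h2.2.1
    filter_upwards [h3] with N hN
    obtain ⟨v, w, h4, h5, h6, h7, h8⟩ := hN
    refine ⟨v, w, h4, h5, h6, h7, ?_⟩
    rw [h8, hval]
    push_cast
    ring
  · obtain ⟨H, m0, hH, hval⟩ := poly F hF1 hF2 hd
    have h0 := hκ0 z hz 1 (Or.inl rfl) ℕ (Yf A (max κ0 (3 * A))) (Gf H A) (Grf H)
      (cond hH A (max κ0 (3 * A)) κ0 (by omega) (le_max_right _ _)) Ω P a hM
    filter_upwards [hs z hz Ω P a hM, hel Ω P a hM, h0] with ω h1 h2 h3 _ _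
    have h4 := fin (R := R0 z c (fun q => a q ω)) hH A (max κ0 (3 * A)) κ0 C0 (by omega)
      (le_max_right _ _) (le_max_left _ _) (h1.mono fun Λ h u hu => (h u hu).1) h2.1 h2.2.1 h3
    filter_upwards [h4] with N hN
    obtain ⟨v, w, h5, h6, h7, h8, h9, h10⟩ := hN
    refine ⟨v, w, h5, h6, h7, h8, ?_⟩
    rw [h10]
    push_cast
    rw [hval _ h9]

end Pool.Agent.H559.IX

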