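import Pool.Agent.H559.IX.StmP

set_option autoImplicit false

/-! # Every large even number is a sum of two iterated random primes -/

open Finset MeasureTheory ProbabilityTheory Filter Topology
open Pool.Agent.T2H32.BF (Model V V_pos V_anti V_ratio mertens)

namespace Pool.Agent.H559.IX
namespace F778

/-! ### the counting function -/

open Classical in
theorem cn_le (A : Set ℕ) (v : ℕ) : cn A v ≤ v := by
  unfold cn
  exact (card_filter_le _ _).trans (by simp)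

open Classical in
theorem cn_congr {A A' : Set ℕ} {M : ℕ} (h : ∀ w ≤ M, (w ∈ A ↔ w ∈ A')) {v : ℕ} (hv : v ≤ M) :
    cn A v = cn A' v := by
  unfold cn
  congr 1
  apply filter_congr
  intro w hw
  exact h w ((mem_Icc.mp hw).2.trans hv)

theorem It_congr {A A' : Set ℕ} {M : ℕ} (h : ∀ w ≤ M, (w ∈ A ↔ w ∈ A')) (i : ℕ) :
    ∀ v ≤ M, (v ∈ It A i ↔ v ∈ It A' i) := by
  induction i with
  | zero => exact h
  | succ i ih =>
    intro v hv
    change (v ∈ A ∧ cn A v ∈ It A i) ↔ (v ∈ A' ∧ cn A' v ∈ It A' i)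
    rw [h v hv, cn_congr h hv, ih _ ((cn_le A' v).trans hv)]

open Classical in
theorem cn_split (A : Set ℕ) {M j : ℕ} (h : M ≤ j) :
    cn A j = cn A M + ((Ioc M j).filter (fun u => u ∈ A)).card := by
  unfold cn
  rw [← card_union_of_disjoint]
  · congr 1
    ext w
    simp only [mem_union, mem_filter, mem_Icc, mem_Ioc]
    constructor
    · rintro ⟨⟨h1, h2⟩, h3⟩
      rcases le_or_gt w M with h4 | h4
      · exact Or.inl ⟨⟨h1, h4⟩, h3⟩
      · exact Or.inr ⟨⟨h4, h2⟩, h3⟩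
    · rintro (⟨⟨h1, h2⟩, h3⟩ | ⟨⟨h1, h2⟩, h3⟩)
      · exact ⟨⟨h1, h2.trans h⟩, h3⟩
      · exact ⟨⟨by omega, h2⟩, h3⟩
  · rw [disjoint_left]
    intro w h1 h2
    simp only [mem_filter, mem_Icc, mem_Ioc] at h1 h2
    omega

open Classical in
theorem cn_elt (A : Set ℕ) {x v : ℕ} (h : x < v) (hv : v ∈ A) :
    cn A v = cn A x + ((Ioo x v).filter (fun u => u ∈ A)).card + 1 := by
  rw [cn_split A h.le, add_assoc]
  congr 1
  have h1 : (Ioc x v).filter (fun u => u ∈ A) = insert v ((Ioo x v).filter (fun u => u ∈ A)) := by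
    ext w
    simp only [mem_filter, mem_Ioc, mem_insert, mem_Ioo]
    constructor
    · rintro ⟨⟨h1, h2⟩, h3⟩
      rcases h2.lt_or_eq with h4 | h4
      · exact Or.inr ⟨⟨h1, h4⟩, h3⟩
      · exact Or.inl h4
    · rintro (h1 | ⟨⟨h1, h2⟩, h3⟩)
      · subst h1
        exact ⟨⟨h, le_rfl⟩, hv⟩
      · exact ⟨⟨h1, h2.le⟩, h3⟩
  rw [h1, card_insert_of_notMem]
  simp

/-! ### the chain test -/

/-- the chain test -/
def chk (W : Finset ℕ) : ℕ → (ℕ → ℕ) → ℕ → Prop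
  | 0, _, j => j ∈ W
  | k + 1, N, j => j ∈ W ∧
      chk W k (fun m => N (m + 1)) (N 1 + (W.filter (fun u => N 0 < u ∧ u ≤ j)).card)

theorem chk_iff (A : Set ℕ) (W : Finset ℕ) (B : ℕ) (k : ℕ) : ∀ (N : ℕ → ℕ),
    (∀ m ≤ k, ∀ u, N m < u → u ≤ N m + B → (u ∈ W ↔ u ∈ A)) →
    (∀ m < k, N (m + 1) = cn A (N m)) → ∀ j, N 0 < j → j ≤ N 0 + B →
    (chk W k N j ↔ j ∈ It A k) := by
  classical
  induction k with
  | zero =>
    intro N hW hN j h1 h2
    exact hW 0 le_rfl j h1 h2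
  | succ k ih =>
    intro N hW hN j h1 h2
    have hc : N 1 + (W.filter (fun u => N 0 < u ∧ u ≤ j)).card = cn A j := by
      rw [cn_split A h1.le, hN 0 (Nat.succ_pos k)]
      congr 2
      ext u
      simp only [mem_filter, mem_Ioc]
      constructor
      · rintro ⟨a, b, c⟩
        exact ⟨⟨b, c⟩, (hW 0 (Nat.zero_le _) u b (c.trans h2)).mp a⟩
      · rintro ⟨⟨b, c⟩, a⟩
        exact ⟨(hW 0 (Nat.zero_le _) u b (c.trans h2)).mpr a, b, c⟩
    change (j ∈ W ∧ chk W k (fun m => N (m + 1)) (N 1 + (W.filter (fun u => N 0 < u ∧ u ≤ j)).card)) ↔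
      (j ∈ A ∧ cn A j ∈ It A k)
    rw [hW 0 (Nat.zero_le _) j h1 h2]
    refine and_congr_right fun hj => ?_
    have hp : 0 < (W.filter (fun u => N 0 < u ∧ u ≤ j)).card :=
      card_pos.mpr ⟨j, mem_filter.mpr ⟨(hW 0 (Nat.zero_le _) j h1 h2).mpr hj, h1, le_rfl⟩⟩
    have hl : (W.filter (fun u => N 0 < u ∧ u ≤ j)).card ≤ B := by
      have h3 : W.filter (fun u => N 0 < u ∧ u ≤ j) ⊆ Ioc (N 0) j := by
        intro u hu
        exact mem_Ioc.mpr (mem_filter.mp hu).2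
      have h4 := card_le_card h3
      rw [Nat.card_Ioc] at h4
      omega
    rw [hc]
    refine ih (fun m => N (m + 1)) (fun m hm => hW (m + 1) (by omega))
      (fun m hm => hN (m + 1) (by omega)) _ ?_ ?_
    · change N 1 < cn A j
      omega
    · change cn A j ≤ N 1 + B
      omega

/-! ### dependence on the classes -/

theorem R0_congr {z : ℕ → ℕ} (hz : Monotone z) {M : ℕ} (hM : z M < M) {c : ℝ} {b b' : ℕ → ℕ}
    (h : ∀ p ≤ M, p.Prime → b p = b' p) : ∀ w ≤ M, (w ∈ R0 z c b ↔ w ∈ R0 z c b') := by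
  intro w hw
  have key : ∀ q ≤ z w, q.Prime → b q = b' q :=
    fun q hq hp => h q (hq.trans ((hz hw).trans hM.le)) hp
  refine and_congr_right fun _ => ?_
  refine forall_congr' fun q => forall_congr' fun hq => forall_congr' fun hp => ?_
  rw [key q hq hp]

/-! ### iterates of the counting function -/

theorem le_sq {x y : ℕ} (h : x ^ 2 ≤ y ^ 3) : x ≤ y ^ 2 := by
  by_contra hlt
  push Not at hlt
  have h1 : (y ^ 2) ^ 2 < x ^ 2 := Nat.pow_lt_pow_left hlt (by norm_num)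
  rw [← pow_mul] at h1
  rcases Nat.eq_zero_or_pos y with rfl | hy
  · norm_num at h h1
    omega
  · have h2 : y ^ 3 ≤ y ^ (2 * 2) := Nat.pow_le_pow_right hy (by norm_num)
    omega

theorem tend {A : Set ℕ} (H : ∀ᶠ x : ℕ in atTop, 2 * cn A x ≤ x ∧ x ^ 2 ≤ cn A x ^ 3) :
    Tendsto (cn A) atTop atTop := by
  rw [tendsto_atTop]
  intro b
  filter_upwards [H, eventually_gt_atTop (b ^ 2)] with x hx hb
  by_contra hlt
  push Not at hlt
  have h1 := le_sq hx.2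
  have h2 : cn A x ^ 2 ≤ b ^ 2 := Nat.pow_le_pow_left hlt.le 2
  omega

theorem tend_iter {A : Set ℕ} (H : ∀ᶠ x : ℕ in atTop, 2 * cn A x ≤ x ∧ x ^ 2 ≤ cn A x ^ 3) (m : ℕ) :
    Tendsto ((cn A)^[m]) atTop atTop := by
  induction m with
  | zero => exact tendsto_id
  | succ m ih =>
    rw [Function.iterate_succ']
    exact (tend H).comp ih

theorem iter_facts {A : Set ℕ} (H : ∀ᶠ x : ℕ in atTop, 2 * cn A x ≤ x ∧ x ^ 2 ≤ cn A x ^ 3) (m : ℕ) :
    ∀ᶠ x : ℕ in atTop, 2 * (cn A)^[m + 1] x ≤ x ∧ x ≤ ((cn A)^[m + 1] x) ^ (2 ^ (m + 1)) := by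
  induction m with
  | zero =>
    filter_upwards [H] with x hx
    rw [zero_add, Function.iterate_one, pow_one]
    exact ⟨hx.1, le_sq hx.2⟩
  | succ m ih =>
    filter_upwards [ih, (tend_iter H (m + 1)).eventually H] with x hx hy
    rw [Function.iterate_succ_apply' (cn A) (m + 1)]
    refine ⟨by omega, hx.2.trans ?_⟩
    have h1 := Nat.pow_le_pow_left (le_sq hy.2) (2 ^ (m + 1))
    rw [← pow_mul] at h1
    refine h1.trans (le_of_eq ?_)
    congr 1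
    ring

theorem iter_all {A : Set ℕ} (H : ∀ᶠ x : ℕ in atTop, 2 * cn A x ≤ x ∧ x ^ 2 ≤ cn A x ^ 3) (k D : ℕ)
    (hD : 2 ^ (k + 1) ≤ D) :
    ∀ᶠ x : ℕ in atTop, ∀ m ≤ k, 2 * (cn A)^[m + 1] x ≤ x ∧ x ≤ ((cn A)^[m + 1] x) ^ D := by
  have h1 : ∀ᶠ x : ℕ in atTop, ∀ m ∈ range (k + 1),
      2 * (cn A)^[m + 1] x ≤ x ∧ x ≤ ((cn A)^[m + 1] x) ^ (2 ^ (m + 1)) := by
    rw [eventually_all_finset]
    intro m _
    exact iter_facts H m
  filter_upwards [h1, eventually_gt_atTop 0] with x hx h0 m hm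
  obtain ⟨h2, h3⟩ := hx m (mem_range.mpr (by omega))
  refine ⟨h2, h3.trans ?_⟩
  have h4 : 0 < (cn A)^[m + 1] x := by
    rcases Nat.eq_zero_or_pos ((cn A)^[m + 1] x) with h5 | h5
    · rw [h5, zero_pow (by positivity)] at h3
      omega
    · exact h5
  refine Nat.pow_le_pow_right h4 (le_trans ?_ hD)
  exact Nat.pow_le_pow_right (by norm_num) (by omega)

/-! ### the length parameter -/

/-- the length parameter -/
noncomputable def La (n : ℕ) : ℕ := 2 * ⌊Real.log n⌋₊ + 6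

theorem log_nat_tendsto : Tendsto (fun n : ℕ => Real.log n) atTop atTop :=
  Real.tendsto_log_atTop.comp tendsto_natCast_atTop_atTop

theorem La_tendsto : Tendsto La atTop atTop := by
  rw [tendsto_atTop]
  intro b
  filter_upwards [log_nat_tendsto.eventually_ge_atTop (b : ℝ)] with n hn
  have h1 : b ≤ ⌊Real.log n⌋₊ := Nat.le_floor hn
  unfold La
  omega

theorem La_le_sq : ∀ᶠ n : ℕ in atTop, (La n : ℝ) ≤ Real.log n ^ 2 := by
  filter_upwards [log_nat_tendsto.eventually_ge_atTop (4 : ℝ)] with n hn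
  have h1 : (⌊Real.log n⌋₊ : ℝ) ≤ Real.log n := Nat.floor_le (by linarith)
  unfold La
  push_cast
  nlinarith

theorem La_pow_le (K : ℕ) : ∀ᶠ n : ℕ in atTop, (La n) ^ K ≤ n := by
  have h1 : ∀ᶠ x : ℝ in atTop, Real.log x ^ (2 * K) ≤ x := by
    have h2 := (Real.isLittleO_pow_log_id_atTop (n := 2 * K)).bound (zero_lt_one)
    filter_upwards [h2, eventually_ge_atTop (1 : ℝ)] with x hx hx1
    rw [one_mul, Real.norm_eq_abs, Real.norm_eq_abs, id, abs_of_nonneg (by linarith : (0:ℝ) ≤ x)] at hx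
    exact (le_abs_self _).trans hx
  filter_upwards [La_le_sq, tendsto_natCast_atTop_atTop.eventually h1] with n hn h2
  have h3 : ((La n : ℝ)) ^ K ≤ (n : ℝ) := by
    calc ((La n : ℝ)) ^ K ≤ (Real.log n ^ 2) ^ K := by gcongr
      _ = Real.log n ^ (2 * K) := by rw [← pow_mul]
      _ ≤ n := h2
  exact_mod_cast h3

theorem two_mul_le_exp (n : ℕ) : (2 * n : ℝ) ≤ Real.exp (La n) := by
  rcases Nat.eq_zero_or_pos n with rfl | hn
  · simp
    positivity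
  · have hn' : (0 : ℝ) < n := by exact_mod_cast hn
    have h1 : Real.log (2 * n) ≤ La n := by
      rw [Real.log_mul (by norm_num) hn'.ne']
      have h2 : Real.log n < ⌊Real.log n⌋₊ + 1 := Nat.lt_floor_add_one _
      have h3 : Real.log 2 ≤ 1 := by
        have := Real.log_two_lt_d9
        linarith
      have h4 : (0 : ℝ) ≤ ⌊Real.log n⌋₊ := Nat.cast_nonneg _
      unfold La
      push_cast
      linarith
    calc (2 * n : ℝ) = Real.exp (Real.log (2 * n)) := (Real.exp_log (by positivity)).symm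
      _ ≤ Real.exp (La n) := Real.exp_le_exp.mpr h1

/-! ### the data -/

/-- the extension of a tuple -/
def ext (k : ℕ) (f : Fin (k + 1) → ℕ) (m : ℕ) : ℕ := if h : m < k + 1 then f ⟨m, h⟩ else 0

theorem ext_apply {k : ℕ} (f : Fin (k + 1) → ℕ) {m : ℕ} (h : m < k + 1) : ext k f m = f ⟨m, h⟩ := by
  unfold ext
  rw [dif_pos h]

open Classical in
/-- the index set -/
noncomputable def YY (k D κ : ℕ) (Λ x : ℕ) : Finset (ℕ × (Fin (k + 1) → ℕ)) :=
  if Λ ^ κ ≤ x then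
    ((range (⌊Real.exp Λ⌋₊ + 1)) ×ˢ (Fintype.piFinset fun _ => range (x + 1))).filter
      (fun y => ∀ m, 2 * y.2 m ≤ x ∧ x ≤ y.2 m ^ D)
  else ∅

/-- the windows -/
def GG (k A : ℕ) (Λ : ℕ) (y : ℕ × (Fin (k + 1) → ℕ)) : Finset ℕ :=
  univ.biUnion (fun m : Fin (k + 1) => Ioc (y.2 m) (y.2 m + 3 * Λ ^ A))

/-- the relation -/
def Grr (z : ℕ → ℕ) (c : ℝ) (k j A : ℕ) (Λ : ℕ) (y : ℕ × (Fin (k + 1) → ℕ)) (b : ℕ → ℕ)
    (W : Finset ℕ) (J v : ℕ) : Prop :=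
  (v ≤ y.1 ∧ y.1 - v ≤ Λ ^ (9 * A) ∧ y.1 - v ∈ It (R0 z c b) j) ∧
    chk W k (ext k y.2) (ext k y.2 0 + J + 1)

theorem card_YY (k D κ Λ x : ℕ) (hD : 2 * (k + 2) ≤ D) (hΛ : 1 ≤ Λ) (hx : (x : ℝ) ≤ Real.exp Λ) :
    ((YY k D κ Λ x).card : ℝ) ≤ Real.exp (D * Λ) := by
  classical
  have hE : (2 : ℝ) ≤ Real.exp Λ := by
    have h1 : (1 : ℝ) ≤ Λ := by exact_mod_cast hΛ
    have h2 := Real.add_one_le_exp (Λ : ℝ)
    linarith
  have h1 : (YY k D κ Λ x).card ≤ (⌊Real.exp Λ⌋₊ + 1) * (x + 1) ^ (k + 1) := by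
    unfold YY
    split_ifs
    · refine (card_filter_le _ _).trans ?_
      rw [card_product, card_range, Fintype.card_piFinset]
      simp
    · simp
  have h2 : ((YY k D κ Λ x).card : ℝ) ≤ (⌊Real.exp Λ⌋₊ + 1) * ((x : ℝ) + 1) ^ (k + 1) := by
    exact_mod_cast h1
  have h3 : (⌊Real.exp Λ⌋₊ : ℝ) ≤ Real.exp Λ := Nat.floor_le (Real.exp_pos _).le
  have h4 : Real.exp Λ + 1 ≤ Real.exp (2 * Λ) := by
    have : Real.exp (2 * (Λ : ℝ)) = Real.exp Λ * Real.exp Λ := by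
      rw [← Real.exp_add]
      ring_nf
    rw [this]
    nlinarith
  calc ((YY k D κ Λ x).card : ℝ) ≤ (⌊Real.exp Λ⌋₊ + 1) * ((x : ℝ) + 1) ^ (k + 1) := h2
    _ ≤ Real.exp (2 * Λ) * Real.exp (2 * Λ) ^ (k + 1) := by
      have h5 : (⌊Real.exp Λ⌋₊ : ℝ) + 1 ≤ Real.exp (2 * Λ) := by linarith
      have h6 : (x : ℝ) + 1 ≤ Real.exp (2 * Λ) := by linarith
      gcongr
    _ = Real.exp ((2 * (k + 2) : ℕ) * Λ) := by
      rw [← pow_succ', ← Real.exp_nat_mul]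
      congr 1
      push_cast
      ring
    _ ≤ Real.exp (D * Λ) := by
      apply Real.exp_le_exp.mpr
      gcongr

theorem mem_YY {k D κ Λ x : ℕ} {y : ℕ × (Fin (k + 1) → ℕ)} (h : y ∈ YY k D κ Λ x) :
    Λ ^ κ ≤ x ∧ ∀ m, 2 * y.2 m ≤ x ∧ x ≤ y.2 m ^ D := by
  unfold YY at h
  split_ifs at h with h1
  · exact ⟨h1, (mem_filter.mp h).2⟩
  · simp at h

theorem YY_mem {k D κ Λ x : ℕ} {y : ℕ × (Fin (k + 1) → ℕ)} (h0 : Λ ^ κ ≤ x) (hT : (y.1 : ℝ) ≤ Real.exp Λ)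
    (h : ∀ m, 2 * y.2 m ≤ x ∧ x ≤ y.2 m ^ D) : y ∈ YY k D κ Λ x := by
  unfold YY
  rw [if_pos h0]
  refine mem_filter.mpr ⟨mem_product.mpr ⟨?_, ?_⟩, h⟩
  · rw [mem_range]
    exact Nat.lt_succ_of_le (Nat.le_floor hT)
  · rw [Fintype.mem_piFinset]
    intro m
    rw [mem_range]
    have := (h m).1
    omega

theorem card_GG (k A Λ : ℕ) (y : ℕ × (Fin (k + 1) → ℕ)) (hA : 1 ≤ A) (hΛ : 3 * (k + 1) ≤ Λ) :
    (GG k A Λ y).card ≤ Λ ^ (3 * A) := by
  have hΛ1 : 0 < Λ := by omega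
  calc (GG k A Λ y).card ≤ ∑ m : Fin (k + 1), (Ioc (y.2 m) (y.2 m + 3 * Λ ^ A)).card := card_biUnion_le
    _ = (k + 1) * (3 * Λ ^ A) := by simp
    _ = (3 * (k + 1)) * Λ ^ A := by ring
    _ ≤ Λ * Λ ^ A := Nat.mul_le_mul_right _ hΛ
    _ = Λ ^ (A + 1) := by rw [pow_succ']
    _ ≤ Λ ^ (3 * A) := Nat.pow_le_pow_right hΛ1 (by omega)

theorem mem_GG {k A Λ v : ℕ} {y : ℕ × (Fin (k + 1) → ℕ)} :
    v ∈ GG k A Λ y ↔ ∃ m : Fin (k + 1), y.2 m < v ∧ v ≤ y.2 m + 3 * Λ ^ A := by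
  unfold GG
  simp

/-- the hypothesis of the window theorem -/
theorem hyp (z : ℕ → ℕ) (hz : Lim z) (c : ℝ) (hzk : ∀ᶠ k : ℕ in atTop, z k < k) (k j D A κ : ℕ)
    (hD : 2 * (k + 2) ≤ D) (hA : 1 ≤ A) :
    ∀ᶠ Λ : ℕ in atTop, ∀ x : ℕ, Λ ^ κ ≤ x → (x : ℝ) ≤ Real.exp Λ →
      ((YY k D (A + 3) Λ x).card : ℝ) ≤ Real.exp (D * Λ) ∧
    ∀ y ∈ YY k D (A + 3) Λ x, (GG k A Λ y).card ≤ Λ ^ (3 * A) ∧
      (∀ v ∈ GG k A Λ y, x ≤ v ^ D ∧ (v : ℝ) ≤ Real.exp ((Λ : ℝ) ^ 2) ∧ (v ≤ x ∨ x + Λ ^ A < v)) ∧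
      ∀ b b' : ℕ → ℕ, (∀ p ≤ Λ ^ (10 * A), p.Prime → b p = b' p) →
        ∀ W J v, Grr z c k j A Λ y b W J v ↔ Grr z c k j A Λ y b' W J v := by
  have hzM : ∀ᶠ Λ : ℕ in atTop, z (Λ ^ (9 * A)) < Λ ^ (9 * A) := by
    have ht : Tendsto (fun Λ : ℕ => Λ ^ (9 * A)) atTop atTop := tendsto_pow_atTop (by omega)
    exact ht.eventually hzk
  filter_upwards [eventually_ge_atTop (3 * (k + 1)), hzM] with Λ hΛ hzΛ x _ hx
  have hΛ3 : 3 ≤ Λ := by omega
  refine ⟨card_YY k D _ Λ x hD (by omega) hx, ?_⟩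
  intro y hy
  obtain ⟨hκ, hN⟩ := mem_YY hy
  refine ⟨card_GG k A Λ y hA hΛ, ?_, ?_⟩
  · intro v hv
    obtain ⟨m, h1, h2⟩ := mem_GG.mp hv
    obtain ⟨h3, h4⟩ := hN m
    have h5 : 6 * Λ ^ A ≤ x := by
      refine le_trans ?_ hκ
      rw [pow_add, mul_comm]
      refine Nat.mul_le_mul_left _ ?_
      calc 6 ≤ 3 ^ 3 := by norm_num
        _ ≤ Λ ^ 3 := Nat.pow_le_pow_left hΛ3 3
    have h6 : v ≤ x := by omega
    refine ⟨h4.trans (Nat.pow_le_pow_left h1.le D), ?_, Or.inl h6⟩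
    calc (v : ℝ) ≤ x := by exact_mod_cast h6
      _ ≤ Real.exp Λ := hx
      _ ≤ Real.exp ((Λ : ℝ) ^ 2) := by
        apply Real.exp_le_exp.mpr
        have : (1 : ℝ) ≤ Λ := by exact_mod_cast (by omega : 1 ≤ Λ)
        nlinarith
  · intro b b' hb W J v
    unfold Grr
    have hc : ∀ w ≤ Λ ^ (9 * A), (w ∈ R0 z c b ↔ w ∈ R0 z c b') := by
      refine R0_congr hz.1 hzΛ fun p hp hpp => hb p (hp.trans ?_) hpp
      exact Nat.pow_le_pow_right (by omega) (by omega)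
    refine and_congr_left fun _ => and_congr_right fun _ => and_congr_right fun h => ?_
    exact It_congr hc j _ h

/-! ### the true chain -/

/-- the true data -/
noncomputable def yt (A : Set ℕ) (k n x : ℕ) : ℕ × (Fin (k + 1) → ℕ) :=
  (2 * n, fun m => (cn A)^[m.val + 1] x)

theorem ext_yt (A : Set ℕ) {k n x m : ℕ} (h : m ≤ k) : ext k (yt A k n x).2 m = (cn A)^[m + 1] x := by
  rw [ext_apply _ (by omega : m < k + 1)]
  rfl

open Classical in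
/-- the random primes in the windows -/
noncomputable def WW (A : Set ℕ) (k B Λ n x : ℕ) : Finset ℕ :=
  (GG k B Λ (yt A k n x)).filter (fun u => u ∈ A)

theorem chk_true (R : Set ℕ) (k A Λ n x j : ℕ) (h1 : cn R x < j) (h2 : j ≤ cn R x + 3 * Λ ^ A) :
    chk (WW R k A Λ n x) k (ext k (yt R k n x).2) j ↔ j ∈ It R k := by
  classical
  refine chk_iff R _ (3 * Λ ^ A) k _ ?_ ?_ j ?_ ?_
  · intro m hm u hu1 hu2
    unfold WW
    rw [mem_filter, mem_GG]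
    rw [ext_yt R hm] at hu1 hu2
    constructor
    · exact fun h => h.2
    · exact fun h => ⟨⟨⟨m, by omega⟩, hu1, hu2⟩, h⟩
  · intro m hm
    rw [ext_yt R (by omega), ext_yt R (by omega), Function.iterate_succ_apply']
  · rw [ext_yt R (Nat.zero_le _)]
    exact h1
  · rw [ext_yt R (Nat.zero_le _)]
    exact h2

/-- the iteration property at the level `Λ` -/
def IP (R : Set ℕ) (i C κ Λ : ℕ) : Prop := ∀ x : ℕ, Λ ^ κ ≤ x → (x : ℝ) ≤ Real.exp Λ →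
  ∀ T : ℕ, 3 * x ≤ T → (T : ℝ) ≤ Real.exp (2 * Λ) → Even T →
    ∃ v ∈ It R i, x < v ∧ v ≤ x + Λ ^ C ∧ T - v ∈ R

theorem hex (z : ℕ → ℕ) (c : ℝ) (b : ℕ → ℕ) (k j A A0 Cj Ck κj κk Λ n x : ℕ)
    (hIj : IP (R0 z c b) j Cj κj Λ) (hIk : IP (R0 z c b) k Ck κk Λ)
    (hCj : Cj ≤ A0) (hCk : Ck ≤ A0) (hA0 : A0 ≤ A) (hκj : κj ≤ A) (hA : 1 ≤ A) (hΛ : 3 ≤ Λ)
    (hx : x + Λ ^ (A + 2) = 2 * n) (hn : 3 * Λ ^ (A + 2) ≤ 2 * n) (hn' : (2 * n : ℝ) ≤ Real.exp Λ)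
    (hN : Λ ^ κk ≤ cn (R0 z c b) x) (hN2 : 2 * cn (R0 z c b) x ≤ x) (hx2 : 2 * Λ ^ A ≤ x) :
    Hex 1 (Λ ^ A0) (Λ ^ A) (R0 z c b) x (Grr z c k j A Λ (yt (R0 z c b) k n x) b
      (WW (R0 z c b) k A Λ n x)) := by
  set R := R0 z c b with hR
  intro u j0 hu1 hu2 hj0
  have hΛ0 : 0 < Λ := by omega
  have e1 : Λ ^ Cj ≤ Λ ^ A0 := Nat.pow_le_pow_right hΛ0 hCj
  have e2 : Λ ^ Ck ≤ Λ ^ A0 := Nat.pow_le_pow_right hΛ0 hCk
  have e3 : Λ ^ A0 ≤ Λ ^ A := Nat.pow_le_pow_right hΛ0 hA0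
  have e4 : Λ ^ κj ≤ Λ ^ A := Nat.pow_le_pow_right hΛ0 hκj
  have e5 : 9 * Λ ^ A ≤ Λ ^ (A + 2) := by
    rw [pow_add, mul_comm]
    exact Nat.mul_le_mul_left _ (by nlinarith)
  have e6 : 0 < Λ ^ A := Nat.pow_pos hΛ0
  have hE : (4 : ℝ) ≤ Real.exp Λ := by
    have h1 : (3 : ℝ) ≤ Λ := by exact_mod_cast hΛ
    have h2 := Real.add_one_le_exp (Λ : ℝ)
    linarith
  have hE2 : Real.exp (2 * (Λ : ℝ)) = Real.exp Λ * Real.exp Λ := by
    rw [← Real.exp_add]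
    ring_nf
  -- the element
  obtain ⟨v', hv'1, hv'2, hv'3, hv'4⟩ := hIj (2 * n - u - Λ ^ A0 - 1) (by omega)
    (by
      have h1 : 2 * n - u - Λ ^ A0 - 1 ≤ 2 * n := by omega
      have h2 : ((2 * n - u - Λ ^ A0 - 1 : ℕ) : ℝ) ≤ ((2 * n : ℕ) : ℝ) := by exact_mod_cast h1
      refine h2.trans ?_
      push_cast
      exact hn')
    (2 * n) (by omega)
    (by
      push_cast
      rw [hE2]
      nlinarith)
    (even_two_mul n)
  -- the index
  have hx'' : cn R x + j0 ≤ x := by omega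
  have hxe : (x : ℝ) ≤ Real.exp Λ := by
    have h1 : x ≤ 2 * n := by omega
    have h2 : (x : ℝ) ≤ ((2 * n : ℕ) : ℝ) := by exact_mod_cast h1
    refine h2.trans ?_
    push_cast
    exact hn'
  have hxe' : ((cn R x + j0 : ℕ) : ℝ) ≤ Real.exp Λ := by
    refine le_trans ?_ hxe
    exact_mod_cast hx''
  obtain ⟨w, hw1, hw2, hw3, -⟩ := hIk (cn R x + j0) (by omega) hxe'
    (4 * (cn R x + j0)) (by omega)
    (by
      rw [hE2]
      have h1 : ((4 * (cn R x + j0) : ℕ) : ℝ) = 4 * ((cn R x + j0 : ℕ) : ℝ) := by push_cast; ring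
      rw [h1]
      exact mul_le_mul hE hxe' (Nat.cast_nonneg _) (by linarith))
    (⟨2 * (cn R x + j0), by ring⟩)
  refine ⟨2 * n - v', hv'4, by omega, by omega, fun h => absurd h (by norm_num),
    w - cn R x - 1, by omega, by omega, ⟨?_, ?_, ?_⟩, ?_⟩
  · change 2 * n - v' ≤ 2 * n
    omega
  · change 2 * n - (2 * n - v') ≤ Λ ^ (9 * A)
    have h1 : Λ ^ (A + 2) ≤ Λ ^ (9 * A) := Nat.pow_le_pow_right hΛ0 (by omega)
    omega
  · change 2 * n - (2 * n - v') ∈ It R j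
    have h1 : 2 * n - (2 * n - v') = v' := by omega
    rw [h1]
    exact hv'1
  · rw [ext_yt R (Nat.zero_le _)]
    have h1 : (cn R)^[0 + 1] x + (w - cn R x - 1) + 1 = w := by
      rw [zero_add, Function.iterate_one]
      omega
    rw [h1]
    exact (chk_true R k A Λ n x w (by omega) (by omega)).mpr hw1

end F778

open F778 in
theorem t_778 (hm : S_master) (_hs : S_sys) (he : S_elem) (hi : S_iter) : S_778 := by
  classical
  intro c hc i j
  obtain ⟨Cj, κj, hj⟩ := hi c hc j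
  rcases i with _ | k
  · refine ⟨2 * (Cj + κj + 1), ?_⟩
    intro z hz Ω _ P a ha
    filter_upwards [hj z hz Ω P a ha] with ω h1
    filter_upwards [La_tendsto.eventually h1, La_le_sq, La_pow_le (Cj + κj + 1),
      La_tendsto.eventually_ge_atTop 3] with n h2 h3 h4 h5
    have hΛ0 : 0 < La n := by omega
    have hn' := two_mul_le_exp n
    have g1 : 3 * La n ^ κj ≤ La n ^ (Cj + κj + 1) := by
      calc 3 * La n ^ κj ≤ La n * La n ^ κj := Nat.mul_le_mul_right _ h5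
        _ = La n ^ (κj + 1) := by rw [pow_succ']
        _ ≤ La n ^ (Cj + κj + 1) := Nat.pow_le_pow_right hΛ0 (by omega)
    have g2 : 3 * La n ^ Cj ≤ La n ^ (Cj + κj + 1) := by
      calc 3 * La n ^ Cj ≤ La n * La n ^ Cj := Nat.mul_le_mul_right _ h5
        _ = La n ^ (Cj + 1) := by rw [pow_succ']
        _ ≤ La n ^ (Cj + κj + 1) := Nat.pow_le_pow_right hΛ0 (by omega)
    have hE : (1 : ℝ) ≤ Real.exp (La n) := Real.one_le_exp (Nat.cast_nonneg _)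
    obtain ⟨v, hv1, hv2, hv3, hv4⟩ := h2 (La n ^ κj) le_rfl
      (by
        refine le_trans ?_ hn'
        exact_mod_cast (by omega : La n ^ κj ≤ 2 * n))
      (2 * n) (by omega)
      (by
        push_cast
        refine hn'.trans (Real.exp_le_exp.mpr ?_)
        have : (0 : ℝ) ≤ La n := Nat.cast_nonneg _
        linarith)
      (even_two_mul n)
    refine ⟨2 * n - v, v, hv4, hv1, by omega, ?_⟩
    have h6 : v ≤ La n ^ (Cj + κj + 1) := by omega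
    calc (v : ℝ) ≤ ((La n ^ (Cj + κj + 1) : ℕ) : ℝ) := by exact_mod_cast h6
      _ = (La n : ℝ) ^ (Cj + κj + 1) := by push_cast; rfl
      _ ≤ (Real.log n ^ 2) ^ (Cj + κj + 1) := by gcongr
      _ = Real.log n ^ (2 * (Cj + κj + 1)) := by rw [← pow_mul]
  · obtain ⟨Ck, κk, hk⟩ := hi c hc k
    set D := 2 ^ (k + 1) + 2 * (k + 2) with hD
    obtain ⟨A1, hA1⟩ := hm c hc D (Cj + Ck)
    obtain ⟨A, hA⟩ : ∃ A, A = A1 + Cj + Ck + κj + κk + 1 := ⟨_, rfl⟩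
    obtain ⟨κ, hκ⟩ := hA1 A (by omega)
    have hD1 : 2 * (k + 2) ≤ D := Nat.le_add_left _ _
    have hD2 : 2 ^ (k + 1) ≤ D := Nat.le_add_right _ _
    clear_value D
    refine ⟨2 * (9 * A), ?_⟩
    intro z hz Ω _ P a ha
    obtain ⟨hzk, hel⟩ := he c hc z hz
    have hM := hκ z hz 1 (Or.inl rfl) (ℕ × (Fin (k + 1) → ℕ)) (fun Λ x => YY k D (A + 3) Λ x)
      (fun Λ _ y => GG k A Λ y) (fun Λ _ y b W J v => Grr z c k j A Λ y b W J v)
      (hyp z hz c hzk k j D A κ hD1 (by omega)) Ω P a ha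
    filter_upwards [hM, hj z hz Ω P a ha, hk z hz Ω P a ha, hel Ω P a ha] with ω h1 h2 h3 h4
    obtain ⟨h5, -, -⟩ := h4
    set R := R0 z c (fun q => a q ω) with hR
    have hxt : Tendsto (fun n : ℕ => 2 * n - La n ^ (A + 2)) atTop atTop := by
      rw [tendsto_atTop]
      intro B
      filter_upwards [La_pow_le (A + 2), eventually_ge_atTop B] with n hn1 hn2
      omega
    filter_upwards [La_tendsto.eventually h1, La_tendsto.eventually h2, La_tendsto.eventually h3,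
      hxt.eventually (iter_all h5 k D hD2), La_le_sq, La_pow_le (κ + A + 3 + 2 * κk),
      La_tendsto.eventually_ge_atTop 3, hxt.eventually h5] with n f1 f2 f3 f4 f5 f6 f7 f8
    have hΛ0 : 0 < La n := by omega
    have hn' := two_mul_le_exp n
    set Λ := La n with hΛ
    set x := 2 * n - Λ ^ (A + 2) with hx
    have p1 : Λ ^ (A + 2) ≤ Λ ^ (κ + A + 3 + 2 * κk) := Nat.pow_le_pow_right hΛ0 (by omega)
    have p2 : Λ ^ κ ≤ Λ ^ (κ + A + 3 + 2 * κk) := Nat.pow_le_pow_right hΛ0 (by omega)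
    have p3 : Λ ^ (A + 3) ≤ Λ ^ (κ + A + 3 + 2 * κk) := Nat.pow_le_pow_right hΛ0 (by omega)
    have p4 : 3 * Λ ^ (A + 2) ≤ Λ ^ (A + 3) := by
      rw [pow_succ Λ (A + 2), mul_comm]
      exact Nat.mul_le_mul_left _ f7
    have p5 : 9 * Λ ^ A ≤ Λ ^ (A + 2) := by
      rw [pow_add, mul_comm]
      exact Nat.mul_le_mul_left _ (by nlinarith)
    have p6 : Λ ^ (2 * κk) ≤ Λ ^ (κ + A + 3 + 2 * κk) := Nat.pow_le_pow_right hΛ0 (by omega)
    have hxn : x + Λ ^ (A + 2) = 2 * n := by omega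
    have hnx : n ≤ x := by omega
    have hxe : (x : ℝ) ≤ Real.exp Λ := by
      refine le_trans ?_ hn'
      exact_mod_cast (by omega : x ≤ 2 * n)
    have hN1 : x ≤ cn R x ^ 2 := le_sq f8.2
    have hN : Λ ^ κk ≤ cn R x := by
      by_contra hlt
      push Not at hlt
      have q1 : cn R x ^ 2 < (Λ ^ κk) ^ 2 := Nat.pow_lt_pow_left hlt (by norm_num)
      rw [← pow_mul, mul_comm] at q1
      omega
    have hyY : yt R k n x ∈ YY k D (A + 3) Λ x := by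
      refine YY_mem (by omega) ?_ ?_
      · change ((2 * n : ℕ) : ℝ) ≤ Real.exp Λ
        push_cast
        exact hn'
      · intro m
        exact f4 m.val (by have := m.isLt; omega)
    obtain ⟨v, hv1, hv2, hv3, -, ⟨hv4, hv5, hv6⟩, hv7⟩ := f1 x (by omega) hxe _ hyY
      (hex z c (fun q => a q ω) k j A (Cj + Ck) Cj Ck κj κk Λ n x f2 f3 (by omega) (by omega)
        (by omega) (by omega) (by omega) f7 hxn (by omega) hn' hN f8.1 (by omega))
    change v ≤ 2 * n at hv4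
    change 2 * n - v ≤ Λ ^ (9 * A) at hv5
    change 2 * n - v ∈ It R j at hv6
    have hcn := cn_elt R hv2 hv1
    have hJ : ((Ioo x v).filter (fun u => u ∈ R)).card + 1 ≤ Λ ^ A := by
      have r1 := card_filter_le (Ioo x v) (fun u => u ∈ R)
      rw [Nat.card_Ioo] at r1
      omega
    have hv8 := (chk_true R k A Λ n x (cn R v) (by omega) (by omega)).mp (by
      rw [hcn]
      rw [ext_yt R (Nat.zero_le _)] at hv7
      exact hv7)
    refine ⟨v, 2 * n - v, ⟨hv1, hv8⟩, hv6, by omega, ?_⟩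
    calc ((2 * n - v : ℕ) : ℝ) ≤ ((Λ ^ (9 * A) : ℕ) : ℝ) := by exact_mod_cast hv5
      _ = (Λ : ℝ) ^ (9 * A) := by push_cast; rfl
      _ ≤ (Real.log n ^ 2) ^ (9 * A) := by gcongr
      _ = Real.log n ^ (2 * (9 * A)) := by rw [← pow_mul]

end Pool.Agent.H559.IX
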