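import Pool.Agent.H559.IX.StmN

set_option autoImplicit false

/-! # From real intervals to ranks in a finite set (proof of `S_hexB`, helper51) -/

open Finset

namespace Pool.Agent.H559.IX

namespace HexBT

theorem rk_le (S : Finset ℕ) (a b : ℕ) : rk S b ≤ rk S a + (b - a) := by
  have h1 : S.filter (fun u => u < b) ⊆ S.filter (fun u => u < a) ∪ Ico a b := by
    intro u hu
    rw [mem_filter] at hu
    rw [mem_union, mem_filter, mem_Ico]
    by_cases h : u < a
    · exact Or.inl ⟨hu.1, h⟩
    · exact Or.inr ⟨by omega, hu.2⟩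
  have h2 := card_le_card h1
  have h3 := card_union_le (S.filter (fun u => u < a)) (Ico a b)
  rw [Nat.card_Ico] at h3
  unfold rk
  omega

theorem rk_lt (S : Finset ℕ) (a b : ℕ) (ha : a ∈ S) (hab : a < b) : rk S a < rk S b := by
  unfold rk
  apply card_lt_card
  rw [Finset.ssubset_iff_of_subset]
  · exact ⟨a, by simp [ha, hab], by simp⟩
  · intro u hu
    rw [mem_filter] at hu ⊢
    exact ⟨hu.1, hu.2.trans hab⟩

theorem rk_mono (S : Finset ℕ) (a b : ℕ) (hab : a ≤ b) : rk S a ≤ rk S b := by
  unfold rk
  apply card_le_card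
  intro u hu
  rw [mem_filter] at hu ⊢
  exact ⟨hu.1, hu.2.trans_le hab⟩

theorem exists_rk (S : Finset ℕ) (m : ℕ) (hm : m < S.card) : ∃ u ∈ S, rk S u = m := by
  classical
  induction m with
  | zero =>
    have hne : S.Nonempty := card_pos.1 hm
    refine ⟨S.min' hne, S.min'_mem hne, ?_⟩
    unfold rk
    rw [card_eq_zero, filter_eq_empty_iff]
    intro u hu h
    exact absurd (S.min'_le u hu) (by omega)
  | succ m ih =>
    obtain ⟨u, hu, hr⟩ := ih (by omega)
    have hne : (S.filter (fun w => u < w)).Nonempty := by
      rw [Finset.nonempty_iff_ne_empty]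
      intro h0
      have h1 : S ⊆ insert u (S.filter (fun w => w < u)) := by
        intro w hw
        rw [mem_insert, mem_filter]
        rcases lt_trichotomy w u with h | h | h
        · exact Or.inr ⟨hw, h⟩
        · exact Or.inl h
        · have : w ∈ S.filter (fun w => u < w) := mem_filter.2 ⟨hw, h⟩
          rw [h0] at this
          exact absurd this (by simp)
      have h2 := card_le_card h1
      have h3 := card_insert_le u (S.filter (fun w => w < u))
      unfold rk at hr
      omega
    set w := (S.filter (fun w => u < w)).min' hne with hw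
    have hwm := (S.filter (fun w => u < w)).min'_mem hne
    rw [← hw, mem_filter] at hwm
    refine ⟨w, hwm.1, ?_⟩
    have h4 : S.filter (fun v => v < w) = insert u (S.filter (fun v => v < u)) := by
      ext v
      rw [mem_filter, mem_insert, mem_filter]
      constructor
      · rintro ⟨h1, h2⟩
        rcases lt_trichotomy v u with h | h | h
        · exact Or.inr ⟨h1, h⟩
        · exact Or.inl h
        · have : v ∈ S.filter (fun w => u < w) := mem_filter.2 ⟨h1, h⟩
          have := (S.filter (fun w => u < w)).min'_le v this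
          rw [← hw] at this
          omega
      · rintro (h | h)
        · subst h
          exact ⟨hu, hwm.2⟩
        · exact ⟨h.1, h.2.trans hwm.2⟩
    unfold rk at hr ⊢
    rw [h4, card_insert_of_notMem (by simp), hr]

end HexBT

open HexBT in
theorem t_hexB : S_hexB := by
  intro e g L n x S R Gr _ hg hn hS hR hH i hi J hJ r hr1 hr2
  have hn0 : 0 < n := by omega
  have hcard : S.card ≤ L := by
    have := card_le_card hS
    rw [Nat.card_Ioc] at this
    omega
  have hin : (i + 1) * n ≤ S.card := by
    have h1 : i + 1 ≤ S.card / n := hi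
    exact (Nat.le_div_iff_mul_le hn0).1 h1
  have hin' : i * n + n ≤ S.card := by
    have : (i + 1) * n = i * n + n := by ring
    omega
  obtain ⟨u, hu, hur⟩ := exists_rk S (i * n + n / 2) (by omega)
  obtain ⟨w, hw, hwr⟩ := exists_rk S (i * n + (n - 1)) (by omega)
  have huw : u < w := by
    by_contra hc
    have := rk_mono S w u (by omega)
    omega
  have hdist := rk_le S u w
  have hux := mem_Ioc.1 (hS hu)
  have hwx := mem_Ioc.1 (hS hw)
  have huw2 : u + g + 2 ≤ w := by omega
  have hq1 : n / 2 * r / n * n ≤ n / 2 * r := Nat.div_mul_le_self _ _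
  have hq2 : n / 2 * r < (n / 2 * r / n + 1) * n := by
    have := Nat.lt_div_mul_add (a := n / 2 * r) hn0
    have h2 : (n / 2 * r / n + 1) * n = n / 2 * r / n * n + n := by ring
    omega
  have hq3 : n / 2 * r / n ≤ n := by
    apply Nat.div_le_of_le_mul
    apply Nat.mul_le_mul <;> omega
  obtain ⟨q, hq⟩ : ∃ q, q = n / 2 * r / n := ⟨_, rfl⟩
  rw [← hq] at hq1 hq2 hq3
  clear hq
  obtain ⟨v, hvR, huv, hvu, hv2, j, hj1, hj2, hG⟩ := hH u (J + q) (by omega) (by omega) (by omega)
  have hvS : v ∈ S := hR v (mem_Ioc.2 ⟨by omega, by omega⟩) hvR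
  refine ⟨v, hvS, ?_, rk S v - i * n, j - J, ?_, ?_, ?_, ?_, ?_, ?_⟩
  · intro he
    exact hR (v + 2) (mem_Ioc.2 ⟨by omega, by omega⟩) (hv2 he)
  · have := rk_lt S u v hu huv
    omega
  · have := rk_lt S u v hu huv
    omega
  · have := rk_le S u v
    omega
  · have h1 := rk_lt S u v hu huv
    have h2 : n / 2 ≤ rk S v - i * n := by omega
    have h3 : j - J ≤ q + g := by omega
    calc (j - J) * n ≤ (q + g) * n := Nat.mul_le_mul_right _ h3
      _ = q * n + g * n := by ring
      _ ≤ n / 2 * r + (g + 1) * n := by
        have : g * n ≤ (g + 1) * n := Nat.mul_le_mul_right _ (by omega)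
        omega
      _ ≤ (rk S v - i * n) * r + (g + 1) * n := by
        have := Nat.mul_le_mul_right r h2
        omega
  · have h1 := rk_le S u v
    have h2 : rk S v - i * n ≤ n / 2 + g := by omega
    have h3 : q ≤ j - J := by omega
    calc (rk S v - i * n) * r ≤ (n / 2 + g) * r := Nat.mul_le_mul_right _ h2
      _ = n / 2 * r + g * r := by ring
      _ ≤ (q + 1) * n + g * n := by
        have : g * r ≤ g * n := Nat.mul_le_mul_left _ (by omega)
        omega
      _ = q * n + (g + 1) * n := by ring
      _ ≤ (j - J) * n + (g + 1) * n := by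
        have := Nat.mul_le_mul_right n h3
        omega
  · have : J + (j - J) = j := by omega
    rw [this]
    exact hG

end Pool.Agent.H559.IX
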