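import Pool.Agent.H559.IX.StmA

set_option autoImplicit false
set_option linter.unusedSectionVars false
set_option linter.unreachableTactic false
set_option linter.unusedTactic false

/-!
# The local lower bound for hypergeometric probabilities
-/

open Finset

namespace Pool.Agent.H559.IX

namespace Hyp

/-- the terms of the Vandermonde sum -/
def f (A B s j : ℕ) : ℕ := A.choose j * B.choose (s - j)

theorem f_step (A B s i : ℕ) (h : i < s) :
    f A B s (i + 1) * ((i + 1) * (B - (s - i - 1))) = f A B s i * ((A - i) * (s - i)) := by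
  unfold f
  have h1 := Nat.choose_succ_right_eq A i
  have h2 := Nat.choose_succ_right_eq B (s - i - 1)
  have e1 : s - i - 1 + 1 = s - i := by omega
  have e2 : s - (i + 1) = s - i - 1 := by omega
  rw [e1] at h2
  rw [e2]
  calc A.choose (i + 1) * B.choose (s - i - 1) * ((i + 1) * (B - (s - i - 1)))
      = (A.choose (i + 1) * (i + 1)) * (B.choose (s - i - 1) * (B - (s - i - 1))) := by ring
    _ = (A.choose i * (A - i)) * (B.choose (s - i) * (s - i)) := by rw [h1, h2]
    _ = _ := by ring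

theorem sum_f (A B s : ℕ) : (A + B).choose s = ∑ j ∈ range (s + 1), f A B s j := by
  rw [Nat.add_choose_eq, Finset.Nat.sum_antidiagonal_eq_sum_range_succ_mk]
  rfl

/-- the bound for the powers -/
theorem pow_le_two (G m : ℕ) (hm : m ≤ G + 1) :
    (1 + 28 / (100 * ((G : ℝ) + 1))) ^ m ≤ 2 := by
  have hG : (0 : ℝ) < (G : ℝ) + 1 := by positivity
  have h0 : (0 : ℝ) ≤ 28 / (100 * ((G : ℝ) + 1)) := by positivity
  have h1 : 1 + 28 / (100 * ((G : ℝ) + 1)) ≤ Real.exp (28 / (100 * ((G : ℝ) + 1))) := by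
    have := Real.add_one_le_exp (28 / (100 * ((G : ℝ) + 1)))
    linarith
  have h2 : (1 + 28 / (100 * ((G : ℝ) + 1))) ^ m ≤ Real.exp (m * (28 / (100 * ((G : ℝ) + 1)))) := by
    rw [Real.exp_nat_mul]
    exact pow_le_pow_left₀ (by linarith) h1 m
  have h3 : (m : ℝ) * (28 / (100 * ((G : ℝ) + 1))) ≤ 1 / 2 := by
    have h4 : (m : ℝ) ≤ (G : ℝ) + 1 := by exact_mod_cast hm
    calc (m : ℝ) * (28 / (100 * ((G : ℝ) + 1))) ≤ ((G : ℝ) + 1) * (28 / (100 * ((G : ℝ) + 1))) :=
          mul_le_mul_of_nonneg_right h4 h0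
      _ = 28 / 100 := by field_simp
      _ ≤ 1 / 2 := by norm_num
  have h5 : Real.exp (1 / 2) ≤ 2 := by
    have h6 : Real.exp (1 / 2) * Real.exp (1 / 2) = Real.exp 1 := by
      rw [← Real.exp_add]; norm_num
    have h7 := Real.exp_one_lt_d9
    have h8 := Real.exp_pos (1 / 2)
    by_contra hcon
    push Not at hcon
    nlinarith
  exact h2.trans ((Real.exp_le_exp.2 h3).trans h5)

theorem fin1 {X Y q a b c : ℝ} (h : X - Y ≤ a) (h1 : a ≤ b) (h2 : b ≤ c) (h3 : c ≤ q * Y) :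
    X ≤ (1 + q) * Y := by
  rw [add_mul, one_mul]; linarith

theorem fin2 {X Y a : ℝ} (h : X - Y ≤ a) (h1 : a ≤ 0) : X ≤ 1 * Y := by
  rw [one_mul]; linarith

theorem fin3 {g n m : ℝ} (hn : 0 ≤ n) (hm : 0 ≤ m) : (g - m) * n ≤ g * n :=
  mul_le_mul_of_nonneg_right (by linarith) hn

section

variable {e n t r k G : ℕ} (he : e = 1 ∨ e = 2) (hr : 100 * (G + 1) ^ 2 ≤ r) (hrn : 2 * r ≤ n)
  (ht1 : n ≤ 3 * t) (ht2 : 3 * t ≤ 2 * n) (hk1 : k * n ≤ t * r + G * n)
  (hk2 : t * r ≤ k * n + G * n)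

include he hr hrn ht1 ht2 hk1 hk2

theorem facts : (r : ℝ) ≤ 4 * (k + 1) ∧ (n : ℝ) ≤ 7 * ((n : ℝ) - t - r + k + 1) ∧
    (n : ℝ) ≤ 7 * ((t : ℝ) - k + 1) ∧ (r : ℝ) ≤ 4 * ((r : ℝ) - 2 - k + 1) ∧
    28 * ((G : ℝ) + 1) ≤ 28 / (100 * ((G : ℝ) + 1)) * r := by
  have hr' : 100 * ((G : ℝ) + 1) ^ 2 ≤ r := by exact_mod_cast hr
  have hrn' : 2 * (r : ℝ) ≤ n := by exact_mod_cast hrn
  have ht1' : (n : ℝ) ≤ 3 * t := by exact_mod_cast ht1
  have ht2' : 3 * (t : ℝ) ≤ 2 * n := by exact_mod_cast ht2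
  have hk1' : (k : ℝ) * n ≤ t * r + G * n := by exact_mod_cast hk1
  have hk2' : (t : ℝ) * r ≤ k * n + G * n := by exact_mod_cast hk2
  have hG : (0 : ℝ) ≤ G := Nat.cast_nonneg G
  have hGr : 100 * ((G : ℝ) + 1) ≤ r := by nlinarith
  have hr0 : (0 : ℝ) < r := by nlinarith
  have hn0 : (0 : ℝ) < n := by linarith
  have a1 : (r : ℝ) / 3 ≤ k + G := by
    have h1 : (n : ℝ) * (r / 3) ≤ n * (k + G) := by nlinarith
    exact le_of_mul_le_mul_left h1 hn0
  have a2 : (n : ℝ) / 6 ≤ (n : ℝ) - t - r + k + G := by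
    have h1 : (n : ℝ) * (n / 6) ≤ n * ((n : ℝ) - t - r + k + G) := by
      have h2 : (n : ℝ) / 3 * (n / 2) ≤ (n - t) * (n - r) := by
        apply mul_le_mul <;> linarith
      nlinarith
    exact le_of_mul_le_mul_left h1 hn0
  have a3 : (n : ℝ) / 6 ≤ (t : ℝ) - k + G := by
    have h1 : (n : ℝ) * (n / 6) ≤ n * ((t : ℝ) - k + G) := by
      have h2 : (n : ℝ) / 3 * (n / 2) ≤ t * (n - r) := by
        apply mul_le_mul <;> linarith
      nlinarith
    exact le_of_mul_le_mul_left h1 hn0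
  have a4 : (k : ℝ) ≤ 2 * r / 3 + G := by
    have h1 : (n : ℝ) * k ≤ n * (2 * r / 3 + G) := by nlinarith
    exact le_of_mul_le_mul_left h1 hn0
  refine ⟨by linarith, by linarith, by linarith, by linarith, ?_⟩
  have h1 : 28 / (100 * ((G : ℝ) + 1)) * (100 * ((G : ℝ) + 1) ^ 2) = 28 * ((G : ℝ) + 1) := by
    field_simp
  rw [← h1]
  exact mul_le_mul_of_nonneg_left hr' (by positivity)

/-- the ratio upwards -/
theorem ratio_up (m : ℕ) (hm : k + m < r - e) (hA : k + m < t) :
    (((t - (k + m)) * (r - e - (k + m)) : ℕ) : ℝ) ≤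
      (if m < G then 1 + 28 / (100 * ((G : ℝ) + 1)) else 1) *
      (((k + m + 1) * (n - t - e - (r - e - (k + m) - 1)) : ℕ) : ℝ) := by
  obtain ⟨b1, b2, b3, b4, b5⟩ := facts he hr hrn ht1 ht2 hk1 hk2
  have hrn' : 2 * (r : ℝ) ≤ n := by exact_mod_cast hrn
  have hk1' : (k : ℝ) * n ≤ t * r + G * n := by exact_mod_cast hk1
  have hk2' : (t : ℝ) * r ≤ k * n + G * n := by exact_mod_cast hk2
  have hr0 : (0 : ℝ) ≤ r := Nat.cast_nonneg r
  have hn0 : (0 : ℝ) ≤ n := Nat.cast_nonneg n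
  have ht0 : (0 : ℝ) ≤ t := Nat.cast_nonneg t
  have hm0 : (0 : ℝ) ≤ m := Nat.cast_nonneg m
  have hk0 : (0 : ℝ) ≤ k := Nat.cast_nonneg k
  have hpos : r < n - t + k + 1 := by
    have h1 : (r : ℝ) < (n : ℝ) - t + k + 1 := by
      have h2 : (0 : ℝ) < n := by
        have : (1 : ℝ) ≤ r := by
          have : 1 ≤ r := by omega
          exact_mod_cast this
        linarith
      linarith
    have h2 : t ≤ n := by omega
    have h3 : ((n - t + k + 1 : ℕ) : ℝ) = (n : ℝ) - t + k + 1 := by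
      push_cast [Nat.cast_sub h2]; ring
    rw [← h3] at h1
    exact_mod_cast h1
  have e1 : (((t - (k + m)) * (r - e - (k + m)) : ℕ) : ℝ) =
      ((t : ℝ) - (k + m)) * ((r : ℝ) - e - (k + m)) := by
    rw [Nat.cast_mul, Nat.cast_sub hA.le, Nat.cast_sub hm.le, Nat.cast_sub (by omega)]
    push_cast; ring
  have e2 : (((k + m + 1) * (n - t - e - (r - e - (k + m) - 1)) : ℕ) : ℝ) =
      ((k : ℝ) + m + 1) * ((n : ℝ) - t - r + k + m + 1) := by
    have h1 : n - t - e - (r - e - (k + m) - 1) = n + k + m + 1 - t - r := by omega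
    rw [h1, Nat.cast_mul, Nat.cast_sub (by omega), Nat.cast_sub (by omega)]
    push_cast; ring
  rw [e1, e2]
  have hX : (r : ℝ) / 4 * (n / 7) ≤ ((k : ℝ) + m + 1) * ((n : ℝ) - t - r + k + m + 1) := by
    apply mul_le_mul <;> first | linarith | positivity
  have hD : ((t : ℝ) - (k + m)) * ((r : ℝ) - e - (k + m)) -
      ((k : ℝ) + m + 1) * ((n : ℝ) - t - r + k + m + 1) ≤ ((G : ℝ) - m) * n := by
    rcases he with rfl | rfl
    · push_cast
      linarith
    · push_cast
      linarith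
  split_ifs with hmG
  · have h1 : 28 / (100 * ((G : ℝ) + 1)) * ((r : ℝ) / 4 * (n / 7)) ≤
        28 / (100 * ((G : ℝ) + 1)) * (((k : ℝ) + m + 1) * ((n : ℝ) - t - r + k + m + 1)) :=
      mul_le_mul_of_nonneg_left hX (by positivity)
    have h2 : (G : ℝ) * n ≤ 28 / (100 * ((G : ℝ) + 1)) * ((r : ℝ) / 4 * (n / 7)) := by
      have h3 := mul_le_mul_of_nonneg_right b5 hn0
      have h4 : 28 / (100 * ((G : ℝ) + 1)) * ((r : ℝ) / 4 * (n / 7)) =
        (28 / (100 * ((G : ℝ) + 1)) * r * n) / 28 := by ring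
      rw [h4, le_div_iff₀ (by norm_num)]
      linarith
    exact fin1 hD (fin3 hn0 hm0) h2 h1
  · have h1 : (G : ℝ) ≤ m := by exact_mod_cast not_lt.1 hmG
    exact fin2 hD (mul_nonpos_of_nonpos_of_nonneg (by linarith) hn0)

/-- the ratio downwards -/
theorem ratio_down (m : ℕ) (hm : m + 1 ≤ k) :
    ((((k - (m + 1)) + 1) * (n - t - e - (r - e - (k - (m + 1)) - 1)) : ℕ) : ℝ) ≤
      (if m < G + 1 then 1 + 28 / (100 * ((G : ℝ) + 1)) else 1) *
      (((t - (k - (m + 1))) * (r - e - (k - (m + 1))) : ℕ) : ℝ) := by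
  obtain ⟨b1, b2, b3, b4, b5⟩ := facts he hr hrn ht1 ht2 hk1 hk2
  have hrn' : 2 * (r : ℝ) ≤ n := by exact_mod_cast hrn
  have ht2' : 3 * (t : ℝ) ≤ 2 * n := by exact_mod_cast ht2
  have hk1' : (k : ℝ) * n ≤ t * r + G * n := by exact_mod_cast hk1
  have hk2' : (t : ℝ) * r ≤ k * n + G * n := by exact_mod_cast hk2
  have hr0 : (0 : ℝ) ≤ r := Nat.cast_nonneg r
  have hn0 : (0 : ℝ) ≤ n := Nat.cast_nonneg n
  have ht0 : (0 : ℝ) ≤ t := Nat.cast_nonneg t
  have hm0 : (0 : ℝ) ≤ m := Nat.cast_nonneg m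
  have hmk : (m : ℝ) + 1 ≤ k := by exact_mod_cast hm
  have hr1 : (100 : ℝ) ≤ r := by
    have : 100 ≤ r := le_trans (by nlinarith [Nat.zero_le G]) hr
    exact_mod_cast this
  have hkr : k + 2 < r := by
    have h1 : (k : ℝ) + 2 < r + 1 := by linarith
    have h2 : k + 2 < r + 1 := by exact_mod_cast h1
    have h3 : (k : ℝ) + 2 < r := by linarith
    exact_mod_cast h3
  have hkt : k ≤ t := by
    have h1 : (k : ℝ) < t + 1 := by linarith
    have h2 : k < t + 1 := by exact_mod_cast h1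
    omega
  have e0 : ((k - (m + 1) : ℕ) : ℝ) = (k : ℝ) - m - 1 := by
    rw [Nat.cast_sub hm]; push_cast; ring
  have e1 : (((t - (k - (m + 1))) * (r - e - (k - (m + 1))) : ℕ) : ℝ) =
      ((t : ℝ) - (k - m - 1)) * ((r : ℝ) - e - (k - m - 1)) := by
    rw [Nat.cast_mul, Nat.cast_sub (by omega : k - (m + 1) ≤ t),
      Nat.cast_sub (by omega : k - (m + 1) ≤ r - e), Nat.cast_sub (by omega : e ≤ r), e0]
  rw [e1]
  have he' : (e : ℝ) ≤ 2 := by rcases he with rfl | rfl <;> norm_num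
  have hY : (n : ℝ) / 7 * (r / 4) ≤ ((t : ℝ) - (k - m - 1)) * ((r : ℝ) - e - (k - m - 1)) := by
    apply mul_le_mul <;> first | linarith | positivity
  have hY0 : (0 : ℝ) ≤ ((t : ℝ) - (k - m - 1)) * ((r : ℝ) - e - (k - m - 1)) :=
    le_trans (by positivity) hY
  -- the truncated case
  rcases le_or_gt (n - t - e) (r - e - (k - (m + 1)) - 1) with htr | htr
  · rw [Nat.sub_eq_zero_of_le htr, Nat.mul_zero, Nat.cast_zero]
    refine mul_nonneg ?_ hY0
    split_ifs <;> positivity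
  have e2 : ((((k - (m + 1)) + 1) * (n - t - e - (r - e - (k - (m + 1)) - 1)) : ℕ) : ℝ) =
      ((k : ℝ) - m) * ((n : ℝ) - t - r + k - m) := by
    have h1 : n - t - e - (r - e - (k - (m + 1)) - 1) = n + k - m - t - r := by omega
    have h2 : k - (m + 1) + 1 = k - m := by omega
    rw [h1, h2, Nat.cast_mul, Nat.cast_sub (by omega), Nat.cast_sub (by omega),
      Nat.cast_sub (by omega), Nat.cast_sub (by omega)]
    push_cast; ring
  rw [e2]
  have hkr' : (k : ℝ) + 2 < r := by exact_mod_cast hkr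
  have hD : ((k : ℝ) - m) * ((n : ℝ) - t - r + k - m) -
      ((t : ℝ) - (k - m - 1)) * ((r : ℝ) - e - (k - m - 1)) ≤ ((G : ℝ) + 1 - m) * n := by
    rcases he with rfl | rfl
    · push_cast
      linarith
    · push_cast
      linarith
  split_ifs with hmG
  · have h1 : 28 / (100 * ((G : ℝ) + 1)) * ((n : ℝ) / 7 * (r / 4)) ≤
        28 / (100 * ((G : ℝ) + 1)) * (((t : ℝ) - (k - m - 1)) * ((r : ℝ) - e - (k - m - 1))) :=
      mul_le_mul_of_nonneg_left hY (by positivity)
    have h2 : ((G : ℝ) + 1) * n ≤ 28 / (100 * ((G : ℝ) + 1)) * ((n : ℝ) / 7 * (r / 4)) := by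
      have h3 := mul_le_mul_of_nonneg_right b5 hn0
      have h4 : 28 / (100 * ((G : ℝ) + 1)) * ((n : ℝ) / 7 * (r / 4)) =
        (28 / (100 * ((G : ℝ) + 1)) * r * n) / 28 := by ring
      rw [h4, le_div_iff₀ (by norm_num)]
      linarith
    exact fin1 hD (fin3 hn0 hm0) h2 h1
  · have h1 : (G : ℝ) + 1 ≤ m := by exact_mod_cast not_lt.1 hmG
    exact fin2 hD (mul_nonpos_of_nonpos_of_nonneg (by linarith) hn0)

theorem pos_up : r < n - t + k + 1 := by
  obtain ⟨b1, b2, b3, b4, b5⟩ := facts he hr hrn ht1 ht2 hk1 hk2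
  have hrn' : 2 * (r : ℝ) ≤ n := by exact_mod_cast hrn
  have hr1 : (100 : ℝ) ≤ r := by
    have : 100 ≤ r := le_trans (by nlinarith [Nat.zero_le G]) hr
    exact_mod_cast this
  have h1 : (r : ℝ) < (n : ℝ) - t + k + 1 := by linarith
  have h2 : t ≤ n := by omega
  have h3 : ((n - t + k + 1 : ℕ) : ℝ) = (n : ℝ) - t + k + 1 := by
    push_cast [Nat.cast_sub h2]; ring
  rw [← h3] at h1
  exact_mod_cast h1

theorem pos_down : k + 2 < r ∧ k ≤ t := by
  obtain ⟨b1, b2, b3, b4, b5⟩ := facts he hr hrn ht1 ht2 hk1 hk2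
  have hrn' : 2 * (r : ℝ) ≤ n := by exact_mod_cast hrn
  have hr1 : (100 : ℝ) ≤ r := by
    have : 100 ≤ r := le_trans (by nlinarith [Nat.zero_le G]) hr
    exact_mod_cast this
  constructor
  · have h3 : (k : ℝ) + 2 < r := by linarith
    exact_mod_cast h3
  · have h1 : (k : ℝ) < t + 1 := by linarith
    have h2 : k < t + 1 := by exact_mod_cast h1
    omega

theorem bound_up (m : ℕ) (hm : k + m ≤ r - e) :
    (f t (n - t - e) (r - e) (k + m) : ℝ) ≤
      (1 + 28 / (100 * ((G : ℝ) + 1))) ^ (min m G) * f t (n - t - e) (r - e) k := by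
  induction m with
  | zero => simp
  | succ m ih =>
    have ih' := ih (by omega)
    have hq : (1 : ℝ) ≤ 1 + 28 / (100 * ((G : ℝ) + 1)) := by
      have : (0 : ℝ) ≤ 28 / (100 * ((G : ℝ) + 1)) := by positivity
      linarith
    rcases le_or_gt t (k + m) with hA | hA
    · have h0 : f t (n - t - e) (r - e) (k + (m + 1)) = 0 := by
        unfold f
        rw [Nat.choose_eq_zero_of_lt (by omega), zero_mul]
      rw [h0, Nat.cast_zero]
      positivity
    · have hp := pos_up he hr hrn ht1 ht2 hk1 hk2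
      have h1 := ratio_up he hr hrn ht1 ht2 hk1 hk2 m (by omega) hA
      have h2 := f_step t (n - t - e) (r - e) (k + m) (by omega)
      have h3 : (f t (n - t - e) (r - e) (k + m + 1) : ℝ) *
          (((k + m + 1) * (n - t - e - (r - e - (k + m) - 1)) : ℕ) : ℝ) =
          (f t (n - t - e) (r - e) (k + m) : ℝ) *
          (((t - (k + m)) * (r - e - (k + m)) : ℕ) : ℝ) := by exact_mod_cast h2
      have hX : (0 : ℝ) < (((k + m + 1) * (n - t - e - (r - e - (k + m) - 1)) : ℕ) : ℝ) := by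
        have : 0 < (k + m + 1) * (n - t - e - (r - e - (k + m) - 1)) :=
          Nat.mul_pos (by omega) (by omega)
        exact_mod_cast this
      have h4 : (f t (n - t - e) (r - e) (k + m + 1) : ℝ) ≤
          (if m < G then 1 + 28 / (100 * ((G : ℝ) + 1)) else 1) *
            f t (n - t - e) (r - e) (k + m) := by
        refine le_of_mul_le_mul_right ?_ hX
        rw [h3]
        calc (f t (n - t - e) (r - e) (k + m) : ℝ) *
              (((t - (k + m)) * (r - e - (k + m)) : ℕ) : ℝ)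
            ≤ (f t (n - t - e) (r - e) (k + m) : ℝ) *
              ((if m < G then 1 + 28 / (100 * ((G : ℝ) + 1)) else 1) *
              (((k + m + 1) * (n - t - e - (r - e - (k + m) - 1)) : ℕ) : ℝ)) :=
              mul_le_mul_of_nonneg_left h1 (Nat.cast_nonneg _)
          _ = _ := by ring
      rw [← add_assoc]
      refine h4.trans ?_
      split_ifs with hmG
      · rw [min_eq_left hmG.le] at ih'
        rw [min_eq_left (by omega : m + 1 ≤ G), pow_succ, mul_comm (_ ^ m) _, mul_assoc]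
        exact mul_le_mul_of_nonneg_left ih' (by linarith)
      · rw [min_eq_right (by omega : G ≤ m)] at ih'
        rw [min_eq_right (by omega : G ≤ m + 1), one_mul]
        exact ih'

theorem bound_down (m : ℕ) (hm : m ≤ k) :
    (f t (n - t - e) (r - e) (k - m) : ℝ) ≤
      (1 + 28 / (100 * ((G : ℝ) + 1))) ^ (min m (G + 1)) * f t (n - t - e) (r - e) k := by
  induction m with
  | zero => simp
  | succ m ih =>
    have ih' := ih (by omega)
    have hq : (1 : ℝ) ≤ 1 + 28 / (100 * ((G : ℝ) + 1)) := by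
      have : (0 : ℝ) ≤ 28 / (100 * ((G : ℝ) + 1)) := by positivity
      linarith
    obtain ⟨hp1, hp2⟩ := pos_down he hr hrn ht1 ht2 hk1 hk2
    have h1 := ratio_down he hr hrn ht1 ht2 hk1 hk2 m hm
    have h2 := f_step t (n - t - e) (r - e) (k - (m + 1)) (by omega)
    have e1 : k - (m + 1) + 1 = k - m := by omega
    have h3 : (f t (n - t - e) (r - e) (k - m) : ℝ) *
        (((k - (m + 1) + 1) * (n - t - e - (r - e - (k - (m + 1)) - 1)) : ℕ) : ℝ) =
        (f t (n - t - e) (r - e) (k - (m + 1)) : ℝ) *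
        (((t - (k - (m + 1))) * (r - e - (k - (m + 1))) : ℕ) : ℝ) := by
      rw [e1] at h2
      rw [e1]
      exact_mod_cast h2
    have hY : (0 : ℝ) < (((t - (k - (m + 1))) * (r - e - (k - (m + 1))) : ℕ) : ℝ) := by
      have : 0 < (t - (k - (m + 1))) * (r - e - (k - (m + 1))) :=
        Nat.mul_pos (by omega) (by omega)
      exact_mod_cast this
    have h4 : (f t (n - t - e) (r - e) (k - (m + 1)) : ℝ) ≤
        (if m < G + 1 then 1 + 28 / (100 * ((G : ℝ) + 1)) else 1) *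
          f t (n - t - e) (r - e) (k - m) := by
      refine le_of_mul_le_mul_right ?_ hY
      rw [← h3]
      calc (f t (n - t - e) (r - e) (k - m) : ℝ) *
            (((k - (m + 1) + 1) * (n - t - e - (r - e - (k - (m + 1)) - 1)) : ℕ) : ℝ)
          ≤ (f t (n - t - e) (r - e) (k - m) : ℝ) *
            ((if m < G + 1 then 1 + 28 / (100 * ((G : ℝ) + 1)) else 1) *
            (((t - (k - (m + 1))) * (r - e - (k - (m + 1))) : ℕ) : ℝ)) :=
            mul_le_mul_of_nonneg_left h1 (Nat.cast_nonneg _)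
        _ = _ := by ring
    refine h4.trans ?_
    split_ifs with hmG
    · rw [min_eq_left hmG.le] at ih'
      rw [min_eq_left (by omega : m + 1 ≤ G + 1), pow_succ, mul_comm (_ ^ m) _, mul_assoc]
      exact mul_le_mul_of_nonneg_left ih' (by linarith)
    · rw [min_eq_right (by omega : G + 1 ≤ m)] at ih'
      rw [min_eq_right (by omega : G + 1 ≤ m + 1), one_mul]
      exact ih'

theorem bound_all (j : ℕ) (hj : j ≤ r - e) :
    f t (n - t - e) (r - e) j ≤ 2 * f t (n - t - e) (r - e) k := by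
  have hf : (0 : ℝ) ≤ f t (n - t - e) (r - e) k := Nat.cast_nonneg _
  have key : (f t (n - t - e) (r - e) j : ℝ) ≤ 2 * f t (n - t - e) (r - e) k := by
    rcases le_total k j with h | h
    · obtain ⟨m, rfl⟩ := Nat.exists_eq_add_of_le h
      have h1 := bound_up he hr hrn ht1 ht2 hk1 hk2 m hj
      exact h1.trans (mul_le_mul_of_nonneg_right (pow_le_two G _ (by omega)) hf)
    · obtain ⟨m, rfl⟩ := Nat.exists_eq_add_of_le h
      have h1 := bound_down he hr hrn ht1 ht2 hk1 hk2 m (by omega)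
      rw [Nat.add_sub_cancel] at h1
      exact h1.trans (mul_le_mul_of_nonneg_right (pow_le_two G _ (by omega)) hf)
  exact_mod_cast key

theorem vander : (n - e).choose (r - e) ≤ (r - e + 1) * (2 * f t (n - t - e) (r - e) k) := by
  have h1 : n - e = t + (n - t - e) := by
    have : 100 ≤ r := le_trans (by nlinarith [Nat.zero_le G]) hr
    omega
  rw [h1, sum_f]
  have h2 := Finset.sum_le_card_nsmul (range (r - e + 1)) (fun j => f t (n - t - e) (r - e) j)
    (2 * f t (n - t - e) (r - e) k)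
    (fun j hj => bound_all he hr hrn ht1 ht2 hk1 hk2 j (by rw [mem_range] at hj; omega))
  rwa [card_range, smul_eq_mul] at h2

end

end Hyp

theorem t_hyp : S_hyp := by
  intro e n t r k G he hr hrn ht1 ht2 hk1 hk2
  have hv := Hyp.vander he hr hrn ht1 ht2 hk1 hk2
  have hr1 : 100 ≤ r := le_trans (by nlinarith [Nat.zero_le G]) hr
  have hF : t.choose k * (n - t - e).choose (r - e - k) = Hyp.f t (n - t - e) (r - e) k := rfl
  rw [hF]
  set F := Hyp.f t (n - t - e) (r - e) k with hFdef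
  obtain ⟨n', rfl⟩ : ∃ n', n = n' + 2 := ⟨n - 2, by omega⟩
  obtain ⟨r', rfl⟩ : ∃ r', r = r' + 2 := ⟨r - 2, by omega⟩
  have c1 := Nat.add_one_mul_choose_eq (n' + 1) (r' + 1)
  have c2 := Nat.add_one_mul_choose_eq n' r'
  rcases he with rfl | rfl
  · have e1 : n' + 2 - 1 = n' + 1 := by omega
    have e2 : r' + 2 - 1 = r' + 1 := by omega
    have e3 : r' + 2 - 1 + 1 = r' + 2 := by omega
    rw [e1, e3, e2] at hv
    have h1 : (n' + 2).choose (r' + 2) * (r' + 2) ≤ (2 * (n' + 2) * F) * (r' + 2) := by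
      calc (n' + 2).choose (r' + 2) * (r' + 2) = (n' + 2) * (n' + 1).choose (r' + 1) := c1.symm
        _ ≤ (n' + 2) * ((r' + 2) * (2 * F)) := Nat.mul_le_mul_left _ hv
        _ = _ := by ring
    have h2 := Nat.le_of_mul_le_mul_right h1 (by omega)
    refine h2.trans (Nat.mul_le_mul_right _ ?_)
    nlinarith
  · have e1 : n' + 2 - 2 = n' := by omega
    have e2 : r' + 2 - 2 = r' := by omega
    rw [e1, e2] at hv
    have h1 : (n' + 2).choose (r' + 2) * ((r' + 2) * (r' + 1)) ≤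
        (2 * ((n' + 2) * (n' + 1)) * F) * ((r' + 2) * (r' + 1)) := by
      calc (n' + 2).choose (r' + 2) * ((r' + 2) * (r' + 1))
          = ((n' + 1 + 1).choose (r' + 1 + 1) * (r' + 1 + 1)) * (r' + 1) := by ring
        _ = ((n' + 1 + 1) * (n' + 1).choose (r' + 1)) * (r' + 1) := by rw [c1]
        _ = (n' + 2) * ((n' + 1).choose (r' + 1) * (r' + 1)) := by ring
        _ = (n' + 2) * ((n' + 1) * n'.choose r') := by rw [c2]
        _ ≤ (n' + 2) * ((n' + 1) * ((r' + 1) * (2 * F))) :=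
            Nat.mul_le_mul_left _ (Nat.mul_le_mul_left _ hv)
        _ = (2 * ((n' + 2) * (n' + 1)) * F) * (1 * (r' + 1)) := by ring
        _ ≤ _ := Nat.mul_le_mul_left _ (Nat.mul_le_mul_right _ (by omega))
    have h2 := Nat.le_of_mul_le_mul_right h1 (by positivity)
    refine h2.trans (Nat.mul_le_mul_right _ ?_)
    nlinarith

end Pool.Agent.H559.IX
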