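import Pool.Agent.H559.IX.StmP
import Pool.Agent.H559.IX.Chk

set_option autoImplicit false

/-! # Index windows of the random sieve: iterated random primes in short windows (helper396) -/

open Finset MeasureTheory ProbabilityTheory Filter Topology
open Pool.Agent.T2H32.BF (Model V V_pos V_anti V_ratio mertens)

namespace Pool.Agent.H559.IX

namespace Iter

open Classical in
/-- the parameters -/
noncomputable def Yi (κ D i Λ x : ℕ) : Finset (ℕ × (Fin (i + 1) → ℕ)) :=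
  if Λ ^ κ ≤ x then
    (((range (⌊Real.exp (2 * Λ)⌋₊ + 1)).filter (fun T => 3 * x ≤ T)) ×ˢ Yc D i x)
  else ∅

/-- the auxiliary set -/
def Gi (A : ℕ) {i : ℕ} (Λ x : ℕ) (y : ℕ × (Fin (i + 1) → ℕ)) : Finset ℕ :=
  (Ioc x (x + Λ ^ A)).image (fun v => y.1 - v) ∪ Gc (3 * Λ ^ A) y.2

/-- the relation -/
def Ri {i : ℕ} (y : ℕ × (Fin (i + 1) → ℕ)) (W : Finset ℕ) (J v : ℕ) : Prop :=
  y.1 - v ∈ W ∧ chk W i (extN y.2) (extN y.2 0 + J + 1)

theorem exp_le_sq {Λ : ℕ} (h : 2 ≤ Λ) : Real.exp (2 * Λ) ≤ Real.exp ((Λ : ℝ) ^ 2) := by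
  refine Real.exp_le_exp.2 ?_
  have h1 : (2 : ℝ) ≤ Λ := by exact_mod_cast h
  nlinarith

theorem exp_le_sq' {Λ : ℕ} (h : 2 ≤ Λ) : Real.exp Λ ≤ Real.exp ((Λ : ℝ) ^ 2) := by
  refine Real.exp_le_exp.2 ?_
  have h1 : (2 : ℝ) ≤ Λ := by exact_mod_cast h
  nlinarith

/-- the number of the parameters -/
theorem card_Yi {κ D i Λ x : ℕ} (hD : 2 * i + 6 ≤ D) (hΛ : 1 ≤ Λ) (hx : (x : ℝ) ≤ Real.exp Λ) :
    ((Yi κ D i Λ x).card : ℝ) ≤ Real.exp (D * Λ) := by
  have hΛr : (1 : ℝ) ≤ Λ := by exact_mod_cast hΛ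
  have hDr : 2 * (i : ℝ) + 6 ≤ D := by exact_mod_cast hD
  have hi0 : (0 : ℝ) ≤ i := Nat.cast_nonneg i
  have hone : ∀ t : ℝ, 0 ≤ t → Real.exp t + 1 ≤ Real.exp (t + 1) := by
    intro t ht
    have h1 : 1 ≤ Real.exp t := Real.one_le_exp ht
    have h2 : 2 ≤ Real.exp 1 := by
      have := Real.add_one_le_exp (1 : ℝ)
      linarith
    rw [Real.exp_add]
    nlinarith
  unfold Yi
  split_ifs
  · rw [card_product]
    have h1 : ((((range (⌊Real.exp (2 * Λ)⌋₊ + 1)).filter (fun T => 3 * x ≤ T)).card : ℕ) : ℝ) ≤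
        Real.exp (2 * Λ + 1) := by
      have h2 : ((range (⌊Real.exp (2 * Λ)⌋₊ + 1)).filter (fun T => 3 * x ≤ T)).card ≤
          ⌊Real.exp (2 * Λ)⌋₊ + 1 := (card_filter_le _ _).trans (le_of_eq (card_range _))
      have h3 : ((((range (⌊Real.exp (2 * Λ)⌋₊ + 1)).filter (fun T => 3 * x ≤ T)).card : ℕ) : ℝ) ≤
          ((⌊Real.exp (2 * Λ)⌋₊ + 1 : ℕ) : ℝ) := by exact_mod_cast h2
      refine h3.trans ?_
      push_cast
      have h4 := Nat.floor_le (Real.exp_pos (2 * (Λ : ℝ))).le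
      have h5 := hone (2 * Λ) (by positivity)
      linarith
    have h6 : ((Yc D i x).card : ℝ) ≤ Real.exp ((Λ + 1) * (i + 1)) := by
      have h7 : ((Yc D i x).card : ℝ) ≤ (((x + 1) ^ (i + 1) : ℕ) : ℝ) := by
        exact_mod_cast Chk.card_Yc D i x
      refine h7.trans ?_
      push_cast
      have h8 : (x : ℝ) + 1 ≤ Real.exp (Λ + 1) := by
        have := hone Λ (by positivity)
        linarith
      have h9 : ((x : ℝ) + 1) ^ (i + 1) ≤ Real.exp (Λ + 1) ^ (i + 1) :=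
        pow_le_pow_left₀ (by positivity) h8 _
      refine h9.trans (le_of_eq ?_)
      rw [← Real.exp_nat_mul]
      congr 1
      push_cast
      ring
    push_cast
    refine (mul_le_mul h1 h6 (by positivity) (Real.exp_pos _).le).trans ?_
    rw [← Real.exp_add]
    refine Real.exp_le_exp.2 ?_
    have h10 : 2 * (Λ : ℝ) + 1 + (Λ + 1) * (i + 1) ≤ (2 * i + 6) * Λ := by nlinarith
    refine h10.trans ?_
    exact mul_le_mul_of_nonneg_right hDr (by positivity)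
  · rw [card_empty, Nat.cast_zero]
    exact (Real.exp_pos _).le

/-- the properties of the auxiliary sets -/
theorem Gi_ok {κ D A i Λ x : ℕ} (hD : 1 ≤ D) (hA : 1 ≤ A) (hκ : A + 1 ≤ κ) (hΛ : 3 * i + 7 ≤ Λ)
    (hx : (x : ℝ) ≤ Real.exp Λ) {y : ℕ × (Fin (i + 1) → ℕ)} (hy : y ∈ Yi κ D i Λ x) :
    (Gi A Λ x y).card ≤ Λ ^ (3 * A) ∧
      ∀ v ∈ Gi A Λ x y, x ≤ v ^ D ∧ (v : ℝ) ≤ Real.exp ((Λ : ℝ) ^ 2) ∧ (v ≤ x ∨ x + Λ ^ A < v) := by
  have hΛ0 : 0 < Λ := by omega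
  unfold Yi at hy
  split_ifs at hy with hκx
  · rw [mem_product, mem_filter, mem_range, Chk.mem_Yc] at hy
    obtain ⟨⟨hT1, hT2⟩, hN⟩ := hy
    have hpow : Λ ^ (A + 1) ≤ x := (Nat.pow_le_pow_right hΛ0 hκ).trans hκx
    have hx6 : 7 * Λ ^ A ≤ x := by
      refine le_trans ?_ hpow
      rw [pow_succ, mul_comm]
      exact Nat.mul_le_mul_left _ (by omega)
    have hLpos : 0 < Λ ^ A := Nat.pow_pos hΛ0
    have hTr : (y.1 : ℝ) ≤ Real.exp (2 * Λ) :=
      (Nat.le_floor_iff (Real.exp_pos _).le).1 (Nat.lt_succ_iff.1 hT1)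
    have hself : ∀ v : ℕ, 1 ≤ v → v ≤ v ^ D := fun v _ => Nat.le_self_pow (by omega) v
    constructor
    · have h1 : (Gi A Λ x y).card ≤ Λ ^ A + (i + 1) * (3 * Λ ^ A) := by
        unfold Gi
        refine (card_union_le _ _).trans (Nat.add_le_add ?_ (Chk.card_Gc _ _))
        refine card_image_le.trans (le_of_eq ?_)
        rw [Nat.card_Ioc, Nat.add_sub_cancel_left]
      refine h1.trans ?_
      have h2 : Λ ^ A + (i + 1) * (3 * Λ ^ A) = (3 * i + 4) * Λ ^ A := by ring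
      rw [h2]
      have h3 : (3 * i + 4) * Λ ^ A ≤ Λ * Λ ^ A := Nat.mul_le_mul_right _ (by omega)
      refine h3.trans ?_
      rw [← pow_succ']
      exact Nat.pow_le_pow_right hΛ0 (by omega)
    · intro v hv
      unfold Gi at hv
      rcases mem_union.1 hv with hv | hv
      · obtain ⟨w, hw, hwv⟩ := mem_image.1 hv
        rw [mem_Ioc] at hw
        have h1 : x + Λ ^ A < v := by omega
        refine ⟨?_, ?_, Or.inr h1⟩
        · exact (by omega : x ≤ v).trans (hself v (by omega))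
        · have h2 : (v : ℝ) ≤ y.1 := by
            have : v ≤ y.1 := by omega
            exact_mod_cast this
          exact h2.trans (hTr.trans (exp_le_sq (by omega)))
      · obtain ⟨k, hk1, hk2⟩ := Chk.mem_Gc.1 hv
        obtain ⟨h1, h2⟩ := hN k
        have h3 : v ≤ x := by omega
        refine ⟨h1.trans (Nat.pow_le_pow_left hk1.le D), ?_, Or.inl h3⟩
        have h4 : (v : ℝ) ≤ x := by exact_mod_cast h3
        exact h4.trans (hx.trans (exp_le_sq' (by omega)))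
  · exact absurd hy (notMem_empty y)

end Iter

open Iter in
theorem t_iter (hm : S_master) (hs : S_sys) (he : S_elem) : S_iter := by
  classical
  intro c hc i
  obtain ⟨C0, hC0, hs⟩ := hs c hc
  induction i with
  | zero =>
    refine ⟨C0, C0, ?_⟩
    intro z hz Ω _ P a hM
    filter_upwards [hs z hz Ω P a hM] with ω hω
    filter_upwards [hω, eventually_ge_atTop 2] with Λ hΛ hΛ2
    intro x hx1 hx2 T hT1 hT2 hTe
    obtain ⟨v, hv, h1, h2, h3⟩ := (hΛ x (hx2.trans (exp_le_sq' hΛ2))).2.2 T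
      (hT2.trans (exp_le_sq hΛ2)) hTe (by omega)
    exact ⟨v, hv, h1, h2, h3⟩
  | succ i ih =>
    obtain ⟨Ci, κi, hi⟩ := ih
    obtain ⟨A0, hA0⟩ : ∃ A0 : ℕ, A0 = max C0 Ci + 1 := ⟨_, rfl⟩
    obtain ⟨E, hE⟩ : ∃ E : ℕ, E = 2 ^ (i + 1) := ⟨_, rfl⟩
    obtain ⟨D, hD⟩ : ∃ D : ℕ, D = E + (2 * i + 6) := ⟨_, rfl⟩
    obtain ⟨A1, hm⟩ := hm c hc D A0
    obtain ⟨A, hA⟩ : ∃ A : ℕ, A = max A1 (A0 + 1) := ⟨_, rfl⟩
    have hAA1 : A1 ≤ A := by rw [hA]; exact le_max_left _ _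
    have hAA0 : A0 + 1 ≤ A := by rw [hA]; exact le_max_right _ _
    obtain ⟨κ, hm⟩ := hm A hAA1
    obtain ⟨κ', hκ'⟩ : ∃ κ' : ℕ, κ' = κ + (A + 1) + E + 2 * κi := ⟨_, rfl⟩
    refine ⟨A, κ', ?_⟩
    intro z hz Ω _ P a hM
    have hmain := hm z hz 1 (Or.inl rfl) (ℕ × (Fin (i + 1) → ℕ)) (fun Λ x => Yi κ' D i Λ x)
      (fun Λ x y => Gi A Λ x y) (fun _ _ y _ W J v => Ri y W J v) (by
        filter_upwards [eventually_ge_atTop (3 * i + 7)] with Λ hΛ
        intro x _ hx2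
        refine ⟨card_Yi (by omega) (by omega) hx2, fun y hy => ?_⟩
        have h1 := Gi_ok (by omega) (by omega) (by omega) hΛ hx2 hy (A := A)
        exact ⟨h1.1, h1.2, fun _ _ _ _ _ _ => Iff.rfl⟩) Ω P a hM
    filter_upwards [hmain, hs z hz Ω P a hM, (he c hc z hz).2 Ω P a hM, hi z hz Ω P a hM]
      with ω h1 h2 h3 h4
    obtain ⟨x0, hx0⟩ := eventually_atTop.1 h3.1
    filter_upwards [h1, h2, h4, eventually_ge_atTop (x0 + (3 * i + 7))] with Λ g1 g2 g4 hΛ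
    intro x hx1 hx2 T hT1 hT2 hTe
    have hΛ0 : 0 < Λ := by omega
    obtain ⟨R, hR⟩ : ∃ R : Set ℕ, R = R0 z c (fun q => a q ω) := ⟨_, rfl⟩
    rw [← hR] at g1 g2 g4 hx0 ⊢
    have hLpos : 0 < Λ ^ A := Nat.pow_pos hΛ0
    have hp1 : Λ ^ κ ≤ x := (Nat.pow_le_pow_right hΛ0 (by omega)).trans hx1
    have hp2 : Λ ^ (A + 1) ≤ x := (Nat.pow_le_pow_right hΛ0 (by omega)).trans hx1
    have hp3 : Λ ^ (2 ^ (i + 1)) ≤ x := (Nat.pow_le_pow_right hΛ0 (by omega)).trans hx1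
    have hp4 : Λ ^ (2 * κi) ≤ x := (Nat.pow_le_pow_right hΛ0 (by omega)).trans hx1
    have hx7 : 7 * Λ ^ A ≤ x := by
      refine le_trans ?_ hp2
      rw [pow_succ, mul_comm]
      exact Nat.mul_le_mul_left _ (by omega)
    have hbd := Chk.seqN_bd (A := R) hx0 (by omega) hΛ0 hp3
    have hN0 : seqN R x 0 = cn R x := rfl
    -- the true parameters
    obtain ⟨N, hN⟩ : ∃ N : Fin (i + 1) → ℕ, N = fun k : Fin (i + 1) => seqN R x k := ⟨_, rfl⟩
    have hNk : ∀ k : Fin (i + 1), N k = seqN R x k := fun k => by rw [hN]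
    have hext0 : extN N 0 = cn R x := by
      unfold extN
      rw [dif_pos (Nat.succ_pos i), hNk]
      rfl
    have hYmem : ((T, N) : ℕ × (Fin (i + 1) → ℕ)) ∈ Yi κ' D i Λ x := by
      unfold Yi
      rw [if_pos hx1, mem_product, mem_filter, mem_range, Chk.mem_Yc]
      refine ⟨⟨Nat.lt_succ_iff.2 (Nat.le_floor hT2), hT1⟩, fun k => ?_⟩
      obtain ⟨q1, q2, q3⟩ := hbd k (by have := k.2; omega)
      change x ≤ N k ^ D ∧ 2 * N k ≤ x
      rw [hNk]
      refine ⟨q1.trans (Nat.pow_le_pow_right (by omega) ?_), q2⟩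
      have h7 : 2 ^ ((k : ℕ) + 1) ≤ 2 ^ (i + 1) :=
        Nat.pow_le_pow_right (by norm_num) (by have := k.2; omega)
      rw [← hE] at h7
      exact h7.trans (by omega)
    -- the data
    obtain ⟨W, hW⟩ : ∃ W : Finset ℕ, W = (Gi A Λ x (T, N)).filter (fun u => u ∈ R) := ⟨_, rfl⟩
    have hWin : ∀ k ≤ i, ∀ u, seqN R x k < u → u ≤ seqN R x k + 3 * Λ ^ A → (u ∈ W ↔ u ∈ R) := by
      intro k hk u hu1 hu2
      rw [hW, mem_filter]
      refine ⟨fun h => h.2, fun h => ⟨mem_union_right _ (Chk.mem_Gc.2 ⟨⟨k, by omega⟩, ?_⟩), h⟩⟩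
      change N ⟨k, _⟩ < u ∧ u ≤ N ⟨k, _⟩ + 3 * Λ ^ A
      rw [hNk]
      exact ⟨hu1, hu2⟩
    have hchk : ∀ j, cn R x < j → j ≤ cn R x + 3 * Λ ^ A → (chk W i (extN N) j ↔ j ∈ It R i) := by
      intro j hj1 hj2
      rw [hN]
      exact Chk.chk_true R W (3 * Λ ^ A) i x hWin j hj1 hj2
    have hWT : ∀ v, x < v → v ≤ x + Λ ^ A → (T - v ∈ W ↔ T - v ∈ R) := by
      intro v hv1 hv2
      rw [hW, mem_filter]
      exact ⟨fun h => h.2, fun h => ⟨mem_union_left _ (mem_image.2 ⟨v, mem_Ioc.2 ⟨hv1, hv2⟩, rfl⟩),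
        h⟩⟩
    have hA0A : Λ ^ A0 ≤ Λ ^ A := Nat.pow_le_pow_right hΛ0 (by omega)
    have hC0A0 : Λ ^ C0 ≤ Λ ^ A0 := Nat.pow_le_pow_right hΛ0 (by omega)
    have hCiA0 : Λ ^ Ci ≤ Λ ^ A0 := Nat.pow_le_pow_right hΛ0 (by omega)
    -- the hypothesis
    have hHex : Hex 1 (Λ ^ A0) (Λ ^ A) R x (fun J v => Ri (T, N) W J v) := by
      intro u j0 hu1 hu2 hj0
      have hu3 : u ≤ 2 * x := by omega
      have hTr : (T : ℝ) ≤ Real.exp ((Λ : ℝ) ^ 2) := hT2.trans (exp_le_sq (by omega))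
      have hu4 : (u : ℝ) ≤ Real.exp ((Λ : ℝ) ^ 2) := by
        have : (u : ℝ) ≤ T := by
          have : u ≤ T := by omega
          exact_mod_cast this
        exact this.trans hTr
      obtain ⟨v, hv, q1, q2, q3⟩ := (g2 u hu4).2.2 T hTr hTe (by omega)
      refine ⟨v, hv, q1, by omega, fun h => absurd h (by norm_num), ?_⟩
      -- the index
      obtain ⟨r1, r2, r3⟩ := hbd 0 (Nat.zero_le _)
      rw [hN0] at r1 r2 r3
      have r4 : x ≤ cn R x ^ 2 := by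
        have e : 2 ^ (0 + 1) = 2 := by norm_num
        rw [e] at r1
        exact r1
      have hκN : Λ ^ κi ≤ cn R x := by
        have e : Λ ^ (2 * κi) = (Λ ^ κi) ^ 2 := by rw [mul_comm, pow_mul]
        rw [e] at hp4
        exact (Nat.pow_le_pow_iff_left (by norm_num)).1 (hp4.trans r4)
      have hx' : cn R x + j0 ≤ x := by omega
      have hx'' : ((cn R x + j0 : ℕ) : ℝ) ≤ Real.exp Λ := by
        have : ((cn R x + j0 : ℕ) : ℝ) ≤ x := by exact_mod_cast hx'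
        exact this.trans hx2
      have hT' : ((4 * (cn R x + j0) : ℕ) : ℝ) ≤ Real.exp (2 * Λ) := by
        have e1 : Real.exp (2 * (Λ : ℝ)) = Real.exp Λ * Real.exp Λ := by
          rw [← Real.exp_add]
          congr 1
          ring
        have e2 : (4 : ℝ) ≤ Real.exp Λ := by
          have h5 := Real.add_one_le_exp (Λ : ℝ)
          have h6 : (3 : ℝ) ≤ Λ := by exact_mod_cast (by omega : 3 ≤ Λ)
          linarith
        rw [e1]
        push_cast at hx'' ⊢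
        exact mul_le_mul e2 hx'' (by positivity) (Real.exp_pos _).le
      obtain ⟨w, hw, s1, s2, -⟩ := g4 (cn R x + j0) (by omega) hx'' (4 * (cn R x + j0)) (by omega)
        hT' ⟨2 * (cn R x + j0), by ring⟩
      refine ⟨w - cn R x - 1, by omega, by omega, ?_⟩
      refine ⟨(hWT v (by omega) (by omega)).2 q3, ?_⟩
      change chk W i (extN N) (extN N 0 + (w - cn R x - 1) + 1)
      rw [hext0]
      have e : cn R x + (w - cn R x - 1) + 1 = w := by omega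
      rw [e]
      exact (hchk w (by omega) (by omega)).2 hw
    have hWeq : (Gi A Λ x (T, N)).filter (fun u => u ∈ R) = W := hW.symm
    have hfin := g1 x hp1 hx2 (T, N) hYmem
    rw [hWeq] at hfin
    obtain ⟨v, hv, p1, p2, -, p4, p5⟩ := hfin hHex
    have hJ : ((Ioo x v).filter (fun u => u ∈ R)).card ≤ Λ ^ A := by
      refine (card_filter_le _ _).trans ?_
      rw [Nat.card_Ioo]
      omega
    refine ⟨v, ⟨hv, ?_⟩, p1, p2, (hWT v p1 p2).1 p4⟩
    change chk W i (extN N) (extN N 0 + ((Ioo x v).filter (fun u => u ∈ R)).card + 1) at p5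
    rw [hext0] at p5
    have h5 := (hchk _ (by omega) (by omega)).1 p5
    rw [← Chk.cn_elem p1 hv] at h5
    exact h5

end Pool.Agent.H559.IX
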