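import Pool.Agent.H559.IX.StmN

set_option autoImplicit false

/-! # Index windows of the random sieve: one window -/

open Finset MeasureTheory ProbabilityTheory Filter Topology
open Pool.Agent.T2H32.BF (Model V V_pos V_anti V_ratio mertens prob)

namespace Pool.Agent.H559.IX

namespace One

theorem rk_lt {S : Finset ℕ} {u v : ℕ} (hu : u ∈ S) (h : u < v) : rk S u < rk S v := by
  unfold rk
  apply Finset.card_lt_card
  rw [Finset.ssubset_iff_of_subset]
  · exact ⟨u, Finset.mem_filter.2 ⟨hu, h⟩, fun h' => lt_irrefl _ (Finset.mem_filter.1 h').2⟩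
  · intro w hw
    rw [Finset.mem_filter] at hw ⊢
    exact ⟨hw.1, hw.2.trans h⟩

theorem rk_inj (S : Finset ℕ) : Set.InjOn (rk S) (S : Set ℕ) := by
  intro u hu v hv h
  rcases lt_trichotomy u v with h1 | h1 | h1
  · exact absurd h (rk_lt hu h1).ne
  · exact h1
  · exact absurd h (rk_lt hv h1).ne'

/-- the blocks -/
def blk (n : ℕ) (S : Finset ℕ) (i : ℕ) : Finset ℕ :=
  S.filter (fun u => i * n ≤ rk S u ∧ rk S u < (i + 1) * n)

theorem blk_card (n : ℕ) (S : Finset ℕ) (i : ℕ) : (blk n S i).card ≤ n := by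
  have h1 : ((blk n S i).image (rk S)).card = (blk n S i).card := by
    apply Finset.card_image_of_injOn
    exact (rk_inj S).mono (Finset.coe_subset.2 (Finset.filter_subset _ _))
  have h2 : (blk n S i).image (rk S) ⊆ Finset.Ico (i * n) ((i + 1) * n) := by
    intro r hr
    rw [Finset.mem_image] at hr
    obtain ⟨u, hu, rfl⟩ := hr
    exact Finset.mem_Ico.2 (Finset.mem_filter.1 hu).2
  have h3 := Finset.card_le_card h2
  rw [h1, Nat.card_Ico] at h3
  have h4 : (i + 1) * n - i * n = n := by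
    rw [Nat.add_mul, Nat.one_mul, Nat.add_sub_cancel_left]
  omega

section

variable {z : ℕ → ℕ} {c : ℝ} {w zl : ℕ} {W : Finset ℕ}

theorem mem_Qs {q : ℕ} : q ∈ Qs w zl W ↔ (w < q ∧ q ≤ zl) ∧ q.Prime ∧ Set.InjOn (fun v => v % q) (W : Set ℕ) := by
  classical
  unfold Qs
  rw [Finset.mem_filter, Finset.mem_Ioc]

theorem mem_R0_iff {b : ℕ → ℕ} {v : ℕ} (hv : Real.log v ^ c ≤ w ∧ zl ≤ z v) :
    v ∈ R0 z c b ↔ pre z c (Qs w zl W) b v ∧ ∀ p ∈ Qs w zl W, v % p ≠ b p := by
  constructor
  · rintro ⟨h3, h⟩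
    refine ⟨⟨h3, fun q hq hp _ => h q hq hp⟩, fun p hp => ?_⟩
    obtain ⟨⟨h1, h2⟩, hpp, -⟩ := mem_Qs.1 hp
    have h4 := h p (h2.trans hv.2) hpp
    rwa [if_neg] at h4
    rw [not_le]
    exact hv.1.trans_lt (by exact_mod_cast h1)
  · rintro ⟨⟨h3, h⟩, h'⟩
    refine ⟨h3, fun q hq hp => ?_⟩
    by_cases hQ : q ∈ Qs w zl W
    · obtain ⟨⟨h1, h2⟩, hpp, -⟩ := mem_Qs.1 hQ
      rw [if_neg]
      · exact h' q hQ
      · rw [not_le]
        exact hv.1.trans_lt (by exact_mod_cast h1)
    · exact h q hq hp hQ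

theorem pre_congr {Q : Finset ℕ} {b b' : ℕ → ℕ} {v : ℕ}
    (h : ∀ q ≤ z v, q.Prime → q ∉ Q → b q = b' q) : pre z c Q b v ↔ pre z c Q b' v := by
  unfold pre
  refine and_congr_right fun _ => ?_
  refine forall_congr' fun q => forall_congr' fun hq => forall_congr' fun hp => forall_congr' fun hQ => ?_
  rw [h q hq hp hQ]

end

end One

open Pool.Agent.H559.IX.One in
open Classical in
theorem t_one (h1 : S_pw) (h2 : S_up) (h3 : S_blocksS) : S_one := by
  intro z c e x L w zl n G2 r0 Gx Gr hz he hn hw hU hU2 hdis hGr hprod Ω _ P a hM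
  have hP := prob hM
  set U : Finset ℕ := Ioc x (x + L) with hUdef
  set Q : Finset ℕ := Qs w zl (U ∪ Gx) with hQdef
  set M : ℕ := max w ((U ∪ Gx).sup z) with hMdef
  set Q' : Finset ℕ := ((range (M + 1)).filter Nat.Prime) \ Q with hQ'def
  have hQQ' : Disjoint Q' Q := Finset.sdiff_disjoint
  have hQp : ∀ p ∈ Q, p.Prime := fun p hp => (mem_Qs.1 hp).2.1
  have hQinj : ∀ p ∈ Q, Set.InjOn (fun v => v % p) ((U ∪ Gx : Finset ℕ) : Set ℕ) :=
    fun p hp => (mem_Qs.1 hp).2.2
  -- the fixed sets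
  let S : (ℕ → ℕ) → Finset ℕ := fun b => U.filter (pre z c Q b)
  let G : (ℕ → ℕ) → Finset ℕ := fun b => Gx.filter (pre z c Q b)
  have hQ'mem : ∀ q, q ≤ M → q.Prime → q ∉ Q → q ∈ Q' := by
    intro q hq hp hQ
    rw [hQ'def, Finset.mem_sdiff, Finset.mem_filter, Finset.mem_range]
    exact ⟨⟨Nat.lt_succ_of_le hq, hp⟩, hQ⟩
  have hzM : ∀ v ∈ U ∪ Gx, z v ≤ M := fun v hv => (Finset.le_sup hv).trans (le_max_right _ _)
  have hpre : ∀ b b' : ℕ → ℕ, (∀ p ∈ Q', b p = b' p) → ∀ v ∈ U ∪ Gx,
      (pre z c Q b v ↔ pre z c Q b' v) := by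
    intro b b' hb v hv
    exact pre_congr fun q hq hp hQ => hb q (hQ'mem q (hq.trans (hzM v hv)) hp hQ)
  have hSc : ∀ b b' : ℕ → ℕ, (∀ p ∈ Q', b p = b' p) → S b = S b' := by
    intro b b' hb
    exact Finset.filter_congr fun v hv => hpre b b' hb v (Finset.mem_union_left _ hv)
  have hGc : ∀ b b' : ℕ → ℕ, (∀ p ∈ Q', b p = b' p) → G b = G b' := by
    intro b b' hb
    exact Finset.filter_congr fun v hv => hpre b b' hb v (Finset.mem_union_right _ hv)
  have hGrc : ∀ b b' : ℕ → ℕ, (∀ p ∈ Q', b p = b' p) → ∀ V J v, Gr b V J v ↔ Gr b' V J v := by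
    intro b b' hb
    apply hGr
    intro p hp hpp
    apply hb
    refine hQ'mem p (hp.trans (le_max_left _ _)) hpp fun hQ => ?_
    have := (mem_Qs.1 hQ).1.1
    omega
  have hSU : ∀ b, S b ⊆ U := fun b => Finset.filter_subset _ _
  have hGU : ∀ b, G b ⊆ Gx := fun b => Finset.filter_subset _ _
  have hScard : ∀ b, (S b).card ≤ L := by
    intro b
    have h := Finset.card_le_card (hSU b)
    rw [hUdef, Nat.card_Ioc] at h
    omega
  have hScard' : ∀ b, (S b).card / n ≤ L / n := fun b => Nat.div_le_div_right (hScard b)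
  -- the thinned sets
  have hthinS : ∀ b, U.filter (fun u => u ∈ R0 z c b) = thin Q b (S b) := by
    intro b
    ext v
    simp only [thin, S, Finset.mem_filter, and_assoc]
    refine and_congr_right fun hv => ?_
    exact mem_R0_iff (hU v (Finset.mem_union_left _ hv))
  have hthinG : ∀ b, Gx.filter (fun u => u ∈ R0 z c b) = thin Q b (G b) := by
    intro b
    ext v
    simp only [thin, G, Finset.mem_filter, and_assoc]
    refine and_congr_right fun hv => ?_
    exact mem_R0_iff (hU v (Finset.mem_union_right _ hv))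
  -- first event
  have hup := h2 Ω P a hM Q Q' hQQ' hQp (L / n + 1) n (fun b i => blk n (S b) i)
    (fun b b' hb => by
      funext i
      rw [hSc b b' hb]) (fun b i => blk_card n (S b) i)
    (fun b i p hp => (hQinj p hp).mono (Finset.coe_subset.2
      (((Finset.filter_subset _ _).trans (hSU b)).trans Finset.subset_union_left))) hprod
  -- second event
  set ε : ℝ := Real.exp (-(((r0 : ℝ) - n - (L / n : ℕ) * (100 * (G2 + 1) ^ 2)) / (8 * n ^ 3))) with hε
  obtain ⟨Bad, hBad⟩ : ∃ Bad : (ℕ → ℕ) → Finset ℕ → Finset ℕ → Prop, ∀ b V T, Bad b V T ↔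
      (r0 ≤ T.card ∧ HexB e n G2 (S b) (Gr b V) ∧
      (∀ i < (S b).card / n, 2 * (T.filter (fun u => i * n ≤ rk (S b) u ∧ rk (S b) u < (i + 1) * n)).card ≤ n) ∧
      ∀ v ∈ T, (e = 2 → v + 2 ∈ T) → ¬ Gr b V (T.filter (fun u => u < v)).card v) :=
    ⟨_, fun _ _ _ => Iff.rfl⟩
  have hodd : ∀ b, e = 2 → ∀ v ∈ S b, v + 1 ∉ S b := by
    intro b _ v hv hv1
    have key : ∀ u ∈ S b, u % 2 ≠ 0 := by
      intro u hu
      obtain ⟨huU, h3u, hpu⟩ := Finset.mem_filter.1 hu
      obtain ⟨k1, k2⟩ := hU2 u huU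
      have h2Q : 2 ∉ Q := fun h => by
        have := (mem_Qs.1 h).1.1
        omega
      have := hpu 2 k2 Nat.prime_two h2Q
      rwa [if_pos (by exact_mod_cast k1)] at this
    have e1 := key v hv
    have e2 := key (v + 1) hv1
    omega
  have hpw := h1 Ω P a hM Q Q' hQQ' hQp S G Bad ε (Real.exp_pos _).le
    (fun b b' hb => by
      refine ⟨hSc b b' hb, hGc b b' hb, fun V T => ?_⟩
      have e1 := hSc b b' hb
      have e2 : Gr b = Gr b' := by
        funext V J v
        exact propext (hGrc b b' hb V J v)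
      rw [hBad, hBad, e1, e2])
    (fun b => hdis.mono (hSU b) (hGU b))
    (fun b p hp => (hQinj p hp).mono (Finset.coe_subset.2 (Finset.union_subset_union (hSU b) (hGU b))))
    (fun b V _ r => by
      by_cases hH : HexB e n G2 (S b) (Gr b V)
      · by_cases hr : r0 ≤ r
        · have h4 := h3 (S b) e n G2 (Gr b V) he hn (hodd b) hH r
          refine le_trans ?_ (h4.trans ?_)
          · apply Nat.cast_le.2
            apply Finset.card_le_card
            intro T hT
            rw [Finset.mem_filter] at hT ⊢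
            exact ⟨hT.1, ((hBad _ _ _).1 hT.2).2.2⟩
          · apply mul_le_mul_of_nonneg_right _ (Nat.cast_nonneg _)
            rw [hε]
            apply Real.exp_le_exp.2
            apply neg_le_neg
            apply div_le_div_of_nonneg_right _ (by positivity)
            have e1 : (r0 : ℝ) ≤ r := by exact_mod_cast hr
            have e2 : (((S b).card / n : ℕ) : ℝ) ≤ ((L / n : ℕ) : ℝ) := by exact_mod_cast hScard' b
            have e3 := mul_le_mul_of_nonneg_right e2 (show (0 : ℝ) ≤ 100 * ((G2 : ℝ) + 1) ^ 2 by positivity)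
            linarith
        · refine le_trans (le_of_eq (b := (0 : ℝ)) ?_) (by positivity)
          rw [Nat.cast_eq_zero, Finset.card_eq_zero, Finset.filter_eq_empty_iff]
          intro T hT hB
          rw [Finset.mem_powersetCard] at hT
          exact hr (hT.2 ▸ ((hBad _ _ _).1 hB).1)
      · refine le_trans (le_of_eq (b := (0 : ℝ)) ?_) (by positivity)
        rw [Nat.cast_eq_zero, Finset.card_eq_zero, Finset.filter_eq_empty_iff]
        intro T _ hB
        exact hH ((hBad _ _ _).1 hB).2.1)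
  -- inclusion
  have hinc : {ω | r0 ≤ (U.filter (fun u => u ∈ R0 z c (fun q => a q ω))).card ∧
        HexB e n G2 (U.filter (pre z c Q (fun q => a q ω)))
          (Gr (fun q => a q ω) (Gx.filter (fun u => u ∈ R0 z c (fun q => a q ω)))) ∧
        ¬ Suc e L (R0 z c (fun q => a q ω)) x
          (Gr (fun q => a q ω) (Gx.filter (fun u => u ∈ R0 z c (fun q => a q ω))))} ⊆
      {ω | Bad (fun q => a q ω) (thin Q (fun q => a q ω) (G (fun q => a q ω)))
        (thin Q (fun q => a q ω) (S (fun q => a q ω)))} ∪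
      {ω | ∃ i < L / n + 1, n < 2 * (thin Q (fun q => a q ω) (blk n (S (fun q => a q ω)) i)).card} := by
    rintro ω ⟨hr, hH, hS⟩
    by_cases hex : ∃ i < L / n + 1, n < 2 * (thin Q (fun q => a q ω) (blk n (S (fun q => a q ω)) i)).card
    · exact Or.inr hex
    · left
      push Not at hex
      set b : ℕ → ℕ := fun q => a q ω with hb
      rw [hthinG b] at hH hS
      rw [hthinS b] at hr
      refine (hBad _ _ _).2 ⟨hr, hH, fun i hi => ?_, fun v hv hv2 hG => ?_⟩
      · have hi' : i < L / n + 1 := Nat.lt_succ_of_le (hi.le.trans (hScard' b))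
        have := hex i hi'
        refine le_trans (Nat.mul_le_mul_left 2 (Finset.card_le_card ?_)) this
        intro u hu
        simp only [thin, blk, Finset.mem_filter] at hu ⊢
        exact ⟨⟨hu.1.1, hu.2⟩, hu.1.2⟩
      · apply hS
        rw [← hthinS b] at hv hv2 hG
        rw [Finset.mem_filter] at hv
        obtain ⟨hvU, hvR⟩ := hv
        rw [hUdef, Finset.mem_Ioc] at hvU
        refine ⟨v, hvR, hvU.1, hvU.2, fun h => ?_, ?_⟩
        · have := hv2 h
          rw [Finset.mem_filter] at this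
          exact this.2
        · have hset : (Ioo x v).filter (fun u => u ∈ R0 z c b) =
              (U.filter (fun u => u ∈ R0 z c b)).filter (fun u => u < v) := by
            ext u
            simp only [hUdef, Finset.mem_filter, Finset.mem_Ioo, Finset.mem_Ioc]
            constructor
            · rintro ⟨⟨k1, k2⟩, k3⟩
              exact ⟨⟨⟨k1, by omega⟩, k3⟩, k2⟩
            · rintro ⟨⟨⟨k1, _⟩, k3⟩, k2⟩
              exact ⟨⟨k1, k2⟩, k3⟩
          rw [hset]
          exact hG
  refine le_trans (measureReal_mono hinc) (le_trans (measureReal_union_le _ _) ?_)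
  refine add_le_add hpw ?_
  have e1 : (((L / n + 1 : ℕ)) : ℝ) = ((L / n : ℕ) : ℝ) + 1 := by push_cast; ring
  rw [e1] at hup
  exact hup

end Pool.Agent.H559.IX
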