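import Pool.Agent.H559.IX.StmB

set_option autoImplicit false

open Finset MeasureTheory ProbabilityTheory Filter Topology
open Pool.Agent.T2H32.BF (Model prob cond)

namespace Pool.Agent.H559.IX

namespace Pw

theorem thin_congr (Q : Finset ℕ) (b b' : ℕ → ℕ) (h : ∀ p ∈ Q, b p = b' p) (S : Finset ℕ) :
    thin Q b S = thin Q b' S := by
  unfold thin
  apply filter_congr
  intro v _
  constructor
  · intro h1 p hp
    rw [← h p hp]
    exact h1 p hp
  · intro h1 p hp
    rw [h p hp]
    exact h1 p hp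

theorem thin_subset (Q : Finset ℕ) (b : ℕ → ℕ) (S : Finset ℕ) : thin Q b S ⊆ S :=
  filter_subset _ _

theorem thin_union (Q : Finset ℕ) (b : ℕ → ℕ) (S G : Finset ℕ) :
    thin Q b (S ∪ G) = thin Q b S ∪ thin Q b G :=
  filter_union _ _ _

section
variable {Ω : Type} [MeasurableSpace Ω] {P : Measure Ω} {a : ℕ → Ω → ℕ}

theorem meas (h : Model P a) (Q : Finset ℕ) (R : (ℕ → ℕ) → Prop)
    (hR : ∀ b b' : ℕ → ℕ, (∀ p ∈ Q, b p = b' p) → (R b ↔ R b')) :
    MeasurableSet {ω | R (fun q => a q ω)} := by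
  classical
  set X : Ω → (Q → ℕ) := fun ω i => a i ω with hX
  have hXm : Measurable X := measurable_pi_lambda _ fun i => h.measurable i
  have e : {ω | R (fun q => a q ω)} =
      X ⁻¹' {x | R (fun q => if hq : q ∈ Q then x ⟨q, hq⟩ else 0)} := by
    ext ω
    simp only [Set.mem_ofPred_eq, Set.mem_preimage]
    apply hR
    intro p hp
    simp [hX, hp]
  rw [e]
  exact hXm (Set.to_countable _).measurableSet

/-- the event -/
def ev (a : ℕ → Ω → ℕ) (Q S G V T : Finset ℕ) : Set Ω :=
  {ω | thin Q (fun q => a q ω) G = V ∧ thin Q (fun q => a q ω) S = T}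

theorem ev_eq (Q S G V T : Finset ℕ) (hd : Disjoint S G) (hV : V ⊆ G) (hT : T ⊆ S) :
    ev a Q S G V T = {ω | thin Q (fun q => a q ω) (S ∪ G) = T ∪ V} := by
  ext ω
  simp only [ev, Set.mem_ofPred_eq, thin_union]
  constructor
  · rintro ⟨h1, h2⟩
    rw [h1, h2]
  · intro h
    have h1 := thin_subset Q (fun q => a q ω) S
    have h2 := thin_subset Q (fun q => a q ω) G
    constructor
    · ext v
      constructor
      · intro hv
        have h3 : v ∈ T ∪ V := by rw [← h]; exact mem_union_right _ hv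
        rcases mem_union.1 h3 with h4 | h4
        · exact absurd (h2 hv) (disjoint_left.1 hd (hT h4))
        · exact h4
      · intro hv
        have h3 : v ∈ thin Q (fun q => a q ω) S ∪ thin Q (fun q => a q ω) G := by
          rw [h]; exact mem_union_right _ hv
        rcases mem_union.1 h3 with h4 | h4
        · exact absurd (hV hv) (disjoint_left.1 hd (h1 h4))
        · exact h4
    · ext v
      constructor
      · intro hv
        have h3 : v ∈ T ∪ V := by rw [← h]; exact mem_union_left _ hv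
        rcases mem_union.1 h3 with h4 | h4
        · exact h4
        · exact absurd (hV h4) (disjoint_left.1 hd (h1 hv))
      · intro hv
        have h3 : v ∈ thin Q (fun q => a q ω) S ∪ thin Q (fun q => a q ω) G := by
          rw [h]; exact mem_union_left _ hv
        rcases mem_union.1 h3 with h4 | h4
        · exact h4
        · exact absurd (h2 h4) (disjoint_left.1 hd (hT hv))

theorem ev_meas (h : Model P a) (Q S G V T : Finset ℕ) : MeasurableSet (ev a Q S G V T) := by
  apply meas h Q (fun b => thin Q b G = V ∧ thin Q b S = T)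
  intro b b' hb
  rw [thin_congr Q b b' hb, thin_congr Q b b' hb]

theorem ev_exch (hex : S_exch) (h : Model P a) (Q : Finset ℕ) (hQ : ∀ p ∈ Q, p.Prime)
    (S G : Finset ℕ) (hd : Disjoint S G)
    (hinj : ∀ p ∈ Q, Set.InjOn (fun v => v % p) ((S ∪ G : Finset ℕ) : Set ℕ))
    (V T T' : Finset ℕ) (hV : V ⊆ G) (hT : T ⊆ S) (hT' : T' ⊆ S) (hc : T.card = T'.card) :
    P.real (ev a Q S G V T) = P.real (ev a Q S G V T') := by
  rw [ev_eq Q S G V T hd hV hT, ev_eq Q S G V T' hd hV hT']
  apply hex Ω P a h Q hQ (S ∪ G) hinj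
  · exact union_subset_union hT hV
  · exact union_subset_union hT' hV
  · rw [card_union_of_disjoint (disjoint_of_subset_left hT (disjoint_of_subset_right hV hd)),
      card_union_of_disjoint (disjoint_of_subset_left hT' (disjoint_of_subset_right hV hd)), hc]

open Classical in
theorem static (hex : S_exch) (h : Model P a) (Q : Finset ℕ) (hQ : ∀ p ∈ Q, p.Prime)
    (S G : Finset ℕ) (hd : Disjoint S G)
    (hinj : ∀ p ∈ Q, Set.InjOn (fun v => v % p) ((S ∪ G : Finset ℕ) : Set ℕ))
    (Bad : Finset ℕ → Finset ℕ → Prop) (ε : ℝ) (hε : 0 ≤ ε)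
    (hbad : ∀ V ⊆ G, ∀ r, (((S.powersetCard r).filter (fun T => Bad V T)).card : ℝ) ≤
      ε * (S.card.choose r : ℝ)) :
    P.real {ω | Bad (thin Q (fun q => a q ω) G) (thin Q (fun q => a q ω) S)} ≤ ε := by
  have := prob h
  -- total mass
  have htot : ∑ V ∈ G.powerset, ∑ T ∈ S.powerset, P.real (ev a Q S G V T) ≤ 1 := by
    rw [← sum_product' (s := G.powerset) (t := S.powerset)
      (f := fun V T => P.real (ev a Q S G V T))]
    have h1 := measureReal_biUnion_finset (μ := P) (s := G.powerset ×ˢ S.powerset)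
      (f := fun x => ev a Q S G x.1 x.2) (by
        intro x _ y _ hxy
        rw [Function.onFun, Set.disjoint_left]
        rintro ω ⟨h1, h2⟩ ⟨h3, h4⟩
        exact hxy (Prod.ext (h1.symm.trans h3) (h2.symm.trans h4)))
      (fun x _ => ev_meas h Q S G x.1 x.2)
    rw [← h1]
    exact measureReal_le_one
  -- the event
  have hsub : {ω | Bad (thin Q (fun q => a q ω) G) (thin Q (fun q => a q ω) S)} ⊆
      ⋃ x ∈ (G.powerset ×ˢ S.powerset).filter (fun x => Bad x.1 x.2), ev a Q S G x.1 x.2 := by
    intro ω hω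
    simp only [Set.mem_iUnion]
    refine ⟨(thin Q (fun q => a q ω) G, thin Q (fun q => a q ω) S), ?_, rfl, rfl⟩
    rw [mem_filter, mem_product]
    exact ⟨⟨mem_powerset.2 (thin_subset _ _ _), mem_powerset.2 (thin_subset _ _ _)⟩, hω⟩
  have h1 : P.real {ω | Bad (thin Q (fun q => a q ω) G) (thin Q (fun q => a q ω) S)} ≤
      ∑ x ∈ (G.powerset ×ˢ S.powerset).filter (fun x => Bad x.1 x.2),
        P.real (ev a Q S G x.1 x.2) :=
    (measureReal_mono hsub (measure_ne_top P _)).trans (measureReal_biUnion_finset_le _ _)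
  rw [sum_filter, sum_product] at h1
  refine h1.trans ?_
  have h2 : ∀ V ∈ G.powerset, (∑ T ∈ S.powerset, if Bad V T then P.real (ev a Q S G V T) else 0) ≤
      ε * ∑ T ∈ S.powerset, P.real (ev a Q S G V T) := by
    intro V hV
    have hV' := mem_powerset.1 hV
    rw [sum_powerset, sum_powerset, mul_sum]
    refine sum_le_sum fun r _ => ?_
    rcases (S.powersetCard r).eq_empty_or_nonempty with he | ⟨T0, hT0⟩
    · rw [he]; simp
    obtain ⟨hT0S, hT0c⟩ := mem_powersetCard.1 hT0
    have hc : ∀ T ∈ S.powersetCard r, P.real (ev a Q S G V T) = P.real (ev a Q S G V T0) := by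
      intro T hT
      obtain ⟨hTS, hTc⟩ := mem_powersetCard.1 hT
      exact ev_exch hex h Q hQ S G hd hinj V T T0 hV' hTS hT0S (hTc.trans hT0c.symm)
    rw [← sum_filter, sum_congr rfl (fun T hT => hc T (mem_of_mem_filter T hT)), sum_congr rfl hc,
      sum_const, sum_const, nsmul_eq_mul, nsmul_eq_mul, card_powersetCard, ← mul_assoc]
    exact mul_le_mul_of_nonneg_right (hbad V hV' r) measureReal_nonneg
  calc _ ≤ ∑ V ∈ G.powerset, ε * ∑ T ∈ S.powerset, P.real (ev a Q S G V T) := sum_le_sum h2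
    _ = ε * ∑ V ∈ G.powerset, ∑ T ∈ S.powerset, P.real (ev a Q S G V T) := by rw [mul_sum]
    _ ≤ ε * 1 := mul_le_mul_of_nonneg_left htot hε
    _ = ε := mul_one ε

end

end Pw

theorem t_pw (hh : S_exch) : S_pw := by
  classical
  intro Ω _ P a h Q Q' hdQ hQ S G Bad ε hε hdep hdisj hinj hbad
  have key := cond h Q' Q hdQ
    (fun b => Bad b (thin Q b (G b)) (thin Q b (S b))) (by
      intro b b' hb
      obtain ⟨h1, h2, h3⟩ := hdep b b' (fun p hp => hb p (mem_union_left _ hp))
      have h4 := fun X => Pw.thin_congr Q b b' (fun p hp => hb p (mem_union_right _ hp)) X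
      rw [h1, h2, h4, h4, h3]) ε hε ?_
  · exact key
  intro α
  have hagree : ∀ ω, ∀ p ∈ Q', (if p ∈ Q' then α p else a p ω) = α p := by
    intro ω p hp
    rw [if_pos hp]
  have hset : {ω | Bad (fun i => if i ∈ Q' then α i else a i ω)
      (thin Q (fun i => if i ∈ Q' then α i else a i ω) (G (fun i => if i ∈ Q' then α i else a i ω)))
      (thin Q (fun i => if i ∈ Q' then α i else a i ω) (S (fun i => if i ∈ Q' then α i else a i ω)))} =
      {ω | Bad α (thin Q (fun q => a q ω) (G α)) (thin Q (fun q => a q ω) (S α))} := by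
    ext ω
    simp only [Set.mem_ofPred_eq]
    obtain ⟨h1, h2, h3⟩ := hdep (fun i => if i ∈ Q' then α i else a i ω) α (hagree ω)
    have h4 := fun X => Pw.thin_congr Q (fun i => if i ∈ Q' then α i else a i ω)
      (fun q => a q ω) (fun p hp => if_neg (disjoint_right.1 hdQ hp)) X
    rw [h1, h2, h4, h4, h3]
  have hfin := Pw.static hh h Q hQ (S α) (G α) (hdisj α) (hinj α) (Bad α) ε hε (hbad α)
  rw [← hset] at hfin
  exact hfin

end Pool.Agent.H559.IX
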