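import Pool.Agent.H559.IX.StmC

set_option autoImplicit false

/-! # The thinning primes (helper763) -/

open Finset Filter Topology
open Pool.Agent.T2H32.BF (V V_pos V_anti V_ratio mertens)

namespace Pool.Agent.H559.IX

namespace Theta

theorem prod_ge (E : Finset ℕ) (a : ℕ → ℝ) (h0 : ∀ p ∈ E, 0 ≤ a p) (h1 : ∀ p ∈ E, a p ≤ 1) :
    1 - ∑ p ∈ E, a p ≤ ∏ p ∈ E, (1 - a p) := by
  classical
  induction E using Finset.induction_on with
  | empty => simp
  | insert q E hq ih =>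
    rw [sum_insert hq, prod_insert hq]
    have i1 := ih (fun p hp => h0 p (mem_insert_of_mem hp)) (fun p hp => h1 p (mem_insert_of_mem hp))
    have i2 := h0 q (mem_insert_self _ _)
    have i3 := h1 q (mem_insert_self _ _)
    have i4 : 0 ≤ ∑ p ∈ E, a p := sum_nonneg fun p hp => h0 p (mem_insert_of_mem hp)
    nlinarith [mul_le_mul_of_nonneg_left i1 (sub_nonneg.2 i3), mul_nonneg i2 i4]

/-- few prime divisors `> w` -/
theorem few (w d L : ℕ) (hw : 3 ≤ w) (hd : d ≠ 0) (hL : (d : ℝ) ≤ Real.exp (L : ℝ)) (T : Finset ℕ)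
    (hT : ∀ p ∈ T, p.Prime ∧ w < p ∧ p ∣ d) : T.card ≤ L := by
  have h1 : ∏ p ∈ T, p ∣ d := by
    refine prod_primes_dvd d (fun p hp => (hT p hp).1.prime) fun p hp => (hT p hp).2.2
  have h2 : ∏ p ∈ T, p ≤ d := Nat.le_of_dvd (Nat.pos_of_ne_zero hd) h1
  have h3 : w ^ T.card ≤ ∏ p ∈ T, p := by
    rw [← prod_const]
    exact prod_le_prod' fun p hp => (hT p hp).2.1.le
  have h4 : (w : ℝ) ^ T.card ≤ Real.exp (L : ℝ) := by
    refine le_trans ?_ hL
    exact_mod_cast h3.trans h2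
  have h5 : Real.exp 1 ≤ (w : ℝ) := by
    have := Real.exp_one_lt_d9
    have h6 : (3 : ℝ) ≤ w := by exact_mod_cast hw
    linarith
  have h6 : Real.exp (T.card : ℝ) ≤ Real.exp (L : ℝ) := by
    refine le_trans ?_ h4
    have h7 : Real.exp (T.card : ℝ) = Real.exp 1 ^ T.card := by
      rw [← Real.exp_nat_mul, mul_one]
    rw [h7]
    exact pow_le_pow_left₀ (Real.exp_pos _).le h5 _
  have h7 := Real.exp_le_exp.1 h6
  exact_mod_cast h7

open Classical in
/-- few exceptional primes -/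
theorem exc (w zl L : ℕ) (hw : 3 ≤ w) (S : Finset ℕ) (hS : ∀ v ∈ S, (v : ℝ) ≤ Real.exp (L : ℝ)) :
    (((Ioc w zl).filter Nat.Prime).filter
      (fun p => ¬ Set.InjOn (fun v => v % p) (S : Set ℕ))).card ≤ S.card ^ 2 * L := by
  have hsub : ((Ioc w zl).filter Nat.Prime).filter
      (fun p => ¬ Set.InjOn (fun v => v % p) (S : Set ℕ)) ⊆
      (S ×ˢ S).biUnion fun q => (Ioc w zl).filter
        (fun p => p.Prime ∧ q.1 < q.2 ∧ p ∣ q.2 - q.1) := by
    intro p hp
    rw [mem_filter, mem_filter] at hp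
    obtain ⟨⟨h1, h2⟩, h3⟩ := hp
    have h4 : ∃ a ∈ S, ∃ b ∈ S, a % p = b % p ∧ a < b := by
      by_contra hcon
      push Not at hcon
      apply h3
      intro a ha b hb hab
      by_contra hne
      rcases lt_or_gt_of_ne hne with h | h
      · exact absurd h (not_lt.2 (hcon a ha b hb hab))
      · exact absurd h (not_lt.2 (hcon b hb a ha hab.symm))
    obtain ⟨a, ha, b, hb, hab, hlt⟩ := h4
    rw [mem_biUnion]
    refine ⟨(a, b), mem_product.2 ⟨ha, hb⟩, ?_⟩
    rw [mem_filter]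
    exact ⟨h1, h2, hlt, (Nat.modEq_iff_dvd' hlt.le).1 hab⟩
  refine (card_le_card hsub).trans (card_biUnion_le.trans ?_)
  have h5 : ∀ q ∈ S ×ˢ S, ((Ioc w zl).filter
        (fun p => p.Prime ∧ q.1 < q.2 ∧ p ∣ q.2 - q.1)).card ≤ L := by
    intro q hq
    rw [mem_product] at hq
    by_cases hlt : q.1 < q.2
    · refine few w (q.2 - q.1) L hw (by omega) ?_ _ fun p hp => ?_
      · refine le_trans ?_ (hS q.2 hq.2)
        exact_mod_cast Nat.sub_le _ _
      · rw [mem_filter, mem_Ioc] at hp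
        exact ⟨hp.2.1, hp.1.1, hp.2.2.2⟩
    · have : (Ioc w zl).filter (fun p => p.Prime ∧ q.1 < q.2 ∧ p ∣ q.2 - q.1) = ∅ := by
        rw [filter_eq_empty_iff]
        intro p _ hp
        exact hlt hp.2.1
      rw [this, card_empty]
      exact Nat.zero_le _
  refine (sum_le_card_nsmul _ _ _ h5).trans ?_
  rw [card_product, smul_eq_mul, sq]

open Classical in
theorem prod_Qs (w zl Λ A : ℕ) (hA : 2 ≤ A) (hΛ : 3 ≤ Λ) (hw : w = Λ ^ (10 * A)) (S : Finset ℕ)
    (hc : S.card ≤ Λ ^ (4 * A)) (hS : ∀ v ∈ S, (v : ℝ) ≤ Real.exp ((Λ : ℝ) ^ 2)) (hle : w ≤ zl) :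
    ∏ p ∈ Qs w zl S, (1 - 1 / (p : ℝ)) ≤ 2 * (V zl / V w) := by
  set P := (Ioc w zl).filter Nat.Prime with hP
  set E := P.filter (fun p => ¬ Set.InjOn (fun v => v % p) (S : Set ℕ)) with hE
  have hQ : Qs w zl S = P.filter (fun p => Set.InjOn (fun v => v % p) (S : Set ℕ)) := by
    unfold Qs
    rw [hP, filter_filter]
  have hsplit : (∏ p ∈ Qs w zl S, (1 - 1 / (p : ℝ))) * ∏ p ∈ E, (1 - 1 / (p : ℝ)) =
      V zl / V w := by
    rw [V_ratio w zl hle, hQ, hE]
    exact prod_filter_mul_prod_filter_not P _ _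
  have hw3 : 3 ≤ w := by
    rw [hw]
    calc 3 ≤ Λ := hΛ
      _ = Λ ^ 1 := (pow_one _).symm
      _ ≤ Λ ^ (10 * A) := Nat.pow_le_pow_right (by omega) (by omega)
  have hcardE : E.card ≤ Λ ^ (8 * A + 2) := by
    have h1 := exc w zl (Λ ^ 2) hw3 S (fun v hv => by
      have := hS v hv
      push_cast
      exact this)
    calc E.card ≤ S.card ^ 2 * Λ ^ 2 := h1
      _ ≤ (Λ ^ (4 * A)) ^ 2 * Λ ^ 2 := Nat.mul_le_mul_right _ (Nat.pow_le_pow_left hc 2)
      _ = Λ ^ (8 * A + 2) := by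
        rw [← pow_mul, ← pow_add]
        congr 1
        ring
  have hΛ0 : (0 : ℝ) < Λ := by
    have : 0 < Λ := by omega
    exact_mod_cast this
  have hw0 : (0 : ℝ) < w := by
    have : 0 < w := by omega
    exact_mod_cast this
  have hsum : ∑ p ∈ E, 1 / (p : ℝ) ≤ 1 / 2 := by
    have h1 : ∀ p ∈ E, 1 / (p : ℝ) ≤ 1 / (w : ℝ) := by
      intro p hp
      rw [hE, mem_filter, hP, mem_filter, mem_Ioc] at hp
      have h2 : (w : ℝ) ≤ p := by exact_mod_cast hp.1.1.1.le
      exact one_div_le_one_div_of_le hw0 h2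
    have h2 := sum_le_card_nsmul E _ _ h1
    rw [nsmul_eq_mul] at h2
    refine h2.trans ?_
    have h3 : (E.card : ℝ) * 2 ≤ w := by
      have h4 : E.card * 2 ≤ w := by
        calc E.card * 2 ≤ Λ ^ (8 * A + 2) * Λ := Nat.mul_le_mul hcardE (by omega)
          _ = Λ ^ (8 * A + 3) := (pow_succ _ _).symm
          _ ≤ Λ ^ (10 * A) := Nat.pow_le_pow_right (by omega) (by omega)
          _ = w := hw.symm
      exact_mod_cast h4
    rw [mul_one_div, div_le_iff₀ hw0]
    linarith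
  have hone : ∀ p ∈ E, 1 / (p : ℝ) ≤ 1 := by
    intro p hp
    rw [hE, mem_filter, hP, mem_filter] at hp
    have h2 : (1 : ℝ) ≤ p := by exact_mod_cast hp.1.2.one_le
    rw [div_le_one (by linarith)]
    exact h2
  have hhalf : (1 : ℝ) / 2 ≤ ∏ p ∈ E, (1 - 1 / (p : ℝ)) := by
    have := prod_ge E (fun p => 1 / (p : ℝ)) (fun p _ => by positivity) hone
    linarith
  have hnn : 0 ≤ ∏ p ∈ Qs w zl S, (1 - 1 / (p : ℝ)) := by
    refine prod_nonneg fun p hp => ?_
    rw [hQ, mem_filter, hP, mem_filter] at hp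
    have h2 : (1 : ℝ) ≤ p := by exact_mod_cast hp.1.2.one_le
    have h3 : 1 / (p : ℝ) ≤ 1 := by
      rw [div_le_one (by linarith)]
      exact h2
    linarith
  rw [← hsplit]
  nlinarith [mul_le_mul_of_nonneg_left hhalf hnn]

end Theta

open Theta in
theorem t_theta : S_theta := by
  intro D A hD hA
  set c₀ : ℝ := Real.exp (-Real.eulerMascheroniConstant) / 2 with hc₀
  have hc₀p : 0 < c₀ := by rw [hc₀]; positivity
  have hDr : (0 : ℝ) < D := by
    have : 0 < D := by omega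
    exact_mod_cast this
  have hAr : (0 : ℝ) < A := by
    have : 0 < A := by omega
    exact_mod_cast this
  refine ⟨c₀ / (2560 * A * D), by positivity, ?_⟩
  set δ : ℝ := c₀ / (2560 * A * D) with hδ
  have hδp : 0 < δ := by rw [hδ]; positivity
  have hδe : 20 * A * D * δ / c₀ = 1 / 128 := by
    rw [hδ]
    field_simp
    norm_num
  rintro z ⟨hz, hlim⟩ Λ h1 h2
  have hlog : Tendsto (fun x : ℕ => Real.log (x : ℝ)) atTop atTop :=
    Real.tendsto_log_atTop.comp tendsto_natCast_atTop_atTop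
  have hΛt : Tendsto (fun x : ℕ => (Λ x : ℝ)) atTop atTop :=
    tendsto_atTop_mono' atTop h1 hlog
  have hΛn : Tendsto Λ atTop atTop := tendsto_natCast_atTop_iff.1 hΛt
  have hwn : Tendsto (fun x => Λ x ^ (10 * A)) atTop atTop :=
    (tendsto_pow_atTop (by omega)).comp hΛn
  -- the scale `u`
  have hrp : Tendsto (fun x : ℕ => (x : ℝ) ^ (1 / (D : ℝ))) atTop atTop :=
    (tendsto_rpow_atTop (by positivity)).comp tendsto_natCast_atTop_atTop
  have hun : Tendsto (fun x : ℕ => ⌊(x : ℝ) ^ (1 / (D : ℝ))⌋₊) atTop atTop :=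
    tendsto_nat_floor_atTop.comp hrp
  have h3 : ∀ᶠ x : ℕ in atTop, V (z ⌊(x : ℝ) ^ (1 / (D : ℝ))⌋₊) *
      Real.log (⌊(x : ℝ) ^ (1 / (D : ℝ))⌋₊ : ℕ) < 3 / 2 :=
    (hlim.comp hun).eventually (gt_mem_nhds (by norm_num))
  have h4 : ∀ᶠ x : ℕ in atTop, c₀ < V (Λ x ^ (10 * A)) * Real.log ((Λ x ^ (10 * A) : ℕ) : ℝ) := by
    refine (mertens.comp hwn).eventually (lt_mem_nhds ?_)
    rw [hc₀]
    have := Real.exp_pos (-Real.eulerMascheroniConstant)
    linarith
  filter_upwards [h1, h2, h3, h4, hlog.eventually_ge_atTop (4 * D), hΛn.eventually_ge_atTop 3,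
    hrp.eventually_ge_atTop 1] with x g1 g2 g3 g4 g5 g6 g7
  intro S hcS hSv
  set lam : ℝ := Real.log (x : ℝ) with hlam
  set u : ℕ := ⌊(x : ℝ) ^ (1 / (D : ℝ))⌋₊ with hu
  set w : ℕ := Λ x ^ (10 * A) with hw
  have hD1 : (1 : ℝ) ≤ D := by exact_mod_cast hD
  have hlam0 : 0 < lam := by linarith
  -- the logarithm of `u`
  have hx0 : (0 : ℝ) < x := by
    by_contra hcon
    have h5 : (x : ℝ) = 0 := le_antisymm (not_lt.1 hcon) (Nat.cast_nonneg _)
    rw [hlam, h5, Real.log_zero] at hlam0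
    exact lt_irrefl _ hlam0
  have hu1 : 1 ≤ u := by
    rw [hu]
    exact (Nat.one_le_floor_iff _).2 g7
  have hlu : lam / D * (3 / 4) ≤ Real.log (u : ℝ) := by
    have h5 : (x : ℝ) ^ (1 / (D : ℝ)) ≤ 2 * u := by
      have h6 := (Nat.lt_floor_add_one ((x : ℝ) ^ (1 / (D : ℝ)))).le
      have h7 : (1 : ℝ) ≤ u := by exact_mod_cast hu1
      rw [← hu] at h6
      linarith
    have h6 := Real.log_le_log (by positivity) h5
    rw [Real.log_rpow hx0, Real.log_mul (by norm_num) (by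
      have h7 : (1 : ℝ) ≤ u := by exact_mod_cast hu1
      positivity)] at h6
    have h7 := Real.log_two_lt_d9
    have h8 : 4 ≤ lam / D := by
      rw [le_div_iff₀ hDr]
      linarith
    have h9 : 1 / (D : ℝ) * Real.log (x : ℝ) = lam / D := by
      rw [hlam]
      ring
    rw [h9] at h6
    linarith
  have hVz : V (z u) ≤ 2 * D / lam := by
    have h5 : 0 < lam / D * (3 / 4) := by positivity
    have h6 : V (z u) * (lam / D * (3 / 4)) ≤ 3 / 2 :=
      (mul_le_mul_of_nonneg_left hlu (V_pos _).le).trans g3.le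
    rw [le_div_iff₀ hlam0]
    have h7 : V (z u) * (lam / D * (3 / 4)) = V (z u) * lam * (3 / 4) / D := by ring
    rw [h7, div_le_iff₀ hDr] at h6
    linarith
  -- the logarithm of `w`
  have hlw : Real.log ((w : ℕ) : ℝ) ≤ 10 * A * (δ * lam) := by
    rw [hw]
    push_cast
    rw [Real.log_pow]
    push_cast
    exact mul_le_mul_of_nonneg_left g2 (by positivity)
  have hlw0 : 0 < 10 * A * (δ * lam) := by positivity
  have hVw : c₀ ≤ V w * (10 * A * (δ * lam)) :=
    g4.le.trans (mul_le_mul_of_nonneg_left hlw (V_pos _).le)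
  have hbound : V (z u) / V w ≤ 1 / 128 := by
    rw [div_le_iff₀ (V_pos _)]
    have h5 : c₀ * V (z u) ≤ c₀ * (1 / 128 * V w) := by
      calc c₀ * V (z u) ≤ V w * (10 * A * (δ * lam)) * (2 * D / lam) :=
            mul_le_mul hVw hVz (V_pos _).le (by have := V_pos w; positivity)
        _ = V w * (20 * A * D * δ) := by
            field_simp
            ring
        _ = V w * (1 / 128 * c₀) := by
            rw [div_eq_iff hc₀p.ne'] at hδe
            rw [hδe]
        _ = c₀ * (1 / 128 * V w) := by ring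
    exact le_of_mul_le_mul_left h5 hc₀p
  have hle : w ≤ z u := by
    by_contra hcon
    have h5 : V w ≤ V (z u) := V_anti (not_le.1 hcon).le
    rw [div_le_iff₀ (V_pos _)] at hbound
    have := V_pos w
    linarith
  have := prod_Qs w (z u) (Λ x) A hA g6 hw S hcS hSv hle
  linarith

end Pool.Agent.H559.IX
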