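import Pool.Agent.H559.IX.StmN

set_option autoImplicit false

/-! Uniform form of `S_theta` (helper441). -/

open Finset MeasureTheory ProbabilityTheory Filter Topology
open Pool.Agent.T2H32.BF (Model V V_pos V_anti V_ratio mertens)

namespace Pool.Agent.H559.IX

namespace ThetaU

/-- `(Λ, x)` is bad -/
def Bad (D A κ : ℕ) (z : ℕ → ℕ) (Λ x : ℕ) : Prop :=
  Λ ^ κ ≤ x ∧ (x : ℝ) ≤ Real.exp Λ ∧ ∃ S : Finset ℕ, S.card ≤ Λ ^ (4 * A) ∧
    (∀ v ∈ S, (v : ℝ) ≤ Real.exp ((Λ : ℝ) ^ 2)) ∧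
    ¬ ∏ p ∈ Qs (Λ ^ (10 * A)) (z ⌊(x : ℝ) ^ (1 / (D : ℝ))⌋₊) S, (1 - 1 / (p : ℝ)) ≤ 1 / 64

open Classical in
/-- the choice of `Λ` -/
noncomputable def ch (D A κ : ℕ) (z : ℕ → ℕ) (x : ℕ) : ℕ :=
  if h : ∃ Λ, Bad D A κ z Λ x then h.choose else ⌈Real.log x⌉₊

lemma ch_bad {D A κ : ℕ} {z : ℕ → ℕ} {x : ℕ} (h : ∃ Λ, Bad D A κ z Λ x) :
    Bad D A κ z (ch D A κ z x) x := by
  unfold ch
  rw [dif_pos h]
  exact h.choose_spec

lemma ch_not {D A κ : ℕ} {z : ℕ → ℕ} {x : ℕ} (h : ¬ ∃ Λ, Bad D A κ z Λ x) :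
    ch D A κ z x = ⌈Real.log x⌉₊ := by
  unfold ch
  rw [dif_neg h]

lemma ev (δ : ℝ) (hδ : 0 < δ) : ∀ᶠ x : ℕ in atTop, Real.log ⌈Real.log x⌉₊ ≤ δ * Real.log x := by
  have h1 : ∀ᶠ x : ℝ in atTop, ‖Real.log x‖ ≤ 1 / 2 * ‖x ^ δ‖ :=
    (isLittleO_log_rpow_atTop hδ).def (by norm_num)
  have h2 : ∀ᶠ x : ℝ in atTop, (2 : ℝ) ≤ x ^ δ := (tendsto_rpow_atTop hδ).eventually_ge_atTop 2
  have h3 := tendsto_natCast_atTop_atTop (R := ℝ).eventually
    ((h1.and h2).and (eventually_ge_atTop (3 : ℝ)))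
  filter_upwards [h3] with x hx
  obtain ⟨⟨h4, h5⟩, h6⟩ := hx
  have hx0 : (0 : ℝ) < x := by linarith
  have hlog : 0 ≤ Real.log (x : ℝ) := Real.log_nonneg (by linarith)
  have hpow : (0 : ℝ) ≤ (x : ℝ) ^ δ := (Real.rpow_pos_of_pos hx0 δ).le
  rw [Real.norm_of_nonneg hlog, Real.norm_of_nonneg hpow] at h4
  have h7 : (⌈Real.log (x : ℝ)⌉₊ : ℝ) ≤ (x : ℝ) ^ δ := by
    have := (Nat.ceil_lt_add_one hlog).le
    linarith
  rw [← Real.log_rpow hx0]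
  by_cases h8 : (⌈Real.log (x : ℝ)⌉₊ : ℝ) = 0
  · rw [h8, Real.log_zero]
    exact Real.log_nonneg (by linarith)
  · refine Real.log_le_log ?_ h7
    exact lt_of_le_of_ne (Nat.cast_nonneg _) (Ne.symm h8)

end ThetaU

open ThetaU in
theorem t_thetaU (hh : S_theta) : S_thetaU := by
  intro D A hD hA
  obtain ⟨δ, hδ, hth⟩ := hh D A hD hA
  obtain ⟨κ, hκ⟩ : ∃ κ : ℕ, κ = ⌈1 / δ⌉₊ + 1 := ⟨_, rfl⟩
  have hκ1 : 1 ≤ κ := by omega
  have hκδ : 1 / δ ≤ κ := by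
    rw [hκ]
    push_cast
    have := Nat.le_ceil (1 / δ)
    linarith
  refine ⟨κ, fun z hz => ?_⟩
  have s1 : ∀ᶠ x : ℕ in atTop, Real.log x ≤ (ch D A κ z x : ℝ) := by
    filter_upwards [eventually_ge_atTop 1] with x hx
    by_cases h : ∃ Λ, Bad D A κ z Λ x
    · have h1 := (ch_bad h).2.1
      have hx0 : (0 : ℝ) < x := by exact_mod_cast hx
      have h2 := Real.log_le_log hx0 h1
      rwa [Real.log_exp] at h2
    · rw [ch_not h]
      exact Nat.le_ceil _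
  have s2 : ∀ᶠ x : ℕ in atTop, Real.log (ch D A κ z x : ℝ) ≤ δ * Real.log x := by
    filter_upwards [ev δ hδ, eventually_ge_atTop 1] with x hx hx1
    by_cases h : ∃ Λ, Bad D A κ z Λ x
    · have h1 := (ch_bad h).1
      have hx0 : (1 : ℝ) ≤ x := by exact_mod_cast hx1
      have hlog : 0 ≤ Real.log (x : ℝ) := Real.log_nonneg hx0
      rcases Nat.eq_zero_or_pos (ch D A κ z x) with h0 | h0
      · rw [h0, Nat.cast_zero, Real.log_zero]
        positivity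
      · have h0' : (0 : ℝ) < ch D A κ z x := by exact_mod_cast h0
        have h2 : ((ch D A κ z x : ℝ)) ^ κ ≤ x := by exact_mod_cast h1
        have h3 := Real.log_le_log (by positivity) h2
        rw [Real.log_pow] at h3
        have h4 : 1 ≤ δ * κ := by
          have := mul_le_mul_of_nonneg_left hκδ hδ.le
          rwa [mul_one_div_cancel hδ.ne'] at this
        have h5 : 0 ≤ Real.log (ch D A κ z x : ℝ) := Real.log_nonneg (by exact_mod_cast h0)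
        calc Real.log (ch D A κ z x : ℝ) = 1 * Real.log (ch D A κ z x : ℝ) := (one_mul _).symm
          _ ≤ (δ * κ) * Real.log (ch D A κ z x : ℝ) := mul_le_mul_of_nonneg_right h4 h5
          _ = δ * (κ * Real.log (ch D A κ z x : ℝ)) := by ring
          _ ≤ δ * Real.log x := mul_le_mul_of_nonneg_left h3 hδ.le
    · rw [ch_not h]
      exact hx
  obtain ⟨x0, hx0⟩ := eventually_atTop.1 (hth z hz (ch D A κ z) s1 s2)
  filter_upwards [eventually_ge_atTop (max x0 1)] with Λ hΛ x hx1 hx2 S hS1 hS2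
  by_contra hc
  have hb : ∃ Λ, Bad D A κ z Λ x := ⟨Λ, hx1, hx2, S, hS1, hS2, hc⟩
  have hΛ1 : 1 ≤ Λ := (le_max_right _ _).trans hΛ
  have hle : Λ ≤ Λ ^ κ := by
    calc Λ = Λ ^ 1 := (pow_one _).symm
      _ ≤ Λ ^ κ := Nat.pow_le_pow_right hΛ1 hκ1
  obtain ⟨-, -, S', h1, h2, h3⟩ := ch_bad hb
  exact h3 (hx0 x (((le_max_left _ _).trans hΛ).trans (hle.trans hx1)) S' h1 h2)

end Pool.Agent.H559.IX
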