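import Pool.Agent.H559.IX.StmB

set_option autoImplicit false

/-! # Upper tail for blocks of the random sieve (helper707, for helper559) -/

open Finset MeasureTheory ProbabilityTheory Filter Topology
open Pool.Agent.T2H32.BF (Model prob cond)

namespace Pool.Agent.H559.IX

namespace Up

/-- a fixed set survives with small probability -/
theorem survive {Ω : Type} [MeasurableSpace Ω] {P : Measure Ω} {a : ℕ → Ω → ℕ} (h : Model P a)
    (Q : Finset ℕ) (hQ : ∀ p ∈ Q, p.Prime) (T : Finset ℕ)
    (hT : ∀ p ∈ Q, Set.InjOn (fun v => v % p) (T : Set ℕ))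
    (hprod : ∏ p ∈ Q, (1 - 1 / (p : ℝ)) ≤ 1 / 64) :
    P.real {ω | ∀ p ∈ Q, a p ω ∉ T.image (fun v => v % p)} ≤ (1 / 64) ^ T.card := by
  have hsub : ∀ p ∈ Q, T.image (fun v => v % p) ⊆ range p := by
    intro p hp r hr
    obtain ⟨v, -, rfl⟩ := Finset.mem_image.1 hr
    exact Finset.mem_range.2 (Nat.mod_lt _ (hQ p hp).pos)
  rw [avoid h Q hQ (fun p => T.image (fun v => v % p)) hsub]
  have hcard : ∀ p ∈ Q, (T.image (fun v => v % p)).card = T.card := fun p hp =>
    Finset.card_image_of_injOn (hT p hp)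
  have hp1 : ∀ p ∈ Q, (1 : ℝ) / p ≤ 1 := by
    intro p hp
    rw [div_le_one (by exact_mod_cast (hQ p hp).pos)]
    exact_mod_cast (hQ p hp).one_le
  calc ∏ p ∈ Q, (1 - ((T.image (fun v => v % p)).card : ℝ) / p)
      ≤ ∏ p ∈ Q, (1 - 1 / (p : ℝ)) ^ T.card := by
        refine Finset.prod_le_prod (fun p hp => ?_) (fun p hp => ?_)
        · have h0 : (0 : ℝ) < p := by exact_mod_cast (hQ p hp).pos
          have h1 : (T.image (fun v => v % p)).card ≤ p := by
            have := Finset.card_le_card (hsub p hp)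
            rwa [Finset.card_range] at this
          have h2 : ((T.image (fun v => v % p)).card : ℝ) / p ≤ 1 := by
            rw [div_le_one h0]
            exact_mod_cast h1
          linarith
        · rw [hcard p hp]
          have h1 := one_add_mul_le_pow (a := -(1 / (p : ℝ))) (by linarith [hp1 p hp]) T.card
          calc 1 - (T.card : ℝ) / p = 1 + (T.card : ℝ) * -(1 / (p : ℝ)) := by ring
            _ ≤ (1 + -(1 / (p : ℝ))) ^ T.card := h1
            _ = _ := by rw [← sub_eq_add_neg]
    _ = (∏ p ∈ Q, (1 - 1 / (p : ℝ))) ^ T.card := Finset.prod_pow _ _ _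
    _ ≤ (1 / 64) ^ T.card := by
        have h0 : 0 ≤ ∏ p ∈ Q, (1 - 1 / (p : ℝ)) :=
          Finset.prod_nonneg fun p hp => by linarith [hp1 p hp]
        exact pow_le_pow_left₀ h0 hprod _

end Up

theorem t_up : S_up := by
  intro Ω _ P a h Q Q' hd hQ K n B hB hBn hinj hprod
  have := prob h
  refine cond h Q' Q hd (fun b => ∃ i < K, n < 2 * (thin Q b (B b i)).card) ?_ (K * (1 / 2) ^ n)
    (by positivity) ?_
  · intro b b' hbb
    have h1 : B b = B b' := hB b b' fun p hp => hbb p (Finset.mem_union_left _ hp)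
    have h2 : ∀ S, thin Q b S = thin Q b' S := by
      intro S
      unfold thin
      refine Finset.filter_congr fun v _ => ?_
      refine forall₂_congr fun p hp => ?_
      rw [hbb p (Finset.mem_union_right _ hp)]
    simp only [h1, h2]
  · intro α
    have hsub : {ω | ∃ i < K, n < 2 * (thin Q (fun q => if q ∈ Q' then α q else a q ω)
        (B (fun q => if q ∈ Q' then α q else a q ω) i)).card} ⊆
        ⋃ i ∈ range K, ⋃ T ∈ (B α i).powersetCard (n / 2 + 1),
          {ω | ∀ p ∈ Q, a p ω ∉ T.image (fun v => v % p)} := by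
      intro ω hω
      obtain ⟨i, hi, hc⟩ := hω
      have h1 : B (fun q => if q ∈ Q' then α q else a q ω) = B α :=
        hB _ _ fun p hp => if_pos hp
      rw [h1] at hc
      obtain ⟨T, hT, hTc⟩ := Finset.exists_subset_card_eq
        (s := thin Q (fun q => if q ∈ Q' then α q else a q ω) (B α i)) (n := n / 2 + 1) (by omega)
      simp only [Set.mem_iUnion]
      refine ⟨i, Finset.mem_range.2 hi, T, Finset.mem_powersetCard.2
        ⟨hT.trans (Finset.filter_subset _ _), hTc⟩, ?_⟩
      intro p hp hmem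
      obtain ⟨v, hv, hv2⟩ := Finset.mem_image.1 hmem
      have h2 := (Finset.mem_filter.1 (hT hv)).2 p hp
      have h3 : v % p ≠ if p ∈ Q' then α p else a p ω := h2
      rw [if_neg (fun hp' => Finset.disjoint_left.1 hd hp' hp)] at h3
      exact h3 hv2
    have hK : ∀ i, ∑ T ∈ (B α i).powersetCard (n / 2 + 1),
        P.real {ω | ∀ p ∈ Q, a p ω ∉ T.image (fun v => v % p)} ≤ (1 / 2) ^ n := by
      intro i
      calc ∑ T ∈ (B α i).powersetCard (n / 2 + 1),
            P.real {ω | ∀ p ∈ Q, a p ω ∉ T.image (fun v => v % p)}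
          ≤ ∑ T ∈ (B α i).powersetCard (n / 2 + 1), (1 / 8 : ℝ) ^ n := by
            refine Finset.sum_le_sum fun T hT => ?_
            obtain ⟨hT1, hT2⟩ := Finset.mem_powersetCard.1 hT
            refine (Up.survive h Q hQ T (fun p hp => (hinj α i p hp).mono hT1) hprod).trans ?_
            rw [hT2]
            calc (1 / 64 : ℝ) ^ (n / 2 + 1) = (1 / 8) ^ (2 * (n / 2 + 1)) := by
                  rw [pow_mul]; norm_num
              _ ≤ (1 / 8) ^ n := pow_le_pow_of_le_one (by norm_num) (by norm_num) (by omega)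
        _ = (((B α i).powersetCard (n / 2 + 1)).card : ℝ) * (1 / 8) ^ n := by
            rw [Finset.sum_const, nsmul_eq_mul]
        _ ≤ 2 ^ n * (1 / 8) ^ n := by
            have h1 : ((B α i).powersetCard (n / 2 + 1)).card ≤ 2 ^ n := by
              calc ((B α i).powersetCard (n / 2 + 1)).card ≤ (B α i).powerset.card :=
                    Finset.card_le_card fun T hT => Finset.mem_powerset.2 (Finset.mem_powersetCard.1 hT).1
                _ = 2 ^ (B α i).card := Finset.card_powerset _
                _ ≤ 2 ^ n := Nat.pow_le_pow_right (by norm_num) (hBn α i)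
            have h2 : ((((B α i).powersetCard (n / 2 + 1)).card : ℕ) : ℝ) ≤ 2 ^ n := by
              exact_mod_cast h1
            gcongr
        _ = (1 / 4) ^ n := by rw [← mul_pow]; norm_num
        _ ≤ (1 / 2) ^ n := by gcongr; norm_num
    calc P.real {ω | ∃ i < K, n < 2 * (thin Q (fun q => if q ∈ Q' then α q else a q ω)
        (B (fun q => if q ∈ Q' then α q else a q ω) i)).card}
        ≤ P.real (⋃ i ∈ range K, ⋃ T ∈ (B α i).powersetCard (n / 2 + 1),
          {ω | ∀ p ∈ Q, a p ω ∉ T.image (fun v => v % p)}) :=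
          measureReal_mono hsub (measure_ne_top _ _)
      _ ≤ ∑ i ∈ range K, P.real (⋃ T ∈ (B α i).powersetCard (n / 2 + 1),
          {ω | ∀ p ∈ Q, a p ω ∉ T.image (fun v => v % p)}) :=
          measureReal_biUnion_finset_le _ _
      _ ≤ ∑ i ∈ range K, ∑ T ∈ (B α i).powersetCard (n / 2 + 1),
            P.real {ω | ∀ p ∈ Q, a p ω ∉ T.image (fun v => v % p)} :=
          Finset.sum_le_sum fun i _ => measureReal_biUnion_finset_le _ _
      _ ≤ ∑ i ∈ range K, (1 / 2 : ℝ) ^ n := Finset.sum_le_sum fun i _ => hK i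
      _ = K * (1 / 2) ^ n := by rw [Finset.sum_const, nsmul_eq_mul, Finset.card_range]

end Pool.Agent.H559.IX
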