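import Pool.Agent.H559.IX.Hyp
import Pool.Agent.H559.IX.Blocks
import Pool.Agent.H559.IX.BlocksS
import Pool.Agent.H559.IX.Exch
import Pool.Agent.H559.IX.Pw
import Pool.Agent.H559.IX.Up
import Pool.Agent.H559.IX.Theta
import Pool.Agent.H559.IX.ThetaU
import Pool.Agent.H559.IX.HexBT
import Pool.Agent.H559.IX.One
import Pool.Agent.H559.IX.Elem
import Pool.Agent.H559.IX.Sys
import Pool.Agent.H559.IX.Assembly

set_option autoImplicit false

/-! # The window theorem -/

namespace Pool.Agent.H559.IX

theorem master : S_master :=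
  t_assembly (t_thetaU t_theta) t_hexB (t_one (t_pw t_exch) t_up (t_blocksS (t_blocks t_hyp))) t_sys

theorem elem : S_elem := t_elem t_sys

end Pool.Agent.H559.IX
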