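import Pool.Agent.H559.IX.StmP

set_option autoImplicit false

/-! # The enumeration of the random primes -/

open Finset Filter Topology
open Pool.Agent.T2H32.BF (Model V)

namespace Pool.Agent.H559.IX

theorem zero_notMem (z : ℕ → ℕ) (c : ℝ) (b : ℕ → ℕ) : 0 ∉ R0 z c b := by
  intro h
  have := h.1
  omega

open Classical in
theorem cn_eq_count (A : Set ℕ) (h0 : 0 ∉ A) (v : ℕ) : cn A v = Nat.count (fun u => u ∈ A) (v + 1) := by
  unfold cn
  rw [Nat.count_eq_card_filter_range]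
  congr 1
  ext u
  simp only [mem_filter, mem_Icc, mem_range]
  constructor
  · rintro ⟨⟨_, h2⟩, h3⟩
    exact ⟨by omega, h3⟩
  · rintro ⟨h1, h2⟩
    refine ⟨⟨?_, by omega⟩, h2⟩
    rcases Nat.eq_zero_or_pos u with h3 | h3
    · subst h3
      exact absurd h2 h0
    · exact h3

open Classical in
/-- the element with index `m` -/
theorem nth_cn (A : Set ℕ) (h0 : 0 ∉ A) (v m : ℕ) (hv : v ∈ A) (h : cn A v = m) :
    1 ≤ m ∧ Nat.nth (fun u => u ∈ A) (m - 1) = v := by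
  have h1 : m = Nat.count (fun u => u ∈ A) v + 1 := by
    rw [← h, cn_eq_count A h0, Nat.count_succ, if_pos hv]
  refine ⟨by omega, ?_⟩
  rw [h1, Nat.add_sub_cancel]
  exact Nat.nth_count hv

/-- the elements of `It A i` are iterated -/
theorem iter_It (A : Set ℕ) (h0 : 0 ∉ A) (i : ℕ) : ∀ v ∈ It A i, ∃ x : ℕ, 1 ≤ x ∧
    (fun m => Nat.nth (fun u => u ∈ A) (m - 1))^[i + 1] x = v := by
  induction i with
  | zero =>
    intro v hv
    obtain ⟨h1, h2⟩ := nth_cn A h0 v _ hv rfl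
    exact ⟨_, h1, h2⟩
  | succ i ih =>
    intro v hv
    obtain ⟨hv1, hv2⟩ : v ∈ A ∧ cn A v ∈ It A i := hv
    obtain ⟨x, hx, hxv⟩ := ih _ hv2
    refine ⟨x, hx, ?_⟩
    rw [Function.iterate_succ_apply', hxv]
    exact (nth_cn A h0 v _ hv1 rfl).2

end Pool.Agent.H559.IX
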