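import Pool.Agent.H559.IX.StmP

set_option autoImplicit false

/-! # Index windows of the random sieve: super twins in short windows -/

open Finset MeasureTheory ProbabilityTheory Filter Topology
open Pool.Agent.T2H32.BF (Model V V_pos V_anti V_ratio mertens)

namespace Pool.Agent.H559.IX

namespace Super

open Classical in
/-- the index of `v > x` is the index of `x` plus one plus the number of elements between -/
theorem cn_step (R : Set ℕ) {x v : ℕ} (hv : v ∈ R) (hxv : x < v) :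
    cn R v = cn R x + ((Ioo x v).filter (fun u => u ∈ R)).card + 1 := by
  have h1 : (Icc 1 v).filter (fun u => u ∈ R) =
      insert v ((Icc 1 x).filter (fun u => u ∈ R) ∪ (Ioo x v).filter (fun u => u ∈ R)) := by
    ext t
    simp only [mem_filter, mem_Icc, mem_insert, mem_union, mem_Ioo]
    constructor
    · rintro ⟨⟨h1, h2⟩, h3⟩
      rcases Nat.lt_or_ge x t with h | h
      · rcases Nat.lt_or_ge t v with h' | h'
        · exact Or.inr (Or.inr ⟨⟨h, h'⟩, h3⟩)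
        · exact Or.inl (by omega)
      · exact Or.inr (Or.inl ⟨⟨h1, h⟩, h3⟩)
    · rintro (rfl | ⟨⟨h1, h2⟩, h3⟩ | ⟨⟨h1, h2⟩, h3⟩)
      · exact ⟨⟨by omega, le_refl _⟩, hv⟩
      · exact ⟨⟨h1, by omega⟩, h3⟩
      · exact ⟨⟨by omega, by omega⟩, h3⟩
  have h2 : v ∉ (Icc 1 x).filter (fun u => u ∈ R) ∪ (Ioo x v).filter (fun u => u ∈ R) := by
    simp only [mem_union, mem_filter, mem_Icc, mem_Ioo]
    rintro (⟨⟨_, h⟩, _⟩ | ⟨⟨_, h⟩, _⟩)
    · omega
    · omega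
  have h3 : Disjoint ((Icc 1 x).filter (fun u => u ∈ R)) ((Ioo x v).filter (fun u => u ∈ R)) := by
    rw [Finset.disjoint_left]
    intro t ht ht'
    simp only [mem_filter, mem_Icc, mem_Ioo] at ht ht'
    omega
  unfold cn
  rw [h1, card_insert_of_notMem h2, card_union_of_disjoint h3]

/-- elementary inequalities for powers -/
theorem pow_facts (A κ : ℕ) (hA : 5 ≤ A) (hκ : 3 * A ≤ κ) {Λ : ℕ} (hΛ : 2 ≤ Λ) :
    3 * Λ ^ A ≤ Λ ^ (3 * A) ∧ 6 * Λ ^ A ≤ Λ ^ κ ∧ Λ ≤ Λ ^ κ := by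
  have h8 : 8 ≤ Λ ^ (2 * A) := by
    calc 8 = 2 ^ 3 := by norm_num
      _ ≤ Λ ^ 3 := Nat.pow_le_pow_left hΛ 3
      _ ≤ Λ ^ (2 * A) := Nat.pow_le_pow_right (by omega) (by omega)
  have h3A : Λ ^ (3 * A) = Λ ^ (2 * A) * Λ ^ A := by
    rw [← pow_add]
    congr 1
    omega
  have hle : Λ ^ (3 * A) ≤ Λ ^ κ := Nat.pow_le_pow_right (by omega) hκ
  refine ⟨?_, ?_, ?_⟩
  · rw [h3A]
    exact Nat.mul_le_mul_right _ (by omega)
  · refine le_trans ?_ hle
    rw [h3A]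
    exact Nat.mul_le_mul_right _ (by omega)
  · calc Λ = Λ ^ 1 := (pow_one _).symm
      _ ≤ Λ ^ κ := Nat.pow_le_pow_right (by omega) (by omega)

/-- elementary inequalities for exponentials -/
theorem exp_facts {Λ : ℕ} (hΛ : 2 ≤ Λ) :
    2 * Real.exp (Λ : ℝ) ≤ Real.exp ((2 : ℕ) * (Λ : ℝ)) ∧
      2 * Real.exp (Λ : ℝ) ≤ Real.exp ((Λ : ℝ) ^ 2) ∧ (2 : ℝ) ≤ Real.exp ((Λ : ℝ) ^ 2) := by
  have h2 : (2 : ℝ) ≤ (Λ : ℝ) := by exact_mod_cast hΛ
  have h3 : (Λ : ℝ) + 1 ≤ Real.exp (Λ : ℝ) := Real.add_one_le_exp _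
  have h4 : 2 * Real.exp (Λ : ℝ) ≤ Real.exp ((2 : ℕ) * (Λ : ℝ)) := by
    have : Real.exp ((2 : ℕ) * (Λ : ℝ)) = Real.exp (Λ : ℝ) * Real.exp (Λ : ℝ) := by
      rw [← Real.exp_add]
      congr 1
      push_cast
      ring
    rw [this]
    exact mul_le_mul_of_nonneg_right (by linarith) (Real.exp_pos _).le
  have h5 : Real.exp ((2 : ℕ) * (Λ : ℝ)) ≤ Real.exp ((Λ : ℝ) ^ 2) := by
    refine Real.exp_le_exp.2 ?_
    push_cast
    nlinarith
  refine ⟨h4, h4.trans h5, ?_⟩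
  have h6 : (1 : ℝ) ≤ Real.exp (Λ : ℝ) := by linarith
  linarith [h4.trans h5]

/-- `x ≤ N²` from `x² ≤ N³` and `N ≤ x` -/
theorem le_sq {x N : ℕ} (h1 : x ^ 2 ≤ N ^ 3) (h2 : N ≤ x) (hx : 0 < x) : x ≤ N ^ 2 := by
  by_contra h
  push Not at h
  have h3 : N ^ 3 < x ^ 2 := by
    calc N ^ 3 = N ^ 2 * N := by ring
      _ ≤ N ^ 2 * x := Nat.mul_le_mul_left _ h2
      _ < x * x := Nat.mul_lt_mul_of_pos_right h hx
      _ = x ^ 2 := by ring
  omega

end Super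

open Classical in
theorem t_super (hm : S_master) (hs : S_sys) (he : S_elem) : S_super := by
  intro c hc
  obtain ⟨C0, hC0, hsys⟩ := hs c hc
  obtain ⟨A1, hA1⟩ := hm c hc 2 C0
  obtain ⟨κm, hκm⟩ := hA1 (max A1 5) (le_max_left _ _)
  set A := max A1 5 with hAdef
  have hA5 : 5 ≤ A := le_max_right _ _
  set κ := max κm (3 * A) with hκdef
  have hκ3 : 3 * A ≤ κ := le_max_right _ _
  refine ⟨A, κ, ?_⟩
  intro z hz Ω _ P a hM
  have hmas := hκm z hz 2 (Or.inr rfl) ℕ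
    (fun Λ x => if Λ ^ κ ≤ x then (range (x + 1)).filter (fun N => x ^ 2 ≤ N ^ 3 ∧ 2 * N ≤ x) else ∅)
    (fun Λ _ N => Ioc N (N + 3 * Λ ^ A))
    (fun _ _ N _ V J _ => N + J + 1 ∈ V) ?_ Ω P a hM
  swap
  · -- the conditions of the window theorem
    filter_upwards [eventually_ge_atTop 2] with Λ hΛ x hx hxe
    obtain ⟨p1, p2, p3⟩ := Super.pow_facts A κ hA5 hκ3 hΛ
    obtain ⟨e1, e2, e3⟩ := Super.exp_facts hΛ
    have hexp1 : (1 : ℝ) ≤ Real.exp (Λ : ℝ) := Real.one_le_exp (Nat.cast_nonneg _)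
    refine ⟨?_, ?_⟩
    · have h1 : (if Λ ^ κ ≤ x then (range (x + 1)).filter (fun N => x ^ 2 ≤ N ^ 3 ∧ 2 * N ≤ x)
          else ∅).card ≤ x + 1 := by
        split_ifs with h
        · exact (card_filter_le _ _).trans (by rw [card_range])
        · simp
      have h2 : (((if Λ ^ κ ≤ x then (range (x + 1)).filter (fun N => x ^ 2 ≤ N ^ 3 ∧ 2 * N ≤ x)
          else ∅).card : ℕ) : ℝ) ≤ (x : ℝ) + 1 := by exact_mod_cast h1
      refine h2.trans ?_
      linarith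
    · intro N hN
      by_cases hxκ : Λ ^ κ ≤ x
      swap
      · rw [if_neg hxκ] at hN
        exact absurd hN (notMem_empty _)
      rw [if_pos hxκ] at hN
      simp only [mem_filter, mem_range] at hN
      obtain ⟨_, hN1, hN2⟩ := hN
      have hxpos : 0 < x := by
        have : 0 < Λ ^ κ := Nat.pow_pos (by omega)
        omega
      refine ⟨?_, ?_, ?_⟩
      · rw [Nat.card_Ioc]
        omega
      · intro v hv
        rw [mem_Ioc] at hv
        have hsq : x ≤ N ^ 2 := Super.le_sq hN1 (by omega) hxpos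
        have hvx : v ≤ x := by omega
        refine ⟨?_, ?_, Or.inl hvx⟩
        · exact hsq.trans (Nat.pow_le_pow_left (by omega) 2)
        · have : (v : ℝ) ≤ (x : ℝ) := by exact_mod_cast hvx
          linarith
      · intro b b' _ V J v
        exact Iff.rfl
  have hsys' := hsys z hz Ω P a hM
  have hel := (he c hc z hz).2 Ω P a hM
  filter_upwards [hmas, hsys', hel] with ω hω1 hω2 hω3
  obtain ⟨hel1, _, _⟩ := hω3
  obtain ⟨x0, hx0⟩ := eventually_atTop.1 hel1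
  filter_upwards [hω1, hω2, eventually_ge_atTop 2, eventually_ge_atTop x0] with Λ h1 h2 hΛ hΛx0
  intro x hx hxe
  obtain ⟨p1, p2, p3⟩ := Super.pow_facts A κ hA5 hκ3 hΛ
  obtain ⟨e1, e2, e3⟩ := Super.exp_facts hΛ
  have hexp1 : (1 : ℝ) ≤ Real.exp (Λ : ℝ) := Real.one_le_exp (Nat.cast_nonneg _)
  set R := R0 z c (fun q => a q ω) with hR
  set N := cn R x with hN
  obtain ⟨hN2, hN3⟩ := hx0 x (by omega)
  have hxm : Λ ^ κm ≤ x :=
    (Nat.pow_le_pow_right (by omega) (le_max_left _ _)).trans hx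
  have hNY : N ∈ (if Λ ^ κ ≤ x then (range (x + 1)).filter
      (fun N => x ^ 2 ≤ N ^ 3 ∧ 2 * N ≤ x) else ∅) := by
    rw [if_pos hx]
    simp only [mem_filter, mem_range]
    exact ⟨by omega, hN3, hN2⟩
  have hSuc := h1 x hxm hxe N hNY ?_
  swap
  · -- the existence of compatible pairs
    intro u j0 hu1 hu2 hj0
    have hgL : Λ ^ C0 ≤ Λ ^ A := by omega
    have hxA : x + Λ ^ A ≤ 2 * x := by omega
    have hue : (u : ℝ) ≤ Real.exp ((Λ : ℝ) ^ 2) := by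
      have h3 : (u : ℝ) ≤ 2 * (x : ℝ) := by
        have : u ≤ 2 * x := by omega
        exact_mod_cast this
      linarith
    have hNe : ((N + j0 : ℕ) : ℝ) ≤ Real.exp ((Λ : ℝ) ^ 2) := by
      have h3 : ((N + j0 : ℕ) : ℝ) ≤ 2 * (x : ℝ) := by
        have : N + j0 ≤ 2 * x := by omega
        exact_mod_cast this
      linarith
    obtain ⟨v, hvR, hv1, hv2, hv3⟩ := (h2 u hue).1 2 (by exact_mod_cast e3) even_two
    obtain ⟨w, hwR, hw1, hw2, _⟩ := (h2 (N + j0) hNe).1 0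
      (by push_cast; exact (Real.exp_pos _).le) (by simp)
    refine ⟨v, hvR, hv1, hv2, fun _ => hv3, w - N - 1, by omega, by omega, ?_⟩
    have hw : N + (w - N - 1) + 1 = w := by omega
    show N + (w - N - 1) + 1 ∈ _
    rw [hw, mem_filter, mem_Ioc]
    exact ⟨⟨by omega, by omega⟩, hwR⟩
  obtain ⟨v, hvR, hv1, hv2, hv3, hv4⟩ := hSuc
  refine ⟨v, hvR, hv1, hv2, hv3 rfl, ?_⟩
  rw [Super.cn_step R hvR hv1]
  exact (mem_filter.1 hv4).2

end Pool.Agent.H559.IX
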