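import Pool.Agent.H559.IX.StmP

set_option autoImplicit false

/-! # `S_superSq` -/

open Finset MeasureTheory ProbabilityTheory Filter Topology
open Pool.Agent.T2H32.BF (Model V V_pos V_anti V_ratio mertens)

namespace Pool.Agent.H559.IX

namespace SuperSq

open Classical in
theorem cn_succ (A : Set ℕ) {x v : ℕ} (hxv : x < v) (hv : v ∈ A) :
    cn A v = cn A x + ((Ioo x v).filter (fun u => u ∈ A)).card + 1 := by
  unfold cn
  have h : (Icc 1 v).filter (fun u => u ∈ A) =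
      insert v ((Icc 1 x).filter (fun u => u ∈ A) ∪ (Ioo x v).filter (fun u => u ∈ A)) := by
    ext t
    simp only [mem_filter, mem_insert, mem_union, mem_Icc, mem_Ioo]
    constructor
    · rintro ⟨⟨h1, h2⟩, h3⟩
      by_cases h4 : t = v
      · exact Or.inl h4
      · by_cases h5 : t ≤ x
        · exact Or.inr (Or.inl ⟨⟨h1, h5⟩, h3⟩)
        · exact Or.inr (Or.inr ⟨⟨by omega, by omega⟩, h3⟩)
    · rintro (h4 | ⟨⟨h1, h2⟩, h3⟩ | ⟨⟨h1, h2⟩, h3⟩)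
      · subst h4; exact ⟨⟨by omega, le_rfl⟩, hv⟩
      · exact ⟨⟨h1, by omega⟩, h3⟩
      · exact ⟨⟨by omega, by omega⟩, h3⟩
  rw [h, card_insert_of_notMem, card_union_of_disjoint]
  · rw [disjoint_left]
    intro t ht ht'
    simp only [mem_filter, mem_Icc, mem_Ioo] at ht ht'
    omega
  · simp only [mem_filter, mem_union, mem_Icc, mem_Ioo]
    omega

theorem exp_bound {Λ x t : ℕ} (hΛ : 7 ≤ Λ) (hx : (x : ℝ) ≤ Real.exp Λ) (ht : t ≤ 4 * x ^ 2) :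
    (t : ℝ) ≤ Real.exp ((Λ : ℝ) ^ 2) := by
  have h1 : (t : ℝ) ≤ 4 * (x : ℝ) ^ 2 := by exact_mod_cast ht
  have h2 : (4 : ℝ) ≤ Real.exp 2 := by
    have := Real.quadratic_le_exp_of_nonneg (x := 2) (by norm_num)
    linarith
  have h3 : (x : ℝ) ^ 2 ≤ Real.exp Λ * Real.exp Λ := by
    rw [pow_two]
    exact mul_le_mul hx hx (Nat.cast_nonneg _) (Real.exp_pos _).le
  have hΛ' : (7 : ℝ) ≤ Λ := by exact_mod_cast hΛ
  calc (t : ℝ) ≤ 4 * (x : ℝ) ^ 2 := h1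
    _ ≤ Real.exp 2 * (Real.exp Λ * Real.exp Λ) :=
        mul_le_mul h2 h3 (by positivity) (Real.exp_pos _).le
    _ = Real.exp (2 + (Λ + Λ)) := by rw [Real.exp_add, Real.exp_add]
    _ ≤ Real.exp ((Λ : ℝ) ^ 2) := by
        apply Real.exp_le_exp.2
        nlinarith

/-- the auxiliary set -/
def Gf (A Λ x N : ℕ) : Finset ℕ :=
  Ioc N (N + 3 * Λ ^ A) ∪ (Ioc N (N + 3 * Λ ^ A)).image (fun w => w ^ 2 - 2) ∪
    (Ioc x (x + Λ ^ A)).image (fun v => v ^ 2 - 2)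

/-- the parameters -/
def Yf (K Λ x : ℕ) : Finset ℕ :=
  if Λ ^ K ≤ x then (range (x + 1)).filter (fun N => x ^ 2 ≤ N ^ 3 ∧ 2 * N ≤ x) else ∅

theorem card_G {A Λ x N : ℕ} (hΛ : 7 ≤ Λ) (hA : 1 ≤ A) : (Gf A Λ x N).card ≤ Λ ^ (3 * A) := by
  have h1 : (Gf A Λ x N).card ≤ 7 * Λ ^ A := by
    unfold Gf
    refine le_trans (card_union_le _ _) ?_
    have h2 := card_union_le (Ioc N (N + 3 * Λ ^ A))
      ((Ioc N (N + 3 * Λ ^ A)).image (fun w => w ^ 2 - 2))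
    have h3 := card_image_le (s := Ioc N (N + 3 * Λ ^ A)) (f := fun w => w ^ 2 - 2)
    have h4 := card_image_le (s := Ioc x (x + Λ ^ A)) (f := fun w => w ^ 2 - 2)
    rw [Nat.card_Ioc] at h2 h3 h4
    omega
  have h5 : 7 ≤ Λ ^ (2 * A) := by
    calc 7 ≤ Λ := hΛ
      _ = Λ ^ 1 := (pow_one _).symm
      _ ≤ Λ ^ (2 * A) := Nat.pow_le_pow_right (by omega) (by omega)
  calc (Gf A Λ x N).card ≤ 7 * Λ ^ A := h1
    _ ≤ Λ ^ (2 * A) * Λ ^ A := Nat.mul_le_mul_right _ h5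
    _ = Λ ^ (3 * A) := by rw [← pow_add]; congr 1; omega

theorem sq_big {x N w : ℕ} (hN : x ^ 2 ≤ N ^ 3) (hN2 : 2 * N ≤ x) (hx : 1 ≤ x) (hw : N < w) :
    2 * x ≤ w ^ 2 - 2 := by
  have hN0 : 0 < N := by
    rcases Nat.eq_zero_or_pos N with h | h
    · subst h
      have : 0 < x ^ 2 := by positivity
      omega
    · exact h
  have h1 : 2 * x ≤ N ^ 2 := by
    have h2 : N * (2 * x) ≤ N * N ^ 2 := by
      calc N * (2 * x) = 2 * N * x := by ring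
        _ ≤ x * x := Nat.mul_le_mul_right _ hN2
        _ = x ^ 2 := by ring
        _ ≤ N ^ 3 := hN
        _ = N * N ^ 2 := by ring
    exact Nat.le_of_mul_le_mul_left h2 hN0
  have h3 : (N + 1) ^ 2 ≤ w ^ 2 := Nat.pow_le_pow_left hw 2
  have h4 : (N + 1) ^ 2 = N ^ 2 + 2 * N + 1 := by ring
  omega

theorem G_prop {A K Λ x N v : ℕ} (hΛ : 7 ≤ Λ) (hK : A + 1 ≤ K) (hx : Λ ^ K ≤ x)
    (hxe : (x : ℝ) ≤ Real.exp Λ) (hN : x ^ 2 ≤ N ^ 3) (hN2 : 2 * N ≤ x) (hv : v ∈ Gf A Λ x N) :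
    x ≤ v ^ 2 ∧ (v : ℝ) ≤ Real.exp ((Λ : ℝ) ^ 2) ∧ (v ≤ x ∨ x + Λ ^ A < v) := by
  have h7 : 7 * Λ ^ A ≤ x := by
    calc 7 * Λ ^ A ≤ Λ * Λ ^ A := Nat.mul_le_mul_right _ hΛ
      _ = Λ ^ (A + 1) := by ring
      _ ≤ Λ ^ K := Nat.pow_le_pow_right (by omega) hK
      _ ≤ x := hx
  have hA0 : 0 < Λ ^ A := Nat.pow_pos (by omega)
  have hx1 : 1 ≤ x := by omega
  have hxx : x ≤ x ^ 2 := by nlinarith
  unfold Gf at hv
  rw [mem_union, mem_union, mem_image, mem_image] at hv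
  rcases hv with (hv | ⟨w, hw, rfl⟩) | ⟨w, hw, rfl⟩
  · rw [mem_Ioc] at hv
    have h0 := sq_big hN hN2 hx1 hv.1
    refine ⟨by omega, exp_bound hΛ hxe ?_, Or.inl (by omega)⟩
    have : v ≤ x := by omega
    omega
  · rw [mem_Ioc] at hw
    have h0 := sq_big hN hN2 hx1 hw.1
    refine ⟨?_, exp_bound hΛ hxe ?_, Or.inr (by omega)⟩
    · calc x ≤ w ^ 2 - 2 := by omega
        _ ≤ (w ^ 2 - 2) ^ 2 := Nat.le_self_pow (by norm_num) _
    · have h1 : w ≤ x := by omega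
      have h2 : w ^ 2 ≤ x ^ 2 := Nat.pow_le_pow_left h1 2
      omega
  · rw [mem_Ioc] at hw
    have h1 : (x + 1) ^ 2 ≤ w ^ 2 := Nat.pow_le_pow_left hw.1 2
    have h2 : (x + 1) ^ 2 = x ^ 2 + 2 * x + 1 := by ring
    have h3 : w ^ 2 ≤ (2 * x) ^ 2 := Nat.pow_le_pow_left (by omega) 2
    have h4 : (2 * x) ^ 2 = 4 * x ^ 2 := by ring
    refine ⟨?_, exp_bound hΛ hxe (by omega), Or.inr (by omega)⟩
    calc x ≤ w ^ 2 - 2 := by omega
      _ ≤ (w ^ 2 - 2) ^ 2 := Nat.le_self_pow (by norm_num) _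

theorem card_Y {K Λ x : ℕ} (hΛ : 7 ≤ Λ) (hxe : (x : ℝ) ≤ Real.exp Λ) :
    ((Yf K Λ x).card : ℝ) ≤ Real.exp ((2 : ℕ) * Λ) := by
  have h1 : (Yf K Λ x).card ≤ x + 1 := by
    unfold Yf
    split_ifs
    · refine le_trans (card_filter_le _ _) ?_
      rw [card_range]
    · simp
  have h2 : ((Yf K Λ x).card : ℝ) ≤ x + 1 := by exact_mod_cast h1
  have h3 : (1 : ℝ) ≤ Real.exp Λ := Real.one_le_exp (Nat.cast_nonneg _)
  have h4 : (2 : ℝ) ≤ Real.exp Λ := by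
    have h5 := Real.add_one_le_exp (Λ : ℝ)
    have h6 : (7 : ℝ) ≤ Λ := by exact_mod_cast hΛ
    linarith
  have h5 : Real.exp ((2 : ℕ) * Λ) = Real.exp Λ * Real.exp Λ := by
    rw [← Real.exp_add]; congr 1; push_cast; ring
  rw [h5]
  nlinarith

end SuperSq

open SuperSq in
theorem t_superSq (hm : S_master) (hs : S_sys) (he : S_elem) : S_superSq := by
  classical
  intro c hc
  obtain ⟨C0, hC0, hs⟩ := hs c hc
  obtain ⟨A1, hm⟩ := hm c hc 2 C0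
  obtain ⟨A, hAd⟩ : ∃ A, A = A1 + C0 + 5 := ⟨_, rfl⟩
  obtain ⟨κ0, hm⟩ := hm A (by omega)
  obtain ⟨K, hKd⟩ : ∃ K, K = κ0 + A + 1 := ⟨_, rfl⟩
  refine ⟨A, K, ?_⟩
  intro z hz Ω _ P a ha
  have M := hm z hz 1 (Or.inl rfl) ℕ (Yf K) (Gf A)
    (fun _ _ N _ V J v => v ^ 2 - 2 ∈ V ∧ N + J + 1 ∈ V ∧ (N + J + 1) ^ 2 - 2 ∈ V) (by
      filter_upwards [eventually_ge_atTop 7] with Λ hΛ x _ hxe
      refine ⟨card_Y hΛ hxe, ?_⟩
      intro N hN
      unfold Yf at hN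
      split_ifs at hN with hx
      · rw [mem_filter] at hN
        refine ⟨card_G hΛ (by omega), ?_, fun _ _ _ _ _ _ => Iff.rfl⟩
        intro v hv
        exact G_prop hΛ (by omega) hx hxe hN.2.1 hN.2.2 hv
      · exact absurd hN (notMem_empty N)) Ω P a ha
  have S := hs z hz Ω P a ha
  have E := (he c hc z hz).2 Ω P a ha
  filter_upwards [M, S, E] with ω hM hS hE
  obtain ⟨x0, hx0⟩ := eventually_atTop.1 hE.1
  filter_upwards [hM, hS, eventually_ge_atTop 7, eventually_ge_atTop x0] with Λ hMΛ hSΛ hΛ hΛ0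
  intro x hx hxe
  have hΛx : Λ ≤ x := by
    calc Λ = Λ ^ 1 := (pow_one _).symm
      _ ≤ Λ ^ K := Nat.pow_le_pow_right (by omega) (by omega)
      _ ≤ x := hx
  have h7 : 7 * Λ ^ A ≤ x := by
    calc 7 * Λ ^ A ≤ Λ * Λ ^ A := Nat.mul_le_mul_right _ hΛ
      _ = Λ ^ (A + 1) := by ring
      _ ≤ Λ ^ K := Nat.pow_le_pow_right (by omega) (by omega)
      _ ≤ x := hx
  have hCA : Λ ^ C0 ≤ Λ ^ A := Nat.pow_le_pow_right (by omega) (by omega)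
  obtain ⟨hN2, hN⟩ := hx0 x (le_trans hΛ0 hΛx)
  obtain ⟨R, hR⟩ : ∃ R, R = R0 z c (fun q => a q ω) := ⟨_, rfl⟩
  rw [← hR] at hMΛ hSΛ hN2 hN ⊢
  obtain ⟨N, hNd⟩ : ∃ N, N = cn R x := ⟨_, rfl⟩
  rw [← hNd] at hN2 hN
  have hNY : N ∈ Yf K Λ x := by
    unfold Yf
    rw [if_pos hx, mem_filter, mem_range]
    exact ⟨by omega, hN, hN2⟩
  have hxx : x ≤ x ^ 2 := Nat.le_self_pow (by norm_num) _
  have hbig : ∀ t : ℕ, t ≤ 2 * x → (t : ℝ) ≤ Real.exp ((Λ : ℝ) ^ 2) := by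
    intro t ht
    exact exp_bound hΛ hxe (by omega)
  have hK0 : Λ ^ κ0 ≤ x := le_trans (Nat.pow_le_pow_right (by omega) (by omega)) hx
  have key := hMΛ x hK0 hxe N hNY (by
    intro u j0 hu hug hj0
    obtain ⟨v, hv, huv, hvu, hvs⟩ := (hSΛ u (hbig u (by omega))).2.1
    obtain ⟨w, hw, huw, hwu, hws⟩ := (hSΛ (N + j0) (hbig _ (by omega))).2.1
    refine ⟨v, hv, huv, hvu, fun h => absurd h (by norm_num), w - N - 1, by omega, by omega, ?_⟩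
    have hwe : N + (w - N - 1) + 1 = w := by omega
    beta_reduce
    rw [hwe]
    have hwW : w ∈ Ioc N (N + 3 * Λ ^ A) := by
      rw [mem_Ioc]; omega
    refine ⟨?_, ?_, ?_⟩
    · rw [mem_filter]
      refine ⟨?_, hvs⟩
      unfold Gf
      rw [mem_union]
      right
      exact mem_image_of_mem (fun v => v ^ 2 - 2) (by rw [mem_Ioc]; omega)
    · rw [mem_filter]
      refine ⟨?_, hw⟩
      unfold Gf
      rw [mem_union, mem_union]
      left; left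
      exact hwW
    · rw [mem_filter]
      refine ⟨?_, hws⟩
      unfold Gf
      rw [mem_union, mem_union]
      left; right
      exact mem_image_of_mem (fun v => v ^ 2 - 2) hwW)
  obtain ⟨v, hv, hxv, hvx, -, h1, h2, h3⟩ := key
  rw [mem_filter] at h1 h2 h3
  have hcn := cn_succ R hxv hv
  rw [← hNd] at hcn
  refine ⟨v, hv, hxv, hvx, h1.2, ?_, ?_⟩
  · rw [hcn]; exact h2.2
  · rw [hcn]; exact h3.2

end Pool.Agent.H559.IX
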