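import Pool.Agent.H559.IX.Main
import Pool.Agent.H559.IX.Ea
import Pool.Agent.H559.IX.Super
import Pool.Agent.H559.IX.SuperSq
import Pool.Agent.H559.IX.F04e
import Pool.Agent.H559.IX.F04f
import Pool.Agent.H559.IX.F3aa
import Pool.Agent.H559.IX.F0ec
import Pool.Agent.H559.IX.Iter
import Pool.Agent.H559.IX.F778

set_option autoImplicit false

/-! # The applications of the window theorem -/

namespace Pool.Agent.H559.IX

theorem page_ea : S_ea := t_ea master t_sys elem

theorem page_04e : S_04e := t_04e master t_sys elem (t_super master t_sys elem)

theorem page_04f : S_04f := t_04f master t_sys elem (t_superSq master t_sys elem)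

theorem page_3aa : S_3aa := t_3aa master t_sys elem

theorem page_0ec : S_0ec := t_0ec master t_sys elem

theorem page_778 : S_778 := t_778 master t_sys elem (t_iter master t_sys elem)

end Pool.Agent.H559.IX
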