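import Mathlib

set_option autoImplicit false

/-! # Exchangeable windows of the random sieve: combinatorial statements (Mathlib only) -/

open Finset

namespace Pool.Agent.H559.IX

/-- the rank of `v` in `S` -/
def rk (S : Finset ℕ) (v : ℕ) : ℕ := (S.filter (fun u => u < v)).card

/-- HYPERGEOMETRIC LOCAL BOUND (Mathlib only; tested numerically, huge slack). PROOF. Put `A = t`, `B = n - t - e`,
`s = r - e`, `f(k) = C(A,k) C(B,s-k)`; `∑_{k ≤ s} f(k) = C(n-e,s)` (Vandermonde `Nat.add_choose_eq`), so some `k₀ ≤ s` has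
`f(k₀) = max f ≥ C(n-e,s)/(s+1)`. Ratio: `f(k+1)/f(k) = (A-k)(s-k)/((k+1)(B-s+k+1))`. With `t r / n - G ≤ k ≤ t r/n + G`,
`1/3 ≤ t/n ≤ 2/3`, `r ≤ n/2`, `r ≥ 100 (G+1)²` the four numbers `A - k, s - k, k, B - s + k` are `≥ r/8` (for all `k` with
`|k - t r/n| ≤ G + 3`) and `(A-k)(s-k) - (k+1)(B-s+k+1)` is (up to `O(n)`) `A s - k (A + B)`, so the ratio is
`1 + O((G+4)/r)`; hence `|k₀ - t r/n| ≤` a few and `f(k) ≥ f(k₀)/2` in the whole range (at most `G + 3` steps each of ratio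
`≥ 1 - 40 (G+4)/r`, say; Bernoulli). Another way, without the mode: compare `f(k)` with `f(k')` for every `k'`: by
unimodality it is enough to bound the ratios between `k` and `t r / n`, and `f(k') ≤ 2 f(k)` for all `k'`. Finally
`C(n,r) = C(n-e,r-e) n(n-1).../(r(r-1)...) ≤ 2 (n/r)^e C(n-e,r-e)` and `(n/r)^e (r+1) · 4 ≤ 16 n²`. -/
def S_hyp : Prop := ∀ e n t r k G : ℕ, (e = 1 ∨ e = 2) → 100 * (G + 1) ^ 2 ≤ r → 2 * r ≤ n → n ≤ 3 * t → 3 * t ≤ 2 * n →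
  k * n ≤ t * r + G * n → t * r ≤ k * n + G * n →
  n.choose r ≤ 16 * n ^ 2 * (t.choose k * (n - t - e).choose (r - e - k))

open Classical in
/-- BLOCKS (Mathlib only, from `S_hyp`). `range (K n + M)` consists of `K` blocks of length `n` and a rest. The sets `X` with `r`
elements, at most `n/2` of them in each block, without any `t` in the blocks such that `t ∈ X` (and `t + 1 ∈ X` if `e = 2`)
and `Gr (number of elements of X below t) t`, are few.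
PROOF. Let `σ = 100 (G+1)²`, `q = 1/(16 n²)`. (1) Fix `i < K`, a set `X' ⊆ range (i n)`, `J = |X'| ≤ i n`, and `ρ` with
`σ ≤ ρ`, `2 ρ ≤ n`. Take `t, k` from the hypothesis. The sets `Z` with `ρ` elements in the block `[i n, (i+1) n)` which have
exactly `k` elements below `i n + t`, contain `i n + t` (and `i n + t + 1` if `e = 2`; note `3 t ≤ 2 n` and `n ≥ 200`) number
`C(t,k) C(n-t-e, ρ-e-k) ≥ q C(n,ρ)` by `S_hyp`, and for them `Gr (J + k) (i n + t)` with the pattern: they are excluded. So at most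
`(1-q) C(n,ρ)` sets `Z` are allowed. (2) Let `Φ_K(r)` be the number of admissible `X ⊆ range (K n)` (rest `M = 0`). Splitting off the
last block (the conditions for `X` imply those for `X' = X ∩ range ((K-1) n)`, as the number of elements below `t` is the
same and `X' ⊆ X`): `Φ_K(r) ≤ ∑_ρ Φ_{K-1}(r-ρ) w(ρ) C(n,ρ)` over `ρ ≤ n/2`, `w(ρ) = 1 - q ≤ e^{-q}` if `ρ ≥ σ` and `1` otherwise.
Induction: `Φ_K(r) ≤ exp(-(2q/n)(r - K σ)) C(K n, r)`: for `ρ ≥ σ`: `q + (2q/n)(r - ρ - (K-1)σ) ≥ (2q/n)(r - Kσ)` as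
`ρ ≤ n/2`; for `ρ < σ` too; then Vandermonde. (3) The rest: `∑_{ρ ≤ M} Φ_K(r-ρ) C(M,ρ) ≤ exp(-(2q/n)(r-M-Kσ)) C(K n + M, r)`.
`2q/n = 1/(8 n³)`. -/
def S_blocks : Prop := ∀ (e n K M G : ℕ) (Gr : ℕ → ℕ → Prop), (e = 1 ∨ e = 2) → 0 < n →
  (∀ i < K, ∀ J ≤ i * n, ∀ r, 100 * (G + 1) ^ 2 ≤ r → 2 * r ≤ n → ∃ t k, n ≤ 3 * t ∧ 3 * t ≤ 2 * n ∧
      k * n ≤ t * r + G * n ∧ t * r ≤ k * n + G * n ∧ Gr (J + k) (i * n + t)) →
  ∀ r : ℕ, ((((range (K * n + M)).powersetCard r).filter (fun X =>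
      (∀ i < K, 2 * (X.filter (fun u => i * n ≤ u ∧ u < (i + 1) * n)).card ≤ n) ∧
      ∀ t ∈ range (K * n), (∀ j < e, t + j ∈ X) → ¬ Gr (X.filter (fun u => u < t)).card t)).card : ℝ) ≤
    Real.exp (-(((r : ℝ) - M - K * (100 * (G + 1) ^ 2)) / (8 * n ^ 3))) * ((K * n + M).choose r : ℝ)

open Classical in
/-- BLOCKS, TRANSFERRED to a finite set `S` of integers (Mathlib only; from `S_blocks`). PROOF. Let `s : ℕ → ℕ` enumerate `S`
increasingly (`S.orderEmbOfFin`, or `Nat.nth (· ∈ S)`), `N = |S|`, `K = N / n`, `M = N % n < n`. Apply `S_blocks` with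
`Gr' J t := Gr J (s t) ∧ (e = 2 → s t + 2 ∈ S)`, and `T = s(X)`, `X ⊆ range N`: `rk S (s t) = t`, `|{u ∈ T : u < s t}| = |{u ∈ X :
u < t}|`; if `e = 2`, `s t + 2 ∈ S` and `s t + 1 ∉ S` then `s (t+1) = s t + 2`. The bijection `X ↦ s(X)` between the subsets of
`range N` and of `S` preserves cardinalities. Finally `M ≤ n`. -/
def S_blocksS : Prop := ∀ (S : Finset ℕ) (e n G : ℕ) (Gr : ℕ → ℕ → Prop), (e = 1 ∨ e = 2) → 0 < n →
  (e = 2 → ∀ v ∈ S, v + 1 ∉ S) →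
  (∀ i < S.card / n, ∀ J ≤ i * n, ∀ r, 100 * (G + 1) ^ 2 ≤ r → 2 * r ≤ n → ∃ v ∈ S, (e = 2 → v + 2 ∈ S) ∧
      ∃ t k, rk S v = i * n + t ∧ n ≤ 3 * t ∧ 3 * t ≤ 2 * n ∧ k * n ≤ t * r + G * n ∧ t * r ≤ k * n + G * n ∧ Gr (J + k) v) →
  ∀ r : ℕ, (((S.powersetCard r).filter (fun T =>
      (∀ i < S.card / n, 2 * (T.filter (fun u => i * n ≤ rk S u ∧ rk S u < (i + 1) * n)).card ≤ n) ∧
      ∀ v ∈ T, (e = 2 → v + 2 ∈ T) → ¬ Gr (T.filter (fun u => u < v)).card v)).card : ℝ) ≤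
    Real.exp (-(((r : ℝ) - n - (S.card / n : ℕ) * (100 * (G + 1) ^ 2)) / (8 * n ^ 3))) * (S.card.choose r : ℝ)

end Pool.Agent.H559.IX
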