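import Pool.Graph.R_pool_sql_team_seeded_707910d6.T2H32.BF.Mom
import Pool.Graph.R_pool_sql_team_seeded_707910d6.T2H32.BF.Num

set_option autoImplicit false

/-! # Index windows of the random sieve: the main statements -/

open Finset MeasureTheory ProbabilityTheory Filter Topology
open Pool.Agent.T2H32.BF (Model V V_pos V_anti V_ratio mertens)

namespace Pool.Agent.H559.IX

/-- the random primes of the hybrid model for the classes `b` -/
def R0 (z : ℕ → ℕ) (c : ℝ) (b : ℕ → ℕ) : Set ℕ :=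
  {v | 3 ≤ v ∧ ∀ q ≤ z v, q.Prime → v % q ≠ if (q : ℝ) ≤ Real.log v ^ c then 0 else b q}

/-- the admissible sieving limits -/
def Lim (z : ℕ → ℕ) : Prop := Monotone z ∧ Tendsto (fun k : ℕ => V (z k) * Real.log k) atTop (𝓝 1)

open Classical in
/-- the number of the elements of `A` which are at most `v` (the index of `v`, if `v ∈ A`) -/
noncomputable def cn (A : Set ℕ) (v : ℕ) : ℕ := ((Icc 1 v).filter (fun u => u ∈ A)).card

/-- hypothesis of the window theorem: in every interval of length `g` inside `(x, x + L]` and for every interval of indices of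
length `g` there is a compatible pair (an element `v` of `R`, with `v + 2 ∈ R` if `e = 2`; an index `j`) -/
def Hex (e g L : ℕ) (R : Set ℕ) (x : ℕ) (Gr : ℕ → ℕ → Prop) : Prop :=
  ∀ u j0, x ≤ u → u + g ≤ x + L → j0 ≤ L →
    ∃ v ∈ R, u < v ∧ v ≤ u + g ∧ (e = 2 → v + 2 ∈ R) ∧ ∃ j, j0 ≤ j ∧ j ≤ j0 + g ∧ Gr j v

open Classical in
/-- conclusion of the window theorem: an element `v ∈ R` of `(x, x + L]` (with `v + 2 ∈ R` if `e = 2`) which is related to its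
true index in the window (the number of the elements of `R` between `x` and `v`) -/
def Suc (e L : ℕ) (R : Set ℕ) (x : ℕ) (Gr : ℕ → ℕ → Prop) : Prop :=
  ∃ v ∈ R, x < v ∧ v ≤ x + L ∧ (e = 2 → v + 2 ∈ R) ∧ Gr ((Ioo x v).filter (fun u => u ∈ R)).card v

open Classical in
/-- THE WINDOW THEOREM (proof: helper559, from the `IX` lemmas). The relation `Gr Λ x y b V J v` may depend on the classes `b p`
of the primes `p ≤ Λ^(10A)` and on the random primes `V` in the auxiliary set `G Λ x y`. -/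
def S_master : Prop := ∀ c : ℝ, 1 < c → ∀ D A0 : ℕ, ∃ A1 : ℕ, ∀ A ≥ A1, ∃ κ : ℕ, ∀ z : ℕ → ℕ, Lim z → ∀ e : ℕ, (e = 1 ∨ e = 2) →
  ∀ (ι : Type) (Y : ℕ → ℕ → Finset ι) (G : ℕ → ℕ → ι → Finset ℕ)
    (Gr : ℕ → ℕ → ι → (ℕ → ℕ) → Finset ℕ → ℕ → ℕ → Prop),
  (∀ᶠ Λ : ℕ in atTop, ∀ x : ℕ, Λ ^ κ ≤ x → (x : ℝ) ≤ Real.exp Λ → ((Y Λ x).card : ℝ) ≤ Real.exp (D * Λ) ∧
    ∀ y ∈ Y Λ x, (G Λ x y).card ≤ Λ ^ (3 * A) ∧
      (∀ v ∈ G Λ x y, x ≤ v ^ D ∧ (v : ℝ) ≤ Real.exp ((Λ : ℝ) ^ 2) ∧ (v ≤ x ∨ x + Λ ^ A < v)) ∧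
      ∀ b b' : ℕ → ℕ, (∀ p ≤ Λ ^ (10 * A), p.Prime → b p = b' p) → ∀ V J v, Gr Λ x y b V J v ↔ Gr Λ x y b' V J v) →
  ∀ (Ω : Type) [MeasurableSpace Ω] (P : Measure Ω) (a : ℕ → Ω → ℕ), Model P a →
    ∀ᵐ ω ∂P, ∀ᶠ Λ : ℕ in atTop, ∀ x : ℕ, Λ ^ κ ≤ x → (x : ℝ) ≤ Real.exp Λ → ∀ y ∈ Y Λ x,
      Hex e (Λ ^ A0) (Λ ^ A) (R0 z c (fun q => a q ω)) x (Gr Λ x y (fun q => a q ω)
        ((G Λ x y).filter (fun u => u ∈ R0 z c (fun q => a q ω)))) →
      Suc e (Λ ^ A) (R0 z c (fun q => a q ω)) x (Gr Λ x y (fun q => a q ω)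
        ((G Λ x y).filter (fun u => u ∈ R0 z c (fun q => a q ω))))

/-- SYSTEMS IN SHORT WINDOWS. PROOF. From `Pool.Agent.H559.US.main_ae` (file US/Main.lean): there is `β > 0` such that a.s.
for all large `N`, for all systems `C` of `k` polynomials of degree `≤ D` with coefficients at most `exp(N^β)` in absolute value
without a fixed prime divisor (`FD`) and nonconstant modulo the primes `> log N` (`NC`), at least `N^(1-ε)` of the `m ∈ (0, N]` have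
all the `|C i (m)|` in the set of the random primes. Take `N = Λ^C`, `C β ≥ 3`, `v = u + m`: (1) the system `X + u, X + u + H`
(`p = 2`: `H` is even; `p = 3`: at most two classes are excluded); (2) `X + u, (X + u)² - 2` (for `p = 2`: `r` with `r + u` odd; for
`p = 3`: `s² - 2` is never divisible by `3`; for `p ≥ 5` at most three classes are excluded); (3) `X + u, T - u - X` (`T` even).
(`R0 z c b = RS z (WW c) b`: see `Pool/Agent/Results/MP_540de1_nt/PalindromicRandomPrimes.lean` for the conversion.) -/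
def S_sys : Prop := ∀ c : ℝ, 1 < c → ∃ C : ℕ, 1 ≤ C ∧ ∀ z : ℕ → ℕ, Lim z → ∀ (Ω : Type) [MeasurableSpace Ω] (P : Measure Ω)
  (a : ℕ → Ω → ℕ), Model P a → ∀ᵐ ω ∂P, ∀ᶠ Λ : ℕ in atTop, ∀ u : ℕ, (u : ℝ) ≤ Real.exp ((Λ : ℝ) ^ 2) →
    (∀ H : ℕ, (H : ℝ) ≤ Real.exp ((Λ : ℝ) ^ 2) → Even H →
      ∃ v ∈ R0 z c (fun q => a q ω), u < v ∧ v ≤ u + Λ ^ C ∧ v + H ∈ R0 z c (fun q => a q ω)) ∧
    (∃ v ∈ R0 z c (fun q => a q ω), u < v ∧ v ≤ u + Λ ^ C ∧ v ^ 2 - 2 ∈ R0 z c (fun q => a q ω)) ∧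
    (∀ T : ℕ, (T : ℝ) ≤ Real.exp ((Λ : ℝ) ^ 2) → Even T → u + Λ ^ C ≤ T →
      ∃ v ∈ R0 z c (fun q => a q ω), u < v ∧ v ≤ u + Λ ^ C ∧ T - v ∈ R0 z c (fun q => a q ω))

/-- ELEMENTARY FACTS (deterministic consequences of `S_sys`, to be used by all the page theorems): almost surely, `R` is infinite,
`cn R x ≤ x/2` and `x² ≤ (cn R x)³` for all large `x`, every `n ≥ 1` is the index of some `v ∈ R`, `v ≤ n²` for large `n`; and `z k < k`
eventually (deterministic). PROOF. The elements of `R` larger than some `v₀` are odd (`2 ≤ log v ^ c`, `2 ≤ z v`, class `0` modulo `2`; also not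
divisible by `3`, so the density is at most `1/3 + ` small; with `cn R x ≤ x/3 + O(1) ≤ x/2`). By `S_sys` with `Λ = ⌊log x⌋ + 1`, `H = 0` every interval
of length `Λ^C` below `x` contains an element (for `u` from `0` to `x`), so `cn R x ≥ x / Λ^C - 1`, which is `≥ x^(2/3)`. `v ∈ R`, `cn R v = n`
gives `n ≥ v^(2/3)`, so `v ≤ n^(3/2) ≤ n²`. `V (z k) log k → 1` and `V k log k → e^{-γ} < 1` (`mertens`), `V` antitone: `z k < k` eventually. -/
def S_elem : Prop := ∀ c : ℝ, 1 < c → ∀ z : ℕ → ℕ, Lim z → (∀ᶠ k : ℕ in atTop, z k < k) ∧ ∀ (Ω : Type) [MeasurableSpace Ω]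
  (P : Measure Ω) (a : ℕ → Ω → ℕ), Model P a → ∀ᵐ ω ∂P,
    (∀ᶠ x : ℕ in atTop, 2 * cn (R0 z c (fun q => a q ω)) x ≤ x ∧ x ^ 2 ≤ cn (R0 z c (fun q => a q ω)) x ^ 3) ∧
    (∀ n : ℕ, 1 ≤ n → ∃ v ∈ R0 z c (fun q => a q ω), cn (R0 z c (fun q => a q ω)) v = n) ∧
    (∀ᶠ v : ℕ in atTop, v ∈ R0 z c (fun q => a q ω) → v % 6 = 1 ∨ v % 6 = 5)

end Pool.Agent.H559.IX
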