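import Pool.Agent.H559.IX.StmA
import Pool.Agent.H559.IX.StmB
import Pool.Agent.H559.IX.StmC
import Pool.Agent.H559.IX.StmM

set_option autoImplicit false

/-! # Index windows of the random sieve: the steps of the window theorem -/

open Finset MeasureTheory ProbabilityTheory Filter Topology
open Pool.Agent.T2H32.BF (Model V V_pos V_anti V_ratio mertens)

namespace Pool.Agent.H559.IX

/-- UNIFORM FORM OF `S_theta`. PROOF from `S_theta` (take its `δ` and `κ` with `1/κ ≤ δ`, `κ ≥ 1`): suppose that for arbitrarily large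
`Λ` there are bad `x` (with `Λ^κ ≤ x ≤ exp Λ` and some `S` violating the bound). Define `Λ' x` as some `Λ` for which `x` is bad, if there
is one, and `⌈log x⌉₊` otherwise. Then `log x ≤ Λ' x` and `log (Λ' x) ≤ δ log x` eventually, so by `S_theta` no large `x` is
bad, and `x ≥ Λ^κ ≥ Λ → ∞`. -/
def S_thetaU : Prop := ∀ (D A : ℕ), 1 ≤ D → 2 ≤ A → ∃ κ : ℕ, ∀ z : ℕ → ℕ, Lim z → ∀ᶠ Λ : ℕ in atTop,
  ∀ x : ℕ, Λ ^ κ ≤ x → (x : ℝ) ≤ Real.exp Λ → ∀ S : Finset ℕ, S.card ≤ Λ ^ (4 * A) →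
    (∀ v ∈ S, (v : ℝ) ≤ Real.exp ((Λ : ℝ) ^ 2)) →
    ∏ p ∈ Qs (Λ ^ (10 * A)) (z ⌊(x : ℝ) ^ (1 / (D : ℝ))⌋₊) S, (1 - 1 / (p : ℝ)) ≤ 1 / 64

/-- the hypothesis of `S_blocksS` for the set `S` -/
def HexB (e n G : ℕ) (S : Finset ℕ) (Gr : ℕ → ℕ → Prop) : Prop :=
  ∀ i < S.card / n, ∀ J ≤ i * n, ∀ r, 100 * (G + 1) ^ 2 ≤ r → 2 * r ≤ n → ∃ v ∈ S, (e = 2 → v + 2 ∈ S) ∧
    ∃ t k, rk S v = i * n + t ∧ n ≤ 3 * t ∧ 3 * t ≤ 2 * n ∧ k * n ≤ t * r + G * n ∧ t * r ≤ k * n + G * n ∧ Gr (J + k) v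

/-- FROM REAL INTERVALS TO RANKS (deterministic; Mathlib only). PROOF. Let `i, J, r` be given. Let `t₀ = n / 2`, `u` the element of `S` of rank
`i n + t₀` (ranks from `0`; it exists as `i n + t₀ < |S|`). The element of rank `i n + n - 1` exists, is `≤ x + L` and `≥ u + (n - 1 - t₀) ≥
u + g + 2`. Let `j₀ = J + t₀ r / n` (floor) `≤ J + n ≤ |S| ≤ L`. By `Hex` there are `v ∈ R`, `u < v ≤ u + g` (`v + 2 ∈ R` if `e = 2`) and
`j₀ ≤ j ≤ j₀ + g` with `Gr j v`. `v, v + 2 ≤ x + L` are in `S`. The rank of `v` is `i n + t`, `t₀ < t ≤ t₀ + g` (at most `g - 1` elements of `S`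
between `u` and `v`). Take `k = j - J`: `t₀ r / n ≤ k ≤ t₀ r / n + g`, so `k n ≤ t₀ r + g n ≤ t r + g n` and `t r ≤ t₀ r + g r <
(k + 1) n + g n`. -/
def S_hexB : Prop := ∀ (e g L n x : ℕ) (S : Finset ℕ) (R : Set ℕ) (Gr : ℕ → ℕ → Prop), (e = 1 ∨ e = 2) → 1 ≤ g → 6 * g + 12 ≤ n →
  S ⊆ Ioc x (x + L) → (∀ v ∈ Ioc x (x + L), v ∈ R → v ∈ S) → Hex e g L R x Gr → HexB e n (g + 1) S Gr

/-- the numbers which are not sieved out by the primes outside `Q` -/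
def pre (z : ℕ → ℕ) (c : ℝ) (Q : Finset ℕ) (b : ℕ → ℕ) (v : ℕ) : Prop :=
  3 ≤ v ∧ ∀ q ≤ z v, q.Prime → q ∉ Q → v % q ≠ if (q : ℝ) ≤ Real.log v ^ c then 0 else b q

open Classical in
/-- ONE WINDOW. PROOF. Let `U = Ioc x (x + L)`, `Q = Qs w zl (U ∪ Gx)`, `Q' = ((range (M + 1)).filter Nat.Prime) \ Q` where `M ≥ w` and
`M ≥ z v` for all `v ∈ U ∪ Gx`. For `v ∈ U ∪ Gx` and `p ∈ Q`: `log v ^ c ≤ w < p ≤ zl ≤ z v`, so `v ∈ R0 z c b ↔ pre z c Q b v ∧ ∀ p ∈ Q,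
v % p ≠ b p`. So with `S b = U.filter (pre z c Q b)`, `G b = Gx.filter (pre z c Q b)`: `U.filter (· ∈ R0 z c b) = thin Q b (S b)`, `Gx.filter (· ∈ R0) =
thin Q b (G b)`. `S b, G b` depend only on the classes of `Q'` (primes in `Q` are excluded in `pre`), `Gr b` too (primes `≤ w` are not in
`Q ⊆ Ioc w zl`). (1) `S_up` with `K = L / n + 1` and the blocks `B b i = (S b).filter (rank in [i n, (i+1) n))` gives the term
`(L / n + 1) (1/2)^n` for the event that some block has more than `n/2` elements of `R`. (2) `S_pw` with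
`Bad b V T := r0 ≤ |T| ∧ HexB e n G2 (S b) (Gr b V) ∧ (∀ i < |S b| / n, 2 |T ∩ block i| ≤ n) ∧ ∀ v ∈ T, (e = 2 → v + 2 ∈ T) → ¬ Gr b V
(|T ∩ (·, v)|) v`: its hypothesis is `S_blocksS` (`|S b| / n ≤ L / n` as `S b ⊆ U`; for `r < r0` there is no bad `T`; for `e = 2` the elements of `S b` are
odd: `2 ≤ log v ^ c`, `2 ≤ z v`, `2 ∉ Q` give `v % 2 ≠ 0`), `ε =` the exponential. (3) If `¬ Suc e L R x (Gr b V)` then with `T = U.filter (· ∈ R)`: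
for `v ∈ T` (with `v + 2 ∈ T` if `e = 2`), `¬ Gr (|Ioo x v ∩ R|) v` and `|Ioo x v ∩ R| = |{u ∈ T : u < v}|`. -/
def S_one : Prop := ∀ (z : ℕ → ℕ) (c : ℝ) (e x L w zl n G2 r0 : ℕ) (Gx : Finset ℕ)
    (Gr : (ℕ → ℕ) → Finset ℕ → ℕ → ℕ → Prop), Monotone z → (e = 1 ∨ e = 2) → 0 < n → 2 ≤ w →
  (∀ v ∈ Ioc x (x + L) ∪ Gx, Real.log v ^ c ≤ w ∧ zl ≤ z v) → (∀ v ∈ Ioc x (x + L), (2 : ℝ) ≤ Real.log v ^ c ∧ 2 ≤ z v) →
  Disjoint (Ioc x (x + L)) Gx →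
  (∀ b b' : ℕ → ℕ, (∀ p ≤ w, p.Prime → b p = b' p) → ∀ V J v, Gr b V J v ↔ Gr b' V J v) →
  ∏ p ∈ Qs w zl (Ioc x (x + L) ∪ Gx), (1 - 1 / (p : ℝ)) ≤ 1 / 64 →
  ∀ (Ω : Type) [MeasurableSpace Ω] (P : Measure Ω) (a : ℕ → Ω → ℕ), Model P a →
    P.real {ω | r0 ≤ ((Ioc x (x + L)).filter (fun u => u ∈ R0 z c (fun q => a q ω))).card ∧
        HexB e n G2 ((Ioc x (x + L)).filter (pre z c (Qs w zl (Ioc x (x + L) ∪ Gx)) (fun q => a q ω)))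
          (Gr (fun q => a q ω) (Gx.filter (fun u => u ∈ R0 z c (fun q => a q ω)))) ∧
        ¬ Suc e L (R0 z c (fun q => a q ω)) x (Gr (fun q => a q ω) (Gx.filter (fun u => u ∈ R0 z c (fun q => a q ω))))} ≤
      Real.exp (-(((r0 : ℝ) - n - (L / n : ℕ) * (100 * (G2 + 1) ^ 2)) / (8 * n ^ 3))) + ((L / n : ℕ) + 1) * (1 / 2) ^ n

/-- ASSEMBLY of the window theorem. PROOF. Let `C ≥ 1` be from `S_sys` (for `c`), `A2 = 2 A0 + C + 4`, `A1 = 3 A2 + C + ⌈c⌉₊ + 10`. For `A ≥ A1` let `κ` be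
from `S_thetaU` (with `D' = max D 1`, `A`; enlarge it to `κ ≥ 1`, `κ ≥ 2 A`, ...). For `Λ` large and `Λ^κ ≤ x ≤ exp Λ`, `y ∈ Y Λ x` use `S_one` with
`L = Λ^A`, `w = Λ^(10A)`, `zl = z ⌊x^(1/D')⌋₊`, `n = Λ^A2`, `G2 = Λ^A0 + 1`, `r0 = Λ^(A-C-1)`, `Gx = G Λ x y`: `log v ^ c ≤ (Λ²)^c ≤ w` for `v ≤ exp(Λ²)` (also for
`v ≤ x + L ≤ exp(Λ²)`), `⌊x^(1/D)⌋ ≤ v` for `v ∈ G` (as `x ≤ v^D`) and for `v > x`, `z` monotone; `|U ∪ G| ≤ Λ^A + Λ^(3A) ≤ Λ^(4A)`; `Disjoint` by `v ≤ x ∨ x + Λ^A < v`;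
`2 ≤ log v ^ c`, `2 ≤ z v` for `v > x ≥ Λ^κ` large (`z → ∞` by `Lim z`). The bound: `n + (L/n) 100 (G2+1)² ≤ r0/2` and `r0/(16 n³) ≥ Λ³` for large `Λ`, so the
probability is at most `exp(-Λ³) + (Λ^A + 1) (1/2)^(Λ^A2)`; times the number `≤ exp(Λ) exp(D Λ)` of the `(x, y)`: `≤ exp(-Λ)` for large `Λ`, summable; by
Borel-Cantelli a.s. for all large `Λ` no such event occurs. On the other hand a.s. for all large `Λ`, by `S_sys` (`H = 0`) every interval of length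
`Λ^C` in `(x, x + Λ^A]` contains an element of `R`, so `|U ∩ R| ≥ Λ^(A-C) - 1 ≥ r0`; and `Hex` implies `HexB` by `S_hexB` (`U ∩ R ⊆ U.filter pre`). So `Hex` implies
`Suc`. (Measurability is not needed for Borel-Cantelli in the form `measure_limsup_atTop_eq_zero` / `ae_eventually_notMem` (outer
measure); the event for `Λ` is a finite union over `x` and `y`.) -/
def S_assembly : Prop := S_thetaU → S_hexB → S_one → S_sys → S_master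

end Pool.Agent.H559.IX
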