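import Pool.Agent.H559.IX.StmM

set_option autoImplicit false

/-! # Index windows of the random sieve: the applications -/

open Finset MeasureTheory ProbabilityTheory Filter Topology
open Pool.Agent.T2H32.BF (Model V V_pos V_anti V_ratio mertens)

namespace Pool.Agent.H559.IX

/-! General conventions in the proofs: `R = R0 z c b`, `b p = a p ω`; `L = Λ^A`; `C0` is from `S_sys`; `S_sys` (1), (2), (3) are its three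
parts. For `u ≤ Λ^(10A)`, `u ∈ R0 z c b` depends only on the classes `b p` with `p ≤ z u ≤ z (Λ^(10A)) < Λ^(10A)` (`S_elem`, first part, and `z`
monotone). For `v ∈ R`, `v > x`: `cn R v = cn R x + J + 1` where `J` is the number of the elements of `R` in `Ioo x v`. 'Enlarge `κ`' means: if `κ'` is the needed value and the `κ` of `S_master` is smaller, take `Y Λ x = ∅`
for `x < Λ^κ'` (so that the hypotheses of `S_master` have to be checked only for `x ≥ Λ^κ'`), and conclude only for `x ≥ Λ^κ'`. -/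

/-- n = k + m WITH `6k-1, 6k+1` and `p_m, p_m + 2` RANDOM PRIMES. PROOF. Use `S_master` with `e = 2`, `D = 1`, `A0 = C0 + 1`, any `A ≥ max A1 5`, `ι = ℕ`,
`Y Λ x = range (Λ^(A+3))` (elements `M`), `G = ∅`, `Gr Λ x M b V J v := ∃ k, 6k+1 ≤ Λ^(10A) ∧ 6k-1 ∈ R0 z c b ∧ 6k+1 ∈ R0 z c b ∧ k + J + 1 = M`.
For a given large `n` put `Λ = 2⌊log n⌋ + 2`, `M = Λ^(A+2)`, and let `x ∈ R` with `cn R x = n - M` (`S_elem`); then `n/2 ≤ x ≤ n²` (`x² ≤ (cn R x)³ ≤ n³`),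
so `Λ^κ ≤ x ≤ exp Λ`. `Hex`: given `u, j0`: by `S_sys` (1) with `H = 2` there is `v ∈ R`, `u < v ≤ u + Λ^C0`, `v + 2 ∈ R`. Let `K1 = M - 1 - j0 - Λ^A0` (`≥ Λ^A`); by
`S_sys` (1) with `u' = 6 K1`, `H = 2` there is `v' ∈ R`, `6 K1 < v' ≤ 6 K1 + Λ^C0`, `v' + 2 ∈ R`; as `v', v' + 2` are `±1` modulo `6` (`S_elem`), `v' = 6k - 1` with
`K1 < k ≤ K1 + Λ^C0`; `j = M - 1 - k ∈ [j0, j0 + Λ^A0]`. `Suc`: `v, v + 2 ∈ R`, `k + J + 1 = M`, so `k + cn R v = k + (n - M) + J + 1 = n`. `k ≤ M ≤ (log n)^(A+3)`. -/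
def S_ea : Prop := ∀ c : ℝ, 1 < c → ∃ C : ℕ, ∀ z : ℕ → ℕ, Lim z → ∀ (Ω : Type) [MeasurableSpace Ω] (P : Measure Ω)
  (a : ℕ → Ω → ℕ), Model P a → ∀ᵐ ω ∂P, ∀ᶠ n : ℕ in atTop, ∃ k v : ℕ, 1 ≤ k ∧ (k : ℝ) ≤ Real.log n ^ C ∧
    6 * k - 1 ∈ R0 z c (fun q => a q ω) ∧ 6 * k + 1 ∈ R0 z c (fun q => a q ω) ∧
    v ∈ R0 z c (fun q => a q ω) ∧ v + 2 ∈ R0 z c (fun q => a q ω) ∧ k + cn (R0 z c (fun q => a q ω)) v = n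

/-- SUPER TWINS IN SHORT WINDOWS. PROOF. `S_master` with `e = 2`, `D = 2`, `A0 = C0`, some `A ≥ max A1 5`, `ι = ℕ`, `Y Λ x = {N ≤ x : x² ≤ N³ ∧ 2N ≤ x}`,
`G Λ x N = Ioc N (N + 3 Λ^A)`, `Gr Λ x N b V J v := N + J + 1 ∈ V` (enlarge `κ` to `≥ 3A`; then for `v ∈ G`: `v > N`, `v² ≥ N² ≥ x`; `N + 3 Λ^A ≤ x/2 + 3 Λ^A ≤ x`).
`Hex`: `v` from `S_sys` (1) with `H = 2`; `j` from `S_sys` (1) with `H = 0` and `N + j0` for `u`: `w ∈ R`, `N + j0 < w ≤ N + j0 + Λ^C0`, `j = w - N - 1`.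
Apply it for `N = cn R x` (in `Y Λ x` by `S_elem`, for `x ≥ Λ^κ` large): `cn R v = N + J + 1 ∈ V ⊆ R`. -/
def S_super : Prop := ∀ c : ℝ, 1 < c → ∃ C κ : ℕ, ∀ z : ℕ → ℕ, Lim z → ∀ (Ω : Type) [MeasurableSpace Ω] (P : Measure Ω)
  (a : ℕ → Ω → ℕ), Model P a → ∀ᵐ ω ∂P, ∀ᶠ Λ : ℕ in atTop, ∀ x : ℕ, Λ ^ κ ≤ x → (x : ℝ) ≤ Real.exp Λ →
    ∃ v ∈ R0 z c (fun q => a q ω), x < v ∧ v ≤ x + Λ ^ C ∧ v + 2 ∈ R0 z c (fun q => a q ω) ∧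
      cn (R0 z c (fun q => a q ω)) v ∈ R0 z c (fun q => a q ω)

/-- n = k + m WITH `p_k + 2` and `p_{p_m} + 2` RANDOM PRIMES. PROOF. (a) Gaps of the indices `m`: let `C1, κ1` be from `S_super`. A.s. for large `Λ` and every
`t` with `Λ^κ1 ≤ t ≤ exp(Λ/3)` there is `v' ∈ R`, `v' ≤ t³ + Λ^C1`, `v' + 2 ∈ R`, `cn R v' ∈ R`, `t < cn R (cn R v') ≤ t + Λ^C1`: take `j ∈ R` with `cn R j = t` and `x' ∈ R`
with `cn R x' = j` (`S_elem`; `x'² ≤ j³`, `j² ≤ t³`, so `j ≤ x' ≤ t³`, and `t ≤ j`), apply `S_super` at `x'`; `j' = cn R v' > j`, so `cn R j' > t`, and `cn R j' - cn R j ≤ j' - j ≤ v' - x' ≤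
Λ^C1`. (b) `S_master` with `e = 2`, `D = 1`, `A0 = max C0 C1 + 1`, `A ≥ max(A1, κ1 + 1, 10)`, `ι = ℕ`, `Y Λ x = range (Λ^(A+3))`, `G = ∅`, `Gr Λ x M b V J v := ∃ v' ≤ Λ^(9A), v' ∈ R_b ∧
v' + 2 ∈ R_b ∧ cn R_b v' ∈ R_b ∧ cn R_b (cn R_b v') + J + 1 = M` with `R_b = R0 z c b` (everything is `≤ Λ^(10A)`). As in `S_ea`: `Λ = 2⌊log n⌋ + 2`, `M = Λ^(A+2)`, `cn R x = n - M`.
`Hex`: `v` from `S_sys` (1), `H = 2`; `j`: take (a) with `t = M - 1 - j0 - Λ^A0` (`≥ Λ^A ≥ Λ^κ1`, and `v' ≤ t³ + Λ^C1 ≤ Λ^(9A)`): `m = cn R (cn R v') ∈ (t, t + Λ^C1]`,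
`j = M - 1 - m ∈ [j0, j0 + Λ^A0]`. `Suc` gives `u` (called `v` there): `cn R u = n - M + J + 1 = n - m`. -/
def S_04e : Prop := ∀ c : ℝ, 1 < c → ∃ C : ℕ, ∀ z : ℕ → ℕ, Lim z → ∀ (Ω : Type) [MeasurableSpace Ω] (P : Measure Ω)
  (a : ℕ → Ω → ℕ), Model P a → ∀ᵐ ω ∂P, ∀ᶠ n : ℕ in atTop, ∃ u v : ℕ,
    u ∈ R0 z c (fun q => a q ω) ∧ u + 2 ∈ R0 z c (fun q => a q ω) ∧
    v ∈ R0 z c (fun q => a q ω) ∧ v + 2 ∈ R0 z c (fun q => a q ω) ∧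
    cn (R0 z c (fun q => a q ω)) v ∈ R0 z c (fun q => a q ω) ∧
    (cn (R0 z c (fun q => a q ω)) (cn (R0 z c (fun q => a q ω)) v) : ℝ) ≤ Real.log n ^ C ∧
    cn (R0 z c (fun q => a q ω)) u + cn (R0 z c (fun q => a q ω)) (cn (R0 z c (fun q => a q ω)) v) = n

/-- THE SAME WITH SQUARES, FIRST LEVEL. PROOF. `S_master` with `e = 1`, `D = 2`, `A0 = C0`, `A ≥ max A1 5`, `ι = ℕ`, `Y Λ x = {N ≤ x : x² ≤ N³ ∧ 2N ≤ x}`,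
`G Λ x N = W ∪ W.image (w ↦ w² - 2) ∪ (Ioc x (x + Λ^A)).image (v ↦ v² - 2)` with `W = Ioc N (N + 3 Λ^A)`, `Gr Λ x N b V J v := v² - 2 ∈ V ∧ N + J + 1 ∈ V ∧ (N + J + 1)² - 2 ∈ V`.
(`κ ≥ 3A`, large: `w² - 2 ≥ N² - 2 > x + Λ^A` because `N² ≥ x^(4/3)`; `v² - 2 > x + Λ^A`; all `≤ exp(Λ²)`.) `Hex`: `v` from `S_sys` (2); `j` from `S_sys` (2) with `N + j0` for `u`. Apply it
for `N = cn R x`. -/
def S_superSq : Prop := ∀ c : ℝ, 1 < c → ∃ C κ : ℕ, ∀ z : ℕ → ℕ, Lim z → ∀ (Ω : Type) [MeasurableSpace Ω] (P : Measure Ω)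
  (a : ℕ → Ω → ℕ), Model P a → ∀ᵐ ω ∂P, ∀ᶠ Λ : ℕ in atTop, ∀ x : ℕ, Λ ^ κ ≤ x → (x : ℝ) ≤ Real.exp Λ →
    ∃ v ∈ R0 z c (fun q => a q ω), x < v ∧ v ≤ x + Λ ^ C ∧ v ^ 2 - 2 ∈ R0 z c (fun q => a q ω) ∧
      cn (R0 z c (fun q => a q ω)) v ∈ R0 z c (fun q => a q ω) ∧
      cn (R0 z c (fun q => a q ω)) v ^ 2 - 2 ∈ R0 z c (fun q => a q ω)

/-- n = k + m WITH `p_k² - 2, p_m² - 2, p_{p_m}² - 2` RANDOM PRIMES (`u = p_k`, `v = p_{p_m}`, `cn R v = p_m`). PROOF as for `S_04e`, with `S_superSq` for `S_super`: (a) as there. (b)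
`S_master` with `e = 1`, `D = 2`, `A0 = max C0 C1 + 1`, `A ≥ max(A1, κ1 + 1, 10)`, `Y Λ x = range (Λ^(A+3))`, `G Λ x M = (Ioc x (x + Λ^A)).image (v ↦ v² - 2)`,
`Gr Λ x M b V J v := v² - 2 ∈ V ∧ ∃ v' ≤ Λ^(4A), v' ∈ R_b ∧ v'² - 2 ∈ R_b ∧ cn R_b v' ∈ R_b ∧ (cn R_b v')² - 2 ∈ R_b ∧ cn R_b (cn R_b v') + J + 1 = M` (`v' ≤ t³ + Λ^C1 ≤ Λ^(4A)` as
`t ≤ Λ^(A+2)` and `A ≥ 10`; `v'² ≤ Λ^(8A)`). `Hex`: `v` from `S_sys` (2). -/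
def S_04f : Prop := ∀ c : ℝ, 1 < c → ∃ C : ℕ, ∀ z : ℕ → ℕ, Lim z → ∀ (Ω : Type) [MeasurableSpace Ω] (P : Measure Ω)
  (a : ℕ → Ω → ℕ), Model P a → ∀ᵐ ω ∂P, ∀ᶠ n : ℕ in atTop, ∃ u v : ℕ,
    u ∈ R0 z c (fun q => a q ω) ∧ u ^ 2 - 2 ∈ R0 z c (fun q => a q ω) ∧
    v ∈ R0 z c (fun q => a q ω) ∧ v ^ 2 - 2 ∈ R0 z c (fun q => a q ω) ∧
    cn (R0 z c (fun q => a q ω)) v ∈ R0 z c (fun q => a q ω) ∧
    cn (R0 z c (fun q => a q ω)) v ^ 2 - 2 ∈ R0 z c (fun q => a q ω) ∧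
    (cn (R0 z c (fun q => a q ω)) (cn (R0 z c (fun q => a q ω)) v) : ℝ) ≤ Real.log n ^ C ∧
    cn (R0 z c (fun q => a q ω)) u + cn (R0 z c (fun q => a q ω)) (cn (R0 z c (fun q => a q ω)) v) = n

/-- RANDOM PRIMES `p_n + 2 P(n)` for integer-valued `P` with positive leading coefficient, in every window of indices of length a power of the
logarithm. PROOF. Fix `P` (there are countably many, `ae_all_iff`; `C` does not depend on `P`). If `P` is constant `= c₀ > 0` use `S_sys` (1) with `H = 2c₀` (and the density of `R` from `S_sys` (1),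
`H = 0`, `S_elem`). Let `deg P ≥ 1`: then `2 P(m) = H m` is an even natural number for large `m`, `H m ≥ √m`, `H m ≤ m^(deg P + 1)`. `S_master` with `e = 1`, `D = 1`, `A0 = C0`, `A ≥ max A1 5`,
`κ ≥ 6A`, `ι = ℕ`, `Y Λ x = {N ≤ x : x² ≤ N³}`, `G Λ x N = {v + H (N + j) : v ∈ Ioc x (x + Λ^A), j ∈ Icc 1 (2 Λ^A)}` (at most `2 Λ^(2A) ≤ Λ^(3A)` elements, all `> x + Λ^A`
as `H (N + j) ≥ √N ≥ Λ^(κ/3) > Λ^A`, and `≤ exp(Λ²)`), `Gr Λ x N b V J v := v + H (N + J + 1) ∈ V`. `Hex`: given `u, j0` take `j = j0` and `v` from `S_sys` (1) with the even number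
`H (N + j0 + 1)`. Given `N'` large (the `N` of the statement) let `x ∈ R`, `cn R x = N'`, `Λ = 2⌊log N'⌋ + 2`, apply it for `N = N' = cn R x`: `cn R v = N' + J + 1 ≤ N' + Λ^A`, and `v + 2 P(cn R v) ∈ R`. -/
def S_3aa : Prop := ∀ c : ℝ, 1 < c → ∃ C : ℕ, ∀ z : ℕ → ℕ, Lim z → ∀ (Ω : Type) [MeasurableSpace Ω] (P : Measure Ω)
  (a : ℕ → Ω → ℕ), Model P a → ∀ᵐ ω ∂P, ∀ F : Polynomial ℚ, (∀ m : ℤ, ∃ k : ℤ, F.eval (m : ℚ) = k) → 0 < F.leadingCoeff →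
    ∀ᶠ N : ℕ in atTop, ∃ v w : ℕ, v ∈ R0 z c (fun q => a q ω) ∧ w ∈ R0 z c (fun q => a q ω) ∧
      N < cn (R0 z c (fun q => a q ω)) v ∧ (cn (R0 z c (fun q => a q ω)) v : ℝ) ≤ N + Real.log N ^ C ∧
      (w : ℚ) = v + 2 * F.eval (cn (R0 z c (fun q => a q ω)) v : ℚ)

/-- GOLDBACH WITH A CONDITION ON THE INDEX: `2n = q + q'`, `q, q' ∈ R`, `q'` small, and the random prime `v` with index `q + 2` has `v + 2 ∈ R`. PROOF. `S_master` with `e = 2`, `D = 3`,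
`A0 = C0 + 1`, `A ≥ max A1 5`, `κ ≥ 3A + 6`, `ι = ℕ × ℕ`, `Y Λ x = {(N, d) : N ≤ x, x² ≤ N³, 2N ≤ x, d < Λ^(A+3), Even (N + d)}`, `G Λ x (N, d) = Icc (N - 1) (N + 3 Λ^A)`,
`Gr Λ x (N,d) b V J v := N + J - 1 ∈ V ∧ J ≤ d + 1 ∧ d + 1 - J ∈ R0 z c b` (`d + 1 - J ≤ Λ^(10A)`). For given large `n` put `Λ = 2⌊log n⌋ + 6`, `d = Λ^(A+2)`, `N = 2n - d` and
`x ∈ R` with `cn R x = N`. `Hex`: `v` from `S_sys` (1), `H = 2`; `j`: `S_sys` (3) with `T = N + d` (even), `u = N + j0 - 1`: `q ∈ R`, `u < q ≤ u + Λ^C0`, `T - q ∈ R`; `j = q + 1 - N`. `Suc`: with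
`q = N + J - 1 ∈ R`: `cn R v = N + J + 1 = q + 2`, `2n - q = d + 1 - J ∈ R`. -/
def S_0ec : Prop := ∀ c : ℝ, 1 < c → ∃ C : ℕ, ∀ z : ℕ → ℕ, Lim z → ∀ (Ω : Type) [MeasurableSpace Ω] (P : Measure Ω)
  (a : ℕ → Ω → ℕ), Model P a → ∀ᵐ ω ∂P, ∀ᶠ n : ℕ in atTop, ∃ q q' v : ℕ,
    q ∈ R0 z c (fun q => a q ω) ∧ q' ∈ R0 z c (fun q => a q ω) ∧ q + q' = 2 * n ∧ (q' : ℝ) ≤ Real.log n ^ C ∧
    v ∈ R0 z c (fun q => a q ω) ∧ v + 2 ∈ R0 z c (fun q => a q ω) ∧ cn (R0 z c (fun q => a q ω)) v = q + 2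

/-- the iterated random primes: `v ∈ It A (i+1)` iff `v ∈ A` and the index of `v` is in `It A i` -/
def It (A : Set ℕ) : ℕ → Set ℕ
  | 0 => A
  | i + 1 => {v | v ∈ A ∧ cn A v ∈ It A i}

/-- ITERATED RANDOM PRIMES IN SHORT WINDOWS, in Goldbach pairs. PROOF by induction on `i`. `i = 0`: `S_sys` (3) (`κ = C0 + 1`). Step `i → i + 1`, with `C_i, κ_i` from the induction: `S_master` with `e = 1`,
`A0 = max C0 C_i + 1`, `A ≥ max(A1, 5)`, `D` large (depending on `i`), `κ` large. `ι = ℕ × (Fin (i+1) → ℕ)` (or a list of natural numbers), `y = (T, (N_0, ..., N_i))` with `T ≤ exp Λ`, `N_k ≤ x`,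
`x² ≤ N_0³`, `N_k² ≤ N_{k+1}³`, `2 N_0 ≤ x`. `G = {T - v : v ∈ Ioc x (x + Λ^A), v ≤ T} ∪ ⋃_k Ioc N_k (N_k + 3 Λ^A)`. But `T - v` could lie in `(x, x + Λ^A]` or be small: treat only `y` with `T ≥ 4x`
or `T ≤ ...`: to avoid this, the statement below is made only for `T ≥ 3 x`. `Gr Λ x y b V J v := T - v ∈ V ∧ chk V (N_0, ..., N_i) (N_0 + J + 1)`, where `chk V` tests `j ∈ It R i` with the data in `V`:
`chk V (M :: []) j := j ∈ V`, `chk V (M :: M' :: rest) j := j ∈ V ∧ chk V (M' :: rest) (M' + #{u ∈ V : M < u ≤ j})`. If `M' = cn R M` etc. and `V` contains the same elements of the windows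
`(N_k, N_k + 3 Λ^A]` as `R`, then for `N_0 < j ≤ N_0 + 3 Λ^A`: `chk V (N_0, ..., N_i) j ↔ j ∈ It R i` (as `M' + #{u ∈ R : M < u ≤ j} = cn R j ≤ M' + 3 Λ^A`). `Hex` for the true `y` (`N_0 = cn R x`,
`N_{k+1} = cn R N_k`): `v` from `S_sys` (3); `j` from the induction hypothesis at `N_0 + j0` (with some even `T' ≥ 3 (N_0 + j0)`, `T' ≤ exp Λ`): `w ∈ It R i`, `N_0 + j0 < w ≤ N_0 + j0 + Λ^C_i`,
`j = w - N_0 - 1`. All `N_k ≥ x^((2/3)^(k+1)) ≥ x^(1/D)`, and `N_k + 3 Λ^A ≤ x`. The true `y` is in `Y Λ x` by `S_elem` (for all large arguments), and `N_0 ≥ Λ^κ_i`. -/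
def S_iter : Prop := ∀ c : ℝ, 1 < c → ∀ i : ℕ, ∃ C κ : ℕ, ∀ z : ℕ → ℕ, Lim z → ∀ (Ω : Type) [MeasurableSpace Ω] (P : Measure Ω)
  (a : ℕ → Ω → ℕ), Model P a → ∀ᵐ ω ∂P, ∀ᶠ Λ : ℕ in atTop, ∀ x : ℕ, Λ ^ κ ≤ x → (x : ℝ) ≤ Real.exp Λ →
    ∀ T : ℕ, 3 * x ≤ T → (T : ℝ) ≤ Real.exp (2 * Λ) → Even T →
      ∃ v ∈ It (R0 z c (fun q => a q ω)) i, x < v ∧ v ≤ x + Λ ^ C ∧ T - v ∈ R0 z c (fun q => a q ω)

/-- EVERY LARGE EVEN NUMBER IS `^a p_x + ^b p_y` (iterated random primes), with one summand at most a power of the logarithm. PROOF. For `a = 0` exchange the roles or use `S_iter` for `b` directly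
(`x = Λ^κ_b`, `T = 2n`). Let `a ≥ 1`. As in the step of `S_iter`: `S_master` with `e = 1`, `A0 = max(C0, C_b, C_(a-1)) + 1`, `A ≥ max(A1, κ_b + 3, 5)`; `y = (T, (N_0, ..., N_(a-1)))`,
`Gr Λ x y b' V J v := (v ≤ T ∧ T - v ≤ Λ^(9A) ∧ T - v ∈ It (R0 z c b') b) ∧ chk V (N_0, ..., N_(a-1)) (N_0 + J + 1)` (`It (R0 z c b') b` below `Λ^(9A)` depends only on the classes of the primes `≤ Λ^(10A)`).
For large `n`: `T = 2n`, `Λ = 2⌊log n⌋ + 6`, `x = 2n - Λ^(A+2)`. `Hex`: given `u, j0`: `x' = T - u - Λ^A0 - 1` (`≥ Λ^(A+2) - Λ^A - 1 ≥ Λ^κ_b`; `T ≥ 3 x'`): `S_iter` for `b` gives `v' ∈ It R b`, `x' < v' ≤ x' + Λ^C_b`,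
`T - v' ∈ R`; `v = T - v' ∈ (u, u + Λ^A0]` (adjust by one). `j` from `S_iter` for `a - 1`. `Suc`: `v ∈ R`, `cn R v = N_0 + J + 1 ∈ It R (a-1)`, so `v ∈ It R a`, `T - v ∈ It R b`, `T - v ≤ Λ^(A+2)`. -/
def S_778 : Prop := ∀ c : ℝ, 1 < c → ∀ i j : ℕ, ∃ C : ℕ, ∀ z : ℕ → ℕ, Lim z → ∀ (Ω : Type) [MeasurableSpace Ω] (P : Measure Ω)
  (a : ℕ → Ω → ℕ), Model P a → ∀ᵐ ω ∂P, ∀ᶠ n : ℕ in atTop, ∃ u v : ℕ,
    u ∈ It (R0 z c (fun q => a q ω)) i ∧ v ∈ It (R0 z c (fun q => a q ω)) j ∧ u + v = 2 * n ∧ (v : ℝ) ≤ Real.log n ^ C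

end Pool.Agent.H559.IX
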